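import Pool.Agent.CRM.Targets

/-!
# CRM: target BRG (independent events and the finite model)
-/

set_option autoImplicit false

open scoped BigOperators Classical
open Finset MeasureTheory ProbabilityTheory

namespace CRM

namespace BRG_

/-- the atom belonging to `T` -/
def atom {Ω : Type} (S : ℕ → Set Ω) (R T : Finset ℕ) : Set Ω :=
  {ω | R.filter (fun m => ω ∈ S m) = T}

theorem atom_eq {Ω : Type} (S : ℕ → Set Ω) (R T : Finset ℕ) (hT : T ⊆ R) :
    atom S R T = ⋂ m ∈ R, (if m ∈ T then S m else (S m)ᶜ) := by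
  ext ω
  simp only [atom, Set.mem_setOf_eq, Set.mem_iInter]
  constructor
  · intro h m hm
    by_cases hmT : m ∈ T
    · rw [if_pos hmT]
      rw [← h] at hmT
      exact (Finset.mem_filter.1 hmT).2
    · rw [if_neg hmT]
      intro hmS
      apply hmT
      rw [← h]
      exact Finset.mem_filter.2 ⟨hm, hmS⟩
  · intro h
    ext m
    rw [Finset.mem_filter]
    constructor
    · rintro ⟨hm, hmS⟩
      by_contra hmT
      have := h m hm
      rw [if_neg hmT] at this
      exact this hmS
    · intro hmT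
      have := h m (hT hmT)
      rw [if_pos hmT] at this
      exact ⟨hT hmT, this⟩

theorem meas_atom {Ω : Type} [MeasurableSpace Ω] (μ : Measure Ω) [IsProbabilityMeasure μ]
    (S : ℕ → Set Ω) (p : ℕ → ℝ) (hS : ∀ m, MeasurableSet (S m)) (hi : iIndepSet S μ)
    (hp : ∀ m, μ (S m) = ENNReal.ofReal (p m)) (h01 : ∀ m, 0 ≤ p m ∧ p m ≤ 1)
    (R T : Finset ℕ) (hT : T ⊆ R) :
    μ (atom S R T) = ENNReal.ofReal ((∏ m ∈ T, p m) * ∏ m ∈ R \ T, (1 - p m)) := by
  rw [atom_eq S R T hT]
  have h1 : μ (⋂ m ∈ R, (if m ∈ T then S m else (S m)ᶜ)) =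
      ∏ m ∈ R, μ (if m ∈ T then S m else (S m)ᶜ) := by
    refine (iIndepSet_iff S μ).1 hi R ?_
    intro m _
    have hm : MeasurableSet[MeasurableSpace.generateFrom {S m}] (S m) :=
      MeasurableSpace.measurableSet_generateFrom (Set.mem_singleton _)
    by_cases h : m ∈ T
    · simp only [h, if_true]
      exact hm
    · simp only [h, if_false]
      exact hm.compl
  rw [h1]
  have h2 : ∀ m, μ (if m ∈ T then S m else (S m)ᶜ) =
      ENNReal.ofReal (if m ∈ T then p m else 1 - p m) := by
    intro m
    by_cases h : m ∈ T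
    · rw [if_pos h, if_pos h, hp m]
    · rw [if_neg h, if_neg h, measure_compl (hS m) (measure_ne_top μ _), measure_univ, hp m,
        ENNReal.ofReal_sub _ (h01 m).1, ENNReal.ofReal_one]
  rw [Finset.prod_congr rfl fun m _ => h2 m, ← ENNReal.ofReal_prod_of_nonneg]
  · congr 1
    rw [← Finset.prod_sdiff hT, mul_comm]
    congr 1
    · exact Finset.prod_congr rfl fun m hm => if_pos hm
    · exact Finset.prod_congr rfl fun m hm => if_neg (Finset.mem_sdiff.1 hm).2
  · intro m _
    have := h01 m
    split_ifs <;> linarith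

end BRG_

theorem p_BRG : T_BRG := by
  intro Ω _ μ _ S p hS hi hp h01 R E
  have hev : {ω | E (R.filter (fun m => ω ∈ S m))} =
      ⋃ T ∈ R.powerset.filter E, BRG_.atom S R T := by
    ext ω
    simp only [Set.mem_setOf_eq, Set.mem_iUnion, Finset.mem_filter, Finset.mem_powerset,
      BRG_.atom, exists_prop]
    constructor
    · intro h
      exact ⟨_, ⟨Finset.filter_subset _ _, h⟩, rfl⟩
    · rintro ⟨T, ⟨_, hE⟩, hT⟩
      rw [hT]
      exact hE
  have hmeas : ∀ T ∈ R.powerset.filter E, MeasurableSet (BRG_.atom S R T) := by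
    intro T hT
    rw [BRG_.atom_eq S R T (Finset.mem_powerset.1 (Finset.mem_filter.1 hT).1)]
    refine Finset.measurableSet_biInter _ fun m _ => ?_
    split_ifs
    · exact hS m
    · exact (hS m).compl
  have hdisj : Set.PairwiseDisjoint (↑(R.powerset.filter E)) (BRG_.atom S R) := by
    intro T _ T' _ hne
    rw [Function.onFun, Set.disjoint_left]
    intro ω h1 h2
    exact hne (h1.symm.trans h2)
  rw [hev, measure_biUnion_finset hdisj hmeas]
  unfold Ex
  rw [ENNReal.ofReal_sum_of_nonneg]
  · rw [Finset.sum_filter]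
    refine Finset.sum_congr rfl fun T hT => ?_
    by_cases hE : E T
    · rw [if_pos hE, BRG_.meas_atom μ S p hS hi hp h01 R T (Finset.mem_powerset.1 hT)]
      simp [ind, hE]
    · rw [if_neg hE]
      simp [ind, hE]
  · intro T _
    refine mul_nonneg (mul_nonneg ?_ ?_) (ind_nonneg _)
    · exact Finset.prod_nonneg fun m _ => (h01 m).1
    · exact Finset.prod_nonneg fun m _ => by linarith [(h01 m).2]

end CRM
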