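import Pool.Agent.CRM.Targets

/-!
# CRM: many candidates (`T_CAND` from `T_CNT`, `T_EXC`, `T_RAT`)
-/

set_option autoImplicit false

open scoped BigOperators Classical
open Finset MeasureTheory ProbabilityTheory

namespace CRM

namespace CAND_

/-- the set of the good `k` -/
noncomputable def KK (W n : ℕ) : Finset ℕ :=
  (range (n - 2)).filter (fun k => Odd k ∧
    (∃ p ∈ win ((n : ℝ) ^ (0.59 : ℝ)) ((n : ℝ) ^ (0.99 : ℝ)), p ∣ k) ∧
    (∃ p ∈ win ((n : ℝ) ^ (0.59 : ℝ)) ((n : ℝ) ^ (0.99 : ℝ)), p ∣ n - k) ∧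
    2 * W ∣ Nat.totient k ∧ 2 * W ∣ Nat.totient (n - k))

theorem card_odd (m : ℕ) : ((range m).filter (fun k => Odd k)).card ≤ m / 2 := by
  have h : ((range m).filter (fun k => Odd k)).card ≤ (range (m / 2)).card := by
    apply Finset.card_le_card_of_injOn (fun k => k / 2)
    · intro k hk
      simp only [Finset.coe_filter, Finset.mem_range, Set.mem_setOf_eq] at hk
      obtain ⟨h1, j, hj⟩ := hk
      simp only [Finset.coe_range, Set.mem_Iio]
      omega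
    · intro x hx y hy hxy
      simp only [Finset.coe_filter, Finset.mem_range, Set.mem_setOf_eq] at hx hy
      obtain ⟨_, i, hi⟩ := hx
      obtain ⟨_, j, hj⟩ := hy
      simp only at hxy
      omega
  simpa using h

theorem card_KK {W n : ℕ} (hn : 3 ≤ n)
    (h1 : 0.254 * (n : ℝ) ≤ ((range (n - 2)).filter (fun k => Odd k ∧
      ∃ p ∈ win ((n : ℝ) ^ (0.59 : ℝ)) ((n : ℝ) ^ (0.99 : ℝ)), p ∣ k)).card)
    (h2 : 0.254 * (n : ℝ) ≤ ((range (n - 2)).filter (fun k => Odd k ∧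
      ∃ p ∈ win ((n : ℝ) ^ (0.59 : ℝ)) ((n : ℝ) ^ (0.99 : ℝ)), p ∣ n - k)).card)
    (h3 : (((Icc 1 n).filter (fun k => ¬ 2 * W ∣ Nat.totient k)).card : ℝ) ≤ 0.001 * n) :
    0.006 * (n : ℝ) ≤ (KK W n).card := by
  set A := (range (n - 2)).filter (fun k => Odd k ∧
      ∃ p ∈ win ((n : ℝ) ^ (0.59 : ℝ)) ((n : ℝ) ^ (0.99 : ℝ)), p ∣ k) with hA
  set B := (range (n - 2)).filter (fun k => Odd k ∧
      ∃ p ∈ win ((n : ℝ) ^ (0.59 : ℝ)) ((n : ℝ) ^ (0.99 : ℝ)), p ∣ n - k) with hB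
  set O := (range (n - 2)).filter (fun k => Odd k) with hO
  set E := (Icc 1 n).filter (fun k => ¬ 2 * W ∣ Nat.totient k) with hE
  have hAB : (A ∪ B).card ≤ O.card := by
    apply Finset.card_le_card
    intro k hk
    simp only [hA, hB, hO, Finset.mem_union, Finset.mem_filter] at hk ⊢
    tauto
  have hO2 : O.card ≤ (n - 2) / 2 := card_odd (n - 2)
  have hsum : (A ∪ B).card + (A ∩ B).card = A.card + B.card := Finset.card_union_add_card_inter A B
  -- exceptional sets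
  have hsub : A ∩ B ⊆ KK W n ∪ (E ∪ E.image (fun x => n - x)) := by
    intro k hk
    simp only [hA, hB, Finset.mem_inter, Finset.mem_filter, Finset.mem_range] at hk
    obtain ⟨⟨hk1, hk2, hk3⟩, ⟨_, _, hk4⟩⟩ := hk
    have hk0 : 0 < k := hk2.pos
    by_cases e1 : 2 * W ∣ Nat.totient k
    · by_cases e2 : 2 * W ∣ Nat.totient (n - k)
      · apply Finset.mem_union_left
        simp only [KK, Finset.mem_filter, Finset.mem_range]
        exact ⟨hk1, hk2, hk3, hk4, e1, e2⟩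
      · apply Finset.mem_union_right
        apply Finset.mem_union_right
        rw [Finset.mem_image]
        refine ⟨n - k, ?_, by omega⟩
        simp only [hE, Finset.mem_filter, Finset.mem_Icc]
        exact ⟨⟨by omega, by omega⟩, e2⟩
    · apply Finset.mem_union_right
      apply Finset.mem_union_left
      simp only [hE, Finset.mem_filter, Finset.mem_Icc]
      exact ⟨⟨by omega, by omega⟩, e1⟩
  have hc1 : (A ∩ B).card ≤ (KK W n).card + (E.card + E.card) := by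
    refine (Finset.card_le_card hsub).trans ?_
    refine (Finset.card_union_le _ _).trans ?_
    apply Nat.add_le_add_left
    refine (Finset.card_union_le _ _).trans ?_
    exact Nat.add_le_add_left Finset.card_image_le _
  have hc2 : A.card + B.card ≤ (n - 2) / 2 + ((KK W n).card + (E.card + E.card)) := by omega
  have hc3 : 2 * (A.card + B.card) ≤ n + 2 * ((KK W n).card + (E.card + E.card)) := by omega
  have hc4 : (2 : ℝ) * ((A.card : ℝ) + B.card) ≤ n + 2 * ((KK W n).card + ((E.card : ℝ) + E.card)) := by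
    exact_mod_cast hc3
  linarith

theorem win_spec {x y : ℝ} (hy : 0 ≤ y) {p : ℕ} (hp : p ∈ win x y) :
    p.Prime ∧ x < (p : ℝ) ∧ (p : ℝ) ≤ y := by
  simp only [win, Finset.mem_filter, Finset.mem_range] at hp
  refine ⟨hp.2.1, hp.2.2, ?_⟩
  have h1 : p ≤ ⌊y⌋₊ := by omega
  exact (Nat.cast_le.2 h1).trans (Nat.floor_le hy)

/-- data of a multiple of a large prime -/
theorem quot {n m p : ℕ} (hn : 1 ≤ n) (hm : 0 < m) (hmn : m ≤ n)
    (hp : p ∈ win ((n : ℝ) ^ (0.59 : ℝ)) ((n : ℝ) ^ (0.99 : ℝ))) (hd : p ∣ m) :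
    p.Prime ∧ (n : ℝ) ^ (0.59 : ℝ) < p ∧ m = (m / p) * p ∧ 0 < m / p ∧
      m / p ≤ ⌊(n : ℝ) ^ (0.41 : ℝ)⌋₊ ∧ Nat.totient m = Nat.totient (m / p) * (p - 1) := by
  have hn1 : (1 : ℝ) ≤ n := by exact_mod_cast hn
  have hn0 : (0 : ℝ) < n := by linarith
  obtain ⟨h1, h2, h3⟩ := win_spec (Real.rpow_nonneg hn0.le _) hp
  have hp0 : 0 < p := h1.pos
  have hp0' : (0 : ℝ) < p := by exact_mod_cast hp0
  have hmul : m / p * p = m := Nat.div_mul_cancel hd
  have hq0 : 0 < m / p := Nat.div_pos (Nat.le_of_dvd hm hd) hp0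
  have hle : ((m / p : ℕ) : ℝ) ≤ (n : ℝ) ^ (0.41 : ℝ) := by
    have e1 : ((m / p : ℕ) : ℝ) * p ≤ n := by
      have : ((m / p * p : ℕ) : ℝ) ≤ n := by rw [hmul]; exact_mod_cast hmn
      simpa using this
    have e2 : (n : ℝ) ^ (0.41 : ℝ) * (n : ℝ) ^ (0.59 : ℝ) = n := by
      rw [← Real.rpow_add hn0]
      norm_num
    have e3 : 0 < (n : ℝ) ^ (0.59 : ℝ) := Real.rpow_pos_of_pos hn0 _
    by_contra hcon
    push Not at hcon
    have e4 : (n : ℝ) ^ (0.41 : ℝ) * (n : ℝ) ^ (0.59 : ℝ) < ((m / p : ℕ) : ℝ) * p :=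
      mul_lt_mul'' hcon h2 (Real.rpow_nonneg hn0.le _) e3.le
    rw [e2] at e4
    linarith
  have hlt : m / p < p := by
    have e1 : (n : ℝ) ^ (0.41 : ℝ) ≤ (n : ℝ) ^ (0.59 : ℝ) :=
      Real.rpow_le_rpow_of_exponent_le hn1 (by norm_num)
    have e2 : ((m / p : ℕ) : ℝ) < p := by linarith
    exact_mod_cast e2
  have hcop : Nat.Coprime (m / p) p := by
    rw [Nat.coprime_comm]
    exact (Nat.Prime.coprime_iff_not_dvd h1).2 (fun h => by
      have := Nat.le_of_dvd hq0 h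
      omega)
  refine ⟨h1, h2, hmul.symm, hq0, Nat.le_floor hle, ?_⟩
  conv_lhs => rw [← hmul]
  rw [Nat.totient_mul hcop, Nat.totient_prime h1]

theorem inj (hRAT : T_RAT) {n a b p p' p1 p1' : ℕ} (ha : Odd a) (hb : 1 ≤ b)
    (hp : 1 ≤ p) (hp' : 1 ≤ p') (hp1 : 1 ≤ p1) (hp1' : 1 ≤ p1')
    (e1 : a * p + b * p' = n) (e2 : a * p1 + b * p1' = n)
    (e3 : 2 * (Nat.totient a * (p - 1)) + Nat.totient b * (p' - 1) =
      2 * (Nat.totient a * (p1 - 1)) + Nat.totient b * (p1' - 1)) : p = p1 := by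
  obtain ⟨x, rfl⟩ : ∃ x, p = x + 1 := ⟨p - 1, by omega⟩
  obtain ⟨y, rfl⟩ : ∃ x, p' = x + 1 := ⟨p' - 1, by omega⟩
  obtain ⟨z, rfl⟩ : ∃ x, p1 = x + 1 := ⟨p1 - 1, by omega⟩
  obtain ⟨w, rfl⟩ : ∃ x, p1' = x + 1 := ⟨p1' - 1, by omega⟩
  simp only [Nat.add_sub_cancel] at e3
  have f1 : (a : ℤ) * (x + 1) + b * (y + 1) = n := by exact_mod_cast e1
  have f2 : (a : ℤ) * (z + 1) + b * (w + 1) = n := by exact_mod_cast e2
  have f3 : 2 * ((Nat.totient a : ℤ) * x) + Nat.totient b * y =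
      2 * (Nat.totient a * z) + Nat.totient b * w := by exact_mod_cast e3
  have g1 : (a : ℤ) * (x - z) = b * (w - y) := by linarith
  have g2 : 2 * (Nat.totient a : ℤ) * (x - z) = Nat.totient b * (w - y) := by linarith
  have g3 : (2 * (b : ℤ) * Nat.totient a - a * Nat.totient b) * (x - z) = 0 := by
    have h1 : 2 * (b : ℤ) * Nat.totient a * (x - z) = b * (Nat.totient b * (w - y)) := by
      rw [← g2]; ring
    have h2 : (a : ℤ) * Nat.totient b * (x - z) = Nat.totient b * (b * (w - y)) := by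
      rw [← g1]; ring
    linear_combination h1 - h2
  rcases mul_eq_zero.1 g3 with h | h
  · exfalso
    apply hRAT a b ha hb
    have : 2 * (b : ℤ) * Nat.totient a = a * Nat.totient b := by linarith
    exact_mod_cast this
  · have : (x : ℤ) = z := by linarith
    have : x = z := by exact_mod_cast this
    rw [this]

end CAND_

open CAND_ in
theorem p_CAND (hCNT : T_CNT) (hEXC : T_EXC) (hRAT : T_RAT) : T_CAND := by
  intro W hW
  obtain ⟨n1, hn1⟩ := hCNT
  obtain ⟨n2, hn2⟩ := hEXC (2 * W) (by omega) 0.001 (by norm_num)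
  -- numerical limits
  have hl1 : ∀ᶠ n : ℕ in Filter.atTop, (667 : ℝ) ≤ (n : ℝ) ^ (1 / 75 : ℝ) :=
    ((tendsto_rpow_atTop (by norm_num : (0 : ℝ) < 1 / 75)).comp
      tendsto_natCast_atTop_atTop).eventually_ge_atTop 667
  have hl2 : ∀ᶠ n : ℕ in Filter.atTop, (2 : ℝ) ≤ (n : ℝ) ^ (0.09 : ℝ) :=
    ((tendsto_rpow_atTop (by norm_num : (0 : ℝ) < 0.09)).comp
      tendsto_natCast_atTop_atTop).eventually_ge_atTop 2
  obtain ⟨n3, hn3⟩ := Filter.eventually_atTop.1 (hl1.and hl2)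
  refine ⟨max (max n1 n2) (max n3 3), ?_⟩
  intro n hn
  have hna : n1 ≤ n := le_trans (le_trans (le_max_left _ _) (le_max_left _ _)) hn
  have hnb : n2 ≤ n := le_trans (le_trans (le_max_right _ _) (le_max_left _ _)) hn
  have hnc : n3 ≤ n := le_trans (le_trans (le_max_left _ _) (le_max_right _ _)) hn
  have hnd : 3 ≤ n := le_trans (le_trans (le_max_right _ _) (le_max_right _ _)) hn
  obtain ⟨hx1, hx2⟩ := hn3 n hnc
  have hr1 : (1 : ℝ) ≤ n := by exact_mod_cast (by omega : 1 ≤ n)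
  have hr0 : (0 : ℝ) < n := by linarith
  obtain ⟨hA, hB⟩ := hn1 n hna
  have hE := hn2 n hnb
  have hK := card_KK (W := W) hnd hA hB hE
  -- membership data
  have hdat : ∀ k ∈ KK W n, Odd k ∧ 0 < k ∧ k < n - 2 ∧
      (∃ p ∈ win ((n : ℝ) ^ (0.59 : ℝ)) ((n : ℝ) ^ (0.99 : ℝ)), p ∣ k) ∧
      (∃ p ∈ win ((n : ℝ) ^ (0.59 : ℝ)) ((n : ℝ) ^ (0.99 : ℝ)), p ∣ n - k) ∧
      2 * W ∣ Nat.totient k ∧ 2 * W ∣ Nat.totient (n - k) := by
    intro k hk
    simp only [KK, Finset.mem_filter, Finset.mem_range] at hk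
    exact ⟨hk.2.1, hk.2.1.pos, hk.1, hk.2.2⟩
  choose! P hP1 hP2 using fun k (hk : k ∈ KK W n) => (hdat k hk).2.2.2.1
  choose! Q hQ1 hQ2 using fun k (hk : k ∈ KK W n) => (hdat k hk).2.2.2.2.1
  set N : ℕ := ⌊(n : ℝ) ^ (0.41 : ℝ)⌋₊ with hN
  have qP : ∀ k ∈ KK W n, (P k).Prime ∧ (n : ℝ) ^ (0.59 : ℝ) < P k ∧ k = (k / P k) * P k ∧
      0 < k / P k ∧ k / P k ≤ N ∧ Nat.totient k = Nat.totient (k / P k) * (P k - 1) := by
    intro k hk
    have h := hdat k hk
    exact quot (by omega) h.2.1 (by omega) (hP1 k hk) (hP2 k hk)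
  have qQ : ∀ k ∈ KK W n, (Q k).Prime ∧ (n : ℝ) ^ (0.59 : ℝ) < Q k ∧
      n - k = ((n - k) / Q k) * Q k ∧ 0 < (n - k) / Q k ∧ (n - k) / Q k ≤ N ∧
      Nat.totient (n - k) = Nat.totient ((n - k) / Q k) * (Q k - 1) := by
    intro k hk
    have h := hdat k hk
    exact quot (by omega) (by omega) (by omega) (hQ1 k hk) (hQ2 k hk)
  set V : Finset ℕ := (KK W n).image (qq n) with hV
  refine ⟨V, ?_, ?_⟩
  · -- counting
    have hinj : (KK W n).card ≤ (V ×ˢ (range (N + 1) ×ˢ range (N + 1))).card := by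
      apply Finset.card_le_card_of_injOn (fun k => (qq n k, (k / P k, (n - k) / Q k)))
      · intro k hk
        have hk' : k ∈ KK W n := hk
        simp only [Finset.coe_product, Set.mem_prod, Finset.mem_coe, Finset.mem_range]
        refine ⟨Finset.mem_image_of_mem _ hk', ?_, ?_⟩
        · have := (qP k hk').2.2.2.2.1
          omega
        · have := (qQ k hk').2.2.2.2.1
          omega
      · intro k hk k' hk' heq
        have hk0 : k ∈ KK W n := hk
        have hk0' : k' ∈ KK W n := hk'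
        simp only [Prod.mk.injEq] at heq
        obtain ⟨g1, g2, g3⟩ := heq
        obtain ⟨a1, a2, a3, a4, a5, a6⟩ := qP k hk0
        obtain ⟨b1, b2, b3, b4, b5, b6⟩ := qQ k hk0
        obtain ⟨c1, c2, c3, c4, c5, c6⟩ := qP k' hk0'
        obtain ⟨d1, d2, d3, d4, d5, d6⟩ := qQ k' hk0'
        have h1 := hdat k hk0
        have h2 := hdat k' hk0'
        rw [← g2] at c3 c6
        rw [← g3] at d3 d6
        obtain ⟨t1, ht1⟩ := h1.2.2.2.2.2.2
        obtain ⟨t2, ht2⟩ := h2.2.2.2.2.2.2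
        have hq : 2 * Nat.totient k + Nat.totient (n - k) =
            2 * Nat.totient k' + Nat.totient (n - k') := by
          unfold qq at g1
          have s1 : Nat.totient (n - k) = 2 * (W * t1) := by rw [ht1]; ring
          have s2 : Nat.totient (n - k') = 2 * (W * t2) := by rw [ht2]; ring
          omega
        rw [a6, b6, c6, d6] at hq
        have hodd : Odd (k / P k) := by
          have := h1.1
          rw [a3, Nat.odd_mul] at this
          exact this.1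
        have e1 : (k / P k) * P k + ((n - k) / Q k) * Q k = n := by
          rw [← a3, ← b3]; omega
        have e2 : (k / P k) * P k' + ((n - k) / Q k) * Q k' = n := by
          rw [← c3, ← d3]; omega
        have e3 := inj hRAT hodd b4 a1.one_le b1.one_le c1.one_le d1.one_le e1 e2 hq
        rw [a3, c3, e3]
    rw [Finset.card_product, Finset.card_product, Finset.card_range] at hinj
    have hinj' : ((KK W n).card : ℝ) ≤ (V.card : ℝ) * (((N : ℝ) + 1) * ((N : ℝ) + 1)) := by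
      exact_mod_cast hinj
    have hNle : (N : ℝ) + 1 ≤ 2 * (n : ℝ) ^ (0.41 : ℝ) := by
      have s1 : (N : ℝ) ≤ (n : ℝ) ^ (0.41 : ℝ) := Nat.floor_le (Real.rpow_nonneg hr0.le _)
      have s2 : (1 : ℝ) ≤ (n : ℝ) ^ (0.41 : ℝ) := Real.one_le_rpow hr1 (by norm_num)
      linarith
    have hN0 : (0 : ℝ) ≤ (N : ℝ) + 1 := by positivity
    have hsq : ((N : ℝ) + 1) * ((N : ℝ) + 1) ≤ 4 * (n : ℝ) ^ (0.82 : ℝ) := by
      have s1 := mul_le_mul hNle hNle hN0 (by positivity)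
      have s2 : (2 * (n : ℝ) ^ (0.41 : ℝ)) * (2 * (n : ℝ) ^ (0.41 : ℝ)) =
          4 * (n : ℝ) ^ (0.82 : ℝ) := by
        have : (n : ℝ) ^ (0.82 : ℝ) = (n : ℝ) ^ (0.41 : ℝ) * (n : ℝ) ^ (0.41 : ℝ) := by
          rw [← Real.rpow_add hr0]; norm_num
        rw [this]; ring
      linarith
    have hVn : (0 : ℝ) ≤ V.card := Nat.cast_nonneg _
    have h5 : 0.006 * (n : ℝ) ≤ (V.card : ℝ) * (4 * (n : ℝ) ^ (0.82 : ℝ)) :=
      hK.trans (hinj'.trans (mul_le_mul_of_nonneg_left hsq hVn))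
    -- n = n^(1/6) n^(1/75) n^0.82
    have hsplit : (n : ℝ) = (n : ℝ) ^ (1 / 6 : ℝ) * (n : ℝ) ^ (1 / 75 : ℝ) * (n : ℝ) ^ (0.82 : ℝ) := by
      rw [← Real.rpow_add hr0, ← Real.rpow_add hr0]
      norm_num
    have hpos : 0 < (n : ℝ) ^ (0.82 : ℝ) := Real.rpow_pos_of_pos hr0 _
    have hpos6 : 0 < (n : ℝ) ^ (1 / 6 : ℝ) := Real.rpow_pos_of_pos hr0 _
    have h6 : 0.006 * ((n : ℝ) ^ (1 / 6 : ℝ) * (n : ℝ) ^ (1 / 75 : ℝ)) ≤ (V.card : ℝ) * 4 := by
      have s1 : 0.006 * ((n : ℝ) ^ (1 / 6 : ℝ) * (n : ℝ) ^ (1 / 75 : ℝ)) * (n : ℝ) ^ (0.82 : ℝ) ≤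
          (V.card : ℝ) * 4 * (n : ℝ) ^ (0.82 : ℝ) := by
        calc 0.006 * ((n : ℝ) ^ (1 / 6 : ℝ) * (n : ℝ) ^ (1 / 75 : ℝ)) * (n : ℝ) ^ (0.82 : ℝ)
            = 0.006 * ((n : ℝ) ^ (1 / 6 : ℝ) * (n : ℝ) ^ (1 / 75 : ℝ) * (n : ℝ) ^ (0.82 : ℝ)) := by
              ring
          _ = 0.006 * (n : ℝ) := by rw [← hsplit]
          _ ≤ (V.card : ℝ) * (4 * (n : ℝ) ^ (0.82 : ℝ)) := h5
          _ = (V.card : ℝ) * 4 * (n : ℝ) ^ (0.82 : ℝ) := by ring
      exact le_of_mul_le_mul_right s1 hpos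
    have h7 : 0.006 * ((n : ℝ) ^ (1 / 6 : ℝ) * 667) ≤
        0.006 * ((n : ℝ) ^ (1 / 6 : ℝ) * (n : ℝ) ^ (1 / 75 : ℝ)) := by
      apply mul_le_mul_of_nonneg_left _ (by norm_num)
      exact mul_le_mul_of_nonneg_left hx1 hpos6.le
    linarith
  · intro v hv
    rw [hV, Finset.mem_image] at hv
    obtain ⟨k, hk, rfl⟩ := hv
    have h := hdat k hk
    obtain ⟨a1, a2, a3, a4, a5, a6⟩ := qP k hk
    refine ⟨?_, ?_, ?_, k, h.2.1, h.2.2.1, rfl⟩
    · obtain ⟨s, hs⟩ := h.2.2.2.2.2.1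
      obtain ⟨t, ht⟩ := h.2.2.2.2.2.2
      have hh : qq n k = 1 + W * (2 * s + t) := by
        unfold qq
        have s2 : Nat.totient (n - k) = 2 * (W * t) := by rw [ht]; ring
        rw [hs, s2]
        have : 2 * (W * t) / 2 = W * t := by omega
        rw [this]; ring
      rw [hh]
      simp [Nat.ModEq]
    · have s1 : P k - 1 ≤ Nat.totient k := by
        rw [a6]
        have : 1 ≤ Nat.totient (k / P k) := Nat.totient_pos.2 a4
        exact Nat.le_mul_of_pos_left _ this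
      have s2 : P k ≤ qq n k := by
        unfold qq
        have := a1.one_le
        omega
      have s3 : (P k : ℝ) ≤ (qq n k : ℕ) := by exact_mod_cast s2
      have s4 : (n : ℝ) ^ (1 / 2 : ℝ) ≤ (n : ℝ) ^ (0.59 : ℝ) :=
        Real.rpow_le_rpow_of_exponent_le hr1 (by norm_num)
      linarith
    · unfold qq
      have s1 := Nat.totient_le k
      have s2 := Nat.totient_le (n - k)
      omega

end CRM
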