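import Pool.Agent.CRM.Targets

/-!
# CRM: the Chernoff bound
-/

set_option autoImplicit false

open scoped BigOperators Classical
open Finset MeasureTheory ProbabilityTheory

namespace CRM

theorem CHE_.mgf (p : ℕ → ℝ) (R : Finset ℕ) (hp : ∀ m ∈ R, 0 ≤ p m ∧ p m ≤ 1) (s : ℝ)
    (hs : |s| ≤ 1) :
    Ex p R (fun T => Real.exp (s * (T.card : ℝ))) ≤
      Real.exp ((s + s ^ 2) * ∑ m ∈ R, p m) := by
  have h1 : Ex p R (fun T => Real.exp (s * (T.card : ℝ))) =
      ∏ m ∈ R, (p m * Real.exp s + (1 - p m) * 1) := by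
    rw [← Ex_prod p R (fun _ => Real.exp s) (fun _ => 1)]
    refine Ex_congr fun T _ => ?_
    rw [Finset.prod_const, Finset.prod_const_one, mul_one, mul_comm, Real.exp_nat_mul]
  have h2 : Real.exp s - 1 ≤ s + s ^ 2 := by
    have := (abs_le.1 (Real.abs_exp_sub_one_sub_id_le hs)).2
    linarith
  have h3 : Real.exp ((s + s ^ 2) * ∑ m ∈ R, p m) = ∏ m ∈ R, Real.exp ((s + s ^ 2) * p m) := by
    rw [Finset.mul_sum, Real.exp_sum]
  rw [h1, h3]
  refine Finset.prod_le_prod (fun m hm => ?_) (fun m hm => ?_)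
  · have := hp m hm
    have h4 := Real.exp_pos s
    nlinarith [mul_nonneg this.1 h4.le]
  · have := hp m hm
    have h5 := Real.add_one_le_exp ((s + s ^ 2) * p m)
    nlinarith [mul_le_mul_of_nonneg_left h2 this.1]

theorem CHE_.main (p : ℕ → ℝ) (R : Finset ℕ) (hp : ∀ m ∈ R, 0 ≤ p m ∧ p m ≤ 1) (s c : ℝ)
    (hs : |s| ≤ 1) (E : Finset ℕ → Prop) (hE : ∀ T, E T → c ≤ s * (T.card : ℝ)) :
    Ex p R (fun T => ind (E T)) ≤ Real.exp ((s + s ^ 2) * ∑ m ∈ R, p m - c) := by
  have h1 : Ex p R (fun T => ind (E T)) ≤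
      Ex p R (fun T => Real.exp (-c) * Real.exp (s * (T.card : ℝ))) := by
    refine Ex_mono (fun m hm => (hp m hm).1) (fun m hm => (hp m hm).2) (fun T _ => ?_)
    unfold ind
    split_ifs with h
    · rw [← Real.exp_add]
      refine Real.one_le_exp ?_
      have := hE T h
      linarith
    · positivity
  have h2 := CHE_.mgf p R hp s hs
  rw [Ex_mul] at h1
  have h3 : Real.exp (-c) * Real.exp ((s + s ^ 2) * ∑ m ∈ R, p m) =
      Real.exp ((s + s ^ 2) * ∑ m ∈ R, p m - c) := by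
    rw [← Real.exp_add]
    congr 1
    ring
  rw [← h3]
  exact h1.trans (mul_le_mul_of_nonneg_left h2 (Real.exp_pos _).le)

theorem p_CHE : T_CHE := by
  intro p R hp t l ht0 ht1
  constructor
  · have h := CHE_.main p R hp t (t * (∑ m ∈ R, p m + l)) (abs_le.2 ⟨by linarith, ht1⟩)
      (fun T => ∑ m ∈ R, p m + l ≤ (T.card : ℝ))
      (fun T hT => mul_le_mul_of_nonneg_left hT ht0)
    refine h.trans (le_of_eq ?_)
    congr 1
    ring
  · have h := CHE_.main p R hp (-t) (-t * (∑ m ∈ R, p m - l))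
      (abs_le.2 ⟨by linarith, by linarith⟩)
      (fun T => (T.card : ℝ) ≤ ∑ m ∈ R, p m - l)
      (fun T hT => mul_le_mul_of_nonpos_left hT (by linarith))
    refine h.trans (le_of_eq ?_)
    congr 1
    ring

end CRM
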