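import Pool.Agent.CRM.Targets

/-!
# Project CRM: odd numbers with a large prime factor, both sides (CNT)
-/

set_option autoImplicit false

open scoped BigOperators Classical
open Finset MeasureTheory ProbabilityTheory

namespace CRM

/-- the number of `i` with `p (2 i + c) ≤ N` -/
theorem CNT_arith (p N c n : ℕ) (hp : 1 ≤ p) (hc : c ≤ 2) (hN : n ≤ N + 3) :
    (n : ℝ) * (1 / (p : ℝ)) / 2 - 2 - (1 / 2 : ℝ) ≤ (((N / p + 2 - c) / 2 : ℕ) : ℝ) := by
  have hp0 : (0 : ℝ) < p := by exact_mod_cast hp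
  have hp1 : (1 : ℝ) ≤ p := by exact_mod_cast hp
  have h1 : N < p * (N / p + 1) := Nat.lt_mul_div_succ N (by omega)
  have h1' : (N : ℝ) < p * ((N / p : ℕ) + 1) := by exact_mod_cast h1
  have h2 : N / p + 2 - c ≤ 2 * ((N / p + 2 - c) / 2) + 1 := by omega
  have h3 : N / p ≤ 2 * ((N / p + 2 - c) / 2) + 1 := by omega
  have h3' : ((N / p : ℕ) : ℝ) ≤ 2 * (((N / p + 2 - c) / 2 : ℕ) : ℝ) + 1 := by exact_mod_cast h3
  have h4 : (n : ℝ) ≤ N + 3 := by exact_mod_cast hN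
  have h5 : (n : ℝ) * (1 / (p : ℝ)) ≤ ((N / p : ℕ) : ℝ) + 1 + 3 := by
    rw [mul_one_div, div_le_iff₀ hp0]
    nlinarith
  linarith

/-- injection count -/
theorem CNT_card (p N c n : ℕ) (f : ℕ → ℕ) (hp : 1 ≤ p) (hc : 1 ≤ c ∧ c ≤ 2) (hN : n ≤ N + 3)
    (Q : Finset ℕ) (hinj : ∀ a b, a ≤ N → b ≤ N → f a = f b → a = b)
    (hQ : ∀ i, p * (2 * i + c) ≤ N → f (p * (2 * i + c)) ∈ Q) :
    (n : ℝ) * (1 / (p : ℝ)) / 2 - 3 ≤ (Q.card : ℝ) := by
  have h0 := CNT_arith p N c n hp hc.2 hN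
  have hb : ∀ i, i < (N / p + 2 - c) / 2 → p * (2 * i + c) ≤ N := by
    intro i hi
    have h1 : 2 * i + c ≤ N / p := by omega
    calc p * (2 * i + c) ≤ p * (N / p) := Nat.mul_le_mul_left p h1
      _ ≤ N := Nat.mul_div_le N p
  have h1 : ((range ((N / p + 2 - c) / 2)).image (fun i => f (p * (2 * i + c)))).card
      = (N / p + 2 - c) / 2 := by
    rw [Finset.card_image_of_injOn, Finset.card_range]
    intro i hi j hj hij
    simp only [Finset.coe_range, Set.mem_Iio] at hi hj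
    have h2 := hinj _ _ (hb i hi) (hb j hj) hij
    have h3 : 2 * i + c = 2 * j + c := Nat.eq_of_mul_eq_mul_left (by omega) h2
    omega
  have h2 : (range ((N / p + 2 - c) / 2)).image (fun i => f (p * (2 * i + c))) ⊆ Q := by
    intro k hk
    rw [Finset.mem_image] at hk
    obtain ⟨i, hi, rfl⟩ := hk
    rw [Finset.mem_range] at hi
    exact hQ i (hb i hi)
  have h3 := Finset.card_le_card h2
  rw [h1] at h3
  have h4 : (((N / p + 2 - c) / 2 : ℕ) : ℝ) ≤ (Q.card : ℝ) := by exact_mod_cast h3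
  linarith

theorem CNT_one (p n : ℕ) (hp : 3 ≤ p) (hodd : Odd p) (hn : 3 ≤ n) :
    (n : ℝ) * (1 / (p : ℝ)) / 2 - 3 ≤
      (((range (n - 2)).filter (fun k => Odd k ∧ p ∣ k)).card : ℝ) := by
  refine CNT_card p (n - 3) 1 n (fun k => k) (by omega) ⟨le_refl _, by norm_num⟩ (by omega) _
    (fun a b _ _ h => h) ?_
  intro i hi
  simp only [Finset.mem_filter, Finset.mem_range]
  refine ⟨by omega, ?_, Dvd.intro _ rfl⟩
  exact hodd.mul ⟨i, rfl⟩

theorem CNT_two (p n : ℕ) (hp : 3 ≤ p) (hodd : Odd p) (hn : 3 ≤ n) :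
    (n : ℝ) * (1 / (p : ℝ)) / 2 - 3 ≤
      (((range (n - 2)).filter (fun k => Odd k ∧ p ∣ n - k)).card : ℝ) := by
  rcases Nat.even_or_odd n with he | ho
  · refine CNT_card p (n - 1) 1 n (fun k => n - k) (by omega) ⟨le_refl _, by norm_num⟩ (by omega) _
      ?_ ?_
    · intro a b ha hb h
      omega
    · intro i hi
      simp only [Finset.mem_filter, Finset.mem_range]
      have h1 : Odd (p * (2 * i + 1)) := hodd.mul ⟨i, rfl⟩
      have h2 : 3 ≤ p * (2 * i + 1) := by nlinarith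
      refine ⟨by omega, ?_, ?_⟩
      · exact Nat.Even.sub_odd (by omega) he h1
      · have h3 : n - (n - p * (2 * i + 1)) = p * (2 * i + 1) := by omega
        rw [h3]
        exact Dvd.intro _ rfl
  · refine CNT_card p (n - 1) 2 n (fun k => n - k) (by omega) ⟨by norm_num, le_refl _⟩ (by omega) _
      ?_ ?_
    · intro a b ha hb h
      omega
    · intro i hi
      simp only [Finset.mem_filter, Finset.mem_range]
      have h1 : Even (p * (2 * i + 2)) := ⟨p * (i + 1), by ring⟩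
      have h2 : 3 ≤ p * (2 * i + 2) := by nlinarith
      refine ⟨by omega, ?_, ?_⟩
      · exact Nat.Odd.sub_even (by omega) ho h1
      · have h3 : n - (n - p * (2 * i + 2)) = p * (2 * i + 2) := by omega
        rw [h3]
        exact Dvd.intro _ rfl

/-- the union over the window is disjoint -/
theorem CNT_union (n : ℕ) (P : Finset ℕ) (f : ℕ → ℕ) (hP : ∀ p ∈ P, p.Prime)
    (hPP : ∀ p ∈ P, ∀ p' ∈ P, n < p * p') (hf : ∀ k ∈ range (n - 2), Odd k → 0 < f k ∧ f k ≤ n) :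
    ∑ p ∈ P, ((((range (n - 2)).filter (fun k => Odd k ∧ p ∣ f k)).card : ℕ) : ℝ) ≤
      (((range (n - 2)).filter (fun k => Odd k ∧ ∃ p ∈ P, p ∣ f k)).card : ℝ) := by
  have h1 : (range (n - 2)).filter (fun k => Odd k ∧ ∃ p ∈ P, p ∣ f k) =
      P.biUnion (fun p => (range (n - 2)).filter (fun k => Odd k ∧ p ∣ f k)) := by
    ext k
    simp only [Finset.mem_filter, Finset.mem_biUnion]
    constructor
    · rintro ⟨h1, h2, p, hp, h3⟩
      exact ⟨p, hp, h1, h2, h3⟩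
    · rintro ⟨p, hp, h1, h2, h3⟩
      exact ⟨h1, h2, p, hp, h3⟩
  rw [h1, Finset.card_biUnion]
  · push_cast
    exact le_refl _
  · intro p hp p' hp' hne
    refine Finset.disjoint_left.2 ?_
    intro k hk hk'
    rw [Finset.mem_filter] at hk hk'
    obtain ⟨h2, h3⟩ := hf k hk.1 hk.2.1
    have h4 : Nat.Coprime p p' := (Nat.coprime_primes (hP p hp) (hP p' hp')).2 hne
    have h5 : p * p' ∣ f k := h4.mul_dvd_of_dvd_of_dvd hk.2.2 hk'.2.2
    have h6 := Nat.le_of_dvd h2 h5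
    have h7 := hPP p hp p' hp'
    omega

theorem p_CNT (hWIN : T_WIN) : T_CNT := by
  obtain ⟨n1, hn1⟩ := hWIN
  have hT : Filter.Tendsto (fun n : ℕ => (n : ℝ) ^ (0.01 : ℝ)) Filter.atTop Filter.atTop :=
    (tendsto_rpow_atTop (by norm_num)).comp tendsto_natCast_atTop_atTop
  obtain ⟨n2, hn2⟩ := Filter.eventually_atTop.1 (hT.eventually_ge_atTop 6000)
  refine ⟨max n1 (max n2 20000), ?_⟩
  intro n hn
  have hn1' : n1 ≤ n := le_trans (le_max_left _ _) hn
  have hn2' : n2 ≤ n := le_trans (le_trans (le_max_left _ _) (le_max_right _ _)) hn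
  have hn3 : 20000 ≤ n := le_trans (le_trans (le_max_right _ _) (le_max_right _ _)) hn
  have hW := hn1 n hn1'
  have h6000 := hn2 n hn2'
  have hnR : (20000 : ℝ) ≤ n := by exact_mod_cast hn3
  have hnpos : (0 : ℝ) < n := by linarith
  have hn1R : (1 : ℝ) ≤ n := by linarith
  set P := win ((n : ℝ) ^ (0.59 : ℝ)) ((n : ℝ) ^ (0.99 : ℝ)) with hPdef
  have hprime : ∀ p ∈ P, p.Prime := by
    intro p hp
    rw [hPdef] at hp
    unfold win at hp
    rw [Finset.mem_filter] at hp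
    exact hp.2.1
  have hlow : ∀ p ∈ P, (n : ℝ) ^ (0.59 : ℝ) < p := by
    intro p hp
    rw [hPdef] at hp
    unfold win at hp
    rw [Finset.mem_filter] at hp
    exact hp.2.2
  have h59 : (3 : ℝ) ≤ (n : ℝ) ^ (0.59 : ℝ) := by
    have h1 : (n : ℝ) ^ (0.01 : ℝ) ≤ (n : ℝ) ^ (0.59 : ℝ) :=
      Real.rpow_le_rpow_of_exponent_le hn1R (by norm_num)
    linarith
  have hp3 : ∀ p ∈ P, 3 ≤ p ∧ Odd p := by
    intro p hp
    have h1 := hlow p hp
    have h2 : (3 : ℝ) < p := by linarith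
    have h3 : 3 < p := by exact_mod_cast h2
    exact ⟨h3.le, (hprime p hp).odd_of_ne_two (by omega)⟩
  have hPP : ∀ p ∈ P, ∀ p' ∈ P, n < p * p' := by
    intro p hp p' hp'
    have h1 := hlow p hp
    have h2 := hlow p' hp'
    have h3 : (n : ℝ) ≤ (n : ℝ) ^ (0.59 : ℝ) * (n : ℝ) ^ (0.59 : ℝ) := by
      rw [← Real.rpow_add hnpos]
      calc (n : ℝ) = (n : ℝ) ^ (1 : ℝ) := (Real.rpow_one _).symm
        _ ≤ _ := Real.rpow_le_rpow_of_exponent_le hn1R (by norm_num)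
    have h4 : (n : ℝ) ^ (0.59 : ℝ) * (n : ℝ) ^ (0.59 : ℝ) < (p : ℝ) * p' :=
      mul_lt_mul'' h1 h2 (by linarith) (by linarith)
    have h5 : (n : ℝ) < ((p * p' : ℕ) : ℝ) := by
      push_cast
      linarith
    exact_mod_cast h5
  have hcard : (P.card : ℝ) ≤ (n : ℝ) ^ (0.99 : ℝ) + 1 := by
    have h1 : P.card ≤ ⌊(n : ℝ) ^ (0.99 : ℝ)⌋₊ + 1 := by
      rw [hPdef]
      unfold win
      refine le_trans (Finset.card_filter_le _ _) ?_
      rw [Finset.card_range]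
    have h2 : (⌊(n : ℝ) ^ (0.99 : ℝ)⌋₊ : ℝ) ≤ (n : ℝ) ^ (0.99 : ℝ) :=
      Nat.floor_le (Real.rpow_nonneg hnpos.le _)
    have h3 : (P.card : ℝ) ≤ (⌊(n : ℝ) ^ (0.99 : ℝ)⌋₊ : ℝ) + 1 := by exact_mod_cast h1
    linarith
  have h99 : 6000 * (n : ℝ) ^ (0.99 : ℝ) ≤ n := by
    have h1 : (n : ℝ) ^ (0.01 : ℝ) * (n : ℝ) ^ (0.99 : ℝ) = n := by
      rw [← Real.rpow_add hnpos]
      norm_num
    have h2 : 0 ≤ (n : ℝ) ^ (0.99 : ℝ) := Real.rpow_nonneg hnpos.le _
    nlinarith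
  have hsum : ∀ F : ℕ → ℝ, (∀ p ∈ P, (n : ℝ) * (1 / (p : ℝ)) / 2 - 3 ≤ F p) →
      0.254 * (n : ℝ) ≤ ∑ p ∈ P, F p := by
    intro F hF
    have h1 : ∑ p ∈ P, ((n : ℝ) * (1 / (p : ℝ)) / 2 - 3) ≤ ∑ p ∈ P, F p :=
      Finset.sum_le_sum hF
    have h2 : ∑ p ∈ P, ((n : ℝ) * (1 / (p : ℝ)) / 2 - 3) =
        (n : ℝ) / 2 * (∑ p ∈ P, 1 / (p : ℝ)) - 3 * P.card := by
      rw [Finset.sum_sub_distrib, Finset.sum_const, nsmul_eq_mul, Finset.mul_sum]
      congr 1
      · refine Finset.sum_congr rfl fun p _ => ?_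
        ring
      · ring
    have h3 : (n : ℝ) / 2 * 0.51 ≤ (n : ℝ) / 2 * (∑ p ∈ P, 1 / (p : ℝ)) :=
      mul_le_mul_of_nonneg_left hW (by linarith)
    rw [h2] at h1
    nlinarith
  constructor
  · refine le_trans (hsum _ ?_) (CNT_union n P (fun k => k) hprime hPP ?_)
    · intro p hp
      exact CNT_one p n (hp3 p hp).1 (hp3 p hp).2 (by omega)
    · intro k hk ho
      rw [Finset.mem_range] at hk
      exact ⟨ho.pos, by omega⟩
  · refine le_trans (hsum _ ?_) (CNT_union n P (fun k => n - k) hprime hPP ?_)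
    · intro p hp
      exact CNT_two p n (hp3 p hp).1 (hp3 p hp).2 (by omega)
    · intro k hk ho
      rw [Finset.mem_range] at hk
      exact ⟨by omega, by omega⟩

end CRM
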