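import Pool.Agent.CRM.Targets

/-!
# CRM, COND: the conditioning argument
-/

set_option autoImplicit false

open scoped BigOperators Classical
open Finset MeasureTheory ProbabilityTheory

namespace CRM

namespace COND_

/-- the triple -/
def tr (v y : ℕ) : Finset ℕ := {v, y - v - 1, y - v + 1}

theorem bel_lt {U : Finset ℕ} {y y' : ℕ} (hy : y ∈ U) (h : y < y') : bel U y < bel U y' := by
  unfold bel
  apply Finset.card_lt_card
  rw [Finset.ssubset_iff_of_subset]
  · exact ⟨y, Finset.mem_filter.2 ⟨hy, h⟩, fun h2 => lt_irrefl _ (Finset.mem_filter.1 h2).2⟩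
  · intro z hz
    rw [Finset.mem_filter] at hz ⊢
    exact ⟨hz.1, hz.2.trans h⟩

/-- index set -/
noncomputable def KK (V : Finset ℕ) (W d : ℕ) (U : Finset ℕ) : Finset ℕ :=
  U.filter (fun y => d + bel U y + 1 ∈ V ∧ y ≡ 1 [MOD W])

/-- the function of the three parts -/
noncomputable def HH (V : Finset ℕ) (W g d : ℕ) (U A : Finset ℕ) : ℝ :=
  if (∀ v ∈ V, v ≤ d + U.card) ∧ SP g U then
    ind (∀ y ∈ KK V W d U, ¬ tr (d + bel U y + 1) y ⊆ A) else 0

theorem HH_nonneg (V : Finset ℕ) (W g d : ℕ) (U A : Finset ℕ) : 0 ≤ HH V W g d U A := by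
  unfold HH
  split_ifs
  · exact ind_nonneg _
  · exact le_rfl

section

variable {p : ℕ → ℝ} {W c0 M x x1 g : ℕ} {P ρ : ℝ} {V AB : Finset ℕ}

theorem sum_nonneg' (V : Finset ℕ) (W g x s' e : ℕ) (U A : Finset ℕ) :
    0 ≤ ∑ s ∈ range (s' + 1), (if e + s < x then HH V W g (e + s) U A else 0) := by
  refine Finset.sum_nonneg fun s _ => ?_
  split_ifs
  · exact HH_nonneg _ _ _ _ _ _
  · exact le_rfl

/-- pointwise inequality -/
theorem pointwise (hc : c0 ≤ M) (hAB : AB ⊆ range (c0 + 1))
    (hV : ∀ v ∈ V, 1 ≤ v ∧ x ≤ v ∧ v ≤ x1 ∧ v ∈ AB)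
    (hz : ∀ v ∈ V, ∀ z ∈ Ioc c0 M, v + 2 ≤ z)
    (T : Finset ℕ) (hT : T ⊆ range (M + 1)) :
    ind (∀ v ∈ V, ¬ Succ T v) ≤
      ind (x ≤ (T ∩ range (c0 + 1)).card) + ind (T.card < x1) + ind (¬ SP g (T ∩ Ioc c0 M)) +
      ∑ s ∈ range (AB.card + 1), (if (T ∩ (range (c0 + 1) \ AB)).card + s < x then
        HH V W g ((T ∩ (range (c0 + 1) \ AB)).card + s) (T ∩ Ioc c0 M) (T ∩ AB) else 0) := by
  have hsum := sum_nonneg' V W g x AB.card (T ∩ (range (c0 + 1) \ AB)).card (T ∩ Ioc c0 M) (T ∩ AB)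
  have i1 := ind_nonneg (x ≤ (T ∩ range (c0 + 1)).card)
  have i2 := ind_nonneg (T.card < x1)
  have i3 := ind_nonneg (¬ SP g (T ∩ Ioc c0 M))
  have i0 := ind_le_one (∀ v ∈ V, ¬ Succ T v)
  by_cases h0 : ∀ v ∈ V, ¬ Succ T v
  swap
  · have : ind (∀ v ∈ V, ¬ Succ T v) = 0 := by unfold ind; simp only [h0, if_false]
    rw [this]
    linarith
  by_cases h1 : x ≤ (T ∩ range (c0 + 1)).card
  · have : ind (x ≤ (T ∩ range (c0 + 1)).card) = 1 := by unfold ind; simp only [h1, if_true]
    rw [this]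
    linarith
  by_cases h2 : T.card < x1
  · have : ind (T.card < x1) = 1 := by unfold ind; simp only [h2, if_true]
    rw [this]
    linarith
  by_cases h3 : SP g (T ∩ Ioc c0 M)
  swap
  · have : ind (¬ SP g (T ∩ Ioc c0 M)) = 1 := by
      unfold ind; simp only [h3, not_false_eq_true, if_true]
    rw [this]
    linarith
  -- the main case
  set D := range (c0 + 1) \ AB with hD
  set C := Ioc c0 M with hC
  have hcard1 : (T ∩ range (c0 + 1)).card = (T ∩ D).card + (T ∩ AB).card := by
    rw [← Finset.card_union_of_disjoint]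
    · congr 1
      ext m
      simp only [hD, Finset.mem_inter, Finset.mem_union, Finset.mem_sdiff]
      constructor
      · rintro ⟨a1, a2⟩
        by_cases a3 : m ∈ AB
        · exact Or.inr ⟨a1, a3⟩
        · exact Or.inl ⟨a1, a2, a3⟩
      · rintro (⟨a1, a2, a3⟩ | ⟨a1, a2⟩)
        · exact ⟨a1, a2⟩
        · exact ⟨a1, hAB a2⟩
    · rw [Finset.disjoint_left]
      intro m hm hm'
      rw [Finset.mem_inter] at hm hm'
      exact (Finset.mem_sdiff.1 hm.2).2 hm'.2
  have hcard2 : T.card = (T ∩ range (c0 + 1)).card + (T ∩ C).card := by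
    rw [← Finset.card_union_of_disjoint]
    · congr 1
      ext m
      simp only [hC, Finset.mem_inter, Finset.mem_union, Finset.mem_range, Finset.mem_Ioc]
      constructor
      · intro a1
        have := Finset.mem_range.1 (hT a1)
        by_cases a3 : m < c0 + 1
        · exact Or.inl ⟨a1, a3⟩
        · exact Or.inr ⟨a1, by omega, by omega⟩
      · rintro (⟨a1, a2⟩ | ⟨a1, a2⟩)
        · exact a1
        · exact a1
    · rw [Finset.disjoint_left]
      intro m hm hm'
      rw [Finset.mem_inter] at hm hm'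
      have b1 := Finset.mem_range.1 hm.2
      have b2 := Finset.mem_Ioc.1 hm'.2
      omega
  have hd : (T ∩ D).card + (T ∩ AB).card < x := by omega
  have hs : (T ∩ AB).card ∈ range (AB.card + 1) := by
    rw [Finset.mem_range]
    have := Finset.card_le_card (Finset.inter_subset_right : T ∩ AB ⊆ AB)
    omega
  have hterm : (1 : ℝ) ≤ ∑ s ∈ range (AB.card + 1), (if (T ∩ D).card + s < x then
        HH V W g ((T ∩ D).card + s) (T ∩ C) (T ∩ AB) else 0) := by
    refine le_trans ?_ (Finset.single_le_sum (f := fun s => (if (T ∩ D).card + s < x then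
        HH V W g ((T ∩ D).card + s) (T ∩ C) (T ∩ AB) else 0)) (fun s _ => ?_) hs)
    · simp only [hd, if_true]
      have hval : HH V W g ((T ∩ D).card + (T ∩ AB).card) (T ∩ C) (T ∩ AB) = 1 := by
        unfold HH
        have c1 : ∀ v ∈ V, v ≤ (T ∩ D).card + (T ∩ AB).card + (T ∩ C).card := by
          intro v hv
          have := (hV v hv).2.2.1
          omega
        rw [if_pos ⟨c1, h3⟩]
        unfold ind
        rw [if_pos]
        intro y hy hsub
        unfold KK at hy
        rw [Finset.mem_filter] at hy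
        obtain ⟨hyC, hv, hmod⟩ := hy
        set v := (T ∩ D).card + (T ∩ AB).card + bel (T ∩ C) y + 1 with hvdef
        have hyT := (Finset.mem_inter.1 hyC).1
        have hyC' := (Finset.mem_inter.1 hyC).2
        have hbel : bel T y = (T ∩ D).card + (T ∩ AB).card + bel (T ∩ C) y := by
          rw [← hcard1]
          unfold bel
          rw [← Finset.card_union_of_disjoint]
          · congr 1
            ext m
            simp only [hC, Finset.mem_inter, Finset.mem_union, Finset.mem_range, Finset.mem_Ioc,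
              Finset.mem_filter] at hyC' ⊢
            constructor
            · rintro ⟨a1, a2⟩
              have := Finset.mem_range.1 (hT a1)
              by_cases a3 : m < c0 + 1
              · exact Or.inl ⟨a1, a3⟩
              · exact Or.inr ⟨⟨a1, by omega, by omega⟩, a2⟩
            · rintro (⟨a1, a2⟩ | ⟨⟨a1, a2⟩, a3⟩)
              · exact ⟨a1, by omega⟩
              · exact ⟨a1, a3⟩
          · rw [Finset.disjoint_left]
            intro m hm hm'
            rw [Finset.mem_inter] at hm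
            rw [Finset.mem_filter, Finset.mem_inter] at hm'
            have b1 := Finset.mem_range.1 hm.2
            have b2 := Finset.mem_Ioc.1 hm'.1.2
            omega
        apply h0 v hv
        have hA : T ∩ AB ⊆ T := Finset.inter_subset_left
        refine ⟨y, hyT, by omega, hz v hv y hyC', ?_, ?_, ?_⟩
        · exact hA (hsub (by unfold tr; simp))
        · exact hA (hsub (by unfold tr; simp))
        · exact hA (hsub (by unfold tr; simp))
      rw [hval]
    · split_ifs
      · exact HH_nonneg _ _ _ _ _ _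
      · exact le_rfl
  linarith

/-- one value of `s` and of the part in `D` -/
theorem inner (hTRI : T_TRI) (hMRK : T_MRK)
    (hp : ∀ m ∈ range (M + 1), 0 ≤ p m ∧ p m ≤ 1) (hW : 1 ≤ W) (hρ0 : 0 ≤ ρ) (hc : c0 ≤ M)
    (hρ1 : ρ ≤ 1) (hP : ∀ m ∈ Ioc c0 M, p m ≤ P)
    (hP2 : ∀ m ∈ Ioc c0 M, m ≡ 1 [MOD W] → P ≤ 2 * p m) (hPW : 2 * P * W ≤ 1)
    (hAB : AB ⊆ range (c0 + 1)) (hV : ∀ v ∈ V, 1 ≤ v ∧ x ≤ v ∧ v ≤ x1 ∧ v ∈ AB)
    (hgap : ∀ v ∈ V, ∀ v' ∈ V, v < v' → v + g ≤ v')
    (hz : ∀ v ∈ V, ∀ z ∈ Ioc c0 M, v + 2 ≤ z ∧ z - v - 1 ∈ AB ∧ z - v + 1 ∈ AB ∧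
      (z ≡ 1 [MOD W] → ρ ≤ p v * (p (z - v - 1) * p (z - v + 1))))
    (hne : ∀ v ∈ V, ∀ v' ∈ V, ∀ z ∈ Ioc c0 M, v ≠ z - v' - 1 ∧ v ≠ z - v' + 1)
    (d : ℕ) (hd : d < x) :
    Ex p (Ioc c0 M) (fun U => Ex p AB (fun A => HH V W g d U A)) ≤ (1 - ρ / (4 * W)) ^ V.card := by
  set J : Finset ℕ := V.image (fun v => v - 1 - d) with hJ
  have hJc : J.card = V.card := by
    rw [hJ, Finset.card_image_of_injOn]
    intro v hv v' hv' h
    have h1 := (hV v hv).2.1
    have h2 := (hV v' hv').2.1
    simp only at h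
    omega
  have hmemJ : ∀ i : ℕ, i ∈ J ↔ d + i + 1 ∈ V := by
    intro i
    rw [hJ, Finset.mem_image]
    constructor
    · rintro ⟨v, hv, rfl⟩
      have h1 := (hV v hv).2.1
      have : d + (v - 1 - d) + 1 = v := by omega
      rw [this]
      exact hv
    · intro h
      exact ⟨_, h, by omega⟩
  have hpC : ∀ m ∈ Ioc c0 M, 0 ≤ p m ∧ p m ≤ 1 := by
    intro m hm
    rw [Finset.mem_Ioc] at hm
    exact hp m (Finset.mem_range.2 (by omega))
  have hpAB : ∀ m ∈ AB, 0 ≤ p m ∧ p m ≤ 1 := by
    intro m hm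
    have := Finset.mem_range.1 (hAB hm)
    exact hp m (Finset.mem_range.2 (by omega))
  have hmrk := hMRK p c0 M W J P ρ hW hρ0 hρ1 (fun m hm => ⟨(hpC m hm).1, hP m hm⟩) hP2 hPW
  rw [hJc] at hmrk
  refine le_trans (Ex_mono (fun m hm => (hpC m hm).1) (fun m hm => (hpC m hm).2) ?_) hmrk
  intro U hU
  have hfac : ∀ y ∈ U, (0 : ℝ) ≤ (if bel U y ∈ J ∧ y ≡ 1 [MOD W] then 1 - ρ else 1) := by
    intro y _
    split_ifs
    · linarith
    · norm_num
  by_cases hcase : (∀ v ∈ V, v ≤ d + U.card) ∧ SP g U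
  swap
  · have : (fun A => HH V W g d U A) = fun _ => (0 : ℝ) := by
      funext A
      unfold HH
      rw [if_neg hcase]
    rw [this, Ex_const]
    split_ifs
    · exact Finset.prod_nonneg hfac
    · exact le_rfl
  have hfun : (fun A => HH V W g d U A) =
      fun A => ind (∀ y ∈ KK V W d U, ¬ tr (d + bel U y + 1) y ⊆ A) := by
    funext A
    unfold HH
    rw [if_pos hcase]
  rw [hfun]
  obtain ⟨hcase1, hSP⟩ := hcase
  have hcond : ∀ j ∈ J, j < U.card := by
    intro j hj
    have h1 := hcase1 _ ((hmemJ j).1 hj)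
    omega
  rw [if_pos hcond]
  have hprod : ∏ y ∈ U, (if bel U y ∈ J ∧ y ≡ 1 [MOD W] then 1 - ρ else 1) =
      (1 - ρ) ^ (KK V W d U).card := by
    rw [Finset.prod_ite, Finset.prod_const_one, mul_one, Finset.prod_const]
    congr 2
    unfold KK
    refine Finset.filter_congr fun y _ => ?_
    rw [hmemJ]
  rw [hprod]
  have hmem : ∀ y ∈ KK V W d U, y ∈ U ∧ y ∈ Ioc c0 M ∧ d + bel U y + 1 ∈ V ∧ y ≡ 1 [MOD W] := by
    intro y hy
    unfold KK at hy
    rw [Finset.mem_filter] at hy
    exact ⟨hy.1, hU hy.1, hy.2.1, hy.2.2⟩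
  have hdis : ∀ y ∈ KK V W d U, ∀ y' ∈ KK V W d U, y < y' →
      Disjoint (tr (d + bel U y + 1) y) (tr (d + bel U y' + 1) y') := by
    intro y hy y' hy' hlt
    obtain ⟨a1, a2, a3, a4⟩ := hmem y hy
    obtain ⟨b1, b2, b3, b4⟩ := hmem y' hy'
    have c1 := bel_lt a1 hlt
    have c2 := hgap _ a3 _ b3 (by omega)
    have c3 := hSP y a1 y' b1 hlt (by omega)
    have c4 := (hz _ a3 y a2).1
    have c5 := (hz _ b3 y' b2).1
    have c6 := hne _ a3 _ b3 y' b2
    have c7 := hne _ b3 _ a3 y a2
    set v := d + bel U y + 1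
    set v' := d + bel U y' + 1
    rw [Finset.disjoint_left]
    intro m hm hm'
    unfold tr at hm hm'
    simp only [Finset.mem_insert, Finset.mem_singleton] at hm hm'
    obtain ⟨c6a, c6b⟩ := c6
    obtain ⟨c7a, c7b⟩ := c7
    rcases hm with rfl | rfl | rfl <;> rcases hm' with h | h | h <;> omega
  refine hTRI p AB ρ (KK V W d U) (fun y => tr (d + bel U y + 1) y) hpAB hρ0 hρ1 ?_ ?_ ?_
  · intro y hy
    obtain ⟨a1, a2, a3, a4⟩ := hmem y hy
    obtain ⟨e1, e2, e3, e4⟩ := hz _ a3 y a2
    intro m hm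
    unfold tr at hm
    simp only [Finset.mem_insert, Finset.mem_singleton] at hm
    rcases hm with rfl | rfl | rfl
    · exact (hV _ a3).2.2.2
    · exact e2
    · exact e3
  · intro y hy
    obtain ⟨a1, a2, a3, a4⟩ := hmem y hy
    obtain ⟨e1, e2, e3, e4⟩ := hz _ a3 y a2
    have e5 := hne _ a3 _ a3 y a2
    have e6 := e4 a4
    unfold tr
    rw [Finset.prod_insert, Finset.prod_insert, Finset.prod_singleton]
    · exact e6
    · rw [Finset.mem_singleton]
      omega
    · simp only [Finset.mem_insert, Finset.mem_singleton, not_or]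
      exact e5
  · intro y hy y' hy' hne'
    rcases lt_or_gt_of_ne hne' with h | h
    · exact hdis y hy y' hy' h
    · exact (hdis y' hy' y hy h).symm

end

end COND_

open COND_

/-- COND -/
theorem p_COND (hTRI : T_TRI) (hMRK : T_MRK) : T_COND := by
  intro p W c0 M x x1 g P ρ V AB hp hW hc hρ0 hρ1 hP hP2 hPW hAB hV hgap hz hne
  have hp0 : ∀ m ∈ range (M + 1), 0 ≤ p m := fun m hm => (hp m hm).1
  have hp1 : ∀ m ∈ range (M + 1), p m ≤ 1 := fun m hm => (hp m hm).2
  have hsubC : Ioc c0 M ⊆ range (M + 1) := by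
    intro m hm
    rw [Finset.mem_Ioc] at hm
    exact Finset.mem_range.2 (by omega)
  have hsubL : range (c0 + 1) ⊆ range (M + 1) := by
    intro m hm
    rw [Finset.mem_range] at hm ⊢
    omega
  have h1 := Ex_mono hp0 hp1 (fun T hT => pointwise (W := W) (g := g) hc hAB hV
    (fun v hv z hz' => (hz v hv z hz').1) T hT)
  refine h1.trans ?_
  rw [Ex_add, Ex_add, Ex_add, Ex_sum]
  have e1 := Ex_inter p (range (M + 1)) (range (c0 + 1)) hsubL (fun T => ind (x ≤ T.card))
  have e2 := Ex_inter p (range (M + 1)) (Ioc c0 M) hsubC (fun T => ind (¬ SP g T))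
  rw [e1, e2]
  have e3 : ∑ s ∈ range (AB.card + 1), Ex p (range (M + 1)) (fun T =>
      (if (T ∩ (range (c0 + 1) \ AB)).card + s < x then
        HH V W g ((T ∩ (range (c0 + 1) \ AB)).card + s) (T ∩ Ioc c0 M) (T ∩ AB) else 0)) ≤
      (AB.card + 1) * (1 - ρ / (4 * W)) ^ V.card := by
    have e4 : ∀ s ∈ range (AB.card + 1), Ex p (range (M + 1)) (fun T =>
      (if (T ∩ (range (c0 + 1) \ AB)).card + s < x then
        HH V W g ((T ∩ (range (c0 + 1) \ AB)).card + s) (T ∩ Ioc c0 M) (T ∩ AB) else 0)) ≤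
        (1 - ρ / (4 * W)) ^ V.card := by
      intro s _
      have hdec : range (M + 1) = (range (c0 + 1) \ AB) ∪ (Ioc c0 M ∪ AB) := by
        ext m
        simp only [Finset.mem_range, Finset.mem_union, Finset.mem_sdiff, Finset.mem_Ioc]
        constructor
        · intro h
          by_cases h2 : m ∈ AB
          · exact Or.inr (Or.inr h2)
          · by_cases h3 : m < c0 + 1
            · exact Or.inl ⟨h3, h2⟩
            · exact Or.inr (Or.inl ⟨by omega, by omega⟩)
        · rintro (⟨h2, _⟩ | ⟨h2, h3⟩ | h2)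
          · omega
          · omega
          · have := Finset.mem_range.1 (hAB h2)
            omega
      have hdis2 : Disjoint (Ioc c0 M) AB := by
        rw [Finset.disjoint_left]
        intro m hm hm'
        have b1 := Finset.mem_range.1 (hAB hm')
        have b2 := Finset.mem_Ioc.1 hm
        omega
      have hdis1 : Disjoint (range (c0 + 1) \ AB) (Ioc c0 M ∪ AB) := by
        rw [Finset.disjoint_left]
        intro m hm hm'
        rw [Finset.mem_sdiff, Finset.mem_range] at hm
        rw [Finset.mem_union, Finset.mem_Ioc] at hm'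
        rcases hm' with h | h
        · omega
        · exact hm.2 h
      rw [hdec, Ex_union p _ _ hdis1]
      have hθ0 : (0 : ℝ) ≤ (1 - ρ / (4 * W)) ^ V.card := by
        apply pow_nonneg
        have hW' : (1 : ℝ) ≤ W := by exact_mod_cast hW
        have : ρ / (4 * W) ≤ 1 := by
          rw [div_le_one (by positivity)]
          linarith
        linarith
      have hD0 : ∀ m ∈ range (c0 + 1) \ AB, 0 ≤ p m ∧ p m ≤ 1 := fun m hm =>
        hp m (hsubL (Finset.mem_sdiff.1 hm).1)
      refine le_trans (Ex_mono (g := fun _ => (1 - ρ / (4 * W)) ^ V.card)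
        (fun m hm => (hD0 m hm).1) (fun m hm => (hD0 m hm).2) ?_) (by rw [Ex_const])
      intro T1 hT1
      rw [Ex_union p _ _ hdis2]
      have hrew : ∀ T2, T2 ⊆ Ioc c0 M → ∀ T3, T3 ⊆ AB →
          (T1 ∪ (T2 ∪ T3)) ∩ (range (c0 + 1) \ AB) = T1 ∧
          (T1 ∪ (T2 ∪ T3)) ∩ Ioc c0 M = T2 ∧ (T1 ∪ (T2 ∪ T3)) ∩ AB = T3 := by
        intro T2 hT2 T3 hT3
        have f1 : ∀ m ∈ T1, m < c0 + 1 ∧ m ∉ AB := fun m hm => by
          have := Finset.mem_sdiff.1 (hT1 hm)
          exact ⟨Finset.mem_range.1 this.1, this.2⟩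
        have f2 : ∀ m ∈ T2, c0 < m ∧ m ≤ M := fun m hm => Finset.mem_Ioc.1 (hT2 hm)
        have f3 : ∀ m ∈ T3, m ∈ AB ∧ m < c0 + 1 := fun m hm =>
          ⟨hT3 hm, Finset.mem_range.1 (hAB (hT3 hm))⟩
        refine ⟨?_, ?_, ?_⟩
        · ext m
          simp only [Finset.mem_inter, Finset.mem_union, Finset.mem_sdiff, Finset.mem_range]
          constructor
          · rintro ⟨h | h | h, h2, h3⟩
            · exact h
            · have := f2 m h
              omega
            · exact absurd (f3 m h).1 h3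
          · intro h
            exact ⟨Or.inl h, f1 m h⟩
        · ext m
          simp only [Finset.mem_inter, Finset.mem_union, Finset.mem_Ioc]
          constructor
          · rintro ⟨h | h | h, h2, h3⟩
            · have := f1 m h
              omega
            · exact h
            · have := f3 m h
              omega
          · intro h
            exact ⟨Or.inr (Or.inl h), f2 m h⟩
        · ext m
          simp only [Finset.mem_inter, Finset.mem_union]
          constructor
          · rintro ⟨h | h | h, h2⟩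
            · exact absurd h2 (f1 m h).2
            · have b1 := Finset.mem_range.1 (hAB h2)
              have b2 := f2 m h
              omega
            · exact h
          · intro h
            exact ⟨Or.inr (Or.inr h), hT3 h⟩
      by_cases hd : T1.card + s < x
      · have hin := inner hTRI hMRK hp hW hρ0 hc hρ1 hP hP2 hPW hAB hV hgap hz hne
          (T1.card + s) hd
        refine le_trans (le_of_eq ?_) hin
        refine Ex_congr fun T2 hT2 => ?_
        refine Ex_congr fun T3 hT3 => ?_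
        obtain ⟨r1, r2, r3⟩ := hrew T2 hT2 T3 hT3
        rw [r1, r2, r3, if_pos hd]
      · refine le_trans (le_of_eq ?_) hθ0
        refine Eq.trans (Ex_congr (g := fun _ => (0 : ℝ)) fun T2 hT2 => ?_) (Ex_const _ _ _)
        refine Eq.trans (Ex_congr (g := fun _ => (0 : ℝ)) fun T3 hT3 => ?_) (Ex_const _ _ _)
        obtain ⟨r1, r2, r3⟩ := hrew T2 hT2 T3 hT3
        rw [r1, if_neg hd]
    refine (Finset.sum_le_sum e4).trans ?_
    rw [Finset.sum_const, Finset.card_range, nsmul_eq_mul]
    push_cast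
    exact le_rfl
  linarith

end CRM
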