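import Mathlib

/-!
# Cramér's random model of the primes: definitions
-/

set_option autoImplicit false

open MeasureTheory ProbabilityTheory Set

namespace Pool.Agent.CRM

/-- Cramér's model: a random set of natural numbers, `X n` is the event that `n` belongs to the
set. These events are independent, and `X n` has probability `1 / log n` for `n ≥ 3`. -/
structure Cramer {Ω : Type} [MeasurableSpace Ω] (μ : Measure Ω) (X : ℕ → Set Ω) : Prop where
  meas : ∀ n, MeasurableSet (X n)
  indep : iIndepSet X μ
  prob : ∀ n, 3 ≤ n → μ (X n) = ENNReal.ofReal (1 / Real.log n)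

/-- A random model of the primes: a random set of natural numbers, `X n` is the event that `n`
belongs to the set. These events are independent, their probabilities `p n` tend to `0`, and the
sum of `p n` over `n ≤ N` is at most `(1 + o(1)) N / log N`. -/
structure PrimeModel {Ω : Type} [MeasurableSpace Ω] (μ : Measure Ω) (X : ℕ → Set Ω) : Prop where
  meas : ∀ n, MeasurableSet (X n)
  indep : iIndepSet X μ
  small : Filter.Tendsto (fun n => μ.real (X n)) Filter.atTop (nhds 0)
  dens : ∀ η : ℝ, 0 < η → ∀ᶠ N : ℕ in Filter.atTop,
    ∑ n ∈ Finset.range (N + 1), μ.real (X n) ≤ (1 + η) * N / Real.log N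

/-- the value of the random set at the outcome `ω` -/
def rset {Ω : Type} (X : ℕ → Set Ω) (ω : Ω) : Set ℕ := {n | ω ∈ X n}

/-- `A` is an additive complement of `R`: every large integer is of the form `p + a` with
`p ∈ R` and `a ∈ A` -/
def AddCompl (R A : Set ℕ) : Prop := ∃ n₀ : ℕ, ∀ n, n₀ ≤ n → ∃ p ∈ R, ∃ a ∈ A, n = p + a

/-- the counting function `A(N)` -/
noncomputable def cnt (A : Set ℕ) (N : ℕ) : ℕ := (A ∩ Icc 1 N).ncard

end Pool.Agent.CRM
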