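import Mathlib
import Pool.Agent.CRM.Defs

/-!
# Cramér's model is a random model of the primes
-/

set_option autoImplicit false

open MeasureTheory ProbabilityTheory Set Filter Topology

namespace Pool.Agent.CRM

variable {Ω : Type} [MeasurableSpace Ω]

lemma ev_f (η : ℝ) (hη : 0 < η) : ∀ᶠ x : ℝ in atTop,
    Real.exp x / x ^ 2 + 4 + (Real.exp x + 1) * (1 / (x - 2 * Real.log x)) ≤
      (1 + η) * Real.exp x / x := by
  have t1 : Tendsto (fun x : ℝ => 1 / x) atTop (𝓝 0) := by
    simpa only [one_div] using tendsto_inv_atTop_zero (𝕜 := ℝ)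
  have t2 : Tendsto (fun x : ℝ => x * Real.exp (-x)) atTop (𝓝 0) := by
    have h := Real.tendsto_pow_mul_exp_neg_atTop_nhds_zero 1
    simpa only [pow_one] using h
  have t3 : Tendsto (fun x : ℝ => Real.exp (-x)) atTop (𝓝 0) :=
    Real.tendsto_exp_neg_atTop_nhds_zero
  have t4 : Tendsto (fun x : ℝ => Real.log x / x) atTop (𝓝 0) := by
    have h := Real.isLittleO_log_id_atTop.tendsto_div_nhds_zero
    simpa only [id] using h
  have t5 : Tendsto (fun x : ℝ => 1 / x + 4 * (x * Real.exp (-x)) +
      (1 + Real.exp (-x)) / (1 - 2 * (Real.log x / x))) atTop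
      (𝓝 (0 + 4 * 0 + (1 + 0) / (1 - 2 * 0))) :=
    (t1.add (t2.const_mul 4)).add
      ((t3.const_add 1).div ((t4.const_mul 2).const_sub 1) (by norm_num))
  have t6 : (0 : ℝ) + 4 * 0 + (1 + 0) / (1 - 2 * 0) < 1 + η := by norm_num; exact hη
  filter_upwards [t5.eventually (gt_mem_nhds t6), t4.eventually (gt_mem_nhds (show (0 : ℝ) < 1 / 4 by
    norm_num)), eventually_ge_atTop 1] with x h1 h2 h3
  have hx : 0 < x := by linarith
  have he : 0 < Real.exp x := Real.exp_pos x
  have h4 : 0 < 1 - 2 * (Real.log x / x) := by linarith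
  have h5 : x - 2 * Real.log x = x * (1 - 2 * (Real.log x / x)) := by field_simp
  have h6 : Real.exp (-x) = 1 / Real.exp x := by rw [Real.exp_neg, one_div]
  rw [h5]
  set d : ℝ := 1 - 2 * (Real.log x / x) with hd
  have h7 : Real.exp x / x ^ 2 + 4 + (Real.exp x + 1) * (1 / (x * d)) =
      (1 / x + 4 * (x * Real.exp (-x)) + (1 + Real.exp (-x)) / d) * (Real.exp x / x) := by
    rw [h6]
    field_simp
  rw [h7, mul_div_assoc]
  exact mul_le_mul_of_nonneg_right h1.le (by positivity)

/-- Cramér's model is a random model of the primes. -/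
theorem Cramer.primeModel {μ : Measure Ω} [IsProbabilityMeasure μ] {X : ℕ → Set Ω}
    (h : Cramer μ X) : PrimeModel μ X := by
  have hreal : ∀ n, 3 ≤ n → μ.real (X n) = 1 / Real.log n := by
    intro n hn
    rw [Measure.real, h.prob n hn, ENNReal.toReal_ofReal]
    have : 0 ≤ Real.log n := Real.log_natCast_nonneg n
    positivity
  have hlog : Tendsto (fun n : ℕ => Real.log (n : ℝ)) atTop atTop :=
    Real.tendsto_log_atTop.comp tendsto_natCast_atTop_atTop
  refine ⟨h.meas, h.indep, ?_, ?_⟩
  · have h1 : Tendsto (fun n : ℕ => 1 / Real.log n) atTop (𝓝 0) := by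
      simp only [one_div]
      exact tendsto_inv_atTop_zero.comp hlog
    refine h1.congr' ?_
    filter_upwards [eventually_ge_atTop 3] with n hn
    rw [hreal n hn]
  · intro η hη
    have hpos : ∀ᶠ x : ℝ in atTop, 0 < x - 2 * Real.log x := by
      have h := Real.isLittleO_log_id_atTop.tendsto_div_nhds_zero
      have t4 : Tendsto (fun x : ℝ => Real.log x / x) atTop (𝓝 0) := by simpa only [id] using h
      filter_upwards [t4.eventually (gt_mem_nhds (show (0 : ℝ) < 1 / 4 by norm_num)),
        eventually_gt_atTop 0] with x h1 h2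
      rw [div_lt_iff₀ h2] at h1
      linarith
    filter_upwards [hlog.eventually (ev_f η hη), hlog.eventually hpos,
      hlog.eventually_ge_atTop 1, eventually_ge_atTop 1] with N hN hp hL hN1
    have hN0 : (0 : ℝ) < N := by positivity
    set L := Real.log N with hLd
    have hL0 : 0 < L := by linarith
    have he : Real.exp L = N := Real.exp_log hN0
    rw [he] at hN
    set M : ℕ := ⌈(N : ℝ) / L ^ 2⌉₊ + 3 with hM
    have hM1 : (M : ℝ) ≤ N / L ^ 2 + 4 := by
      have h1 := Nat.ceil_lt_add_one (a := (N : ℝ) / L ^ 2) (by positivity)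
      rw [hM]
      push_cast
      linarith
    have hc : 0 ≤ 1 / (L - 2 * Real.log L) := by positivity
    have hterm : ∀ n ∈ Finset.range (N + 1), μ.real (X n) ≤
        (if n < M then (1 : ℝ) else 0) + 1 / (L - 2 * Real.log L) := by
      intro n _
      by_cases hn : n < M
      · rw [if_pos hn]
        have h1 : μ.real (X n) ≤ 1 := measureReal_le_one
        linarith
      · rw [if_neg hn, zero_add]
        push Not at hn
        have hn3 : 3 ≤ n := by omega
        rw [hreal n hn3]
        have h1 : (N : ℝ) / L ^ 2 ≤ n := by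
          have h2 : (N : ℝ) / L ^ 2 ≤ ⌈(N : ℝ) / L ^ 2⌉₊ := Nat.le_ceil _
          have h3 : (⌈(N : ℝ) / L ^ 2⌉₊ : ℝ) ≤ n := by exact_mod_cast (by omega)
          linarith
        have h2 : L - 2 * Real.log L ≤ Real.log n := by
          have h3 := Real.log_le_log (by positivity) h1
          rw [Real.log_div hN0.ne' (by positivity), Real.log_pow] at h3
          push_cast at h3
          exact h3
        exact one_div_le_one_div_of_le hp h2
    have hcard : ((Finset.range (N + 1)).filter (fun n => n < M)).card ≤ M := by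
      calc ((Finset.range (N + 1)).filter (fun n => n < M)).card ≤ (Finset.range M).card := by
            apply Finset.card_le_card
            intro n hn
            rw [Finset.mem_filter] at hn
            exact Finset.mem_range.2 hn.2
        _ = M := Finset.card_range M
    calc ∑ n ∈ Finset.range (N + 1), μ.real (X n)
        ≤ ∑ n ∈ Finset.range (N + 1),
            ((if n < M then (1 : ℝ) else 0) + 1 / (L - 2 * Real.log L)) :=
          Finset.sum_le_sum hterm
      _ = (((Finset.range (N + 1)).filter (fun n => n < M)).card : ℝ) +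
            (N + 1) * (1 / (L - 2 * Real.log L)) := by
          rw [Finset.sum_add_distrib, ← Finset.sum_filter, Finset.sum_const, nsmul_eq_mul, mul_one,
            Finset.sum_const, Finset.card_range, nsmul_eq_mul]
          push_cast
          ring
      _ ≤ M + (N + 1) * (1 / (L - 2 * Real.log L)) := by
          have : (((Finset.range (N + 1)).filter (fun n => n < M)).card : ℝ) ≤ M := by
            exact_mod_cast hcard
          linarith
      _ ≤ N / L ^ 2 + 4 + (N + 1) * (1 / (L - 2 * Real.log L)) := by linarith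
      _ ≤ (1 + η) * N / L := hN

end Pool.Agent.CRM
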