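import Pool.Agent.CRM.Targets

/-!
# CRM: density of the model
-/

set_option autoImplicit false

open scoped BigOperators Classical
open Finset MeasureTheory ProbabilityTheory

namespace CRM

namespace DEN_

/-- exact count over a union of full periods -/
theorem count_periods (W k : ℕ) : ∀ q : ℕ,
    ((Ico k (k + W * q)).filter (fun x => Nat.Coprime W x)).card = Nat.totient W * q := by
  intro q
  induction q with
  | zero => simp
  | succ q ih =>
    have h1 : Ico k (k + W * (q + 1)) = Ico k (k + W * q) ∪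
        Ico (k + W * q) (k + W * q + W) := by
      rw [Finset.Ico_union_Ico_eq_Ico (by omega) (by omega)]
      congr 1
      ring
    rw [h1, Finset.filter_union, Finset.card_union_of_disjoint, ih,
      Nat.filter_coprime_Ico_eq_totient]
    · ring
    · exact Finset.disjoint_filter_filter (Finset.Ico_disjoint_Ico_consecutive _ _ _)

theorem count_low (W k n : ℕ) :
    Nat.totient W * (n / W) ≤ ((Ico k (k + n)).filter (fun x => Nat.Coprime W x)).card := by
  rw [← count_periods W k (n / W)]
  refine Finset.card_le_card (Finset.filter_subset_filter _ ?_)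
  refine Finset.Ico_subset_Ico le_rfl ?_
  have := Nat.mul_div_le n W
  omega

/-- both bounds for the number of coprime elements of `Ioc a b` -/
theorem count_both (W a b : ℕ) (hW : 1 ≤ W) (hab : a ≤ b) :
    (Nat.totient W : ℝ) / W * ((b : ℝ) - a - W) ≤
      (((Ioc a b).filter (fun x => Nat.Coprime x W)).card : ℝ) ∧
    (((Ioc a b).filter (fun x => Nat.Coprime x W)).card : ℝ) ≤
      (Nat.totient W : ℝ) / W * ((b : ℝ) - a + W) := by
  have h1 : (Ioc a b).filter (fun x => Nat.Coprime x W) =
      (Ico (a + 1) (a + 1 + (b - a))).filter (fun x => Nat.Coprime W x) := by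
    ext x
    simp only [Finset.mem_filter, Finset.mem_Ioc, Finset.mem_Ico, Nat.coprime_comm]
    constructor
    · rintro ⟨⟨h1, h2⟩, h3⟩
      exact ⟨⟨by omega, by omega⟩, h3⟩
    · rintro ⟨⟨h1, h2⟩, h3⟩
      exact ⟨⟨by omega, by omega⟩, h3⟩
  have hlow := count_low W (a + 1) (b - a)
  have hup := Nat.Ico_filter_coprime_le (a := W) (a + 1) (b - a) (by omega)
  have hup' : ((Ico (a + 1) (a + 1 + (b - a))).filter (fun x => Nat.Coprime W x)).card ≤
      Nat.totient W * ((b - a) / W + 1) := by
    convert hup using 2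
  have hWr : (0 : ℝ) < W := by exact_mod_cast hW
  have hφ : (0 : ℝ) ≤ (Nat.totient W : ℝ) := Nat.cast_nonneg _
  have hsub : (((b - a : ℕ)) : ℝ) = (b : ℝ) - a := by
    push_cast [Nat.cast_sub hab]
    ring
  have hq1 : (b : ℝ) - a - W ≤ W * (((b - a) / W : ℕ) : ℝ) := by
    have h : b - a < W * ((b - a) / W) + W := by
      have := Nat.div_add_mod (b - a) W
      have := Nat.mod_lt (b - a) (show 0 < W by omega)
      omega
    have h' : ((b - a : ℕ) : ℝ) < W * (((b - a) / W : ℕ) : ℝ) + W := by exact_mod_cast h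
    rw [hsub] at h'
    linarith
  have hq2 : W * (((b - a) / W : ℕ) : ℝ) ≤ (b : ℝ) - a := by
    have h := Nat.mul_div_le (b - a) W
    have h' : W * (((b - a) / W : ℕ) : ℝ) ≤ ((b - a : ℕ) : ℝ) := by exact_mod_cast h
    rw [hsub] at h'
    exact h'
  rw [h1]
  constructor
  · have h2 : ((Nat.totient W * ((b - a) / W) : ℕ) : ℝ) ≤
        (((Ico (a + 1) (a + 1 + (b - a))).filter (fun x => Nat.Coprime W x)).card : ℝ) := by
      exact_mod_cast hlow
    refine le_trans ?_ h2
    push_cast
    rw [div_mul_eq_mul_div, div_le_iff₀ hWr]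
    have := mul_le_mul_of_nonneg_left hq1 hφ
    linarith
  · have h2 : (((Ico (a + 1) (a + 1 + (b - a))).filter (fun x => Nat.Coprime W x)).card : ℝ) ≤
        ((Nat.totient W * ((b - a) / W + 1) : ℕ) : ℝ) := by
      exact_mod_cast hup'
    refine le_trans h2 ?_
    push_cast
    rw [div_mul_eq_mul_div, le_div_iff₀ hWr]
    have := mul_le_mul_of_nonneg_left hq2 hφ
    nlinarith

end DEN_

open DEN_ in
theorem p_DEN : T_DEN := by
  intro W hW
  have hWr : (0 : ℝ) < W := by exact_mod_cast hW
  have hφ : (0 : ℝ) < (Nat.totient W : ℝ) := by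
    exact_mod_cast Nat.totient_pos.2 (by omega)
  set c : ℝ := (W : ℝ) / Nat.totient W with hc
  have hc0 : 0 < c := div_pos hWr hφ
  refine ⟨max 3 ⌈Real.exp c⌉₊, le_max_left _ _, ?_⟩
  intro a b ha hab
  have ha3 : 3 ≤ a := le_trans (le_max_left _ _) ha
  have hb3 : 3 ≤ b := le_trans ha3 hab
  have hae : Real.exp c ≤ (a : ℝ) := by
    refine le_trans (Nat.le_ceil _) ?_
    exact_mod_cast le_trans (le_max_right _ _) ha
  have ha0 : (0 : ℝ) < a := lt_of_lt_of_le (Real.exp_pos _) hae
  have hb0 : (0 : ℝ) < b := lt_of_lt_of_le ha0 (by exact_mod_cast hab)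
  have hla : c ≤ Real.log a := by
    rw [Real.le_log_iff_exp_le ha0]
    exact hae
  have hla0 : 0 < Real.log a := lt_of_lt_of_le hc0 hla
  have hlab : Real.log a ≤ Real.log b := Real.log_le_log ha0 (by exact_mod_cast hab)
  have hlb0 : 0 < Real.log b := lt_of_lt_of_le hla0 hlab
  -- the sum is over the coprime elements
  have hsum : ∑ m ∈ Ioc a b, pr W m =
      ∑ m ∈ (Ioc a b).filter (fun x => Nat.Coprime x W), c / Real.log m := by
    rw [Finset.sum_filter]
    refine Finset.sum_congr rfl fun m hm => ?_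
    rw [Finset.mem_Ioc] at hm
    unfold pr
    split_ifs with h
    · have hm1 : Real.log a ≤ Real.log m :=
        Real.log_le_log ha0 (by exact_mod_cast hm.1.le)
      rw [min_eq_right]
      rw [div_le_one (lt_of_lt_of_le hla0 hm1)]
      exact le_trans hla hm1
    · rfl
  obtain ⟨hlow, hup⟩ := count_both W a b hW hab
  set N : ℕ := ((Ioc a b).filter (fun x => Nat.Coprime x W)).card with hN
  have hlo : (N : ℝ) * (c / Real.log b) ≤
      ∑ m ∈ (Ioc a b).filter (fun x => Nat.Coprime x W), c / Real.log m := by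
    rw [← nsmul_eq_mul]
    refine Finset.card_nsmul_le_sum _ _ _ fun m hm => ?_
    rw [Finset.mem_filter, Finset.mem_Ioc] at hm
    have hm0 : (0 : ℝ) < m := lt_of_lt_of_le ha0 (by exact_mod_cast hm.1.1.le)
    have h1 : Real.log m ≤ Real.log b := Real.log_le_log hm0 (by exact_mod_cast hm.1.2)
    have h2 : Real.log a ≤ Real.log m := Real.log_le_log ha0 (by exact_mod_cast hm.1.1.le)
    exact div_le_div_of_nonneg_left hc0.le (lt_of_lt_of_le hla0 h2) h1
  have hhi : ∑ m ∈ (Ioc a b).filter (fun x => Nat.Coprime x W), c / Real.log m ≤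
      (N : ℝ) * (c / Real.log a) := by
    rw [← nsmul_eq_mul]
    refine Finset.sum_le_card_nsmul _ _ _ fun m hm => ?_
    rw [Finset.mem_filter, Finset.mem_Ioc] at hm
    have h2 : Real.log a ≤ Real.log m := Real.log_le_log ha0 (by exact_mod_cast hm.1.1.le)
    exact div_le_div_of_nonneg_left hc0.le hla0 h2
  have hcφ : (Nat.totient W : ℝ) / W * c = 1 := by
    rw [hc]
    field_simp
  rw [hsum]
  constructor
  · refine le_trans ?_ hlo
    rw [mul_div_assoc', div_le_div_iff_of_pos_right hlb0]
    have h := mul_le_mul_of_nonneg_right hlow hc0.le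
    calc (b : ℝ) - a - W = ((Nat.totient W : ℝ) / W * c) * ((b : ℝ) - a - W) := by
          rw [hcφ, one_mul]
      _ = (Nat.totient W : ℝ) / W * ((b : ℝ) - a - W) * c := by ring
      _ ≤ (N : ℝ) * c := h
  · refine le_trans hhi ?_
    rw [mul_div_assoc', div_le_div_iff_of_pos_right hla0]
    have h := mul_le_mul_of_nonneg_right hup hc0.le
    calc (N : ℝ) * c ≤ (Nat.totient W : ℝ) / W * ((b : ℝ) - a + W) * c := h
      _ = ((Nat.totient W : ℝ) / W * c) * ((b : ℝ) - a + W) := by ring
      _ = (b : ℝ) - a + W := by rw [hcφ, one_mul]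

end CRM
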