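import Mathlib

/-!
# Project CRM: the Cramer model for MP_61a569_nt, definitions
-/

set_option autoImplicit false

open scoped BigOperators Classical
open Finset

namespace CRM

/-- the candidate `q(n,k)` -/
def qq (n k : ℕ) : ℕ := Nat.totient k + Nat.totient (n - k) / 2 + 1

/-- the primes `p` with `x < p ≤ y` -/
noncomputable def win (x y : ℝ) : Finset ℕ :=
  (Finset.range (⌊y⌋₊ + 1)).filter (fun p => p.Prime ∧ x < (p : ℝ))

/-- the probability of `m` in the Cramer model with presieving modulus `W` -/
noncomputable def pr (W m : ℕ) : ℝ :=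
  if Nat.Coprime m W then min 1 (((W : ℝ) / Nat.totient W) / Real.log m) else 0

/-- expectation over a random subset `T` of `R` which contains `m` with probability `p m`,
independently -/
noncomputable def Ex (p : ℕ → ℝ) (R : Finset ℕ) (f : Finset ℕ → ℝ) : ℝ :=
  ∑ T ∈ R.powerset, (∏ m ∈ T, p m) * (∏ m ∈ R \ T, (1 - p m)) * f T

/-- indicator of a proposition -/
noncomputable def ind (P : Prop) : ℝ := if P then 1 else 0

/-- number of elements of `T` below `z` -/
noncomputable def bel (T : Finset ℕ) (z : ℕ) : ℕ := (T.filter (fun y => y < z)).card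

/-- `v` is successful in `T`: with `z` the `v`-th element of `T`, the numbers `v`, `z - v - 1` and
`z - v + 1` are in `T` -/
def Succ (T : Finset ℕ) (v : ℕ) : Prop :=
  ∃ z ∈ T, bel T z + 1 = v ∧ v + 2 ≤ z ∧ v ∈ T ∧ z - v - 1 ∈ T ∧ z - v + 1 ∈ T

/-- no long run of almost only elements -/
def SP (g : ℕ) (T : Finset ℕ) : Prop :=
  ∀ z ∈ T, ∀ z' ∈ T, z < z' → bel T z + g ≤ bel T z' → bel T z' + 3 + z ≤ bel T z + z'

end CRM
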