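import Pool.Agent.CRM.Gen

/-!
# Random models of the primes: lower bound for all additive complements, conclusion
-/

set_option autoImplicit false

open MeasureTheory ProbabilityTheory Filter Set
open scoped ENNReal

namespace Pool.Agent.CRM

lemma ev_K (K c : ℝ) (hc : 0 < c) :
    ∀ᶠ L : ℝ in atTop, K * L ^ 7 ≤ Real.exp (c * L) := by
  have h1 : Tendsto (fun x : ℝ => Real.exp x / x ^ 7) atTop atTop :=
    Real.tendsto_exp_div_pow_atTop 7
  have h2 : Tendsto (fun L : ℝ => c * L) atTop atTop :=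
    tendsto_id.const_mul_atTop hc
  have h3 := (h1.comp h2).eventually_ge_atTop (K / c ^ 7)
  filter_upwards [h3, eventually_gt_atTop 0] with L hL hL0
  simp only [Function.comp_apply] at hL
  rw [le_div_iff₀ (by positivity)] at hL
  have h4 : K / c ^ 7 * (c * L) ^ 7 = K * L ^ 7 := by
    field_simp
  rwa [h4] at hL

lemma num2 (ε η L g : ℝ) (hε : 0 < ε) (hε1 : ε ≤ 1) (hη : η = ε / 16) (hL : 8 ≤ L)
    (H : 96 * Real.exp 1 / η * L ^ 7 ≤ Real.exp (ε / 2 * L)) (s : ℕ) (hs1 : 1 ≤ s)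
    (hs : (s : ℝ) ≤ (1 - ε) * L ^ 2 + 2) (hg : η / 4 * Real.exp L ≤ g) :
    4 * L ^ 3 + 2 * L ≤
      Real.exp (-((1 + 2 * η) * ((1 + η) ^ 2 * s / L))) * (g / (s : ℝ) ^ 2) := by
  have hL0 : 0 < L := by linarith
  have hη0 : 0 < η := by rw [hη]; positivity
  have hη1 : η ≤ 1 / 16 := by rw [hη]; linarith
  have hs0 : (0 : ℝ) < s := by exact_mod_cast hs1
  have hs2 : (s : ℝ) ≤ 2 * L ^ 2 := by nlinarith
  have hs4 : (s : ℝ) ^ 2 ≤ 4 * L ^ 4 := by
    calc (s : ℝ) ^ 2 ≤ (2 * L ^ 2) ^ 2 := pow_le_pow_left₀ hs0.le hs2 2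
      _ = 4 * L ^ 4 := by ring
  have hc : (1 + 2 * η) * (1 + η) ^ 2 ≤ 1 + ε / 2 := by
    have h1 : (1 + 2 * η) * (1 + η) ^ 2 = 1 + 4 * η + 5 * η ^ 2 + 2 * η ^ 3 := by ring
    have h2 : η ^ 2 ≤ η * (1 / 16) := by nlinarith
    have h3 : η ^ 3 ≤ η * (1 / 16) := by nlinarith [sq_nonneg η]
    have h4 : ε / 2 = 8 * η := by rw [hη]; ring
    rw [h1, h4]
    linarith
  have hexp : Real.exp (-((1 - ε / 2) * L + 1)) ≤
      Real.exp (-((1 + 2 * η) * ((1 + η) ^ 2 * s / L))) := by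
    apply Real.exp_le_exp.2
    apply neg_le_neg
    have h1 : (1 + 2 * η) * ((1 + η) ^ 2 * s / L) = ((1 + 2 * η) * (1 + η) ^ 2) * (s / L) := by
      ring
    have h2 : (s : ℝ) / L ≤ (1 - ε) * L + 2 / L := by
      rw [div_le_iff₀ hL0]
      have : ((1 - ε) * L + 2 / L) * L = (1 - ε) * L ^ 2 + 2 := by field_simp
      rw [this]
      exact hs
    have h3 : ((1 + 2 * η) * (1 + η) ^ 2) * (s / L) ≤ (1 + ε / 2) * ((1 - ε) * L + 2 / L) :=
      mul_le_mul hc h2 (by positivity) (by linarith)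
    have h4 : 2 / L ≤ 1 / 4 := by
      rw [div_le_div_iff₀ hL0 (by norm_num)]
      linarith
    have h5 : (1 + ε / 2) * ((1 - ε) * L + 2 / L) ≤ (1 - ε / 2) * L + 1 := by
      have h6 : (1 + ε / 2) * (1 - ε) ≤ 1 - ε / 2 := by nlinarith
      have h7 : (1 + ε / 2) * (1 - ε) * L ≤ (1 - ε / 2) * L :=
        mul_le_mul_of_nonneg_right h6 hL0.le
      have h8 : (1 + ε / 2) * (2 / L) ≤ 2 * (1 / 4) :=
        mul_le_mul (by linarith) h4 (by positivity) (by norm_num)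
      have h9 : (1 + ε / 2) * ((1 - ε) * L + 2 / L) =
          (1 + ε / 2) * (1 - ε) * L + (1 + ε / 2) * (2 / L) := by ring
      rw [h9]
      linarith
    rw [h1]
    linarith
  have hg0 : 0 ≤ η / 4 * Real.exp L := by positivity
  have hq : (η / 4 * Real.exp L) / (4 * L ^ 4) ≤ g / (s : ℝ) ^ 2 := by
    calc (η / 4 * Real.exp L) / (4 * L ^ 4) ≤ (η / 4 * Real.exp L) / (s : ℝ) ^ 2 :=
          div_le_div_of_nonneg_left hg0 (by positivity) hs4
      _ ≤ g / (s : ℝ) ^ 2 := div_le_div_of_nonneg_right hg (by positivity)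
  calc 4 * L ^ 3 + 2 * L ≤ η * (Real.exp (ε / 2 * L) * Real.exp (-1)) / (16 * L ^ 4) := by
        rw [le_div_iff₀ (by positivity)]
        have h1 : Real.exp 1 * Real.exp (-1) = 1 := by rw [← Real.exp_add]; simp
        have h2 : (4 * L ^ 3 + 2 * L) * (16 * L ^ 4) ≤ 96 * L ^ 7 := by
          nlinarith [pow_pos hL0 4, pow_pos hL0 5, pow_pos hL0 6, pow_pos hL0 7,
            mul_nonneg (pow_pos hL0 5).le (by nlinarith : (0 : ℝ) ≤ L ^ 2 - 1)]
        calc (4 * L ^ 3 + 2 * L) * (16 * L ^ 4) ≤ 96 * L ^ 7 := h2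
          _ = η * ((96 * Real.exp 1 / η * L ^ 7) * Real.exp (-1)) := by
              rw [show η * ((96 * Real.exp 1 / η * L ^ 7) * Real.exp (-1)) =
                96 * L ^ 7 * (Real.exp 1 * Real.exp (-1)) by field_simp, h1, mul_one]
          _ ≤ η * (Real.exp (ε / 2 * L) * Real.exp (-1)) :=
              mul_le_mul_of_nonneg_left
                (mul_le_mul_of_nonneg_right H (Real.exp_pos _).le) hη0.le
    _ = Real.exp (-((1 - ε / 2) * L + 1)) * ((η / 4 * Real.exp L) / (4 * L ^ 4)) := by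
        have h1 : Real.exp (ε / 2 * L) * Real.exp (-1) =
            Real.exp (-((1 - ε / 2) * L + 1)) * Real.exp L := by
          rw [← Real.exp_add, ← Real.exp_add]
          congr 1
          ring
        rw [h1]
        field_simp
        norm_num
    _ ≤ Real.exp (-((1 + 2 * η) * ((1 + η) ^ 2 * s / L))) * (g / (s : ℝ) ^ 2) :=
        mul_le_mul hexp hq (by positivity) (Real.exp_pos _).le

variable {Ω : Type} [MeasurableSpace Ω]

/-- the number of elements -/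
noncomputable def sM (ε : ℝ) (N : ℕ) : ℕ := ⌊(1 - ε) * Real.log N ^ 2⌋₊ + 1

lemma Ew_small {μ : Measure Ω} [IsProbabilityMeasure μ] {X : ℕ → Set Ω} (h : PrimeModel μ X)
    (w : ℕ) (ε : ℝ) (hε : 0 < ε) (hε1 : ε ≤ 1) :
    ∀ᶠ N : ℕ in atTop, μ (Ew X w N (sM ε N)) ≤ ENNReal.ofReal (1 / (N : ℝ) ^ 2) := by
  have hlog : Tendsto (fun N : ℕ => Real.log N) atTop atTop :=
    Real.tendsto_log_atTop.comp tendsto_natCast_atTop_atTop
  set η : ℝ := ε / 16 with hη
  have hη0 : 0 < η := by positivity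
  have hη1 : η ≤ 1 / 16 := by rw [hη]; linarith
  -- the threshold for small probabilities
  obtain ⟨M, hM⟩ := eventually_atTop.1 (h.small.eventually (gt_mem_nhds hη0))
  have hp : ∀ m, M ≤ m → μ.real (X m) ≤ η := fun m hm => (hM m hm).le
  -- room for the exceptions
  have hroom : ∀ᶠ L : ℝ in atTop, (w : ℝ) + (2 * L ^ 2) * M ≤ η / 4 * Real.exp L := by
    filter_upwards [ev_K ((w + 2 * M) * (4 / η)) 1 one_pos, eventually_ge_atTop 1] with L hL hL1
    rw [one_mul] at hL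
    have h1 : (w : ℝ) + (2 * L ^ 2) * M ≤ (w + 2 * M) * L ^ 7 := by
      have h2 : (1 : ℝ) ≤ L ^ 7 := one_le_pow₀ hL1
      have h3 : L ^ 2 ≤ L ^ 7 := pow_le_pow_right₀ hL1 (by norm_num)
      have h4 : (0 : ℝ) ≤ w := Nat.cast_nonneg w
      have h5 : (0 : ℝ) ≤ M := Nat.cast_nonneg M
      nlinarith
    calc (w : ℝ) + (2 * L ^ 2) * M ≤ (w + 2 * M) * L ^ 7 := h1
      _ = η / 4 * ((w + 2 * M) * (4 / η) * L ^ 7) := by field_simp
      _ ≤ η / 4 * Real.exp L := mul_le_mul_of_nonneg_left hL (by positivity)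
  filter_upwards [hlog.eventually (ev_K (96 * Real.exp 1 / η) (ε / 2) (by positivity)),
    hlog.eventually hroom, hlog.eventually_ge_atTop 8, eventually_ge_atTop 2,
    h.dens η hη0] with N hH hR hL hN hD
  set L := Real.log N with hLdef
  have hN0 : (0 : ℝ) < N := by positivity
  have hexpL : Real.exp L = N := Real.exp_log hN0
  have hL0 : 0 < L := by linarith
  have hx : 0 ≤ (1 - ε) * L ^ 2 := mul_nonneg (by linarith) (by positivity)
  have hs : ((sM ε N + 1 : ℕ) : ℝ) ≤ (1 - ε) * L ^ 2 + 2 := by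
    unfold sM
    push_cast
    have := Nat.floor_le hx
    linarith
  have hs1 : (1 : ℝ) ≤ ((sM ε N + 1 : ℕ) : ℝ) := by exact_mod_cast (by omega)
  have hs2 : ((sM ε N + 1 : ℕ) : ℝ) ≤ 2 * L ^ 2 := by nlinarith
  set s' : ℝ := ((sM ε N + 1 : ℕ) : ℝ) with hs'
  set Λ : ℝ := (1 + η) ^ 2 * s' / L with hΛ
  set D : ℝ := (1 + η) * N / L with hDd
  have hΛ0 : 0 < Λ := by positivity
  have hg : η / 4 * Real.exp L ≤ (N : ℝ) - w - s' * M - s' * D / Λ := by
    have h1 : s' * D / Λ = N / (1 + η) := by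
      rw [hΛ, hDd]
      field_simp
    have h2 : s' * M ≤ (2 * L ^ 2) * M := mul_le_mul_of_nonneg_right hs2 (Nat.cast_nonneg M)
    have h3 : (N : ℝ) / (1 + η) ≤ N - η / 2 * N := by
      rw [div_le_iff₀ (by positivity)]
      have h4 : 0 ≤ (N : ℝ) * (η / 2 - η ^ 2 / 2) := by
        refine mul_nonneg hN0.le ?_
        nlinarith
      have h5 : ((N : ℝ) - η / 2 * N) * (1 + η) = N + N * (η / 2 - η ^ 2 / 2) := by ring
      rw [h5]
      linarith
    rw [h1, hexpL]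
    rw [hexpL] at hR
    linarith
  have hnum := num2 ε η L _ hε hε1 hη hL hH (sM ε N + 1) (by omega) hs hg
  refine (Ew_prob h.meas h.indep (sM ε N) w N M η Λ D (4 * L ^ 3 + 2 * L) hη0.le (by linarith) hp
    hΛ0 hD hnum).trans ?_
  apply ENNReal.ofReal_le_ofReal
  have h1 : Real.log ((N : ℝ) + 1) ≤ 2 * L := by
    have h2 : (N : ℝ) + 1 ≤ (N : ℝ) ^ 2 := by
      have : (2 : ℝ) ≤ N := by exact_mod_cast hN
      nlinarith
    have h3 := Real.log_le_log (by positivity) h2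
    rw [Real.log_pow] at h3
    push_cast at h3
    exact h3
  have h2 : (sM ε N : ℝ) ≤ 2 * L ^ 2 := by
    have : (sM ε N : ℝ) ≤ s' := by
      rw [hs']
      push_cast
      linarith
    linarith
  have h3 : (sM ε N : ℝ) * Real.log ((N : ℝ) + 1) ≤ (2 * L ^ 2) * (2 * L) :=
    mul_le_mul h2 h1 (Real.log_nonneg (by linarith)) (by positivity)
  have h4 : (1 : ℝ) / (N : ℝ) ^ 2 = Real.exp (-(2 * L)) := by
    rw [Real.exp_neg, ← hexpL, ← Real.exp_nat_mul, one_div]
    push_cast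
    ring_nf
  rw [h4]
  apply Real.exp_le_exp.2
  nlinarith

lemma ae_not_Ew {μ : Measure Ω} [IsProbabilityMeasure μ] {X : ℕ → Set Ω} (h : PrimeModel μ X)
    (w : ℕ) (ε : ℝ) (hε : 0 < ε) (hε1 : ε ≤ 1) :
    ∀ᵐ ω ∂μ, ∀ᶠ N : ℕ in atTop, ω ∉ Ew X w N (sM ε N) := by
  obtain ⟨N1, hN1⟩ := eventually_atTop.1 (Ew_small h w ε hε hε1)
  have hsum : ∑' N : ℕ, μ (Ew X w (N + N1) (sM ε (N + N1))) ≠ ∞ := by
    have h1 : Summable (fun N : ℕ => (1 : ℝ) / ((N + N1 : ℕ) : ℝ) ^ 2) :=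
      (summable_nat_add_iff (f := fun N : ℕ => (1 : ℝ) / (N : ℝ) ^ 2) N1).2
        (Real.summable_one_div_nat_pow.2 (by norm_num))
    refine ne_top_of_le_ne_top h1.tsum_ofReal_ne_top ?_
    exact ENNReal.tsum_le_tsum fun N => hN1 (N + N1) (by omega)
  have h2 := ae_eventually_notMem hsum
  filter_upwards [h2] with ω hω
  obtain ⟨K, hK⟩ := eventually_atTop.1 hω
  refine eventually_atTop.2 ⟨K + N1, fun N hN => ?_⟩
  have := hK (N - N1) (by omega)
  rwa [Nat.sub_add_cancel (by omega)] at this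

/-- every additive complement of the random set has at least `(1 - o(1)) (log N) ^ 2` elements
up to `N` -/
theorem low2 {μ : Measure Ω} [IsProbabilityMeasure μ] {X : ℕ → Set Ω} (h : PrimeModel μ X) :
    ∀ᵐ ω ∂μ, ∀ A : Set ℕ, AddCompl (rset X ω) A → ∀ ε : ℝ, 0 < ε →
      ∀ᶠ N : ℕ in atTop, (1 - ε) * Real.log N ^ 2 ≤ cnt A N := by
  classical
  have h1 : ∀ᵐ ω ∂μ, ∀ w k : ℕ, ∀ᶠ N : ℕ in atTop, ω ∉ Ew X w N (sM (1 / ((k : ℝ) + 1)) N) := by
    rw [ae_all_iff]
    intro w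
    rw [ae_all_iff]
    intro k
    refine ae_not_Ew h w _ (by positivity) ?_
    rw [div_le_one (by positivity)]
    have : (0 : ℝ) ≤ k := Nat.cast_nonneg k
    linarith
  filter_upwards [h1] with ω hω A hA ε hε
  obtain ⟨k, hk⟩ := exists_nat_one_div_lt hε
  obtain ⟨n₀, hn₀⟩ := hA
  filter_upwards [hω n₀ k] with N hN
  by_contra hcon
  push Not at hcon
  apply hN
  have hL : 0 ≤ Real.log N ^ 2 := by positivity
  have h2 : (cnt A N : ℝ) ≤ (1 - 1 / ((k : ℝ) + 1)) * Real.log N ^ 2 := by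
    refine hcon.le.trans ?_
    exact mul_le_mul_of_nonneg_right (by linarith) hL
  have h3 : cnt A N ≤ ⌊(1 - 1 / ((k : ℝ) + 1)) * Real.log N ^ 2⌋₊ := Nat.le_floor h2
  refine mem_Ew ((Finset.range (N + 1)).filter (fun a => a ∈ A)) (Finset.filter_subset _ _) ?_ ?_
  · have h4 : (Finset.range (N + 1)).filter (fun a => a ∈ A) ⊆
        insert 0 ((Finset.Icc 1 N).filter (fun a => a ∈ A)) := by
      intro a ha
      rw [Finset.mem_filter, Finset.mem_range] at ha
      rw [Finset.mem_insert, Finset.mem_filter, Finset.mem_Icc]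
      by_cases h0 : a = 0
      · exact Or.inl h0
      · exact Or.inr ⟨⟨by omega, by omega⟩, ha.2⟩
    have h5 : ((Finset.Icc 1 N).filter (fun a => a ∈ A)).card = cnt A N := by
      unfold cnt
      rw [← Set.ncard_coe_finset]
      congr 1
      ext a
      simp only [Finset.coe_filter, Finset.mem_Icc, Set.mem_ofPred_eq, Set.mem_inter_iff,
        Set.mem_Icc]
      tauto
    have h6 := (Finset.card_le_card h4).trans (Finset.card_insert_le _ _)
    rw [h5] at h6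
    unfold sM
    omega
  · intro n hn1 hn2
    obtain ⟨p, hp, a, ha, hpa⟩ := hn₀ n (by omega)
    refine ⟨a, ?_, by omega, ?_⟩
    · rw [Finset.mem_filter, Finset.mem_range]
      exact ⟨by omega, ha⟩
    · have : n - a = p := by omega
      rw [this]
      exact hp

end Pool.Agent.CRM
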