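import Pool.Agent.CRM.Tail
import Pool.Agent.CRM.Low2

/-!
# Random models of the primes: how many integers are missed by a set of logarithmic size
-/

set_option autoImplicit false

open MeasureTheory ProbabilityTheory Filter Set
open scoped ENNReal

namespace Pool.Agent.CRM

/-- the number of integers in `[1, N]` which are not of the form `p + a` with `p ∈ R`,
`a ∈ A` -/
noncomputable def mis (R A : Set ℕ) (N : ℕ) : ℕ :=
  {n | n ∈ Icc 1 N ∧ ∀ p ∈ R, ∀ a ∈ A, n ≠ p + a}.ncard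

variable {Ω : Type} [MeasurableSpace Ω]

open Classical in
/-- the number of missed integers as a sum of indicator functions -/
lemma mis_eq {X : ℕ → Set Ω} {ω : Ω} (A : Set ℕ) (N : ℕ) (S : Finset ℕ)
    (hS : ∀ a, a ∈ S ↔ a ∈ A ∧ a ≤ N) :
    (mis (rset X ω) A N : ℝ) = ∑ n ∈ Finset.Ioc 0 N, ind (Un X S n) ω := by
  have h1 : {n | n ∈ Icc 1 N ∧ ∀ p ∈ rset X ω, ∀ a ∈ A, n ≠ p + a} =
      (((Finset.Ioc 0 N).filter (fun n => ω ∈ Un X S n) : Finset ℕ) : Set ℕ) := by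
    ext n
    simp only [Set.mem_ofPred_eq, Finset.coe_filter, Finset.mem_Ioc, Set.mem_Icc, Un, mem_iInter,
      Ix, Finset.mem_image, Finset.mem_filter, mem_compl_iff, rset]
    constructor
    · rintro ⟨⟨h1, h2⟩, h3⟩
      refine ⟨⟨by omega, h2⟩, ?_⟩
      rintro m ⟨a, ⟨ha, han⟩, rfl⟩ hX
      exact h3 (n - a) hX a ((hS a).1 ha).1 (by omega)
    · rintro ⟨⟨h1, h2⟩, h3⟩
      refine ⟨⟨by omega, h2⟩, ?_⟩
      intro p hp a ha hn
      refine h3 p ⟨a, ⟨(hS a).2 ⟨ha, by omega⟩, by omega⟩, by omega⟩ hp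
  unfold mis
  rw [h1, Set.ncard_coe_finset, Finset.card_filter]
  push_cast
  refine Finset.sum_congr rfl fun n _ => ?_
  unfold ind
  rw [Set.indicator_apply]

open Classical in
/-- the integers to which the lower bound is applied -/
noncomputable def G0 (S : Finset ℕ) (N M : ℕ) : Finset ℕ :=
  (Finset.Ioc 0 N).filter (fun n => ∀ a ∈ S, a ≤ n → M ≤ n - a)

lemma card_G0 (S : Finset ℕ) (s N M : ℕ) (hs : S.card ≤ s) :
    (N : ℝ) - s * M ≤ (G0 S N M).card := by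
  classical
  set B1 := (S ×ˢ Finset.range M).image (fun p => p.1 + p.2) with hB1
  have h1 : Finset.Ioc 0 N ⊆ G0 S N M ∪ B1 := by
    intro n hn
    rw [Finset.mem_union]
    by_cases h : ∀ a ∈ S, a ≤ n → M ≤ n - a
    · left
      exact Finset.mem_filter.2 ⟨hn, h⟩
    · right
      push Not at h
      obtain ⟨a, ha, han, hM⟩ := h
      refine Finset.mem_image.2 ⟨(a, n - a), Finset.mem_product.2 ⟨ha, Finset.mem_range.2 hM⟩, ?_⟩
      simp only
      omega
  have h3 : B1.card ≤ s * M := by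
    refine Finset.card_image_le.trans ?_
    rw [Finset.card_product, Finset.card_range]
    exact Nat.mul_le_mul_right _ hs
  have h5 := (Finset.card_le_card h1).trans (Finset.card_union_le _ _)
  rw [Nat.card_Ioc] at h5
  have h7 : (N : ℝ) ≤ (G0 S N M).card + B1.card := by exact_mod_cast h5
  have h8 : (B1.card : ℝ) ≤ s * M := by exact_mod_cast h3
  linarith

/-- lower bound for the expected number of missed integers -/
lemma sum_Un {μ : Measure Ω} [IsProbabilityMeasure μ] {X : ℕ → Set Ω}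
    (hm : ∀ n, MeasurableSet (X n)) (hi : iIndepSet X μ) (S : Finset ℕ) (s N M : ℕ)
    (η Λ D : ℝ) (hs : S.card ≤ s) (hη0 : 0 ≤ η) (hη : η ≤ 1 / 2)
    (hp : ∀ m, M ≤ m → μ.real (X m) ≤ η)
    (hD : ∑ m ∈ Finset.range (N + 1), μ.real (X m) ≤ D) (hΛ0 : 0 ≤ Λ)
    (hΛ : (1 + 2 * η) * (s * D) ≤ Λ * N) :
    Real.exp (-Λ) * (N - (1 + Λ) * (s * M)) ≤ ∑ n ∈ G0 S N M, μ.real (Un X S n) := by
  classical
  have h1 : ∀ n ∈ G0 S N M, Real.exp (-Λ) * (1 + Λ - (1 + 2 * η) * lam μ X S n) ≤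
      μ.real (Un X S n) := by
    intro n hn
    have h2 := (Finset.mem_filter.1 hn).2
    have h3 := Un_low' hm hi S n η (lam μ X S n) hη0 hη (fun m hmS => by
      simp only [Ix, Finset.mem_image, Finset.mem_filter] at hmS
      obtain ⟨a, ⟨ha, han⟩, rfl⟩ := hmS
      exact hp _ (h2 a ha han)) le_rfl
    have h4 : Real.exp (-((1 + 2 * η) * lam μ X S n)) ≤ μ.real (Un X S n) := by
      have h5 := ENNReal.toReal_mono (measure_ne_top μ _) h3
      rw [ENNReal.toReal_ofReal (Real.exp_pos _).le] at h5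
      exact h5
    refine le_trans ?_ h4
    have h6 : Real.exp (-((1 + 2 * η) * lam μ X S n)) =
        Real.exp (-Λ) * Real.exp (Λ - (1 + 2 * η) * lam μ X S n) := by
      rw [← Real.exp_add]
      congr 1
      ring
    rw [h6]
    refine mul_le_mul_of_nonneg_left ?_ (Real.exp_pos _).le
    have := Real.add_one_le_exp (Λ - (1 + 2 * η) * lam μ X S n)
    linarith
  refine le_trans ?_ (Finset.sum_le_sum h1)
  rw [← Finset.mul_sum]
  refine mul_le_mul_of_nonneg_left ?_ (Real.exp_pos _).le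
  rw [Finset.sum_sub_distrib, Finset.sum_const, nsmul_eq_mul, ← Finset.mul_sum]
  have h7 := card_G0 S s N M hs
  have h8 : ∑ n ∈ G0 S N M, lam μ X S n ≤ s * D := by
    calc ∑ n ∈ G0 S N M, lam μ X S n ≤ ∑ n ∈ Finset.Ioc 0 N, lam μ X S n := by
          refine Finset.sum_le_sum_of_subset_of_nonneg (Finset.filter_subset _ _) fun n _ _ => ?_
          exact Finset.sum_nonneg fun m _ => measureReal_nonneg
      _ ≤ s * ∑ m ∈ Finset.range (N + 1), μ.real (X m) := sum_lam μ X S s 0 N hs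
      _ ≤ s * D := mul_le_mul_of_nonneg_left hD (Nat.cast_nonneg s)
  have h9 : (1 + 2 * η) * ∑ n ∈ G0 S N M, lam μ X S n ≤ Λ * N :=
    (mul_le_mul_of_nonneg_left h8 (by linarith)).trans hΛ
  have h10 : ((N : ℝ) - s * M) * (1 + Λ) ≤ (G0 S N M).card * (1 + Λ) :=
    mul_le_mul_of_nonneg_right h7 (by linarith)
  nlinarith

/-- few integers are missed by some small set -/
def Bw (X : ℕ → Set Ω) (N s : ℕ) (θ : ℝ) : Set Ω :=
  ⋃ f : Fin s → Fin (N + 1), {ω | ∑ n ∈ Finset.Ioc 0 N,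
    ind (Un X (Finset.univ.image fun i => (f i : ℕ)) n) ω ≤ θ * N}

lemma mem_Bw {X : ℕ → Set Ω} {N s : ℕ} {ω : Ω} {θ : ℝ} (S : Finset ℕ)
    (hS : S ⊆ Finset.range (N + 1)) (hs : S.card ≤ s)
    (hc : ∑ n ∈ Finset.Ioc 0 N, ind (Un X S n) ω ≤ θ * N) :
    ω ∈ Bw X N s θ := by
  classical
  have hfun : ∃ f : Fin s → Fin (N + 1), ∀ a ∈ S, ∃ i, (f i : ℕ) = a := by
    obtain ⟨e, he⟩ : ∃ e : Fin S.card → ℕ, ∀ a, a ∈ S ↔ ∃ i, e i = a := by
      refine ⟨fun i => (S.equivFin.symm i : ℕ), fun a => ⟨fun ha => ⟨S.equivFin ⟨a, ha⟩, by simp⟩,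
        ?_⟩⟩
      rintro ⟨i, rfl⟩
      exact (S.equivFin.symm i).2
    refine ⟨fun i => if hi : (i : ℕ) < S.card then ⟨e ⟨i, hi⟩, ?_⟩ else 0, fun a ha => ?_⟩
    · exact Finset.mem_range.1 (hS ((he _).2 ⟨_, rfl⟩))
    · obtain ⟨i, hi⟩ := (he a).1 ha
      refine ⟨⟨i, i.2.trans_le hs⟩, ?_⟩
      simp [hi]
  obtain ⟨f, hf⟩ := hfun
  simp only [Bw, mem_iUnion]
  refine ⟨f, ?_⟩
  rw [Set.mem_ofPred_eq]
  refine le_trans (Finset.sum_le_sum fun n _ => ?_) hc
  unfold ind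
  refine indicator_le_indicator_of_subset ?_ (fun _ => zero_le_one) ω
  intro ω' hω'
  simp only [Un, mem_iInter, Ix, Finset.mem_image, Finset.mem_filter, Finset.mem_univ,
    true_and] at hω' ⊢
  rintro m ⟨a, ⟨ha, han⟩, rfl⟩
  obtain ⟨i, hi⟩ := hf a ha
  exact hω' _ ⟨a, ⟨⟨i, hi⟩, han⟩, rfl⟩

lemma Bw_prob {μ : Measure Ω} [IsProbabilityMeasure μ] {X : ℕ → Set Ω}
    (hm : ∀ n, MeasurableSet (X n)) (hi : iIndepSet X μ) (s N M : ℕ) (η Λ D θ t B : ℝ)
    (hN : 0 < N) (hη0 : 0 ≤ η) (hη : η ≤ 1 / 2)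
    (hp : ∀ m, M ≤ m → μ.real (X m) ≤ η)
    (hD : ∑ m ∈ Finset.range (N + 1), μ.real (X m) ≤ D) (hΛ0 : 0 ≤ Λ)
    (hΛ : (1 + 2 * η) * (s * D) ≤ Λ * N) (ht : 0 ≤ t)
    (hθ : θ * N ≤ Real.exp (-Λ) * (N - (1 + Λ) * (s * M)) - (s ^ 2 + 1) * t)
    (hB : B ≤ t ^ 2 / (2 * N)) :
    μ.real (Bw X N s θ) ≤ (N + 1) ^ s * ((s ^ 2 + 1) * Real.exp (-B)) := by
  classical
  have h1 : ∀ f : Fin s → Fin (N + 1),
      μ.real {ω | ∑ n ∈ Finset.Ioc 0 N,
        ind (Un X (Finset.univ.image fun i => (f i : ℕ)) n) ω ≤ θ * N} ≤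
        (s ^ 2 + 1) * Real.exp (-B) := by
    intro f
    set S : Finset ℕ := Finset.univ.image fun i => (f i : ℕ) with hS
    have hs : S.card ≤ s := by
      refine Finset.card_image_le.trans ?_
      simp
    have h2 := chrom (μ := μ) (Un X S) (Un_meas hm S) S (G0 S N M) s hs
      (fun T _ hT => Un_indep hm hi S T hT) t N ht (by exact_mod_cast hN) (by
        have : (G0 S N M).card ≤ N := by
          refine (Finset.card_filter_le _ _).trans ?_
          rw [Nat.card_Ioc]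
          omega
        exact_mod_cast this)
    have h3 : {ω | ∑ n ∈ Finset.Ioc 0 N, ind (Un X S n) ω ≤ θ * N} ⊆
        {ω | ∑ n ∈ G0 S N M, ind (Un X S n) ω ≤
          ∑ n ∈ G0 S N M, μ.real (Un X S n) - (s ^ 2 + 1) * t} := by
      intro ω hω
      rw [Set.mem_ofPred_eq] at hω ⊢
      have h4 := sum_Un hm hi S s N M η Λ D hs hη0 hη hp hD hΛ0 hΛ
      have h5 : ∑ n ∈ G0 S N M, ind (Un X S n) ω ≤ ∑ n ∈ Finset.Ioc 0 N, ind (Un X S n) ω :=
        Finset.sum_le_sum_of_subset_of_nonneg (Finset.filter_subset _ _)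
          fun n _ _ => ind_nonneg _ _
      linarith
    refine (measureReal_mono h3 (measure_ne_top _ _)).trans (h2.trans ?_)
    refine mul_le_mul_of_nonneg_left ?_ (by positivity)
    exact Real.exp_le_exp.2 (neg_le_neg hB)
  calc μ.real (Bw X N s θ) ≤ ∑ f : Fin s → Fin (N + 1),
        μ.real {ω | ∑ n ∈ Finset.Ioc 0 N,
          ind (Un X (Finset.univ.image fun i => (f i : ℕ)) n) ω ≤ θ * N} :=
        measureReal_iUnion_fintype_le _
    _ ≤ ∑ _f : Fin s → Fin (N + 1), (s ^ 2 + 1) * Real.exp (-B) :=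
        Finset.sum_le_sum fun f _ => h1 f
    _ = (N + 1) ^ s * ((s ^ 2 + 1) * Real.exp (-B)) := by
        rw [Finset.sum_const, Finset.card_univ, Fintype.card_fun, Fintype.card_fin,
          Fintype.card_fin, nsmul_eq_mul]
        push_cast
        ring

end Pool.Agent.CRM
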