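import Pool.Agent.CRM.Dens

/-!
# Random models of the primes: how many integers are missed, conclusion
-/

set_option autoImplicit false

open MeasureTheory ProbabilityTheory Filter Set
open scoped ENNReal

namespace Pool.Agent.CRM

/-- the constant -/
noncomputable def Kd (C ε : ℝ) : ℝ := 8 * (C + 2) ^ 4 * (2 + 2 * (C + 1) + (C + 2) ^ 2) / ε ^ 2

lemma numD (C ε L s y : ℝ) (hC : 0 ≤ C) (hε : 0 < ε) (hL : 1 ≤ L) (hs0 : 0 ≤ s)
    (hs : s ≤ C * L + 1) (hy : y ≤ 2 * L) (hK : Kd C ε * L ^ 7 ≤ Real.exp L) :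
    s * y + (s ^ 2 + 1) + 2 * L ≤ ε ^ 2 * Real.exp L / (8 * (s ^ 2 + 1) ^ 2) := by
  have hL0 : 0 < L := by linarith
  have hs1 : s ≤ (C + 1) * L := by nlinarith
  have hs2 : s ^ 2 + 1 ≤ (C + 2) ^ 2 * L ^ 2 := by
    have h1 : s ^ 2 ≤ ((C + 1) * L) ^ 2 := pow_le_pow_left₀ hs0 hs1 2
    have h2 : (C + 2) ^ 2 * L ^ 2 = ((C + 1) * L) ^ 2 + (2 * C + 3) * L ^ 2 := by ring
    have h3 : 1 ≤ L ^ 2 := one_le_pow₀ hL
    rw [h2]
    nlinarith
  have hlhs : s * y + (s ^ 2 + 1) + 2 * L ≤ (2 + 2 * (C + 1) + (C + 2) ^ 2) * L ^ 3 := by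
    have h1 : s * y ≤ (C + 1) * L * (2 * L) := by
      calc s * y ≤ s * (2 * L) := mul_le_mul_of_nonneg_left hy hs0
        _ ≤ (C + 1) * L * (2 * L) := mul_le_mul_of_nonneg_right hs1 (by positivity)
    have h2 : L ≤ L ^ 3 := by
      calc L = L ^ 1 := (pow_one L).symm
        _ ≤ L ^ 3 := pow_le_pow_right₀ hL (by norm_num)
    have h3 : L ^ 2 ≤ L ^ 3 := pow_le_pow_right₀ hL (by norm_num)
    have h4 : (C + 1) * L * (2 * L) = 2 * (C + 1) * L ^ 2 := by ring
    have h5 : 2 * (C + 1) * L ^ 2 ≤ 2 * (C + 1) * L ^ 3 :=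
      mul_le_mul_of_nonneg_left h3 (by linarith)
    have h6 : (C + 2) ^ 2 * L ^ 2 ≤ (C + 2) ^ 2 * L ^ 3 :=
      mul_le_mul_of_nonneg_left h3 (by positivity)
    nlinarith
  have h8 : (s ^ 2 + 1) ^ 2 ≤ (C + 2) ^ 4 * L ^ 4 := by
    calc (s ^ 2 + 1) ^ 2 ≤ ((C + 2) ^ 2 * L ^ 2) ^ 2 := pow_le_pow_left₀ (by positivity) hs2 2
      _ = (C + 2) ^ 4 * L ^ 4 := by ring
  refine hlhs.trans ?_
  rw [le_div_iff₀ (by positivity)]
  have h9 : (2 + 2 * (C + 1) + (C + 2) ^ 2) * L ^ 3 * (8 * (s ^ 2 + 1) ^ 2) ≤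
      (2 + 2 * (C + 1) + (C + 2) ^ 2) * L ^ 3 * (8 * ((C + 2) ^ 4 * L ^ 4)) := by
    refine mul_le_mul_of_nonneg_left ?_ (by positivity)
    linarith
  refine h9.trans ?_
  have h10 : (2 + 2 * (C + 1) + (C + 2) ^ 2) * L ^ 3 * (8 * ((C + 2) ^ 4 * L ^ 4)) =
      ε ^ 2 * (Kd C ε * L ^ 7) := by
    unfold Kd
    field_simp
  rw [h10]
  exact mul_le_mul_of_nonneg_left hK (by positivity)

variable {Ω : Type} [MeasurableSpace Ω]

/-- the number of elements -/
noncomputable def sC (C : ℝ) (N : ℕ) : ℕ := ⌊C * Real.log N⌋₊ + 1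

lemma Bw_small {μ : Measure Ω} [IsProbabilityMeasure μ] {X : ℕ → Set Ω} (h : PrimeModel μ X)
    (C ε : ℝ) (hC : 0 ≤ C) (hε : 0 < ε) (hε1 : ε ≤ 1) :
    ∀ᶠ N : ℕ in atTop, μ (Bw X N (sC C N) (Real.exp (-C) - ε)) ≤
      ENNReal.ofReal (1 / (N : ℝ) ^ 2) := by
  have hlog : Tendsto (fun N : ℕ => Real.log N) atTop atTop :=
    Real.tendsto_log_atTop.comp tendsto_natCast_atTop_atTop
  set η : ℝ := ε / (64 * (C + 1)) with hη
  have hη0 : 0 < η := by positivity
  have hηC : η * (64 * (C + 1)) = ε := by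
    rw [hη]
    field_simp
  have hη1 : η ≤ 1 / 64 := by nlinarith
  -- the threshold for small probabilities
  obtain ⟨M, hM⟩ := eventually_atTop.1 (h.small.eventually (gt_mem_nhds hη0))
  have hp : ∀ m, M ≤ m → μ.real (X m) ≤ η := fun m hm => (hM m hm).le
  -- room for the exceptions
  have hroom : ∀ᶠ L : ℝ in atTop, (C * L + 1) * M ≤ ε / 4 * Real.exp L := by
    filter_upwards [ev_K ((C + 1) * M * (4 / ε)) 1 one_pos, eventually_ge_atTop 1] with L hL hL1
    rw [one_mul] at hL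
    have h1 : (C * L + 1) * M ≤ (C + 1) * M * L ^ 7 := by
      have h3 : L ≤ L ^ 7 := by
        calc L = L ^ 1 := (pow_one L).symm
          _ ≤ L ^ 7 := pow_le_pow_right₀ hL1 (by norm_num)
      have h5 : (0 : ℝ) ≤ M := Nat.cast_nonneg M
      have h6 : C * L + 1 ≤ (C + 1) * L ^ 7 := by nlinarith
      calc (C * L + 1) * M ≤ ((C + 1) * L ^ 7) * M := mul_le_mul_of_nonneg_right h6 h5
        _ = (C + 1) * M * L ^ 7 := by ring
    calc (C * L + 1) * M ≤ (C + 1) * M * L ^ 7 := h1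
      _ = ε / 4 * ((C + 1) * M * (4 / ε) * L ^ 7) := by field_simp
      _ ≤ ε / 4 * Real.exp L := mul_le_mul_of_nonneg_left hL (by positivity)
  filter_upwards [hlog.eventually (ev_K (Kd C ε) 1 one_pos),
    hlog.eventually hroom, hlog.eventually_ge_atTop (1 + 32 / ε), eventually_ge_atTop 2,
    h.dens η hη0] with N hH hR hL hN hD
  set L := Real.log N with hLdef
  rw [one_mul] at hH
  have hN0 : (0 : ℝ) < N := by positivity
  have hexpL : Real.exp L = N := Real.exp_log hN0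
  have hε32 : 0 < 32 / ε := by positivity
  have hL1 : 1 ≤ L := by linarith
  have hL0 : 0 < L := by linarith
  have hx : 0 ≤ C * L := by positivity
  have hs : ((sC C N : ℕ) : ℝ) ≤ C * L + 1 := by
    unfold sC
    push_cast
    have := Nat.floor_le hx
    linarith
  have hs0 : (0 : ℝ) ≤ ((sC C N : ℕ) : ℝ) := Nat.cast_nonneg _
  set s' : ℝ := ((sC C N : ℕ) : ℝ) with hs'
  set Λ : ℝ := (1 + 2 * η) * (1 + η) * s' / L with hΛ
  set D : ℝ := (1 + η) * N / L with hDd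
  set t : ℝ := ε * N / (2 * (s' ^ 2 + 1)) with ht
  have hΛ0 : 0 ≤ Λ := by positivity
  have hΛC : Λ ≤ C + ε / 8 := by
    rw [hΛ, div_le_iff₀ hL0]
    have h1 : (1 + 2 * η) * (1 + η) ≤ 1 + 4 * η := by nlinarith
    have h2 : (1 + 2 * η) * (1 + η) * s' ≤ (1 + 4 * η) * (C * L + 1) :=
      mul_le_mul h1 hs hs0 (by linarith)
    have h3 : 4 * η * C ≤ ε / 16 := by nlinarith
    have h4 : 1 + 4 * η ≤ ε / 16 * L := by
      have h5 : ε / 16 * (32 / ε) = 2 := by
        field_simp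
        norm_num
      have h6 : ε / 16 * (32 / ε) ≤ ε / 16 * L :=
        mul_le_mul_of_nonneg_left (by linarith) (by positivity)
      linarith
    have h7 : (1 + 4 * η) * (C * L + 1) = C * L + 4 * η * C * L + (1 + 4 * η) := by ring
    have h8 : 4 * η * C * L ≤ ε / 16 * L := mul_le_mul_of_nonneg_right h3 hL0.le
    rw [h7] at h2
    have h9 : (C + ε / 8) * L = C * L + ε / 16 * L + ε / 16 * L := by ring
    rw [h9]
    linarith
  have hexpΛ : Real.exp (-C) - ε / 8 ≤ Real.exp (-Λ) := by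
    have h1 : Real.exp (-C + -(ε / 8)) ≤ Real.exp (-Λ) := Real.exp_le_exp.2 (by linarith)
    rw [Real.exp_add] at h1
    have h2 : 1 - ε / 8 ≤ Real.exp (-(ε / 8)) := by
      have := Real.add_one_le_exp (-(ε / 8))
      linarith
    have h3 : Real.exp (-C) ≤ 1 := Real.exp_le_one_iff.2 (by linarith)
    have h4 : 0 < Real.exp (-C) := Real.exp_pos _
    have h5 : Real.exp (-C) * (1 - ε / 8) ≤ Real.exp (-C) * Real.exp (-(ε / 8)) :=
      mul_le_mul_of_nonneg_left h2 h4.le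
    nlinarith
  have hmain : (Real.exp (-C) - ε) * N ≤
      Real.exp (-Λ) * (N - (1 + Λ) * (s' * M)) - (s' ^ 2 + 1) * t := by
    have h1 : (s' ^ 2 + 1) * t = ε / 2 * N := by
      rw [ht]
      field_simp
    have h2 : Real.exp (-Λ) * (1 + Λ) ≤ 1 := by
      have h3 : 1 + Λ ≤ Real.exp Λ := by
        have := Real.add_one_le_exp Λ
        linarith
      calc Real.exp (-Λ) * (1 + Λ) ≤ Real.exp (-Λ) * Real.exp Λ :=
            mul_le_mul_of_nonneg_left h3 (Real.exp_pos _).le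
        _ = 1 := by rw [← Real.exp_add]; simp
    have h4 : 0 ≤ s' * M := mul_nonneg hs0 (Nat.cast_nonneg M)
    have h5 : Real.exp (-Λ) * (1 + Λ) * (s' * M) ≤ 1 * (s' * M) :=
      mul_le_mul_of_nonneg_right h2 h4
    have h6 : s' * M ≤ (C * L + 1) * M := mul_le_mul_of_nonneg_right hs (Nat.cast_nonneg M)
    rw [hexpL] at hR
    have h7 : (Real.exp (-C) - ε / 8) * N ≤ Real.exp (-Λ) * N :=
      mul_le_mul_of_nonneg_right hexpΛ hN0.le
    rw [h1]
    nlinarith
  have hB : ε ^ 2 * Real.exp L / (8 * (s' ^ 2 + 1) ^ 2) ≤ t ^ 2 / (2 * N) := by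
    rw [ht, hexpL]
    apply le_of_eq
    field_simp
    ring
  have hprob := Bw_prob h.meas h.indep (sC C N) N M η Λ D (Real.exp (-C) - ε) t
    (ε ^ 2 * Real.exp L / (8 * (s' ^ 2 + 1) ^ 2)) (by omega) hη0.le (by linarith) hp hD hΛ0 (by
      apply le_of_eq
      rw [hΛ, hDd, ← hs']
      field_simp) (by positivity) hmain hB
  have hy : Real.log ((N : ℝ) + 1) ≤ 2 * L := by
    have h2 : (N : ℝ) + 1 ≤ (N : ℝ) ^ 2 := by
      have : (2 : ℝ) ≤ N := by exact_mod_cast hN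
      nlinarith
    have h3 := Real.log_le_log (by positivity) h2
    rw [Real.log_pow] at h3
    push_cast at h3
    exact h3
  have hnum := numD C ε L s' (Real.log ((N : ℝ) + 1)) hC hε hL1 hs0 hs hy hH
  have hfin : μ.real (Bw X N (sC C N) (Real.exp (-C) - ε)) ≤ 1 / (N : ℝ) ^ 2 := by
    refine hprob.trans ?_
    have h4 : (1 : ℝ) / (N : ℝ) ^ 2 = Real.exp (-(2 * L)) := by
      rw [Real.exp_neg, ← hexpL, ← Real.exp_nat_mul, one_div]
      push_cast
      ring_nf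
    have h5 : ((N : ℝ) + 1) ^ (sC C N) = Real.exp (s' * Real.log ((N : ℝ) + 1)) := by
      rw [hs', Real.exp_nat_mul, Real.exp_log (by positivity)]
    have h6 : s' ^ 2 + 1 ≤ Real.exp (s' ^ 2 + 1) := by
      have := Real.add_one_le_exp (s' ^ 2 + 1)
      linarith
    rw [h4, h5]
    calc Real.exp (s' * Real.log ((N : ℝ) + 1)) * ((s' ^ 2 + 1) *
          Real.exp (-(ε ^ 2 * Real.exp L / (8 * (s' ^ 2 + 1) ^ 2))))
        ≤ Real.exp (s' * Real.log ((N : ℝ) + 1)) * (Real.exp (s' ^ 2 + 1) *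
          Real.exp (-(ε ^ 2 * Real.exp L / (8 * (s' ^ 2 + 1) ^ 2)))) := by
          refine mul_le_mul_of_nonneg_left ?_ (Real.exp_pos _).le
          exact mul_le_mul_of_nonneg_right h6 (Real.exp_pos _).le
      _ = Real.exp (s' * Real.log ((N : ℝ) + 1) + (s' ^ 2 + 1) +
          -(ε ^ 2 * Real.exp L / (8 * (s' ^ 2 + 1) ^ 2))) := by
          rw [Real.exp_add (s' * Real.log ((N : ℝ) + 1) + (s' ^ 2 + 1)),
            Real.exp_add (s' * Real.log ((N : ℝ) + 1)), mul_assoc]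
      _ ≤ Real.exp (-(2 * L)) := Real.exp_le_exp.2 (by linarith)
  rw [← ofReal_measureReal (measure_ne_top μ _)]
  exact ENNReal.ofReal_le_ofReal hfin

lemma ae_not_Bw {μ : Measure Ω} [IsProbabilityMeasure μ] {X : ℕ → Set Ω} (h : PrimeModel μ X)
    (C ε : ℝ) (hC : 0 ≤ C) (hε : 0 < ε) (hε1 : ε ≤ 1) :
    ∀ᵐ ω ∂μ, ∀ᶠ N : ℕ in atTop, ω ∉ Bw X N (sC C N) (Real.exp (-C) - ε) := by
  obtain ⟨N1, hN1⟩ := eventually_atTop.1 (Bw_small h C ε hC hε hε1)
  have hsum : ∑' N : ℕ, μ (Bw X (N + N1) (sC C (N + N1)) (Real.exp (-C) - ε)) ≠ ∞ := by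
    have h1 : Summable (fun N : ℕ => (1 : ℝ) / ((N + N1 : ℕ) : ℝ) ^ 2) :=
      (summable_nat_add_iff (f := fun N : ℕ => (1 : ℝ) / (N : ℝ) ^ 2) N1).2
        (Real.summable_one_div_nat_pow.2 (by norm_num))
    refine ne_top_of_le_ne_top h1.tsum_ofReal_ne_top ?_
    exact ENNReal.tsum_le_tsum fun N => hN1 (N + N1) (by omega)
  have h2 := ae_eventually_notMem hsum
  filter_upwards [h2] with ω hω
  obtain ⟨K, hK⟩ := eventually_atTop.1 hω
  refine eventually_atTop.2 ⟨K + N1, fun N hN => ?_⟩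
  have := hK (N - N1) (by omega)
  rwa [Nat.sub_add_cancel (by omega)] at this

/-- almost surely, every set with at most `C log N` elements up to `N` misses a proportion of
at least `e ^ (-C) - o(1)` of the integers up to `N` -/
theorem dlow {μ : Measure Ω} [IsProbabilityMeasure μ] {X : ℕ → Set Ω} (h : PrimeModel μ X) :
    ∀ᵐ ω ∂μ, ∀ C : ℝ, 0 ≤ C → ∀ ε : ℝ, 0 < ε → ∀ᶠ N : ℕ in atTop, ∀ A : Set ℕ,
      (cnt A N : ℝ) ≤ C * Real.log N → (Real.exp (-C) - ε) * N ≤ mis (rset X ω) A N := by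
  classical
  have h1 : ∀ᵐ ω ∂μ, ∀ q : ℚ, ∀ k : ℕ, 0 ≤ q → ∀ᶠ N : ℕ in atTop,
      ω ∉ Bw X N (sC q N) (Real.exp (-(q : ℝ)) - 1 / ((k : ℝ) + 1)) := by
    rw [ae_all_iff]
    intro q
    rw [ae_all_iff]
    intro k
    by_cases hq : 0 ≤ q
    · have h2 := ae_not_Bw h (q : ℝ) (1 / ((k : ℝ) + 1)) (by exact_mod_cast hq) (by positivity) (by
        rw [div_le_one (by positivity)]
        have : (0 : ℝ) ≤ k := Nat.cast_nonneg k
        linarith)
      filter_upwards [h2] with ω hω _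
      exact hω
    · exact Eventually.of_forall fun ω hq' => absurd hq' hq
  filter_upwards [h1] with ω hω C hC ε hε
  obtain ⟨q, hq1, hq2⟩ := exists_rat_btwn (show C < C + ε / 2 by linarith)
  obtain ⟨k, hk⟩ := exists_nat_one_div_lt (show (0 : ℝ) < ε / 2 by positivity)
  have hq0 : 0 ≤ q := by
    have : (0 : ℝ) ≤ q := hC.trans hq1.le
    exact_mod_cast this
  filter_upwards [hω q k hq0, eventually_ge_atTop 1] with N hN hN1 A hA
  by_contra hcon
  push Not at hcon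
  apply hN
  have hlog : 0 ≤ Real.log N := Real.log_nonneg (by exact_mod_cast hN1)
  have h3 : cnt A N ≤ ⌊(q : ℝ) * Real.log N⌋₊ := by
    apply Nat.le_floor
    refine hA.trans ?_
    exact mul_le_mul_of_nonneg_right hq1.le hlog
  refine mem_Bw ((Finset.range (N + 1)).filter (fun a => a ∈ A)) (Finset.filter_subset _ _) ?_ ?_
  · have h4 : (Finset.range (N + 1)).filter (fun a => a ∈ A) ⊆
        insert 0 ((Finset.Icc 1 N).filter (fun a => a ∈ A)) := by
      intro a ha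
      rw [Finset.mem_filter, Finset.mem_range] at ha
      rw [Finset.mem_insert, Finset.mem_filter, Finset.mem_Icc]
      by_cases h0 : a = 0
      · exact Or.inl h0
      · exact Or.inr ⟨⟨by omega, by omega⟩, ha.2⟩
    have h5 : ((Finset.Icc 1 N).filter (fun a => a ∈ A)).card = cnt A N := by
      unfold cnt
      rw [← Set.ncard_coe_finset]
      congr 1
      ext a
      simp only [Finset.coe_filter, Finset.mem_Icc, Set.mem_ofPred_eq, Set.mem_inter_iff,
        Set.mem_Icc]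
      tauto
    have h6 := (Finset.card_le_card h4).trans (Finset.card_insert_le _ _)
    rw [h5] at h6
    unfold sC
    omega
  · rw [← mis_eq A N _ (by
      intro a
      rw [Finset.mem_filter, Finset.mem_range]
      constructor
      · rintro ⟨h7, h8⟩
        exact ⟨h8, by omega⟩
      · rintro ⟨h7, h8⟩
        exact ⟨by omega, h7⟩)]
    refine hcon.le.trans ?_
    refine mul_le_mul_of_nonneg_right ?_ (Nat.cast_nonneg N)
    have h7 : Real.exp (-C) * (1 - (q - C)) ≤ Real.exp (-(q : ℝ)) := by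
      have h8 : Real.exp (-(q : ℝ)) = Real.exp (-C) * Real.exp (-(q - C)) := by
        rw [← Real.exp_add]
        congr 1
        ring
      rw [h8]
      refine mul_le_mul_of_nonneg_left ?_ (Real.exp_pos _).le
      have := Real.add_one_le_exp (-((q : ℝ) - C))
      linarith
    have h9 : Real.exp (-C) ≤ 1 := Real.exp_le_one_iff.2 (by linarith)
    have h10 : 0 < Real.exp (-C) := Real.exp_pos _
    have h11 : Real.exp (-C) * ((q : ℝ) - C) ≤ 1 * (ε / 2) :=
      mul_le_mul h9 (by linarith) (by linarith) (by norm_num)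
    nlinarith

end Pool.Agent.CRM
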