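import Pool.Agent.CRM.Indep
import Pool.Agent.CRM.Defs

/-!
# Cramér's random model: a sparse additive complement
-/

set_option autoImplicit false

open MeasureTheory ProbabilityTheory Filter Set
open scoped ENNReal

namespace Pool.Agent.CRM

/-- the prescribed counting function -/
noncomputable def gf (c : ℝ) (m : ℕ) : ℕ := ⌊c * Real.log m ^ 2⌋₊

/-- the complement -/
def AA (c : ℝ) (M : ℕ) : Set ℕ := {m | M ≤ m ∧ gf c m < gf c (m + 1)}

open Classical in
/-- its elements below `K` -/
noncomputable def SA (c : ℝ) (M K : ℕ) : Finset ℕ :=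
  (Finset.Ico M K).filter (fun m => gf c m < gf c (m + 1))

lemma gf_mono {c : ℝ} (hc : 0 ≤ c) {m m' : ℕ} (h1 : 1 ≤ m) (h : m ≤ m') : gf c m ≤ gf c m' := by
  unfold gf
  apply Nat.floor_mono
  apply mul_le_mul_of_nonneg_left _ hc
  have h2 : (1 : ℝ) ≤ m := by exact_mod_cast h1
  have h3 : (m : ℝ) ≤ m' := by exact_mod_cast h
  exact pow_le_pow_left₀ (Real.log_nonneg h2) (Real.log_le_log (by linarith) h3) 2

/-- the increments of `c (log m) ^ 2` are small -/
lemma inc_small (c : ℝ) (hc : 0 < c) : ∃ M : ℕ, 3 ≤ M ∧ ∀ m : ℕ, M ≤ m →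
    c * Real.log ((m + 1 : ℕ) : ℝ) ^ 2 ≤ c * Real.log m ^ 2 + 1 := by
  have h1 : Tendsto (fun x : ℝ => Real.log x / x) atTop (nhds 0) := by
    have := Real.isLittleO_log_id_atTop.tendsto_div_nhds_zero
    exact this
  have h2 : ∀ᶠ x : ℝ in atTop, Real.log x / x < 1 / (4 * c) :=
    h1.eventually (gt_mem_nhds (by positivity))
  have h3 := ((tendsto_add_atTop_nat 1).eventually
    (tendsto_natCast_atTop_atTop (R := ℝ) |>.eventually h2))
  obtain ⟨M, hM⟩ := eventually_atTop.1 h3
  refine ⟨max M 3, le_max_right _ _, fun m hm => ?_⟩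
  have hm3 : 3 ≤ m := (le_max_right _ _).trans hm
  have h4 := hM m ((le_max_left _ _).trans hm)
  have hm0 : (0 : ℝ) < m := by positivity
  have hm1 : (1 : ℝ) ≤ m := by exact_mod_cast (by omega : 1 ≤ m)
  have e1 : Real.log ((m + 1 : ℕ) : ℝ) - Real.log m ≤ 1 / m := by
    rw [← Real.log_div (by positivity) (by positivity)]
    have h5 := Real.log_le_sub_one_of_pos (x := ((m + 1 : ℕ) : ℝ) / m) (by positivity)
    refine h5.trans (le_of_eq ?_)
    push_cast
    field_simp
    ring
  have e2 : 0 ≤ Real.log m := Real.log_nonneg hm1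
  have e3 : Real.log m ≤ Real.log ((m + 1 : ℕ) : ℝ) := by
    apply Real.log_le_log hm0
    push_cast
    linarith
  set a := Real.log m
  set b := Real.log ((m + 1 : ℕ) : ℝ) with hb
  have h6 : b ^ 2 - a ^ 2 ≤ (1 / m) * (2 * b) := by
    have h7 : b ^ 2 - a ^ 2 = (b - a) * (b + a) := by ring
    rw [h7]
    exact mul_le_mul e1 (by linarith) (by linarith) (by positivity)
  have h8 : b / ((m + 1 : ℕ) : ℝ) < 1 / (4 * c) := h4
  rw [div_lt_div_iff₀ (by positivity) (by positivity)] at h8
  have h9 : c * ((1 / m) * (2 * b)) ≤ 1 := by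
    have h10 : ((m + 1 : ℕ) : ℝ) ≤ 2 * m := by
      push_cast
      linarith
    have h11 : c * ((1 / m) * (2 * b)) = (2 * c * b) / m := by ring
    rw [h11, div_le_one hm0]
    nlinarith
  nlinarith

lemma card_SA {c : ℝ} (hc : 0 ≤ c) {M : ℕ} (hM : 1 ≤ M)
    (hinc : ∀ m : ℕ, M ≤ m → c * Real.log ((m + 1 : ℕ) : ℝ) ^ 2 ≤ c * Real.log m ^ 2 + 1)
    (K : ℕ) (hK : M ≤ K) : (SA c M K).card + gf c M = gf c K := by
  classical
  induction K, hK using Nat.le_induction with
  | base => simp [SA]
  | succ K hK ih =>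
    have h1 : gf c K ≤ gf c (K + 1) := gf_mono hc (by omega) (by omega)
    have h2 : gf c (K + 1) ≤ gf c K + 1 := by
      unfold gf
      have h3 := Nat.floor_mono (hinc K hK)
      rwa [Nat.floor_add_one (by positivity)] at h3
    have h4 : SA c M (K + 1) = if gf c K < gf c (K + 1) then insert K (SA c M K) else SA c M K := by
      unfold SA
      rw [← Finset.insert_Ico_right_eq_Ico_add_one hK, Finset.filter_insert]
    have h5 : K ∉ SA c M K := by
      unfold SA
      simp
    rw [h4]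
    split_ifs with h6
    · rw [Finset.card_insert_of_notMem h5]
      omega
    · omega

lemma cnt_AA {c : ℝ} {M : ℕ} (hM : 1 ≤ M) (N : ℕ) : cnt (AA c M) N = (SA c M (N + 1)).card := by
  classical
  unfold cnt
  rw [← Set.ncard_coe_finset]
  congr 1
  ext m
  simp only [AA, SA, Set.mem_inter_iff, Set.mem_ofPred_eq, Set.mem_Icc, Finset.coe_filter,
    Finset.mem_Ico]
  constructor
  · rintro ⟨⟨h1, h2⟩, h3, h4⟩
    exact ⟨⟨h1, by omega⟩, h2⟩
  · rintro ⟨⟨h1, h2⟩, h3⟩
    exact ⟨⟨h1, h3⟩, by omega, by omega⟩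

variable {Ω : Type} [MeasurableSpace Ω]

/-- the probability that `n` is not covered -/
lemma Un_up {μ : Measure Ω} [IsProbabilityMeasure μ] {X : ℕ → Set Ω} (h : Cramer μ X)
    (S : Finset ℕ) (n : ℕ) (hn : 6 ≤ n) (hS : ∀ a ∈ S, a ≤ n / 2) :
    μ (Un X S n) ≤ ENNReal.ofReal (Real.exp (-(S.card / Real.log n))) := by
  classical
  have hn1 : (1 : ℝ) < n := by exact_mod_cast (by omega : 1 < n)
  have hL : 0 < Real.log n := Real.log_pos hn1
  rw [Un_prob h.meas h.indep]
  have h1 : ∀ m ∈ Ix S n, μ (X m)ᶜ ≤ ENNReal.ofReal (Real.exp (-(1 / Real.log n))) := by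
    intro m hm
    simp only [Ix, Finset.mem_image, Finset.mem_filter] at hm
    obtain ⟨a, ⟨ha, han⟩, rfl⟩ := hm
    have h2 := hS a ha
    rw [prob_compl_eq_one_sub (h.meas _), h.prob _ (by omega), ← ENNReal.ofReal_one,
      ← ENNReal.ofReal_sub _ (by positivity)]
    apply ENNReal.ofReal_le_ofReal
    have h3 : Real.log ((n - a : ℕ) : ℝ) ≤ Real.log n :=
      Real.log_le_log (by exact_mod_cast (by omega : 0 < n - a)) (by exact_mod_cast (by omega))
    have h4 : 0 < Real.log ((n - a : ℕ) : ℝ) :=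
      Real.log_pos (by exact_mod_cast (by omega : 1 < n - a))
    have h5 : 1 / Real.log n ≤ 1 / Real.log ((n - a : ℕ) : ℝ) := one_div_le_one_div_of_le h4 h3
    linarith [Real.add_one_le_exp (-(1 / Real.log n))]
  have h2 : (Ix S n).card = S.card := by
    unfold Ix
    rw [Finset.card_image_of_injOn]
    · congr 1
      refine Finset.filter_true_of_mem fun a ha => ?_
      have := hS a ha
      omega
    · intro a ha b hb hab
      simp only [Finset.coe_filter, Set.mem_ofPred_eq] at ha hb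
      simp only at hab
      omega
  calc ∏ m ∈ Ix S n, μ (X m)ᶜ ≤ ∏ _m ∈ Ix S n, ENNReal.ofReal (Real.exp (-(1 / Real.log n))) :=
        Finset.prod_le_prod' h1
    _ = ENNReal.ofReal (Real.exp (-(S.card / Real.log n))) := by
        rw [Finset.prod_const, h2, ← ENNReal.ofReal_pow (Real.exp_pos _).le, ← Real.exp_nat_mul]
        congr 2
        ring

/-- for every `ε` one set with at most `(1 + ε) (log N) ^ 2` elements up to `N` is almost surely
an additive complement -/
theorem up (ε : ℝ) (hε : 0 < ε) : ∃ A : Set ℕ,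
    (∀ᶠ N : ℕ in atTop, (cnt A N : ℝ) ≤ (1 + ε) * Real.log N ^ 2) ∧
    ∀ (Ω : Type) [MeasurableSpace Ω] (μ : Measure Ω) [IsProbabilityMeasure μ] (X : ℕ → Set Ω),
      Cramer μ X → ∀ᵐ ω ∂μ, AddCompl (rset X ω) A := by
  classical
  have hlog : Tendsto (fun N : ℕ => Real.log N) atTop atTop :=
    Real.tendsto_log_atTop.comp tendsto_natCast_atTop_atTop
  set c : ℝ := 1 + ε / 2 with hc
  have hc0 : 0 < c := by positivity
  obtain ⟨M, hM3, hinc⟩ := inc_small c hc0
  have hM1 : 1 ≤ M := by omega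
  refine ⟨AA c M, ?_, ?_⟩
  · filter_upwards [hlog.eventually_ge_atTop (1 + 2 / ε), eventually_ge_atTop M] with N hL hN
    rw [cnt_AA hM1]
    have h1 := card_SA hc0.le hM1 hinc (N + 1) (by omega)
    have h2 : (SA c M (N + 1)).card ≤ gf c (N + 1) := by omega
    have h3 : ((SA c M (N + 1)).card : ℝ) ≤ gf c (N + 1) := by exact_mod_cast h2
    have h4 : (gf c (N + 1) : ℝ) ≤ c * Real.log ((N + 1 : ℕ) : ℝ) ^ 2 :=
      Nat.floor_le (by positivity)
    have h5 := hinc N hN
    have h6 : 1 ≤ ε / 2 * Real.log N ^ 2 := by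
      have h7 : 0 < 2 / ε := by positivity
      have h8 : 2 / ε ≤ Real.log N ^ 2 := by nlinarith
      calc (1 : ℝ) = ε / 2 * (2 / ε) := by field_simp
        _ ≤ ε / 2 * Real.log N ^ 2 := mul_le_mul_of_nonneg_left h8 (by positivity)
    have h9 : (1 + ε) * Real.log N ^ 2 = c * Real.log N ^ 2 + ε / 2 * Real.log N ^ 2 := by
      rw [hc]; ring
    rw [h9]
    linarith
  · intro Ω _ μ _ X h
    -- the probability that `n` is not covered
    have hbound : ∀ᶠ n : ℕ in atTop, μ (Un X (SA c M (n / 2 + 1)) n) ≤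
        ENNReal.ofReal (1 / (n : ℝ) ^ (1 + ε / 4)) := by
      set C : ℝ := 1 + gf c M with hC
      have hC0 : 0 < C := by positivity
      have hlarge : ∀ᶠ L : ℝ in atTop, (1 + ε / 4) * L ^ 2 + C ≤ c * (L - Real.log 2) ^ 2 := by
        -- `(ε / 4) L ^ 2` beats the linear term
        have hl2 : 0 < Real.log 2 := Real.log_pos (by norm_num)
        have hl2' : Real.log 2 ≤ 1 := by
          have := Real.log_two_lt_d9
          linarith
        filter_upwards [eventually_ge_atTop (1 + (2 * c + C) / (ε / 4))] with L hL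
        have h1 : 0 < (2 * c + C) / (ε / 4) := by positivity
        have h2 : (2 * c + C) ≤ ε / 4 * L := by
          calc (2 * c + C) = ε / 4 * ((2 * c + C) / (ε / 4)) := by field_simp
            _ ≤ ε / 4 * L := mul_le_mul_of_nonneg_left (by linarith) (by positivity)
        have h3 : (2 * c + C) * L ≤ ε / 4 * L * L :=
          mul_le_mul_of_nonneg_right h2 (by linarith)
        have h4 : C ≤ C * L := by nlinarith
        have h5 : c * (L - Real.log 2) ^ 2 ≥ c * L ^ 2 - 2 * c * L := by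
          have h6 : c * (L - Real.log 2) ^ 2 = c * L ^ 2 - 2 * c * L * Real.log 2 +
            c * Real.log 2 ^ 2 := by ring
          have h7 : 2 * c * L * Real.log 2 ≤ 2 * c * L * 1 :=
            mul_le_mul_of_nonneg_left hl2' (by
              have : 0 ≤ L := by linarith
              positivity)
          have h8 : 0 ≤ c * Real.log 2 ^ 2 := by positivity
          rw [h6]
          linarith
        have h9 : c * L ^ 2 = (1 + ε / 4) * L ^ 2 + ε / 4 * L * L := by rw [hc]; ring
        linarith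
      filter_upwards [hlog.eventually hlarge, eventually_ge_atTop (2 * M + 6)] with n hL hn
      have hn0 : (0 : ℝ) < n := by exact_mod_cast (by omega : 0 < n)
      have hn1 : (1 : ℝ) < n := by exact_mod_cast (by omega : 1 < n)
      have hL0 : 0 < Real.log n := Real.log_pos hn1
      have hS : ∀ a ∈ SA c M (n / 2 + 1), a ≤ n / 2 := by
        intro a ha
        unfold SA at ha
        rw [Finset.mem_filter, Finset.mem_Ico] at ha
        omega
      refine (Un_up h _ n (by omega) hS).trans ?_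
      apply ENNReal.ofReal_le_ofReal
      have hcard : (1 + ε / 4) * Real.log n ^ 2 ≤ (SA c M (n / 2 + 1)).card := by
        have h1 := card_SA hc0.le hM1 hinc (n / 2 + 1) (by omega)
        have h2 : ((SA c M (n / 2 + 1)).card : ℝ) + gf c M = gf c (n / 2 + 1) := by
          exact_mod_cast h1
        have h3 : c * Real.log ((n / 2 + 1 : ℕ) : ℝ) ^ 2 < gf c (n / 2 + 1) + 1 :=
          Nat.lt_floor_add_one _
        have h4 : Real.log n - Real.log 2 ≤ Real.log ((n / 2 + 1 : ℕ) : ℝ) := by
          rw [← Real.log_div hn0.ne' (by norm_num)]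
          apply Real.log_le_log (by positivity)
          rw [div_le_iff₀ (by norm_num)]
          exact_mod_cast (by omega : n ≤ (n / 2 + 1) * 2)
        have h5 : 0 ≤ Real.log n - Real.log 2 := by
          rw [← Real.log_div hn0.ne' (by norm_num)]
          apply Real.log_nonneg
          rw [le_div_iff₀ (by norm_num)]
          exact_mod_cast (by omega : 1 * 2 ≤ n)
        have h6 : c * (Real.log n - Real.log 2) ^ 2 ≤ c * Real.log ((n / 2 + 1 : ℕ) : ℝ) ^ 2 :=
          mul_le_mul_of_nonneg_left (pow_le_pow_left₀ h5 h4 2) hc0.le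
        rw [hC] at hL
        linarith
      have h7 : (1 : ℝ) / (n : ℝ) ^ (1 + ε / 4) = Real.exp (-((1 + ε / 4) * Real.log n)) := by
        rw [Real.rpow_def_of_pos hn0, Real.exp_neg, one_div, mul_comm]
      rw [h7]
      apply Real.exp_le_exp.2
      apply neg_le_neg
      rw [le_div_iff₀ hL0]
      calc (1 + ε / 4) * Real.log n * Real.log n = (1 + ε / 4) * Real.log n ^ 2 := by ring
        _ ≤ _ := hcard
    obtain ⟨N1, hN1⟩ := eventually_atTop.1 hbound
    have hsum : ∑' N : ℕ, μ (Un X (SA c M ((N + N1) / 2 + 1)) (N + N1)) ≠ ∞ := by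
      have h1 : Summable (fun N : ℕ => (1 : ℝ) / ((N + N1 : ℕ) : ℝ) ^ (1 + ε / 4)) :=
        (summable_nat_add_iff (f := fun N : ℕ => (1 : ℝ) / (N : ℝ) ^ (1 + ε / 4)) N1).2
          (Real.summable_one_div_nat_rpow.2 (by linarith))
      refine ne_top_of_le_ne_top h1.tsum_ofReal_ne_top ?_
      exact ENNReal.tsum_le_tsum fun N => hN1 (N + N1) (by omega)
    filter_upwards [ae_eventually_notMem hsum] with ω hω
    obtain ⟨K, hK⟩ := eventually_atTop.1 hω
    refine ⟨K + N1, fun n hn => ?_⟩
    have h1 := hK (n - N1) (by omega)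
    rw [Nat.sub_add_cancel (by omega : N1 ≤ n)] at h1
    simp only [Un, mem_iInter, not_forall] at h1
    obtain ⟨m, hm, hX⟩ := h1
    simp only [Ix, Finset.mem_image, Finset.mem_filter] at hm
    obtain ⟨a, ⟨ha, han⟩, rfl⟩ := hm
    refine ⟨n - a, ?_, a, ?_, by omega⟩
    · simpa [rset] using hX
    · unfold SA at ha
      rw [Finset.mem_filter, Finset.mem_Ico] at ha
      exact ⟨ha.1.1, ha.2⟩

end Pool.Agent.CRM
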