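import Pool.Agent.CRM.Dens2
import Pool.Agent.CRM.Up

/-!
# Cramér's random model: a set of logarithmic size which misses few integers
-/

set_option autoImplicit false

open MeasureTheory ProbabilityTheory Filter Set
open scoped ENNReal

namespace Pool.Agent.CRM

/-- the prescribed counting function -/
noncomputable def gl (C : ℝ) (m : ℕ) : ℕ := ⌊C * Real.log m⌋₊

/-- the set -/
def AL (C : ℝ) (M : ℕ) : Set ℕ := {m | M ≤ m ∧ gl C m < gl C (m + 1)}

open Classical in
/-- its elements below `K` -/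
noncomputable def SL (C : ℝ) (M K : ℕ) : Finset ℕ :=
  (Finset.Ico M K).filter (fun m => gl C m < gl C (m + 1))

lemma gl_mono {C : ℝ} (hC : 0 ≤ C) {m m' : ℕ} (h1 : 1 ≤ m) (h : m ≤ m') : gl C m ≤ gl C m' := by
  unfold gl
  apply Nat.floor_mono
  apply mul_le_mul_of_nonneg_left _ hC
  have h2 : (1 : ℝ) ≤ m := by exact_mod_cast h1
  have h3 : (m : ℝ) ≤ m' := by exact_mod_cast h
  exact Real.log_le_log (by linarith) h3

lemma inc_small1 (C : ℝ) (hC : 0 < C) : ∃ M : ℕ, 3 ≤ M ∧ 1 ≤ gl C M ∧ ∀ m : ℕ, M ≤ m →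
    C * Real.log ((m + 1 : ℕ) : ℝ) ≤ C * Real.log m + 1 := by
  have hlog : Tendsto (fun N : ℕ => Real.log N) atTop atTop :=
    Real.tendsto_log_atTop.comp tendsto_natCast_atTop_atTop
  obtain ⟨M, hM⟩ := eventually_atTop.1 (((hlog.eventually_ge_atTop (1 / C)).and
    (eventually_ge_atTop (3 + ⌈C⌉₊))))
  have hM1 := hM M le_rfl
  refine ⟨M, by omega, ?_, fun m hm => ?_⟩
  · unfold gl
    apply Nat.le_floor
    have h1 := hM1.1
    rw [div_le_iff₀ hC] at h1
    push_cast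
    linarith
  · have hm2 := (hM m hm).2
    have hm0 : (0 : ℝ) < m := by exact_mod_cast (by omega : 0 < m)
    have hmC : C ≤ m := by
      refine (Nat.le_ceil C).trans ?_
      exact_mod_cast (by omega : ⌈C⌉₊ ≤ m)
    have e1 : Real.log ((m + 1 : ℕ) : ℝ) - Real.log m ≤ 1 / m := by
      rw [← Real.log_div (by positivity) (by positivity)]
      have h5 := Real.log_le_sub_one_of_pos (x := ((m + 1 : ℕ) : ℝ) / m) (by positivity)
      refine h5.trans (le_of_eq ?_)
      push_cast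
      field_simp
      ring
    have e2 : C * (1 / m) ≤ 1 := by
      rw [mul_one_div, div_le_one hm0]
      exact hmC
    have e3 := mul_le_mul_of_nonneg_left e1 hC.le
    linarith

lemma card_SL {C : ℝ} (hC : 0 ≤ C) {M : ℕ} (hM : 1 ≤ M)
    (hinc : ∀ m : ℕ, M ≤ m → C * Real.log ((m + 1 : ℕ) : ℝ) ≤ C * Real.log m + 1)
    (K : ℕ) (hK : M ≤ K) : (SL C M K).card + gl C M = gl C K := by
  classical
  induction K, hK using Nat.le_induction with
  | base => simp [SL]
  | succ K hK ih =>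
    have h1 : gl C K ≤ gl C (K + 1) := gl_mono hC (by omega) (by omega)
    have h2 : gl C (K + 1) ≤ gl C K + 1 := by
      unfold gl
      have h3 := Nat.floor_mono (hinc K hK)
      have h4 : 0 ≤ C * Real.log K :=
        mul_nonneg hC (Real.log_nonneg (by exact_mod_cast (by omega : 1 ≤ K)))
      rwa [Nat.floor_add_one h4] at h3
    have h4 : SL C M (K + 1) = if gl C K < gl C (K + 1) then insert K (SL C M K) else SL C M K := by
      unfold SL
      rw [← Finset.insert_Ico_right_eq_Ico_add_one hK, Finset.filter_insert]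
    have h5 : K ∉ SL C M K := by
      unfold SL
      simp
    rw [h4]
    split_ifs with h6
    · rw [Finset.card_insert_of_notMem h5]
      omega
    · omega

lemma cnt_AL {C : ℝ} {M : ℕ} (hM : 1 ≤ M) (N : ℕ) : cnt (AL C M) N = (SL C M (N + 1)).card := by
  classical
  unfold cnt
  rw [← Set.ncard_coe_finset]
  congr 1
  ext m
  simp only [AL, SL, Set.mem_inter_iff, Set.mem_ofPred_eq, Set.mem_Icc, Finset.coe_filter,
    Finset.mem_Ico]
  constructor
  · rintro ⟨⟨h1, h2⟩, h3, h4⟩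
    exact ⟨⟨h1, by omega⟩, h2⟩
  · rintro ⟨⟨h1, h2⟩, h3⟩
    exact ⟨⟨h1, h3⟩, by omega, by omega⟩

lemma mem_SL {C : ℝ} {M : ℕ} (N a : ℕ) : a ∈ SL C M (N + 1) ↔ a ∈ AL C M ∧ a ≤ N := by
  classical
  simp only [AL, SL, Set.mem_ofPred_eq, Finset.mem_filter, Finset.mem_Ico]
  constructor
  · rintro ⟨⟨h1, h2⟩, h3⟩
    exact ⟨⟨h1, h3⟩, by omega⟩
  · rintro ⟨⟨h1, h2⟩, h3⟩
    exact ⟨⟨h1, by omega⟩, h2⟩

lemma cnt_AL_le {C : ℝ} (hC : 0 < C) {M : ℕ} (hM : 3 ≤ M) (hM1 : 1 ≤ gl C M)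
    (hinc : ∀ m : ℕ, M ≤ m → C * Real.log ((m + 1 : ℕ) : ℝ) ≤ C * Real.log m + 1) (N : ℕ) :
    (cnt (AL C M) N : ℝ) ≤ C * Real.log N := by
  classical
  rw [cnt_AL (by omega)]
  rcases lt_or_ge N M with h | h
  · have h1 : SL C M (N + 1) = ∅ := by
      unfold SL
      rw [Finset.Ico_eq_empty (by omega), Finset.filter_empty]
    rw [h1, Finset.card_empty, Nat.cast_zero]
    exact mul_nonneg hC.le (Real.log_natCast_nonneg N)
  · have h1 := card_SL hC.le (by omega) hinc (N + 1) (by omega)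
    have h2 : ((SL C M (N + 1)).card : ℝ) + gl C M = gl C (N + 1) := by exact_mod_cast h1
    have h3 : (gl C (N + 1) : ℝ) ≤ C * Real.log ((N + 1 : ℕ) : ℝ) :=
      Nat.floor_le (mul_nonneg hC.le (Real.log_natCast_nonneg _))
    have h4 := hinc N h
    have h5 : (1 : ℝ) ≤ gl C M := by exact_mod_cast hM1
    linarith

variable {Ω : Type} [MeasurableSpace Ω]

/-- the complements of independent events are independent -/
lemma indep_compl' {ι : Type} {μ : Measure Ω} {X : ι → Set Ω}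
    (hm : ∀ n, MeasurableSet (X n)) (h : iIndepSet X μ) : iIndepSet (fun n => (X n)ᶜ) μ := by
  rw [iIndepSet_iff_meas_biInter (fun n => (hm n).compl)]
  intro s
  have h1 := (iIndepSet_iff_iIndep _ _).1 h
  refine h1.meas_biInter fun i _ => ?_
  exact (MeasurableSpace.measurableSet_generateFrom (mem_singleton (X i))).compl

/-- the probability that `n` is missed -/
lemma Un_AL {μ : Measure Ω} [IsProbabilityMeasure μ] {X : ℕ → Set Ω} (h : Cramer μ X)
    {C : ℝ} (hC : 0 < C) {M : ℕ} (hM : 3 ≤ M)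
    (hinc : ∀ m : ℕ, M ≤ m → C * Real.log ((m + 1 : ℕ) : ℝ) ≤ C * Real.log m + 1)
    (δ : ℝ) (hδ : 0 < δ) :
    ∃ n₁ : ℕ, ∀ n, n₁ ≤ n → ∀ N, n ≤ N →
      μ.real (Un X (SL C M (N + 1)) n) ≤ Real.exp (-C) + δ := by
  classical
  have hlog : Tendsto (fun N : ℕ => Real.log N) atTop atTop :=
    Real.tendsto_log_atTop.comp tendsto_natCast_atTop_atTop
  set B : ℝ := C + 1 + gl C M with hB
  have hB0 : 0 < B := by positivity
  -- the limit
  have hlim : Tendsto (fun n : ℕ => Real.exp (-(C - B / Real.log n))) atTop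
      (nhds (Real.exp (-(C - 0)))) := by
    have h1 : Tendsto (fun n : ℕ => B / Real.log n) atTop (nhds 0) :=
      tendsto_const_nhds.div_atTop hlog
    exact (Real.continuous_exp.tendsto _).comp ((tendsto_const_nhds.sub h1).neg)
  rw [sub_zero] at hlim
  have hev := hlim.eventually (gt_mem_nhds (show Real.exp (-C) < Real.exp (-C) + δ by linarith))
  obtain ⟨n₁, hn₁⟩ := eventually_atTop.1 (hev.and (eventually_ge_atTop (2 * M + 6)))
  refine ⟨n₁, fun n hn N hN => ?_⟩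
  obtain ⟨h1, h2⟩ := hn₁ n hn
  have hn0 : (0 : ℝ) < n := by exact_mod_cast (by omega : 0 < n)
  have hn1 : (1 : ℝ) < n := by exact_mod_cast (by omega : 1 < n)
  have hL0 : 0 < Real.log n := Real.log_pos hn1
  have hS : ∀ a ∈ SL C M (n / 2 + 1), a ≤ n / 2 := by
    intro a ha
    exact ((mem_SL (n / 2) a).1 ha).2
  have hsub : Un X (SL C M (N + 1)) n ⊆ Un X (SL C M (n / 2 + 1)) n := by
    intro ω hω
    simp only [Un, mem_iInter, Ix, Finset.mem_image, Finset.mem_filter] at hω ⊢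
    rintro m ⟨a, ⟨ha, han⟩, rfl⟩
    have ha' := (mem_SL (n / 2) a).1 ha
    exact hω _ ⟨a, ⟨(mem_SL N a).2 ⟨ha'.1, by omega⟩, han⟩, rfl⟩
  have h3 := Un_up h (SL C M (n / 2 + 1)) n (by omega) hS
  have h4 : μ.real (Un X (SL C M (n / 2 + 1)) n) ≤
      Real.exp (-((SL C M (n / 2 + 1)).card / Real.log n)) := by
    have h5 := ENNReal.toReal_mono ENNReal.ofReal_ne_top h3
    rw [ENNReal.toReal_ofReal (Real.exp_pos _).le] at h5
    exact h5
  refine (measureReal_mono hsub (measure_ne_top _ _)).trans (h4.trans (le_trans ?_ h1.le))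
  apply Real.exp_le_exp.2
  apply neg_le_neg
  rw [le_div_iff₀ hL0, sub_mul, div_mul_cancel₀ _ hL0.ne']
  have h6 := card_SL hC.le (by omega) hinc (n / 2 + 1) (by omega)
  have h7 : ((SL C M (n / 2 + 1)).card : ℝ) + gl C M = gl C (n / 2 + 1) := by exact_mod_cast h6
  have h8 : C * Real.log ((n / 2 + 1 : ℕ) : ℝ) < gl C (n / 2 + 1) + 1 :=
    Nat.lt_floor_add_one _
  have h9 : Real.log n - Real.log 2 ≤ Real.log ((n / 2 + 1 : ℕ) : ℝ) := by
    rw [← Real.log_div hn0.ne' (by norm_num)]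
    apply Real.log_le_log (by positivity)
    rw [div_le_iff₀ (by norm_num)]
    exact_mod_cast (by omega : n ≤ (n / 2 + 1) * 2)
  have h10 : Real.log 2 ≤ 1 := by
    have := Real.log_two_lt_d9
    linarith
  have h11 : C * (Real.log n - Real.log 2) ≤ C * Real.log ((n / 2 + 1 : ℕ) : ℝ) :=
    mul_le_mul_of_nonneg_left h9 hC.le
  have h12 : C * Real.log 2 ≤ C * 1 := mul_le_mul_of_nonneg_left h10 hC.le
  rw [hB]
  linarith

/-- many integers are missed -/
def Mw (X : ℕ → Set Ω) (A : Set ℕ) (N : ℕ) (θ : ℝ) : Set Ω := {ω | θ * N < mis (rset X ω) A N}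

lemma Mw_small {μ : Measure Ω} [IsProbabilityMeasure μ] {X : ℕ → Set Ω} (h : Cramer μ X)
    {C : ℝ} (hC : 0 < C) {M : ℕ} (hM : 3 ≤ M) (hM1 : 1 ≤ gl C M)
    (hinc : ∀ m : ℕ, M ≤ m → C * Real.log ((m + 1 : ℕ) : ℝ) ≤ C * Real.log m + 1)
    (ε : ℝ) (hε : 0 < ε) :
    ∀ᶠ N : ℕ in atTop, μ (Mw X (AL C M) N (Real.exp (-C) + ε)) ≤
      ENNReal.ofReal (1 / (N : ℝ) ^ 2) := by
  classical
  have hlog : Tendsto (fun N : ℕ => Real.log N) atTop atTop :=
    Real.tendsto_log_atTop.comp tendsto_natCast_atTop_atTop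
  obtain ⟨n₁, hn₁⟩ := Un_AL h hC hM hinc (ε / 8) (by positivity)
  filter_upwards [hlog.eventually (ev_K (Kd C ε) 1 one_pos),
    hlog.eventually_ge_atTop 1, eventually_ge_atTop 2,
    tendsto_natCast_atTop_atTop.eventually_ge_atTop ((n₁ : ℝ) * (4 / ε))] with N hH hL1 hN hNn
  set L := Real.log N with hLdef
  rw [one_mul] at hH
  have hN0 : (0 : ℝ) < N := by positivity
  have hexpL : Real.exp L = N := Real.exp_log hN0
  have hL0 : 0 < L := by linarith
  have hx : 0 ≤ C * L := by positivity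
  have hs : ((sC C N : ℕ) : ℝ) ≤ C * L + 1 := by
    unfold sC
    push_cast
    have := Nat.floor_le hx
    linarith
  have hs0 : (0 : ℝ) ≤ ((sC C N : ℕ) : ℝ) := Nat.cast_nonneg _
  set S : Finset ℕ := SL C M (N + 1) with hS
  have hcard : S.card ≤ sC C N := by
    have h1 := cnt_AL_le hC hM hM1 hinc N
    rw [cnt_AL (by omega)] at h1
    have h2 : S.card ≤ ⌊C * Real.log N⌋₊ := Nat.le_floor h1
    unfold sC
    omega
  set t : ℝ := ε * N / (2 * ((sC C N : ℝ) ^ 2 + 1)) with ht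
  have hch := chrom (μ := μ) (fun n => (Un X S n)ᶜ) (fun n => (Un_meas h.meas S n).compl) S
    (Finset.Ioc 0 N) (sC C N) hcard (fun T _ hT =>
      indep_compl' (fun n => Un_meas h.meas S n) (Un_indep h.meas h.indep S T hT)) t N
    (by positivity) hN0 (by rw [Nat.card_Ioc]; simp)
  have hst : ((sC C N : ℝ) ^ 2 + 1) * t = ε / 2 * N := by
    rw [ht]
    field_simp
  have hB : ε ^ 2 * Real.exp L / (8 * ((sC C N : ℝ) ^ 2 + 1) ^ 2) ≤ t ^ 2 / (2 * N) := by
    rw [ht, hexpL]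
    apply le_of_eq
    field_simp
    ring
  -- the expected number of covered integers
  have hexpect : (1 - Real.exp (-C) - ε / 8) * N - ε / 4 * N ≤
      ∑ n ∈ Finset.Ioc 0 N, μ.real (Un X S n)ᶜ := by
    have h1 : ∀ n ∈ Finset.Ioc n₁ N, 1 - Real.exp (-C) - ε / 8 ≤ μ.real (Un X S n)ᶜ := by
      intro n hn
      rw [Finset.mem_Ioc] at hn
      rw [probReal_compl_eq_one_sub (Un_meas h.meas S n)]
      have h2 := hn₁ n (by omega) N hn.2
      linarith
    have h3 : ∑ _n ∈ Finset.Ioc n₁ N, (1 - Real.exp (-C) - ε / 8) ≤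
        ∑ n ∈ Finset.Ioc 0 N, μ.real (Un X S n)ᶜ := by
      refine (Finset.sum_le_sum h1).trans ?_
      refine Finset.sum_le_sum_of_subset_of_nonneg ?_ fun n _ _ => measureReal_nonneg
      exact Finset.Ioc_subset_Ioc_left (by omega)
    refine le_trans ?_ h3
    rw [Finset.sum_const, nsmul_eq_mul, Nat.card_Ioc]
    have h5 : (n₁ : ℝ) ≤ ε / 4 * N := by
      have h6 : (n₁ : ℝ) = ε / 4 * ((n₁ : ℝ) * (4 / ε)) := by field_simp
      rw [h6]
      exact mul_le_mul_of_nonneg_left hNn (by positivity)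
    have h7 : 1 - Real.exp (-C) - ε / 8 ≤ 1 := by
      have := Real.exp_pos (-C)
      linarith
    rcases le_total n₁ N with h8 | h8
    · rw [Nat.cast_sub h8]
      have h9 : (0 : ℝ) ≤ n₁ := Nat.cast_nonneg _
      nlinarith
    · rw [Nat.sub_eq_zero_of_le h8]
      have h9 : (N : ℝ) ≤ n₁ := by exact_mod_cast h8
      push_cast
      nlinarith
  have hsub : Mw X (AL C M) N (Real.exp (-C) + ε) ⊆
      {ω | ∑ n ∈ Finset.Ioc 0 N, ind (Un X S n)ᶜ ω ≤
        ∑ n ∈ Finset.Ioc 0 N, μ.real (Un X S n)ᶜ - ((sC C N : ℝ) ^ 2 + 1) * t} := by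
    intro ω hω
    unfold Mw at hω
    rw [Set.mem_ofPred_eq, mis_eq (AL C M) N S (fun a => mem_SL N a)] at hω
    rw [Set.mem_ofPred_eq, hst]
    have h1 : ∑ n ∈ Finset.Ioc 0 N, ind (Un X S n) ω + ∑ n ∈ Finset.Ioc 0 N, ind (Un X S n)ᶜ ω =
        N := by
      rw [← Finset.sum_add_distrib]
      have h2 : ∀ n, ind (Un X S n) ω + ind (Un X S n)ᶜ ω = 1 := by
        intro n
        unfold ind
        rw [Set.indicator_apply, Set.indicator_apply]
        by_cases hm : ω ∈ Un X S n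
        · simp [hm]
        · simp [hm]
      simp only [h2]
      rw [Finset.sum_const, Nat.card_Ioc, nsmul_eq_mul]
      simp
    nlinarith
  have hfin : μ.real (Mw X (AL C M) N (Real.exp (-C) + ε)) ≤ 1 / (N : ℝ) ^ 2 := by
    refine (measureReal_mono hsub (measure_ne_top _ _)).trans (hch.trans ?_)
    have hnum := numD C ε L (sC C N) 0 hC.le hε hL1 hs0 hs (by positivity) hH
    rw [mul_zero, zero_add] at hnum
    have h4 : (1 : ℝ) / (N : ℝ) ^ 2 = Real.exp (-(2 * L)) := by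
      rw [Real.exp_neg, ← hexpL, ← Real.exp_nat_mul, one_div]
      push_cast
      ring_nf
    have h6 : (sC C N : ℝ) ^ 2 + 1 ≤ Real.exp ((sC C N : ℝ) ^ 2 + 1) := by
      have := Real.add_one_le_exp ((sC C N : ℝ) ^ 2 + 1)
      linarith
    rw [h4]
    calc ((sC C N : ℝ) ^ 2 + 1) * Real.exp (-(t ^ 2 / (2 * N)))
        ≤ Real.exp ((sC C N : ℝ) ^ 2 + 1) * Real.exp (-(t ^ 2 / (2 * N))) :=
          mul_le_mul_of_nonneg_right h6 (Real.exp_pos _).le
      _ = Real.exp (((sC C N : ℝ) ^ 2 + 1) + -(t ^ 2 / (2 * N))) := by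
          rw [Real.exp_add ((sC C N : ℝ) ^ 2 + 1)]
      _ ≤ Real.exp (-(2 * L)) := Real.exp_le_exp.2 (by linarith)
  rw [← ofReal_measureReal (measure_ne_top μ _)]
  exact ENNReal.ofReal_le_ofReal hfin

/-- for every `C` one set with at most `C log N` elements up to `N` almost surely misses a
proportion of at most `e ^ (-C) + o(1)` of the integers up to `N` -/
theorem dup (C : ℝ) (hC : 0 ≤ C) : ∃ A : Set ℕ, (∀ N : ℕ, (cnt A N : ℝ) ≤ C * Real.log N) ∧
    ∀ (Ω : Type) [MeasurableSpace Ω] (μ : Measure Ω) [IsProbabilityMeasure μ] (X : ℕ → Set Ω),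
      Cramer μ X → ∀ᵐ ω ∂μ, ∀ ε : ℝ, 0 < ε → ∀ᶠ N : ℕ in atTop,
        (mis (rset X ω) A N : ℝ) ≤ (Real.exp (-C) + ε) * N := by
  classical
  rcases hC.eq_or_lt with h0 | h0
  · refine ⟨∅, fun N => ?_, fun Ω _ μ _ X _ => Eventually.of_forall fun ω ε hε =>
      Eventually.of_forall fun N => ?_⟩
    · rw [← h0]
      simp [cnt]
    · rw [← h0, neg_zero, Real.exp_zero]
      have h1 : mis (rset X ω) ∅ N ≤ N := by
        unfold mis
        have h2 : {n | n ∈ Icc 1 N ∧ ∀ p ∈ rset X ω, ∀ a ∈ (∅ : Set ℕ), n ≠ p + a} ⊆ Icc 1 N :=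
          fun n hn => hn.1
        have h3 := Set.ncard_le_ncard h2 (Set.finite_Icc 1 N)
        have h4 : (Icc 1 N : Set ℕ).ncard = N := by
          rw [← Finset.coe_Icc, Set.ncard_coe_finset, Nat.card_Icc]
          omega
        omega
      have h5 : (mis (rset X ω) ∅ N : ℝ) ≤ N := by exact_mod_cast h1
      have h6 : (0 : ℝ) ≤ N := Nat.cast_nonneg N
      nlinarith
  · obtain ⟨M, hM, hM1, hinc⟩ := inc_small1 C h0
    refine ⟨AL C M, cnt_AL_le h0 hM hM1 hinc, fun Ω _ μ _ X h => ?_⟩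
    have h1 : ∀ᵐ ω ∂μ, ∀ k : ℕ, ∀ᶠ N : ℕ in atTop,
        ω ∉ Mw X (AL C M) N (Real.exp (-C) + 1 / ((k : ℝ) + 1)) := by
      rw [ae_all_iff]
      intro k
      obtain ⟨N1, hN1⟩ := eventually_atTop.1 (Mw_small h h0 hM hM1 hinc (1 / ((k : ℝ) + 1))
        (by positivity))
      have hsum : ∑' N : ℕ, μ (Mw X (AL C M) (N + N1) (Real.exp (-C) + 1 / ((k : ℝ) + 1))) ≠
          ∞ := by
        have h1 : Summable (fun N : ℕ => (1 : ℝ) / ((N + N1 : ℕ) : ℝ) ^ 2) :=
          (summable_nat_add_iff (f := fun N : ℕ => (1 : ℝ) / (N : ℝ) ^ 2) N1).2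
            (Real.summable_one_div_nat_pow.2 (by norm_num))
        refine ne_top_of_le_ne_top h1.tsum_ofReal_ne_top ?_
        exact ENNReal.tsum_le_tsum fun N => hN1 (N + N1) (by omega)
      filter_upwards [ae_eventually_notMem hsum] with ω hω
      obtain ⟨K, hK⟩ := eventually_atTop.1 hω
      refine eventually_atTop.2 ⟨K + N1, fun N hN => ?_⟩
      have := hK (N - N1) (by omega)
      rwa [Nat.sub_add_cancel (by omega)] at this
    filter_upwards [h1] with ω hω ε hε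
    obtain ⟨k, hk⟩ := exists_nat_one_div_lt hε
    filter_upwards [hω k] with N hN
    unfold Mw at hN
    rw [Set.mem_ofPred_eq, not_lt] at hN
    refine hN.trans ?_
    exact mul_le_mul_of_nonneg_right (by linarith) (Nat.cast_nonneg N)

end Pool.Agent.CRM
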