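import Pool.Agent.CRM.Targets

/-!
# CRM, target EXC: for almost all `k` the totient is divisible by `M`
-/

set_option autoImplicit false

open scoped BigOperators Classical
open Finset MeasureTheory ProbabilityTheory

namespace CRM

namespace EXC_

open ArithmeticFunction ArithmeticFunction.vonMangoldt

theorem log_bound (n : ℕ) (hn : 1 ≤ n) (δ : ℝ) (hδ : 0 < δ) :
    Real.log n / (n : ℝ) ^ (1 + δ) ≤ (1 / δ) * (1 / n) := by
  have hn0 : (0 : ℝ) < n := by exact_mod_cast hn
  have h1 : Real.log n ≤ (n : ℝ) ^ δ / δ := Real.log_le_rpow_div hn0.le hδ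
  have h2 : (0 : ℝ) < (n : ℝ) ^ δ := Real.rpow_pos_of_pos hn0 _
  rw [Real.rpow_add hn0, Real.rpow_one, div_le_iff₀ (by positivity)]
  calc Real.log n ≤ (n : ℝ) ^ δ / δ := h1
    _ = 1 / δ * (1 / n) * (n * (n : ℝ) ^ δ) := by field_simp

theorem rpow_ge (n : ℕ) (hn : 1 ≤ n) (δ : ℝ) (hδ : 0 ≤ δ) : (n : ℝ) ≤ (n : ℝ) ^ (1 + δ) := by
  have h1 : (1 : ℝ) ≤ n := by exact_mod_cast hn
  calc (n : ℝ) = (n : ℝ) ^ (1 : ℝ) := (Real.rpow_one _).symm
    _ ≤ _ := Real.rpow_le_rpow_of_exponent_le h1 (by linarith)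

/-- The reciprocals of the primes congruent to `1`. -/
noncomputable def uu (M : ℕ) : ℕ → ℝ :=
  Set.indicator {q : ℕ | q.Prime ∧ (q : ZMod M) = 1} (fun q => (1 : ℝ) / q)

theorem uu_nonneg (M n : ℕ) : 0 ≤ uu M n := by
  unfold uu
  apply Set.indicator_nonneg
  intro q _
  positivity

theorem term_bound (M : ℕ) [NeZero M] (T : Finset ℕ) (δ : ℝ) (hδ : 0 < δ) (n : ℕ) :
    residueClass (1 : ZMod M) n / (n : ℝ) ^ (1 + δ) ≤
      (if n.Prime then 0 else residueClass (1 : ZMod M) n) / n + (if n ∈ T then 1 else 0) +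
      (1 / δ) * (if n ∈ T then 0 else uu M n) := by
  have hT1 : (0 : ℝ) ≤ if n ∈ T then 1 else 0 := by split_ifs <;> norm_num
  have hT2 : (0 : ℝ) ≤ if n ∈ T then 0 else uu M n := by
    split_ifs
    · exact le_rfl
    · exact uu_nonneg M n
  have hT3 : 0 ≤ (1 / δ) * (if n ∈ T then 0 else uu M n) := by positivity
  rcases n.eq_zero_or_pos with rfl | hn
  · have h1 : residueClass (1 : ZMod M) 0 = 0 := residueClass_apply_zero _
    rw [h1]
    simp only [zero_div, ite_self]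
    linarith
  have hn0 : (0 : ℝ) < n := by exact_mod_cast hn
  have hge := rpow_ge n hn δ hδ.le
  have hres := residueClass_nonneg (1 : ZMod M) n
  by_cases hpr : n.Prime
  · rw [if_pos hpr, zero_div, zero_add]
    by_cases hc : (n : ZMod M) = 1
    · have hr : residueClass (1 : ZMod M) n = Real.log n := by
        unfold residueClass
        rw [Set.indicator_of_mem (show n ∈ {n : ℕ | (n : ZMod M) = 1} from hc)]
        exact vonMangoldt_apply_prime hpr
      rw [hr]
      by_cases hT : n ∈ T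
      · rw [if_pos hT, if_pos hT, mul_zero, add_zero, div_le_iff₀ (by positivity), one_mul]
        refine le_trans ?_ hge
        have := Real.log_le_sub_one_of_pos hn0
        linarith
      · rw [if_neg hT, if_neg hT, zero_add]
        have hm : n ∈ {q : ℕ | q.Prime ∧ (q : ZMod M) = 1} := ⟨hpr, hc⟩
        unfold uu
        rw [Set.indicator_of_mem hm]
        exact log_bound n hn δ hδ
    · have hr : residueClass (1 : ZMod M) n = 0 := by
        unfold residueClass
        exact Set.indicator_of_notMem (show n ∉ {n : ℕ | (n : ZMod M) = 1} from hc) _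
      rw [hr, zero_div]
      linarith
  · rw [if_neg hpr]
    have h3 : residueClass (1 : ZMod M) n / (n : ℝ) ^ (1 + δ) ≤ residueClass (1 : ZMod M) n / n :=
      div_le_div_of_nonneg_left hres hn0 hge
    linarith

theorem not_summable (M : ℕ) [NeZero M] : ¬ Summable (uu M) := by
  intro hsum
  obtain ⟨C, hC⟩ := LSeries_residueClass_lower_bound (isUnit_one : IsUnit (1 : ZMod M))
  have hc : 0 < (M.totient : ℝ)⁻¹ := inv_pos.mpr (mod_cast M.totient.pos_of_neZero)
  set c : ℝ := (M.totient : ℝ)⁻¹ with hcdef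
  have hg := summable_residueClass_non_primes_div (1 : ZMod M)
  set g : ℕ → ℝ := fun n : ℕ ↦ (if n.Prime then 0 else residueClass (1 : ZMod M) n) / n with hgdef
  obtain ⟨T, hT⟩ : ∃ T : Finset ℕ, ∑' n, uu M n - c / 2 < ∑ n ∈ T, uu M n := by
    have h1 := hsum.hasSum
    have h2 : ∀ᶠ s : Finset ℕ in Filter.atTop, ∑' n, uu M n - c / 2 < ∑ n ∈ s, uu M n :=
      h1.eventually (lt_mem_nhds (by linarith))
    exact h2.exists
  have hT1 : HasSum (fun n : ℕ => if n ∈ T then (1 : ℝ) else 0) (T.card : ℝ) := by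
    have h1 : HasSum (fun n : ℕ => if n ∈ T then (1 : ℝ) else 0)
        (∑ n ∈ T, if n ∈ T then (1 : ℝ) else 0) := by
      apply hasSum_sum_of_ne_finset_zero
      intro n hn
      rw [if_neg hn]
    have h2 : (∑ n ∈ T, if n ∈ T then (1 : ℝ) else 0) = T.card := by
      rw [Finset.sum_congr rfl (fun n hn => if_pos hn)]
      simp
    rwa [h2] at h1
  have hT2 : HasSum (fun n : ℕ => if n ∈ T then (0 : ℝ) else uu M n)
      (∑' n, uu M n - ∑ n ∈ T, uu M n) := by
    have h1 : HasSum (fun n : ℕ => if n ∈ T then uu M n else 0)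
        (∑ n ∈ T, if n ∈ T then uu M n else 0) := by
      apply hasSum_sum_of_ne_finset_zero
      intro n hn
      rw [if_neg hn]
    have h2 : (∑ n ∈ T, if n ∈ T then uu M n else 0) = ∑ n ∈ T, uu M n :=
      Finset.sum_congr rfl (fun n hn => if_pos hn)
    rw [h2] at h1
    have h3 := hsum.hasSum.sub h1
    have h4 : (fun n : ℕ => if n ∈ T then (0 : ℝ) else uu M n) =
        fun n : ℕ => uu M n - if n ∈ T then uu M n else 0 := by
      funext n
      split_ifs <;> simp
    rw [h4]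
    exact h3
  set G : ℝ := ∑' n, g n with hG
  have hGn : 0 ≤ G := by
    apply tsum_nonneg
    intro n
    rw [hgdef]
    have := residueClass_nonneg (1 : ZMod M) n
    simp only
    split_ifs <;> positivity
  have main : ∀ δ : ℝ, 0 < δ → δ ≤ 1 → c / δ - C ≤ G + T.card + (1 / δ) * (c / 2) := by
    intro δ hδ hδ1
    have h1 := hC (x := 1 + δ) ⟨by linarith, by linarith⟩
    rw [add_sub_cancel_left] at h1
    have h2 : HasSum (fun n : ℕ => g n + (if n ∈ T then (1 : ℝ) else 0) +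
        (1 / δ) * (if n ∈ T then (0 : ℝ) else uu M n))
        (G + T.card + (1 / δ) * (∑' n, uu M n - ∑ n ∈ T, uu M n)) :=
      (hg.hasSum.add hT1).add (hT2.mul_left _)
    have h3 : ∀ n : ℕ, residueClass (1 : ZMod M) n / (n : ℝ) ^ (1 + δ) ≤
        g n + (if n ∈ T then (1 : ℝ) else 0) + (1 / δ) * (if n ∈ T then (0 : ℝ) else uu M n) :=
      fun n => term_bound M T δ hδ n
    have h4 : ∀ n : ℕ, 0 ≤ residueClass (1 : ZMod M) n / (n : ℝ) ^ (1 + δ) := by
      intro n
      have := residueClass_nonneg (1 : ZMod M) n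
      positivity
    have h5 : Summable fun n : ℕ => residueClass (1 : ZMod M) n / (n : ℝ) ^ (1 + δ) :=
      Summable.of_nonneg_of_le h4 h3 h2.summable
    have h6 := hasSum_le h3 h5.hasSum h2
    have h7 : (1 / δ) * (∑' n, uu M n - ∑ n ∈ T, uu M n) ≤ (1 / δ) * (c / 2) := by
      apply mul_le_mul_of_nonneg_left _ (by positivity)
      linarith
    linarith
  have main2 : ∀ δ : ℝ, 0 < δ → δ ≤ 1 → c / 2 ≤ (|C| + G + T.card + 1) * δ := by
    intro δ hδ hδ1
    have h1 := main δ hδ hδ1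
    have h2 : c / δ = (1 / δ) * c := by ring
    rw [h2] at h1
    have h3 : (1 / δ) * (c / 2) ≤ |C| + G + T.card := by
      have := le_abs_self C
      nlinarith
    rw [div_mul_eq_mul_div, one_mul, div_le_iff₀ hδ] at h3
    linarith
  have hM : 0 < |C| + G + T.card + 1 := by positivity
  set K : ℝ := |C| + G + T.card + 1 with hKdef
  have h1 := main2 (min 1 (c / (4 * K))) (lt_min one_pos (by positivity)) (min_le_left _ _)
  have h2 : K * min 1 (c / (4 * K)) ≤ K * (c / (4 * K)) :=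
    mul_le_mul_of_nonneg_left (min_le_right _ _) hM.le
  have h3 : K * (c / (4 * K)) = c / 4 := by field_simp
  linarith

theorem exists_set (M : ℕ) [NeZero M] (K : ℝ) :
    ∃ S : Finset ℕ, (∀ p ∈ S, p.Prime ∧ (p : ZMod M) = 1) ∧ K ≤ ∑ p ∈ S, (1 : ℝ) / p := by
  have h := (not_summable_iff_tendsto_nat_atTop_of_nonneg (uu_nonneg M)).1 (not_summable M)
  obtain ⟨n, hn⟩ := (h.eventually_ge_atTop K).exists
  refine ⟨(Finset.range n).filter fun q => q.Prime ∧ (q : ZMod M) = 1, fun p hp =>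
    (Finset.mem_filter.1 hp).2, hn.trans (le_of_eq ?_)⟩
  rw [Finset.sum_filter]
  refine Finset.sum_congr rfl fun q _ => ?_
  unfold uu
  rw [Set.indicator_apply]
  rfl

theorem ratio (S : Finset ℕ) (hS : ∀ p ∈ S, p.Prime) :
    ((∏ p ∈ S, p).totient : ℝ) ≤ ((∏ p ∈ S, p : ℕ) : ℝ) * Real.exp (-∑ p ∈ S, (1 : ℝ) / p) := by
  have h1 := Nat.totient_eq_mul_prod_factors (∏ p ∈ S, p)
  rw [Nat.primeFactors_prod hS] at h1
  have h2 : ((∏ p ∈ S, p).totient : ℝ) = ((∏ p ∈ S, p : ℕ) : ℝ) * ∏ p ∈ S, (1 - (p : ℝ)⁻¹) := by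
    have := congrArg (fun x : ℚ => (x : ℝ)) h1
    push_cast at this
    push_cast
    exact this
  rw [h2, ← Finset.sum_neg_distrib, Real.exp_sum]
  refine mul_le_mul_of_nonneg_left (Finset.prod_le_prod ?_ ?_) (Nat.cast_nonneg _)
  · intro p hp
    have : (1 : ℝ) ≤ p := by exact_mod_cast (hS p hp).one_lt.le
    have := inv_le_one_of_one_le₀ this
    linarith
  · intro p _
    rw [one_div]
    have := Real.add_one_le_exp (-(p : ℝ)⁻¹)
    linarith

theorem coprime_of (M : ℕ) (S : Finset ℕ) (hS : ∀ p ∈ S, p.Prime ∧ (p : ZMod M) = 1) (k : ℕ)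
    (hk : ¬ M ∣ k.totient) : (∏ p ∈ S, p).Coprime k := by
  refine Nat.Coprime.prod_left fun p hp => ?_
  rw [(hS p hp).1.coprime_iff_not_dvd]
  intro hpk
  apply hk
  have h1 : M ∣ p - 1 := by
    rw [← ZMod.natCast_eq_zero_iff, Nat.cast_sub (hS p hp).1.one_lt.le, (hS p hp).2]
    simp
  have h2 : p.totient ∣ k.totient := Nat.totient_dvd_of_dvd hpk
  rw [Nat.totient_prime (hS p hp).1] at h2
  exact h1.trans h2

end EXC_

open EXC_ in
theorem p_EXC : T_EXC := by
  intro M hM ε hε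
  have hne : NeZero M := ⟨by omega⟩
  obtain ⟨S, hS, hK⟩ := exists_set M (-Real.log (ε / 2))
  set Q : ℕ := ∏ p ∈ S, p with hQ
  have hQ0 : 0 < Q := Finset.prod_pos fun p hp => (hS p hp).1.pos
  have hQR : (0 : ℝ) < Q := by exact_mod_cast hQ0
  have h1 : (Q.totient : ℝ) ≤ Q * (ε / 2) := by
    refine (ratio S fun p hp => (hS p hp).1).trans (mul_le_mul_of_nonneg_left ?_ hQR.le)
    rw [← Real.exp_log (show 0 < ε / 2 by positivity)]
    exact Real.exp_le_exp.2 (by linarith)
  refine ⟨⌈2 * (Q.totient : ℝ) / ε⌉₊, fun N hN => ?_⟩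
  have hN1 : 2 * (Q.totient : ℝ) / ε ≤ N := Nat.ceil_le.1 hN
  rw [div_le_iff₀ hε] at hN1
  have h2 : ((Icc 1 N).filter (fun k => ¬ M ∣ Nat.totient k)).card ≤
      Q.totient * (N / Q + 1) := by
    refine le_trans (Finset.card_le_card ?_) (Nat.Ico_filter_coprime_le 1 N hQ0.ne')
    intro k hk
    rw [Finset.mem_filter, Finset.mem_Icc] at hk
    rw [Finset.mem_filter, Finset.mem_Ico]
    exact ⟨⟨hk.1.1, by omega⟩, coprime_of M S hS k hk.2⟩
  have h3 : (((Icc 1 N).filter (fun k => ¬ M ∣ Nat.totient k)).card : ℝ) ≤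
      Q.totient * ((N / Q : ℕ) + 1) := by exact_mod_cast h2
  have h4 : ((N / Q : ℕ) : ℝ) ≤ N / Q := Nat.cast_div_le
  have h5 : (Q.totient : ℝ) * ((N / Q : ℕ) : ℝ) ≤ ε / 2 * N := by
    calc (Q.totient : ℝ) * ((N / Q : ℕ) : ℝ) ≤ (Q * (ε / 2)) * (N / Q) := by gcongr
      _ = ε / 2 * N := by field_simp
  nlinarith

end CRM
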