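import Pool.Agent.CRM.DefsQ

/-!
# CRM: basic facts on `Ex`
-/

set_option autoImplicit false

open scoped BigOperators Classical
open Finset

namespace CRM

theorem ind_nonneg (P : Prop) : 0 ≤ ind P := by
  unfold ind; split_ifs <;> norm_num

theorem ind_le_one (P : Prop) : ind P ≤ 1 := by
  unfold ind; split_ifs <;> norm_num

theorem ind_mono {P Q : Prop} (h : P → Q) : ind P ≤ ind Q := by
  unfold ind
  by_cases hp : P
  · simp [hp, h hp]
  · simp only [hp, if_false]; split_ifs <;> norm_num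

theorem ind_or_le (P Q : Prop) : ind (P ∨ Q) ≤ ind P + ind Q := by
  unfold ind
  by_cases hp : P <;> by_cases hq : Q <;> simp [hp, hq]

theorem Ex_insert (p : ℕ → ℝ) (R : Finset ℕ) (a : ℕ) (ha : a ∉ R) (f : Finset ℕ → ℝ) :
    Ex p (insert a R) f = (1 - p a) * Ex p R f + p a * Ex p R (fun T => f (insert a T)) := by
  unfold Ex
  rw [Finset.sum_powerset_insert ha]
  congr 1
  · rw [Finset.mul_sum]
    refine Finset.sum_congr rfl fun T hT => ?_
    rw [Finset.mem_powerset] at hT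
    have haT : a ∉ T := fun h => ha (hT h)
    rw [Finset.insert_sdiff_of_notMem _ haT, Finset.prod_insert]
    · ring
    · intro h
      exact ha (Finset.mem_sdiff.1 h).1
  · rw [Finset.mul_sum]
    refine Finset.sum_congr rfl fun T hT => ?_
    rw [Finset.mem_powerset] at hT
    have haT : a ∉ T := fun h => ha (hT h)
    rw [Finset.prod_insert haT]
    have : insert a R \ insert a T = R \ T := by
      ext m
      simp only [Finset.mem_sdiff, Finset.mem_insert, not_or]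
      constructor
      · rintro ⟨h1 | h1, h2, h3⟩
        · exact absurd h1 h2
        · exact ⟨h1, h3⟩
      · rintro ⟨h1, h2⟩
        exact ⟨Or.inr h1, fun h => ha (h ▸ h1), h2⟩
    rw [this]
    ring

theorem Ex_empty (p : ℕ → ℝ) (f : Finset ℕ → ℝ) : Ex p ∅ f = f ∅ := by
  unfold Ex; simp

theorem Ex_congr {p : ℕ → ℝ} {R : Finset ℕ} {f g : Finset ℕ → ℝ} (h : ∀ T, T ⊆ R → f T = g T) :
    Ex p R f = Ex p R g := by
  unfold Ex
  refine Finset.sum_congr rfl fun T hT => ?_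
  rw [h T (Finset.mem_powerset.1 hT)]

theorem Ex_mono {p : ℕ → ℝ} {R : Finset ℕ} {f g : Finset ℕ → ℝ} (h0 : ∀ m ∈ R, 0 ≤ p m)
    (h1 : ∀ m ∈ R, p m ≤ 1) (h : ∀ T, T ⊆ R → f T ≤ g T) : Ex p R f ≤ Ex p R g := by
  unfold Ex
  refine Finset.sum_le_sum fun T hT => ?_
  rw [Finset.mem_powerset] at hT
  refine mul_le_mul_of_nonneg_left (h T hT) (mul_nonneg ?_ ?_)
  · exact Finset.prod_nonneg fun m hm => h0 m (hT hm)
  · exact Finset.prod_nonneg fun m hm => by
      have := h1 m (Finset.mem_sdiff.1 hm).1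
      linarith

theorem Ex_add (p : ℕ → ℝ) (R : Finset ℕ) (f g : Finset ℕ → ℝ) :
    Ex p R (fun T => f T + g T) = Ex p R f + Ex p R g := by
  unfold Ex
  rw [← Finset.sum_add_distrib]
  refine Finset.sum_congr rfl fun T _ => ?_
  ring

theorem Ex_mul (p : ℕ → ℝ) (R : Finset ℕ) (c : ℝ) (f : Finset ℕ → ℝ) :
    Ex p R (fun T => c * f T) = c * Ex p R f := by
  unfold Ex
  rw [Finset.mul_sum]
  refine Finset.sum_congr rfl fun T _ => ?_
  ring

theorem Ex_sum {ι : Type*} (p : ℕ → ℝ) (R : Finset ℕ) (s : Finset ι) (f : ι → Finset ℕ → ℝ) :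
    Ex p R (fun T => ∑ i ∈ s, f i T) = ∑ i ∈ s, Ex p R (f i) := by
  unfold Ex
  rw [Finset.sum_comm]
  refine Finset.sum_congr rfl fun T _ => ?_
  rw [Finset.mul_sum]

theorem Ex_union (p : ℕ → ℝ) (R R' : Finset ℕ) (h : Disjoint R R') (f : Finset ℕ → ℝ) :
    Ex p (R ∪ R') f = Ex p R (fun T => Ex p R' (fun T' => f (T ∪ T'))) := by
  induction R using Finset.induction_on generalizing f with
  | empty => simp [Ex_empty]
  | insert a R ha ih =>
    have h2 : Disjoint R R' := Finset.disjoint_of_subset_left (Finset.subset_insert a R) h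
    have ha' : a ∉ R' := Finset.disjoint_left.1 h (Finset.mem_insert_self a R)
    have ha'' : a ∉ R ∪ R' := by
      simp [ha, ha']
    rw [Finset.insert_union, Ex_insert p _ a ha'', Ex_insert p _ a ha, ih h2, ih h2]
    congr 2
    refine Ex_congr fun T _ => ?_
    refine Ex_congr fun T' _ => ?_
    rw [Finset.insert_union]

theorem Ex_prod (p : ℕ → ℝ) (R : Finset ℕ) (u w : ℕ → ℝ) :
    Ex p R (fun T => (∏ m ∈ T, u m) * ∏ m ∈ R \ T, w m) =
      ∏ m ∈ R, (p m * u m + (1 - p m) * w m) := by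
  rw [Finset.prod_add]
  unfold Ex
  refine Finset.sum_congr rfl fun T _ => ?_
  rw [Finset.prod_mul_distrib, Finset.prod_mul_distrib]
  ring

theorem Ex_one (p : ℕ → ℝ) (R : Finset ℕ) : Ex p R (fun _ => 1) = 1 := by
  have h := Ex_prod p R (fun _ => 1) (fun _ => 1)
  simp only [Finset.prod_const_one, mul_one] at h
  rw [h]
  refine Finset.prod_eq_one fun m _ => ?_
  ring

theorem Ex_const (p : ℕ → ℝ) (R : Finset ℕ) (c : ℝ) : Ex p R (fun _ => c) = c := by
  have h := Ex_mul p R c (fun _ => 1)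
  rw [Ex_one] at h
  simpa using h

theorem Ex_nonneg {p : ℕ → ℝ} {R : Finset ℕ} {f : Finset ℕ → ℝ} (h0 : ∀ m ∈ R, 0 ≤ p m)
    (h1 : ∀ m ∈ R, p m ≤ 1) (h : ∀ T, T ⊆ R → 0 ≤ f T) : 0 ≤ Ex p R f := by
  have := Ex_mono h0 h1 h
  rw [Ex_const] at this
  exact this

/-- a function of `T ∩ R'` for `R' ⊆ R` -/
theorem Ex_inter (p : ℕ → ℝ) (R R' : Finset ℕ) (h : R' ⊆ R) (f : Finset ℕ → ℝ) :
    Ex p R (fun T => f (T ∩ R')) = Ex p R' f := by
  have hR : R = R' ∪ (R \ R') := (Finset.union_sdiff_of_subset h).symm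
  rw [hR, Ex_union p _ _ Finset.disjoint_sdiff]
  refine Ex_congr fun T hT => ?_
  rw [← Ex_const p (R \ R') (f T)]
  refine Ex_congr fun T' hT' => ?_
  congr 1
  ext m
  simp only [Finset.mem_inter, Finset.mem_union]
  constructor
  · rintro ⟨h1 | h1, h2⟩
    · exact h1
    · exact absurd h2 (Finset.mem_sdiff.1 (hT' h1)).2
  · intro h1
    exact ⟨Or.inl h1, hT h1⟩

end CRM
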