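import Mathlib
import Pool.Agent.CRM.Defs

/-!
# Cramér's model exists
-/

set_option autoImplicit false

open MeasureTheory ProbabilityTheory Set Filter Topology
open scoped ENNReal NNReal

namespace Pool.Agent.CRM

/-- the probability of `n` in Cramér's model -/
noncomputable def pr (n : ℕ) : ℝ≥0 := min 1 (Real.toNNReal (1 / Real.log n))

/-- the law of one coordinate -/
noncomputable def nu (n : ℕ) : Measure Bool :=
  ((pr n : ℝ≥0) : ℝ≥0∞) • Measure.dirac true + ((1 - pr n : ℝ≥0) : ℝ≥0∞) • Measure.dirac false

instance (n : ℕ) : IsProbabilityMeasure (nu n) := by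
  constructor
  unfold nu
  rw [Measure.add_apply, Measure.smul_apply, Measure.smul_apply, measure_univ, measure_univ,
    smul_eq_mul, smul_eq_mul, mul_one, mul_one, ← ENNReal.coe_add]
  have h : pr n ≤ 1 := min_le_left _ _
  rw [add_tsub_cancel_of_le h]
  rfl

lemma nu_true (n : ℕ) : nu n {true} = pr n := by
  unfold nu
  rw [Measure.add_apply, Measure.smul_apply, Measure.smul_apply, smul_eq_mul, smul_eq_mul,
    Measure.dirac_apply' _ (MeasurableSet.singleton _),
    Measure.dirac_apply' _ (MeasurableSet.singleton _)]
  simp

/-- Cramér's model exists. -/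
theorem exists_cramer : ∃ (Ω : Type) (_ : MeasurableSpace Ω) (μ : Measure Ω)
    (_ : IsProbabilityMeasure μ) (X : ℕ → Set Ω), Cramer μ X := by
  refine ⟨ℕ → Bool, inferInstance, Measure.infinitePi nu, inferInstance,
    fun n => {ω | ω n = true}, ?_, ?_, ?_⟩
  · intro n
    exact measurableSet_eq_fun (measurable_pi_apply n) measurable_const
  · rw [iIndepSet_iff_meas_biInter]
    · intro s
      have h1 : ∀ t : Finset ℕ, (⋂ i ∈ t, {ω : ℕ → Bool | ω i = true}) =
          Set.pi (t : Set ℕ) (fun _ => ({true} : Set Bool)) := by
        intro t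
        ext ω
        simp
      have h2 : ∀ i : ℕ, Measure.infinitePi nu {ω : ℕ → Bool | ω i = true} = nu i {true} := by
        intro i
        have h3 := h1 {i}
        simp only [Finset.mem_singleton, iInter_iInter_eq_left] at h3
        rw [h3, Measure.infinitePi_pi _ (fun _ _ => MeasurableSet.singleton _),
          Finset.prod_singleton]
      rw [h1, Measure.infinitePi_pi _ (fun _ _ => MeasurableSet.singleton _)]
      exact Finset.prod_congr rfl fun i _ => (h2 i).symm
    · intro n
      exact measurableSet_eq_fun (measurable_pi_apply n) measurable_const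
  · intro n hn
    have h3 : {ω : ℕ → Bool | ω n = true} =
        Set.pi (({n} : Finset ℕ) : Set ℕ) (fun _ => ({true} : Set Bool)) := by
      ext ω
      simp
    rw [h3, Measure.infinitePi_pi _ (fun _ _ => MeasurableSet.singleton _),
      Finset.prod_singleton, nu_true]
    have h4 : 1 / Real.log n ≤ 1 := by
      have h5 : 1 ≤ Real.log n := by
        rw [Real.le_log_iff_exp_le (by positivity)]
        have h6 := Real.exp_one_lt_d9
        have h7 : (3 : ℝ) ≤ n := by exact_mod_cast hn
        linarith
      exact (div_le_one (by linarith)).2 h5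
    have h5 : Real.toNNReal (1 / Real.log n) ≤ 1 := Real.toNNReal_le_one.2 h4
    unfold pr
    rw [min_eq_right h5]
    rfl

end Pool.Agent.CRM
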