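import Pool.Agent.CRM.Targets

/-!
# CRM, FIN: Borel-Cantelli
-/

set_option autoImplicit false

open scoped BigOperators Classical
open Finset MeasureTheory ProbabilityTheory

namespace CRM

namespace FIN_

theorem pr_mem (W m : ℕ) : 0 ≤ pr W m ∧ pr W m ≤ 1 := by
  unfold pr
  split_ifs
  · refine ⟨le_min zero_le_one ?_, min_le_left _ _⟩
    exact div_nonneg (by positivity) (Real.log_natCast_nonneg m)
  · norm_num

theorem nth_eq (p : ℕ → Prop) (T : Finset ℕ) (M z : ℕ) (hT : T = (range (M + 1)).filter p)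
    (hz : z ∈ T) : Nat.nth p (bel T z) = z := by
  have hz' := hz
  rw [hT, Finset.mem_filter, Finset.mem_range] at hz'
  have h : bel T z = Nat.count p z := by
    unfold bel
    rw [Nat.count_eq_card_filter_range, hT]
    congr 1
    ext m
    simp only [Finset.mem_filter, Finset.mem_range]
    constructor
    · rintro ⟨⟨_, h1⟩, h2⟩
      exact ⟨h2, h1⟩
    · rintro ⟨h1, h2⟩
      exact ⟨⟨by omega, h2⟩, h1⟩
  rw [h, Nat.nth_count hz'.2]

end FIN_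

open FIN_

/-- the strong form of FIN -/
theorem fin_strong (hCAND : T_CAND) (hTHIN : T_THIN) (hMAINP : T_MAINP) (hBRG : T_BRG) (W : ℕ)
    (hW : 1 ≤ W) (Ω : Type) [MeasurableSpace Ω] (μ : Measure Ω) [IsProbabilityMeasure μ]
    (S : ℕ → Set Ω) (hS : ∀ m, MeasurableSet (S m)) (hind : iIndepSet S μ)
    (hμ : ∀ m, μ (S m) = ENNReal.ofReal (pr W m)) :
    ∀ᵐ ω ∂μ, ∃ n0 : ℕ, ∀ n : ℕ, n0 ≤ n → ∃ k : ℕ, 0 < k ∧ k < n - 2 ∧
      qq n k + 2 ≤ Nat.nth (fun m => ω ∈ S m) (qq n k - 1) ∧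
      ω ∈ S (qq n k) ∧ ω ∈ S (Nat.nth (fun m => ω ∈ S m) (qq n k - 1) - qq n k - 1) ∧
      ω ∈ S (Nat.nth (fun m => ω ∈ S m) (qq n k - 1) - qq n k + 1) := by
  obtain ⟨n1, h1⟩ := hCAND W hW
  obtain ⟨n2, h2⟩ := hTHIN
  obtain ⟨n3, h3⟩ := hMAINP W hW
  set N := max n1 (max n2 n3) + 1 with hN
  set Bad : ℕ → Set Ω := fun n => {ω | ¬ ∃ k : ℕ, 0 < k ∧ k < n - 2 ∧
    qq n k + 2 ≤ Nat.nth (fun m => ω ∈ S m) (qq n k - 1) ∧
    ω ∈ S (qq n k) ∧ ω ∈ S (Nat.nth (fun m => ω ∈ S m) (qq n k - 1) - qq n k - 1) ∧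
    ω ∈ S (Nat.nth (fun m => ω ∈ S m) (qq n k - 1) - qq n k + 1)} with hBad
  have hbd : ∀ n, N ≤ n → μ (Bad n) ≤ ENNReal.ofReal (1 / (n : ℝ) ^ 2) := by
    intro n hn
    have hn1 : n1 ≤ n := by omega
    have hn2 : n2 ≤ n := by omega
    have hn3 : n3 ≤ n := by omega
    obtain ⟨V, hV1, hV2⟩ := h1 n hn1
    obtain ⟨x, V', hsub, hV'1, hx1, hx2, hV'2, hV'3⟩ := h2 n hn2 V hV1
      (fun v hv => ⟨(hV2 v hv).2.1, (hV2 v hv).2.2.1⟩)
    obtain ⟨M, hM⟩ := h3 n hn3 x V' hx1 hx2 hV'1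
      (fun v hv => ⟨(hV2 v (hsub hv)).1, (hV'2 v hv).1, (hV'2 v hv).2⟩) hV'3
    have hb := hBRG Ω inferInstance μ inferInstance S (pr W) hS hind hμ (fun m => pr_mem W m)
      (range (M + 1)) (fun T => ∀ v ∈ V', ¬ Succ T v)
    have hss : Bad n ⊆ {ω | ∀ v ∈ V', ¬ Succ ((range (M + 1)).filter (fun m => ω ∈ S m)) v} := by
      intro ω hω v hv hsucc
      apply hω
      obtain ⟨-, -, -, k, hk0, hk1, hk2⟩ := hV2 v (hsub hv)
      obtain ⟨z, hz, hz1, hz2, hz3, hz4, hz5⟩ := hsucc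
      have hnth := nth_eq (fun m => ω ∈ S m) _ M z rfl hz
      have hv1 : qq n k - 1 = bel ((range (M + 1)).filter (fun m => ω ∈ S m)) z := by
        rw [← hk2]
        omega
      refine ⟨k, hk0, hk1, ?_, ?_, ?_, ?_⟩
      · rw [hv1, hnth, ← hk2]
        exact hz2
      · rw [← hk2]
        exact (Finset.mem_filter.1 hz3).2
      · rw [hv1, hnth, ← hk2]
        exact (Finset.mem_filter.1 hz4).2
      · rw [hv1, hnth, ← hk2]
        exact (Finset.mem_filter.1 hz5).2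
    calc μ (Bad n) ≤ μ {ω | ∀ v ∈ V', ¬ Succ ((range (M + 1)).filter (fun m => ω ∈ S m)) v} :=
          measure_mono hss
      _ = ENNReal.ofReal (Ex (pr W) (range (M + 1)) (fun T => ind (∀ v ∈ V', ¬ Succ T v))) := hb
      _ ≤ ENNReal.ofReal (1 / (n : ℝ) ^ 2) := ENNReal.ofReal_le_ofReal hM
  have hsum : ∑' n, μ (Bad (n + N)) ≠ ⊤ := by
    have hs : Summable (fun n : ℕ => 1 / ((n + N : ℕ) : ℝ) ^ 2) :=
      (summable_nat_add_iff N).2 (Real.summable_one_div_nat_pow.2 (by norm_num))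
    refine ne_top_of_le_ne_top hs.tsum_ofReal_ne_top ?_
    exact ENNReal.tsum_le_tsum fun n => hbd (n + N) (by omega)
  have hae := ae_eventually_notMem hsum
  filter_upwards [hae] with ω hω
  obtain ⟨m, hm⟩ := Filter.eventually_atTop.1 hω
  refine ⟨m + N, fun n hn => ?_⟩
  have h4 := hm (n - N) (by omega)
  have h5 : n - N + N = n := by omega
  rw [h5] at h4
  by_contra h6
  exact h4 h6

/-- FIN -/
theorem p_FIN (hCAND : T_CAND) (hTHIN : T_THIN) (hMAINP : T_MAINP) (hBRG : T_BRG) : T_FIN := by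
  intro W hW Ω _ μ _ S hS hind hμ
  filter_upwards [fin_strong hCAND hTHIN hMAINP hBRG W hW Ω μ S hS hind hμ] with ω hω
  obtain ⟨n0, h⟩ := hω
  refine ⟨n0, fun n hn => ?_⟩
  obtain ⟨k, h1, h2, -, h3, h4, h5⟩ := h n hn
  exact ⟨k, h1, h2, h3, h4, h5⟩

end CRM
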