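import Mathlib

/-!
# Random sets with independent elements: numbers
-/

set_option autoImplicit false

open Filter
open scoped Topology

namespace Pool.Agent.CRM

lemma one_sub_ge (δ : ℝ) (h0 : 0 ≤ δ) (h1 : δ ≤ 1 / 2) :
    Real.exp (-(δ * (1 + 2 * δ))) ≤ 1 - δ := by
  have h2 : 0 < 1 - δ := by linarith
  rw [← Real.le_log_iff_exp_le h2]
  have h3 := Real.one_sub_inv_le_log_of_pos h2
  have h4 : (1 - δ)⁻¹ ≤ 1 + δ * (1 + 2 * δ) := by
    rw [inv_le_iff_one_le_mul₀ h2]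
    nlinarith [mul_nonneg h0 h0, mul_nonneg (mul_nonneg h0 h0) (by linarith : (0:ℝ) ≤ 1 - 2 * δ)]
  linarith

lemma num1 (ε L : ℝ) (hε : 0 < ε) (hε1 : ε ≤ 1) (hL : 8 ≤ L)
    (H : 96 * Real.exp 6 * L ^ 7 ≤ Real.exp (ε / 2 * L)) (s M : ℕ) (hs1 : 1 ≤ s)
    (hs : (s : ℝ) ≤ (1 - ε) * L ^ 2 + 2) (hM1 : Real.exp ((1 - ε / 2) * L) ≤ M)
    (hM2 : (M : ℝ) ≤ 2 * Real.exp ((1 - ε / 2) * L)) :
    4 * L ^ 3 + 2 * L ≤
      (1 - 1 / Real.log M) ^ s * ((Real.exp L / 2 - s * M) / s ^ 2) := by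
  have hL0 : 0 < L := by linarith
  have hc : 1 / 2 ≤ 1 - ε / 2 := by linarith
  have hs0 : (0 : ℝ) < s := by exact_mod_cast hs1
  -- `s ≤ 2 L²`
  have hs2 : (s : ℝ) ≤ 2 * L ^ 2 := by nlinarith
  -- the logarithm
  have hΛ : (1 - ε / 2) * L ≤ Real.log M := by
    rw [Real.le_log_iff_exp_le (lt_of_lt_of_le (Real.exp_pos _) hM1)]
    exact hM1
  have hcL : 4 ≤ (1 - ε / 2) * L := by nlinarith
  set δ : ℝ := 1 / Real.log M with hδ
  have hδ0 : 0 ≤ δ := by rw [hδ]; apply one_div_nonneg.2; linarith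
  have hδ1 : δ ≤ 1 / ((1 - ε / 2) * L) := one_div_le_one_div_of_le (by linarith) hΛ
  have hδ2 : δ ≤ 2 / L := by
    refine hδ1.trans ?_
    rw [div_le_div_iff₀ (by linarith) hL0]
    nlinarith
  have hδ3 : 2 / L ≤ 1 / 4 := by
    rw [div_le_div_iff₀ hL0 (by norm_num)]
    linarith
  -- the power
  have hexp : Real.exp (-((1 - ε / 2) * L + 6)) ≤ (1 - δ) ^ s := by
    have h1 := one_sub_ge δ hδ0 (by linarith)
    have h2 : Real.exp (-(δ * (1 + 2 * δ))) ^ s ≤ (1 - δ) ^ s :=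
      pow_le_pow_left₀ (Real.exp_pos _).le h1 s
    refine le_trans ?_ h2
    rw [← Real.exp_nat_mul, Real.exp_le_exp]
    have h3 : (s : ℝ) * δ ≤ (1 - ε / 2) * L + 4 / L := by
      have h4 : (s : ℝ) * δ ≤ ((1 - ε) * L ^ 2 + 2) * (1 / ((1 - ε / 2) * L)) :=
        mul_le_mul hs hδ1 hδ0 (by nlinarith)
      refine h4.trans ?_
      rw [mul_one_div, div_le_iff₀ (by linarith)]
      have h5 : ((1 - ε / 2) * L + 4 / L) * ((1 - ε / 2) * L) =
          (1 - ε / 2) ^ 2 * L ^ 2 + 4 * (1 - ε / 2) := by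
        field_simp
      rw [h5]
      nlinarith [sq_nonneg (ε * L)]
    have h6 : (1 + 2 * δ) ≤ 1 + 4 / L := by
      have : 4 / L = 2 * (2 / L) := by ring
      linarith
    have h7 : (s : ℝ) * δ * (1 + 2 * δ) ≤ ((1 - ε / 2) * L + 4 / L) * (1 + 4 / L) :=
      mul_le_mul h3 h6 (by linarith) (by positivity)
    have h8 : ((1 - ε / 2) * L + 4 / L) * (1 + 4 / L) =
        (1 - ε / 2) * L + 4 * (1 - ε / 2) + 4 / L + 16 / L ^ 2 := by
      field_simp
      ring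
    have h9 : 4 / L ≤ 1 / 2 := by
      rw [div_le_div_iff₀ hL0 (by norm_num)]
      linarith
    have h10 : 16 / L ^ 2 ≤ 1 / 4 := by
      rw [div_le_div_iff₀ (by positivity) (by norm_num)]
      nlinarith
    have h11 : (s : ℝ) * -(δ * (1 + 2 * δ)) = -((s : ℝ) * δ * (1 + 2 * δ)) := by ring
    rw [h11]
    have h12 : 4 * (1 - ε / 2) ≤ 4 := by linarith
    linarith
  -- the number of integers
  have hE : Real.exp ((1 - ε / 2) * L) * Real.exp (ε / 2 * L) = Real.exp L := by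
    rw [← Real.exp_add]
    congr 1
    ring
  have h16 : 16 * L ^ 2 ≤ Real.exp (ε / 2 * L) := by
    refine le_trans ?_ H
    have h1 : 1 ≤ Real.exp 6 := Real.one_le_exp (by norm_num)
    have h2 : L ^ 2 ≤ L ^ 7 := pow_le_pow_right₀ (by linarith) (by norm_num)
    have h3 : 0 ≤ L ^ 2 := by positivity
    nlinarith
  have hcount : Real.exp L / 4 ≤ Real.exp L / 2 - s * M := by
    have h1 : (s : ℝ) * M ≤ (2 * L ^ 2) * (2 * Real.exp ((1 - ε / 2) * L)) :=
      mul_le_mul hs2 hM2 (by positivity) (by positivity)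
    have h2 : 16 * L ^ 2 * Real.exp ((1 - ε / 2) * L) ≤ Real.exp L := by
      rw [← hE, mul_comm]
      exact mul_le_mul_of_nonneg_left h16 (Real.exp_pos _).le
    linarith
  have hs4 : (s : ℝ) ^ 2 ≤ 4 * L ^ 4 := by
    calc (s : ℝ) ^ 2 ≤ (2 * L ^ 2) ^ 2 := pow_le_pow_left₀ hs0.le hs2 2
      _ = 4 * L ^ 4 := by ring
  have hq : Real.exp L / (16 * L ^ 4) ≤ (Real.exp L / 2 - s * M) / s ^ 2 := by
    calc Real.exp L / (16 * L ^ 4) = (Real.exp L / 4) / (4 * L ^ 4) := by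
          field_simp
          norm_num
      _ ≤ (Real.exp L / 4) / (s : ℝ) ^ 2 :=
          div_le_div_of_nonneg_left (by positivity) (by positivity) hs4
      _ ≤ (Real.exp L / 2 - s * M) / s ^ 2 :=
          div_le_div_of_nonneg_right hcount (by positivity)
  calc 4 * L ^ 3 + 2 * L ≤ Real.exp (ε / 2 * L) * Real.exp (-6) / (16 * L ^ 4) := by
        rw [le_div_iff₀ (by positivity)]
        have h1 : Real.exp 6 * Real.exp (-6) = 1 := by rw [← Real.exp_add]; simp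
        have h2 : (4 * L ^ 3 + 2 * L) * (16 * L ^ 4) ≤ 96 * L ^ 7 := by
          nlinarith [pow_pos hL0 4, pow_pos hL0 5, pow_pos hL0 6, pow_pos hL0 7,
            mul_nonneg (pow_pos hL0 5).le (by nlinarith : (0 : ℝ) ≤ L ^ 2 - 1)]
        calc (4 * L ^ 3 + 2 * L) * (16 * L ^ 4) ≤ 96 * L ^ 7 := h2
          _ = (96 * Real.exp 6 * L ^ 7) * Real.exp (-6) := by
              rw [show (96 * Real.exp 6 * L ^ 7) * Real.exp (-6) =
                96 * L ^ 7 * (Real.exp 6 * Real.exp (-6)) by ring, h1, mul_one]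
          _ ≤ Real.exp (ε / 2 * L) * Real.exp (-6) :=
              mul_le_mul_of_nonneg_right H (Real.exp_pos _).le
    _ = Real.exp (-((1 - ε / 2) * L + 6)) * (Real.exp L / (16 * L ^ 4)) := by
        rw [← Real.exp_add, ← mul_div_assoc, ← Real.exp_add]
        congr 2
        ring
    _ ≤ (1 - δ) ^ s * ((Real.exp L / 2 - s * M) / s ^ 2) :=
        mul_le_mul hexp hq (by positivity) (pow_nonneg (by linarith) _)

lemma ev_H (ε : ℝ) (hε : 0 < ε) :
    ∀ᶠ L : ℝ in atTop, 96 * Real.exp 6 * L ^ 7 ≤ Real.exp (ε / 2 * L) := by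
  have h1 : Tendsto (fun x : ℝ => Real.exp x / x ^ 7) atTop atTop :=
    Real.tendsto_exp_div_pow_atTop 7
  have h2 : Tendsto (fun L : ℝ => ε / 2 * L) atTop atTop :=
    tendsto_id.const_mul_atTop (by positivity)
  have h3 := (h1.comp h2).eventually_ge_atTop (96 * Real.exp 6 / (ε / 2) ^ 7)
  filter_upwards [h3, eventually_gt_atTop 0] with L hL hL0
  simp only [Function.comp_apply] at hL
  rw [le_div_iff₀ (by positivity)] at hL
  have h4 : 96 * Real.exp 6 / (ε / 2) ^ 7 * (ε / 2 * L) ^ 7 = 96 * Real.exp 6 * L ^ 7 := by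
    field_simp
  rwa [h4] at hL

end Pool.Agent.CRM
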