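import Pool.Agent.CRM.Indep
import Pool.Agent.CRM.Defs
import Pool.Agent.CRM.Num

/-!
# Random models of the primes: lower bound for all additive complements
-/

set_option autoImplicit false
set_option linter.unusedSectionVars false

open MeasureTheory ProbabilityTheory Filter Set
open scoped ENNReal

namespace Pool.Agent.CRM

variable {Ω : Type} [MeasurableSpace Ω]

lemma card_Ix' (S : Finset ℕ) (n : ℕ) : (Ix S n).card ≤ S.card :=
  Finset.card_image_le.trans (Finset.card_filter_le _ _)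

/-- the expected number of representations of `n` -/
noncomputable def lam (μ : Measure Ω) (X : ℕ → Set Ω) (S : Finset ℕ) (n : ℕ) : ℝ :=
  ∑ m ∈ Ix S n, μ.real (X m)

/-- lower bound for the probability that `n` is not covered -/
lemma Un_low' {μ : Measure Ω} [IsProbabilityMeasure μ] {X : ℕ → Set Ω}
    (hm : ∀ n, MeasurableSet (X n)) (hi : iIndepSet X μ) (S : Finset ℕ) (n : ℕ) (η Λ : ℝ)
    (hη0 : 0 ≤ η) (hη : η ≤ 1 / 2) (hp : ∀ m ∈ Ix S n, μ.real (X m) ≤ η)
    (hΛ : lam μ X S n ≤ Λ) :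
    ENNReal.ofReal (Real.exp (-((1 + 2 * η) * Λ))) ≤ μ (Un X S n) := by
  rw [Un_prob hm hi]
  have h1 : ∀ m ∈ Ix S n, ENNReal.ofReal (Real.exp (-((1 + 2 * η) * μ.real (X m)))) ≤
      μ (X m)ᶜ := by
    intro m hmS
    have h2 := hp m hmS
    have h0 : 0 ≤ μ.real (X m) := measureReal_nonneg
    have h3 : μ (X m)ᶜ = ENNReal.ofReal (1 - μ.real (X m)) := by
      rw [prob_compl_eq_one_sub (hm _), ENNReal.ofReal_sub _ h0, ENNReal.ofReal_one,
        ofReal_measureReal]
    rw [h3]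
    apply ENNReal.ofReal_le_ofReal
    refine le_trans ?_ (one_sub_ge _ h0 (h2.trans hη))
    apply Real.exp_le_exp.2
    apply neg_le_neg
    nlinarith
  calc ENNReal.ofReal (Real.exp (-((1 + 2 * η) * Λ)))
      ≤ ENNReal.ofReal (∏ m ∈ Ix S n, Real.exp (-((1 + 2 * η) * μ.real (X m)))) := by
        apply ENNReal.ofReal_le_ofReal
        rw [← Real.exp_sum]
        apply Real.exp_le_exp.2
        rw [Finset.sum_neg_distrib, ← Finset.mul_sum]
        apply neg_le_neg
        exact mul_le_mul_of_nonneg_left hΛ (by linarith)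
    _ = ∏ m ∈ Ix S n, ENNReal.ofReal (Real.exp (-((1 + 2 * η) * μ.real (X m)))) :=
        ENNReal.ofReal_prod_of_nonneg fun m _ => (Real.exp_pos _).le
    _ ≤ ∏ m ∈ Ix S n, μ (X m)ᶜ := Finset.prod_le_prod' h1

/-- the sum of the expected numbers of representations -/
lemma sum_lam (μ : Measure Ω) (X : ℕ → Set Ω) (S : Finset ℕ) (s w N : ℕ) (hs : S.card ≤ s) :
    ∑ n ∈ Finset.Ioc w N, lam μ X S n ≤ s * ∑ m ∈ Finset.range (N + 1), μ.real (X m) := by
  classical
  have hpos : ∀ m, 0 ≤ μ.real (X m) := fun m => measureReal_nonneg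
  have h1 : ∀ n, lam μ X S n = ∑ a ∈ S, if a ≤ n then μ.real (X (n - a)) else 0 := by
    intro n
    unfold lam Ix
    rw [Finset.sum_image, Finset.sum_filter]
    intro a ha b hb hab
    simp only [Finset.coe_filter, Set.mem_ofPred_eq] at ha hb
    simp only at hab
    omega
  simp only [h1]
  rw [Finset.sum_comm]
  calc ∑ a ∈ S, ∑ n ∈ Finset.Ioc w N, (if a ≤ n then μ.real (X (n - a)) else 0)
      ≤ ∑ _a ∈ S, ∑ m ∈ Finset.range (N + 1), μ.real (X m) := by
        refine Finset.sum_le_sum fun a _ => ?_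
        rw [← Finset.sum_filter]
        have h2 : ∑ n ∈ (Finset.Ioc w N).filter (fun n => a ≤ n), μ.real (X (n - a)) =
            ∑ m ∈ ((Finset.Ioc w N).filter (fun n => a ≤ n)).image (fun n => n - a),
              μ.real (X m) := by
          rw [Finset.sum_image]
          intro x hx y hy hxy
          simp only [Finset.coe_filter, Set.mem_ofPred_eq] at hx hy
          simp only at hxy
          omega
        rw [h2]
        refine Finset.sum_le_sum_of_subset_of_nonneg ?_ fun m _ _ => hpos m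
        intro m hm
        simp only [Finset.mem_image, Finset.mem_filter, Finset.mem_Ioc] at hm
        obtain ⟨n, ⟨⟨_, h3⟩, _⟩, rfl⟩ := hm
        rw [Finset.mem_range]
        omega
    _ = S.card * ∑ m ∈ Finset.range (N + 1), μ.real (X m) := by
        rw [Finset.sum_const, nsmul_eq_mul]
    _ ≤ s * ∑ m ∈ Finset.range (N + 1), μ.real (X m) := by
        refine mul_le_mul_of_nonneg_right ?_ (Finset.sum_nonneg fun m _ => hpos m)
        exact_mod_cast hs

open Classical in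
/-- the good integers -/
noncomputable def Gg (μ : Measure Ω) (X : ℕ → Set Ω) (S : Finset ℕ) (w N M : ℕ) (Λ : ℝ) :
    Finset ℕ :=
  (Finset.Ioc w N).filter (fun n => (∀ a ∈ S, a ≤ n → M ≤ n - a) ∧ lam μ X S n ≤ Λ)

lemma card_Gg (μ : Measure Ω) (X : ℕ → Set Ω) (S : Finset ℕ) (s w N M : ℕ) (Λ D : ℝ)
    (hs : S.card ≤ s) (hΛ : 0 < Λ) (hD : ∑ m ∈ Finset.range (N + 1), μ.real (X m) ≤ D) :
    (N : ℝ) - w - s * M - s * D / Λ ≤ (Gg μ X S w N M Λ).card := by
  classical
  set B1 := (S ×ˢ Finset.range M).image (fun p => p.1 + p.2) with hB1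
  set B2 := (Finset.Ioc w N).filter (fun n => Λ < lam μ X S n) with hB2
  have h1 : Finset.Ioc w N ⊆ (Gg μ X S w N M Λ ∪ B1) ∪ B2 := by
    intro n hn
    rw [Finset.mem_union, Finset.mem_union]
    by_cases h2 : lam μ X S n ≤ Λ
    · left
      by_cases h : ∀ a ∈ S, a ≤ n → M ≤ n - a
      · left
        exact Finset.mem_filter.2 ⟨hn, h, h2⟩
      · right
        push Not at h
        obtain ⟨a, ha, han, hM⟩ := h
        refine Finset.mem_image.2 ⟨(a, n - a), Finset.mem_product.2 ⟨ha, Finset.mem_range.2 hM⟩, ?_⟩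
        simp only
        omega
    · right
      exact Finset.mem_filter.2 ⟨hn, not_le.1 h2⟩
  have h3 : B1.card ≤ s * M := by
    refine Finset.card_image_le.trans ?_
    rw [Finset.card_product, Finset.card_range]
    exact Nat.mul_le_mul_right _ hs
  have h4 : (B2.card : ℝ) ≤ s * D / Λ := by
    rw [le_div_iff₀ hΛ]
    calc (B2.card : ℝ) * Λ = ∑ _n ∈ B2, Λ := by rw [Finset.sum_const, nsmul_eq_mul]
      _ ≤ ∑ n ∈ B2, lam μ X S n := Finset.sum_le_sum fun n hn => (Finset.mem_filter.1 hn).2.le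
      _ ≤ ∑ n ∈ Finset.Ioc w N, lam μ X S n := by
          refine Finset.sum_le_sum_of_subset_of_nonneg (Finset.filter_subset _ _) fun n _ _ => ?_
          exact Finset.sum_nonneg fun m _ => measureReal_nonneg
      _ ≤ s * ∑ m ∈ Finset.range (N + 1), μ.real (X m) := sum_lam μ X S s w N hs
      _ ≤ s * D := mul_le_mul_of_nonneg_left hD (Nat.cast_nonneg s)
  have h5 := (Finset.card_le_card h1).trans ((Finset.card_union_le _ _).trans
    (Nat.add_le_add_right (Finset.card_union_le _ _) _))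
  rw [Nat.card_Ioc] at h5
  have h6 : (N : ℝ) - w ≤ ((N - w : ℕ) : ℝ) := by
    rcases le_total w N with h | h
    · rw [Nat.cast_sub h]
    · rw [Nat.sub_eq_zero_of_le h]
      have : (N : ℝ) ≤ w := by exact_mod_cast h
      simp only [Nat.cast_zero]
      linarith
  have h7 : ((N - w : ℕ) : ℝ) ≤ (Gg μ X S w N M Λ).card + B1.card + B2.card := by exact_mod_cast h5
  have h8 : (B1.card : ℝ) ≤ s * M := by exact_mod_cast h3
  linarith

/-- all integers of `(w, N]` are covered by `R + S` -/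
def Cv (X : ℕ → Set Ω) (w N : ℕ) (S : Finset ℕ) : Set Ω :=
  ⋂ n ∈ Finset.Ioc w N, (Un X S n)ᶜ

lemma Cv_prob {μ : Measure Ω} [IsProbabilityMeasure μ] {X : ℕ → Set Ω}
    (hm : ∀ n, MeasurableSet (X n)) (hi : iIndepSet X μ) (S : Finset ℕ) (s w N M : ℕ)
    (η Λ D : ℝ) (h0 : 0 ∈ S) (hs : S.card ≤ s) (hη0 : 0 ≤ η) (hη : η ≤ 1 / 2)
    (hp : ∀ m, M ≤ m → μ.real (X m) ≤ η) (hΛ : 0 < Λ)
    (hD : ∑ m ∈ Finset.range (N + 1), μ.real (X m) ≤ D) :
    μ (Cv X w N S) ≤ ENNReal.ofReal (Real.exp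
      (-(Real.exp (-((1 + 2 * η) * Λ)) * (((N : ℝ) - w - s * M - s * D / Λ) / s ^ 2)))) := by
  have hs1 : 1 ≤ s := le_trans (Finset.card_pos.2 ⟨0, h0⟩) hs
  obtain ⟨T, hTG, hT, hcard⟩ := choose_disj S (Gg μ X S w N M Λ) s h0 hs
  have hsub : Cv X w N S ⊆ ⋂ n ∈ T, (Un X S n)ᶜ := by
    intro ω hω
    simp only [Cv, mem_iInter] at hω ⊢
    intro n hn
    exact hω n (Finset.mem_filter.1 (hTG hn)).1
  refine (measure_mono hsub).trans ?_
  refine (cover_prob hm hi S T hT (Real.exp (-((1 + 2 * η) * Λ))) (Real.exp_pos _).le ?_).trans ?_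
  · intro n hn
    have h1 := (Finset.mem_filter.1 (hTG hn)).2
    refine Un_low' hm hi S n η Λ hη0 hη (fun m hmS => ?_) h1.2
    simp only [Ix, Finset.mem_image, Finset.mem_filter] at hmS
    obtain ⟨a, ⟨ha, han⟩, rfl⟩ := hmS
    exact hp _ (h1.1 a ha han)
  · apply ENNReal.ofReal_le_ofReal
    apply Real.exp_le_exp.2
    apply neg_le_neg
    refine mul_le_mul_of_nonneg_left ?_ (Real.exp_pos _).le
    rw [div_le_iff₀ (by positivity)]
    have h1 := card_Gg μ X S s w N M Λ D hs hΛ hD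
    have h3 : ((Gg μ X S w N M Λ).card : ℝ) ≤ T.card * (s : ℝ) ^ 2 := by exact_mod_cast hcard
    linarith

/-- some small set covers `(w, N]` -/
def Ew (X : ℕ → Set Ω) (w N s : ℕ) : Set Ω :=
  ⋃ f : Fin s → Fin (N + 1), Cv X w N (insert 0 (Finset.univ.image fun i => (f i : ℕ)))

lemma mem_Ew {X : ℕ → Set Ω} {w N s : ℕ} {ω : Ω} (S : Finset ℕ) (hS : S ⊆ Finset.range (N + 1))
    (hs : S.card ≤ s) (hc : ∀ n, w < n → n ≤ N → ∃ a ∈ S, a ≤ n ∧ ω ∈ X (n - a)) :
    ω ∈ Ew X w N s := by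
  classical
  have hfun : ∃ f : Fin s → Fin (N + 1), ∀ a ∈ S, ∃ i, (f i : ℕ) = a := by
    obtain ⟨e, he⟩ : ∃ e : Fin S.card → ℕ, ∀ a, a ∈ S ↔ ∃ i, e i = a := by
      refine ⟨fun i => (S.equivFin.symm i : ℕ), fun a => ⟨fun ha => ⟨S.equivFin ⟨a, ha⟩, by simp⟩,
        ?_⟩⟩
      rintro ⟨i, rfl⟩
      exact (S.equivFin.symm i).2
    refine ⟨fun i => if hi : (i : ℕ) < S.card then ⟨e ⟨i, hi⟩, ?_⟩ else 0, fun a ha => ?_⟩
    · exact Finset.mem_range.1 (hS ((he _).2 ⟨_, rfl⟩))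
    · obtain ⟨i, hi⟩ := (he a).1 ha
      refine ⟨⟨i, i.2.trans_le hs⟩, ?_⟩
      simp [hi]
  obtain ⟨f, hf⟩ := hfun
  simp only [Ew, mem_iUnion]
  refine ⟨f, ?_⟩
  simp only [Cv, mem_iInter, Finset.mem_Ioc]
  rintro n ⟨hn1, hn2⟩ hU
  obtain ⟨a, ha, han, hX⟩ := hc n hn1 hn2
  simp only [Un, mem_iInter] at hU
  refine hU (n - a) ?_ hX
  simp only [Ix, Finset.mem_image, Finset.mem_filter]
  refine ⟨a, ⟨?_, han⟩, rfl⟩
  obtain ⟨i, hi⟩ := hf a ha
  exact Finset.mem_insert_of_mem (Finset.mem_image.2 ⟨i, Finset.mem_univ i, hi⟩)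

lemma Ew_prob {μ : Measure Ω} [IsProbabilityMeasure μ] {X : ℕ → Set Ω}
    (hm : ∀ n, MeasurableSet (X n)) (hi : iIndepSet X μ) (s w N M : ℕ) (η Λ D B : ℝ)
    (hη0 : 0 ≤ η) (hη : η ≤ 1 / 2) (hp : ∀ m, M ≤ m → μ.real (X m) ≤ η) (hΛ : 0 < Λ)
    (hD : ∑ m ∈ Finset.range (N + 1), μ.real (X m) ≤ D)
    (hB : B ≤ Real.exp (-((1 + 2 * η) * Λ)) *
      (((N : ℝ) - w - ((s + 1 : ℕ) : ℝ) * M - ((s + 1 : ℕ) : ℝ) * D / Λ) /
        ((s + 1 : ℕ) : ℝ) ^ 2)) :
    μ (Ew X w N s) ≤ ENNReal.ofReal (Real.exp (s * Real.log (N + 1) - B)) := by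
  classical
  have h1 : ∀ f : Fin s → Fin (N + 1),
      μ (Cv X w N (insert 0 (Finset.univ.image fun i => (f i : ℕ)))) ≤
        ENNReal.ofReal (Real.exp (-B)) := by
    intro f
    refine (Cv_prob hm hi _ (s + 1) w N M η Λ D (Finset.mem_insert_self _ _) ?_ hη0 hη hp hΛ
      hD).trans ?_
    · refine (Finset.card_insert_le _ _).trans ?_
      have : (Finset.univ.image fun i => (f i : ℕ)).card ≤ s := by
        refine Finset.card_image_le.trans ?_
        simp
      omega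
    · apply ENNReal.ofReal_le_ofReal
      apply Real.exp_le_exp.2
      exact neg_le_neg hB
  calc μ (Ew X w N s) ≤ ∑ f : Fin s → Fin (N + 1),
        μ (Cv X w N (insert 0 (Finset.univ.image fun i => (f i : ℕ)))) :=
        measure_iUnion_fintype_le _ _
    _ ≤ ∑ _f : Fin s → Fin (N + 1), ENNReal.ofReal (Real.exp (-B)) :=
        Finset.sum_le_sum fun f _ => h1 f
    _ = ENNReal.ofReal (Real.exp (s * Real.log (N + 1) - B)) := by
        rw [Finset.sum_const, Finset.card_univ, Fintype.card_fun, Fintype.card_fin,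
          Fintype.card_fin, nsmul_eq_mul, sub_eq_add_neg, Real.exp_add,
          ENNReal.ofReal_mul (Real.exp_pos _).le]
        congr 1
        rw [Real.exp_nat_mul, Real.exp_log (by positivity), ENNReal.ofReal_pow (by positivity)]
        push_cast
        congr 1
        rw [ENNReal.ofReal_add (by positivity) (by norm_num)]
        simp

end Pool.Agent.CRM
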