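import Mathlib

/-!
# Random sets with independent elements: the probability that a block of integers is covered
-/

set_option autoImplicit false

open MeasureTheory ProbabilityTheory Filter Set
open scoped ENNReal

namespace Pool.Agent.CRM

variable {Ω : Type} [MeasurableSpace Ω]

/-- the complements of independent events are independent -/
lemma indep_compl {μ : Measure Ω} {X : ℕ → Set Ω}
    (hm : ∀ n, MeasurableSet (X n)) (h : iIndepSet X μ) : iIndepSet (fun n => (X n)ᶜ) μ := by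
  rw [iIndepSet_iff_meas_biInter (fun n => (hm n).compl)]
  intro s
  have h1 := (iIndepSet_iff_iIndep _ _).1 h
  refine h1.meas_biInter fun i _ => ?_
  exact (MeasurableSpace.measurableSet_generateFrom (mem_singleton (X i))).compl

/-- the integers `n - a`, `a ∈ S` -/
def Ix (S : Finset ℕ) (n : ℕ) : Finset ℕ := (S.filter (fun a => a ≤ n)).image (fun a => n - a)

/-- `n` is not covered by `R + S` -/
def Un (X : ℕ → Set Ω) (S : Finset ℕ) (n : ℕ) : Set Ω := ⋂ m ∈ Ix S n, (X m)ᶜ

lemma Un_meas {X : ℕ → Set Ω} (hm : ∀ n, MeasurableSet (X n)) (S : Finset ℕ) (n : ℕ) :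
    MeasurableSet (Un X S n) :=
  Finset.measurableSet_biInter _ fun m _ => (hm m).compl

lemma Un_prob {μ : Measure Ω} {X : ℕ → Set Ω} (hm : ∀ n, MeasurableSet (X n))
    (h : iIndepSet X μ) (S : Finset ℕ) (n : ℕ) :
    μ (Un X S n) = ∏ m ∈ Ix S n, μ (X m)ᶜ :=
  (indep_compl hm h).meas_biInter _

/-- disjoint index sets give independent events -/
lemma Un_indep {μ : Measure Ω} {X : ℕ → Set Ω} (hm : ∀ n, MeasurableSet (X n))
    (h : iIndepSet X μ) (S T : Finset ℕ)
    (hd : ∀ n ∈ T, ∀ n' ∈ T, n ≠ n' → Disjoint (Ix S n) (Ix S n')) :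
    iIndepSet (fun n : T => Un X S (n : ℕ)) μ := by
  classical
  rw [iIndepSet_iff_meas_biInter (f := fun n : T => Un X S (n : ℕ)) (fun n => Un_meas hm S n)]
  intro F
  have h1 : (⋂ n ∈ F, Un X S (n : ℕ)) = ⋂ m ∈ F.biUnion (fun n : T => Ix S (n : ℕ)), (X m)ᶜ := by
    ext ω
    simp only [Un, mem_iInter, Finset.mem_biUnion]
    constructor
    · rintro hω m ⟨n, hn, hmn⟩
      exact hω n hn m hmn
    · intro hω n hn m hmn
      exact hω m ⟨n, hn, hmn⟩
  rw [h1, (indep_compl hm h).meas_biInter, Finset.prod_biUnion]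
  · exact Finset.prod_congr rfl fun n _ => (Un_prob hm h S n).symm
  · intro n _ n' _ hne
    exact hd n n.2 n' n'.2 (fun e => hne (Subtype.ext e))

/-- the probability that all `n ∈ T` are covered -/
lemma cover_prob {μ : Measure Ω} [IsProbabilityMeasure μ] {X : ℕ → Set Ω}
    (hm : ∀ n, MeasurableSet (X n)) (h : iIndepSet X μ) (S T : Finset ℕ)
    (hd : ∀ n ∈ T, ∀ n' ∈ T, n ≠ n' → Disjoint (Ix S n) (Ix S n')) (q : ℝ) (hq0 : 0 ≤ q)
    (hq : ∀ n ∈ T, ENNReal.ofReal q ≤ μ (Un X S n)) :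
    μ (⋂ n ∈ T, (Un X S n)ᶜ) ≤ ENNReal.ofReal (Real.exp (-(q * T.card))) := by
  classical
  have h1 := Un_indep hm h S T hd
  have h2 := (iIndepSet_iff_iIndep _ _).1 h1
  have h3 := h2.meas_iInter (s := fun n : T => (Un X S (n : ℕ))ᶜ) (fun n =>
    (MeasurableSpace.measurableSet_generateFrom (mem_singleton (Un X S (n : ℕ)))).compl)
  have h4 : (⋂ n ∈ T, (Un X S n)ᶜ) = ⋂ n : T, (Un X S (n : ℕ))ᶜ := by
    ext ω
    simp
  rw [h4, h3]
  have h5 : ∀ n : T, μ (Un X S (n : ℕ))ᶜ ≤ ENNReal.ofReal (Real.exp (-q)) := by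
    intro n
    rw [prob_compl_eq_one_sub (Un_meas hm S n)]
    calc 1 - μ (Un X S (n : ℕ)) ≤ 1 - ENNReal.ofReal q := tsub_le_tsub_left (hq n n.2) 1
      _ = ENNReal.ofReal (1 - q) := by
          rw [ENNReal.ofReal_sub _ hq0, ENNReal.ofReal_one]
      _ ≤ ENNReal.ofReal (Real.exp (-q)) := by
          apply ENNReal.ofReal_le_ofReal
          linarith [Real.add_one_le_exp (-q)]
  calc ∏ n : T, μ (Un X S (n : ℕ))ᶜ ≤ ∏ _n : T, ENNReal.ofReal (Real.exp (-q)) :=
        Finset.prod_le_prod' fun n _ => h5 n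
    _ = ENNReal.ofReal (Real.exp (-(q * T.card))) := by
        rw [Finset.prod_const, Finset.card_univ, Fintype.card_coe, ← ENNReal.ofReal_pow
          (Real.exp_pos _).le, ← Real.exp_nat_mul]
        congr 2
        ring

/-- choice of many integers with disjoint index sets -/
lemma choose_disj (S G : Finset ℕ) (s : ℕ) (h0 : 0 ∈ S) (hs : S.card ≤ s) :
    ∃ T ⊆ G, (∀ n ∈ T, ∀ n' ∈ T, n ≠ n' → Disjoint (Ix S n) (Ix S n')) ∧
      G.card ≤ T.card * s ^ 2 := by
  classical
  -- a maximal admissible subset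
  let P : Finset ℕ → Prop := fun T => T ⊆ G ∧
    ∀ n ∈ T, ∀ n' ∈ T, n ≠ n' → Disjoint (Ix S n) (Ix S n')
  obtain ⟨T, hT, hmax⟩ : ∃ T, P T ∧ ∀ T', P T' → T'.card ≤ T.card := by
    have hfin : (G.powerset.filter P).Nonempty :=
      ⟨∅, by simp [P]⟩
    obtain ⟨T, hT, hmax⟩ := Finset.exists_max_image _ Finset.card hfin
    rw [Finset.mem_filter] at hT
    refine ⟨T, hT.2, fun T' hT' => hmax T' ?_⟩
    rw [Finset.mem_filter, Finset.mem_powerset]
    exact ⟨hT'.1, hT'⟩
  refine ⟨T, hT.1, hT.2, ?_⟩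
  let C : ℕ → Finset ℕ := fun n => (S ×ˢ S).image (fun p => n - p.1 + p.2)
  have hC : ∀ n, (C n).card ≤ s ^ 2 := by
    intro n
    refine Finset.card_image_le.trans ?_
    rw [Finset.card_product, sq]
    exact Nat.mul_le_mul hs hs
  have hsub : G ⊆ T.biUnion C := by
    intro n hn
    rw [Finset.mem_biUnion]
    by_cases hnT : n ∈ T
    · exact ⟨n, hnT, Finset.mem_image.2 ⟨(0, 0), Finset.mem_product.2 ⟨h0, h0⟩, by simp⟩⟩
    · by_contra hcon
      push Not at hcon
      have hP : P (insert n T) := by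
        refine ⟨Finset.insert_subset hn hT.1, ?_⟩
        have hdis : ∀ n' ∈ T, Disjoint (Ix S n) (Ix S n') := by
          intro n' hn'
          rw [Finset.disjoint_left]
          intro m hm hm'
          simp only [Ix, Finset.mem_image, Finset.mem_filter] at hm hm'
          obtain ⟨a, ⟨ha, han⟩, rfl⟩ := hm
          obtain ⟨b, ⟨hb, hbn⟩, hab⟩ := hm'
          refine hcon n' hn' (Finset.mem_image.2 ⟨(b, a), Finset.mem_product.2 ⟨hb, ha⟩, ?_⟩)
          simp only
          omega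
        intro x hx y hy hxy
        rw [Finset.mem_insert] at hx hy
        rcases hx with rfl | hx <;> rcases hy with rfl | hy
        · exact absurd rfl hxy
        · exact hdis y hy
        · exact (hdis x hx).symm
        · exact hT.2 x hx y hy hxy
      have h1 := hmax _ hP
      rw [Finset.card_insert_of_notMem hnT] at h1
      omega
  calc G.card ≤ (T.biUnion C).card := Finset.card_le_card hsub
    _ ≤ T.card * s ^ 2 := Finset.card_biUnion_le_card_mul _ _ _ fun n _ => hC n

end Pool.Agent.CRM
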