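import Pool.Agent.CRM.Targets

/-!
# CRM-MAINP: numerical assembly for one `n`
-/

set_option autoImplicit false

open scoped BigOperators Classical
open Finset MeasureTheory ProbabilityTheory

namespace CRM

namespace MAINP_

/-- the presieving factor -/
noncomputable def kap (W : ℕ) : ℝ := (W : ℝ) / Nat.totient W

theorem one_le_kap (W : ℕ) (hW : 1 ≤ W) : 1 ≤ kap W := by
  unfold kap
  have h1 : 0 < Nat.totient W := Nat.totient_pos.2 hW
  rw [le_div_iff₀ (by exact_mod_cast h1), one_mul]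
  exact_mod_cast Nat.totient_le W

theorem kap_le (W : ℕ) (hW : 1 ≤ W) : kap W ≤ W := by
  unfold kap
  have h1 : 0 < Nat.totient W := Nat.totient_pos.2 hW
  have h1' : (1 : ℝ) ≤ Nat.totient W := by exact_mod_cast h1
  exact div_le_self (by positivity) h1'

theorem pr_nonneg (W m : ℕ) : 0 ≤ pr W m := by
  unfold pr
  split_ifs
  · exact le_min zero_le_one (div_nonneg (by positivity) (Real.log_natCast_nonneg m))
  · exact le_refl 0

theorem pr_le_one (W m : ℕ) : pr W m ≤ 1 := by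
  unfold pr
  split_ifs
  · exact min_le_left _ _
  · exact zero_le_one

theorem pr_le (W m c : ℕ) (hW : 1 ≤ W) (hc : 2 ≤ c) (hcm : c ≤ m) :
    pr W m ≤ kap W / Real.log c := by
  have hlc : 0 < Real.log c := Real.log_pos (by exact_mod_cast hc)
  have hk : 0 ≤ kap W := by have := one_le_kap W hW; linarith
  unfold pr
  split_ifs
  · refine le_trans (min_le_right _ _) ?_
    exact div_le_div_of_nonneg_left hk hlc
      (Real.log_le_log (by positivity) (by exact_mod_cast hcm))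
  · positivity

theorem le_pr (W m : ℕ) (hW : 1 ≤ W) (hm : 2 ≤ m) (hc : Nat.Coprime m W) (Λ : ℝ) (h1 : 1 ≤ Λ)
    (h2 : Real.log m ≤ Λ) : 1 / Λ ≤ pr W m := by
  have hlm : 0 < Real.log m := Real.log_pos (by exact_mod_cast hm)
  unfold pr
  rw [if_pos hc]
  refine le_min ?_ ?_
  · rw [div_le_one (by linarith)]
    exact h1
  · have h3 := one_le_kap W hW
    unfold kap at h3
    exact div_le_div₀ (by linarith) h3 hlm h2

theorem half_le_pr (W m c : ℕ) (hW : 1 ≤ W) (hc : 2 ≤ c) (hcm : c ≤ m) (hm : m ≤ c ^ 2)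
    (hk : kap W ≤ Real.log c) (hco : Nat.Coprime m W) : kap W / Real.log c ≤ 2 * pr W m := by
  have hlc : 0 < Real.log c := Real.log_pos (by exact_mod_cast hc)
  have hlm : 0 < Real.log m := Real.log_pos (by exact_mod_cast le_trans hc hcm)
  have hk0 : 0 ≤ kap W := by have := one_le_kap W hW; linarith
  have h2 : Real.log m ≤ 2 * Real.log c := by
    have : Real.log (m : ℝ) ≤ Real.log ((c : ℝ) ^ 2) := by
      refine Real.log_le_log (by have : 0 < m := by omega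
                                 exact_mod_cast this) ?_
      exact_mod_cast hm
    rwa [Real.log_pow] at this
  unfold pr
  rw [if_pos hco]
  change kap W / Real.log c ≤ 2 * min 1 (kap W / Real.log m)
  have h3 : kap W / (2 * Real.log c) ≤ min 1 (kap W / Real.log m) := by
    refine le_min ?_ ?_
    · rw [div_le_one (by linarith)]
      linarith
    · exact div_le_div_of_nonneg_left hk0 hlm h2
  have h4 : kap W / Real.log c = 2 * (kap W / (2 * Real.log c)) := by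
    field_simp
  rw [h4]
  linarith

/-- the partial sums of the density -/
noncomputable def F (W N : ℕ) : ℝ := ∑ m ∈ range (N + 1), pr W m

theorem F_split (W a b : ℕ) (h : a ≤ b) : F W b = F W a + ∑ m ∈ Ioc a b, pr W m := by
  unfold F
  have h1 : Ioc a b = Ico (a + 1) (b + 1) := by
    ext m
    simp only [mem_Ioc, mem_Ico]
    omega
  rw [h1, Finset.sum_range_add_sum_Ico _ (by omega)]

theorem F_mono (W a b : ℕ) (h : a ≤ b) : F W a ≤ F W b := by
  rw [F_split W a b h]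
  have : 0 ≤ ∑ m ∈ Ioc a b, pr W m := Finset.sum_nonneg fun m _ => pr_nonneg W m
  linarith

theorem F_le (W a : ℕ) : F W a ≤ a + 1 := by
  unfold F
  calc ∑ m ∈ range (a + 1), pr W m ≤ ∑ m ∈ range (a + 1), (1 : ℝ) :=
        Finset.sum_le_sum fun m _ => pr_le_one W m
    _ = a + 1 := by simp

theorem F_diff_le (W a b : ℕ) (h : a ≤ b) : F W b ≤ F W a + (b - a) := by
  rw [F_split W a b h]
  have : ∑ m ∈ Ioc a b, pr W m ≤ ∑ m ∈ Ioc a b, (1 : ℝ) :=
    Finset.sum_le_sum fun m _ => pr_le_one W m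
  have h2 : ∑ m ∈ Ioc a b, (1 : ℝ) = (b : ℝ) - a := by
    simp [Nat.cast_sub h]
  linarith

theorem ev_s (W : ℕ) (K : ℝ) : ∃ s0 : ℝ, ∀ s : ℝ, s0 ≤ s → 1 ≤ s ∧ K ≤ s ∧
    100 * (4 * s ^ 3 * Real.log s + W + 1) ≤ s ^ 4 ∧ Real.exp (2 - s) ≤ 1 / (4 * s ^ 16) := by
  have h1 : ∀ᶠ s : ℝ in Filter.atTop, ‖Real.log s‖ ≤ 1 / 800 * ‖s‖ :=
    Real.isLittleO_log_id_atTop.def (by norm_num)
  have h2 : ∀ᶠ s : ℝ in Filter.atTop, s ^ 16 * Real.exp (-s) < Real.exp (-2) / 4 :=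
    (Real.tendsto_pow_mul_exp_neg_atTop_nhds_zero 16).eventually_lt_const (by positivity)
  have h3 := Filter.eventually_ge_atTop (max 1 (max K (200 * ((W : ℝ) + 1))))
  obtain ⟨s0, hs0⟩ := Filter.eventually_atTop.1 (h1.and (h2.and h3))
  refine ⟨s0, fun s hs => ?_⟩
  obtain ⟨a1, a2, a3⟩ := hs0 s hs
  have b1 : 1 ≤ s := le_trans (le_max_left _ _) a3
  have b2 : K ≤ s := le_trans (le_trans (le_max_left _ _) (le_max_right _ _)) a3
  have b3 : 200 * ((W : ℝ) + 1) ≤ s := le_trans (le_trans (le_max_right _ _) (le_max_right _ _)) a3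
  have hlog : Real.log s ≤ 1 / 800 * s := by
    rw [Real.norm_of_nonneg (by linarith : (0 : ℝ) ≤ s)] at a1
    exact le_trans (le_abs_self _) a1
  refine ⟨b1, b2, ?_, ?_⟩
  · have c1 : s ^ 3 * Real.log s ≤ s ^ 3 * (1 / 800 * s) :=
      mul_le_mul_of_nonneg_left hlog (by positivity)
    have c2 : s ≤ s ^ 4 := by
      calc s = s ^ 1 := (pow_one s).symm
        _ ≤ s ^ 4 := pow_le_pow_right₀ b1 (by norm_num)
    nlinarith
  · have c1 : Real.exp (2 - s) = Real.exp 2 * Real.exp (-s) := by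
      rw [← Real.exp_add]; congr 1
    have c2 : Real.exp 2 * Real.exp (-2) = 1 := by
      rw [← Real.exp_add]; norm_num
    have c3 : 0 < s ^ 16 := by positivity
    rw [le_div_iff₀ (by positivity), c1]
    have c4 : 0 < Real.exp 2 := Real.exp_pos _
    have c5 : Real.exp 2 * (s ^ 16 * Real.exp (-s)) ≤ Real.exp 2 * (Real.exp (-2) / 4) :=
      mul_le_mul_of_nonneg_left a2.le c4.le
    nlinarith

theorem ev_r (W : ℕ) : ∃ r0 : ℝ, ∀ r : ℝ, r0 ≤ r → 1 ≤ r ∧ 4 ≤ 7 * Real.log r ∧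
    32 * W * (7 * Real.log r) ^ 3 * (4 + 3 * (7 * Real.log r)) ≤ r := by
  have h1 : ∀ᶠ r : ℝ in Filter.atTop, ‖Real.log r ^ 4‖ ≤ 1 / (128 * 2401 * (W + 1)) * ‖r‖ :=
    Real.isLittleO_pow_log_id_atTop.def (by positivity)
  have h2 := Filter.tendsto_atTop.1 Real.tendsto_log_atTop 4
  have h3 := Filter.eventually_ge_atTop (1 : ℝ)
  obtain ⟨r0, hr0⟩ := Filter.eventually_atTop.1 (h1.and (h2.and h3))
  refine ⟨r0, fun r hr => ?_⟩
  obtain ⟨a1, a2, a3⟩ := hr0 r hr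
  refine ⟨a3, by linarith, ?_⟩
  rw [Real.norm_of_nonneg (by linarith : (0 : ℝ) ≤ r),
    Real.norm_of_nonneg (by positivity : (0 : ℝ) ≤ Real.log r ^ 4)] at a1
  have a4 : 128 * 2401 * ((W : ℝ) + 1) * Real.log r ^ 4 ≤ r := by
    have : 128 * 2401 * ((W : ℝ) + 1) * Real.log r ^ 4 ≤
        128 * 2401 * ((W : ℝ) + 1) * (1 / (128 * 2401 * (W + 1)) * r) :=
      mul_le_mul_of_nonneg_left a1 (by positivity)
    refine le_trans this (le_of_eq ?_)
    field_simp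
  have hl0 : 0 ≤ Real.log r := by linarith
  calc 32 * (W : ℝ) * (7 * Real.log r) ^ 3 * (4 + 3 * (7 * Real.log r))
      ≤ 32 * (W : ℝ) * (7 * Real.log r) ^ 3 * (4 * (7 * Real.log r)) := by
        refine mul_le_mul_of_nonneg_left (by linarith) (by positivity)
    _ = 128 * 2401 * (W : ℝ) * Real.log r ^ 4 := by ring
    _ ≤ 128 * 2401 * ((W : ℝ) + 1) * Real.log r ^ 4 := by
        have : 0 ≤ Real.log r ^ 4 := by positivity
        nlinarith
    _ ≤ r := a4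

/-- the position of `N0` -/
theorem exN0 (W m0 A n x : ℕ) (hm03 : 3 ≤ m0)
    (hden : ∀ a b : ℕ, m0 ≤ a → a ≤ b →
      ((b : ℝ) - a - W) / Real.log b ≤ ∑ m ∈ Ioc a b, pr W m ∧
      ∑ m ∈ Ioc a b, pr W m ≤ ((b : ℝ) - a + W) / Real.log a)
    (hA : m0 ≤ A) (hAl : 20 ≤ Real.log A) (hx2 : x ≤ 2 * n) (hAx : 2 * (A + 1 + W) ≤ x)
    (hm0n : m0 ≤ n)
    (hn : 4 * (n : ℝ) * Real.log n ≤ (n : ℝ) ^ 2 - 2 * n - W) :
    ∃ N0 : ℕ, 5 * x < N0 ∧ N0 + n ≤ n * n ∧ (x : ℝ) ≤ F W N0 ∧ F W (N0 - 1) < x := by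
  have h5 : F W (5 * x) < x := by
    rw [F_split W A (5 * x) (by omega)]
    have h1 := (hden A (5 * x) hA (by omega)).2
    have h2 := F_le W A
    have h3 : (((5 * x : ℕ) : ℝ) - A + W) / Real.log A ≤ (5 * x + W) / 20 := by
      refine div_le_div₀ (by positivity) ?_ (by norm_num) hAl
      push_cast
      have : (0 : ℝ) ≤ A := by positivity
      linarith
    have h4 : (2 : ℝ) * (A + 1 + W) ≤ x := by exact_mod_cast hAx
    have h5 : (0 : ℝ) ≤ A := by positivity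
    have h6 : (0 : ℝ) ≤ W := by positivity
    linarith
  have hn3 : 3 ≤ n := by omega
  have hnn : n * 3 ≤ n * n := Nat.mul_le_mul_left n hn3
  have hnR : (3 : ℝ) ≤ n := by exact_mod_cast hn3
  have hlogn : 0 < Real.log n := Real.log_pos (by linarith)
  have hB : (x : ℝ) ≤ F W (n * n - n) := by
    have h1 := (hden n (n * n - n) hm0n (by omega)).1
    rw [F_split W n (n * n - n) (by omega)]
    have h0 : 0 ≤ F W n := by
      unfold F
      exact Finset.sum_nonneg fun m _ => pr_nonneg W m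
    have hc : ((n * n - n : ℕ) : ℝ) = (n : ℝ) ^ 2 - n := by
      rw [Nat.cast_sub (by omega)]
      push_cast
      ring
    rw [hc] at h1
    have hlog : Real.log ((n : ℝ) ^ 2 - n) ≤ 2 * Real.log n := by
      have : Real.log ((n : ℝ) ^ 2 - n) ≤ Real.log ((n : ℝ) ^ 2) := by
        refine Real.log_le_log (by nlinarith) (by linarith)
      rwa [Real.log_pow] at this
    have hlpos : 0 < Real.log ((n : ℝ) ^ 2 - n) := Real.log_pos (by nlinarith)
    have h2 : 2 * (n : ℝ) ≤ ((n : ℝ) ^ 2 - n - n - W) / Real.log ((n : ℝ) ^ 2 - n) := by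
      rw [le_div_iff₀ hlpos]
      have : 2 * (n : ℝ) * Real.log ((n : ℝ) ^ 2 - n) ≤ 2 * (n : ℝ) * (2 * Real.log n) :=
        mul_le_mul_of_nonneg_left hlog (by positivity)
      linarith
    have h3 : (x : ℝ) ≤ 2 * n := by exact_mod_cast hx2
    linarith
  have hex : ∃ N : ℕ, (x : ℝ) ≤ F W N := ⟨_, hB⟩
  refine ⟨Nat.find hex, ?_, ?_, Nat.find_spec hex, ?_⟩
  · by_contra hcon
    rw [not_lt] at hcon
    have h1 := F_mono W _ _ hcon
    have h2 := Nat.find_spec hex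
    linarith
  · have h1 := Nat.find_min' hex hB
    omega
  · have h1 : Nat.find hex ≠ 0 := by
      intro h0
      have h2 := Nat.find_spec hex
      rw [h0] at h2
      have h3 := F_mono W 0 (5 * x) (by omega)
      linarith
    have h2 := Nat.find_min hex (m := Nat.find hex - 1) (by omega)
    exact not_le.1 h2

theorem log_le_s (n x : ℕ) (s : ℝ) (hn : 1 ≤ n) (hs : s ^ 4 = x)
    (hnx : (n : ℝ) ≤ (x : ℝ) ^ 2) : Real.log n ≤ 8 * Real.log s := by
  have h1 : (n : ℝ) ≤ s ^ 8 := by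
    rw [← hs] at hnx
    calc (n : ℝ) ≤ (s ^ 4) ^ 2 := hnx
      _ = s ^ 8 := by ring
  have h0 : (0 : ℝ) < n := by exact_mod_cast hn
  have h2 := Real.log_le_log h0 h1
  rw [Real.log_pow] at h2
  exact_mod_cast h2

theorem low_c0 (W m0 n x N0 : ℕ) (s : ℝ)
    (hden : ∀ a b : ℕ, m0 ≤ a → a ≤ b →
      ((b : ℝ) - a - W) / Real.log b ≤ ∑ m ∈ Ioc a b, pr W m ∧
      ∑ m ∈ Ioc a b, pr W m ≤ ((b : ℝ) - a + W) / Real.log a)
    (hn1 : 1 ≤ n) (hs : s ^ 4 = x) (hs1 : 1 ≤ s) (hnx : (n : ℝ) ≤ (x : ℝ) ^ 2)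
    (hX1 : 100 * (4 * s ^ 3 * Real.log s + W + 1) ≤ s ^ 4) (h5 : 5 * x < N0)
    (hNn : N0 + n ≤ n * n) (hx : m0 ≤ x) (hF : F W (N0 - 1) < x) :
    F W (N0 - 3 * (x / 10)) + s ^ 3 ≤ x := by
  have hy : x ≤ 10 * (x / 10) + 9 := by omega
  have hy10 : 10 ≤ x → 1 ≤ x / 10 := by omega
  have hx100 : (100 : ℝ) ≤ x := by
    rw [← hs]
    have h0 : 0 ≤ Real.log s := Real.log_nonneg hs1
    have h1 : 0 ≤ s ^ 3 * Real.log s := by positivity
    have h2 : (0 : ℝ) ≤ W := by positivity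
    nlinarith
  have hx100' : 100 ≤ x := by exact_mod_cast hx100
  have h1 := (hden (N0 - 3 * (x / 10)) (N0 - 1) (by omega) (by omega)).1
  have h2 := F_split W (N0 - 3 * (x / 10)) (N0 - 1) (by omega)
  have hc : ((N0 - 1 : ℕ) : ℝ) - ((N0 - 3 * (x / 10) : ℕ) : ℝ) = 3 * ((x / 10 : ℕ) : ℝ) - 1 := by
    rw [Nat.cast_sub (by omega), Nat.cast_sub (by omega)]
    push_cast
    ring
  rw [hc] at h1
  have hyR : (x : ℝ) ≤ 10 * ((x / 10 : ℕ) : ℝ) + 9 := by exact_mod_cast hy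
  have hlN : 0 < Real.log ((N0 - 1 : ℕ) : ℝ) := by
    refine Real.log_pos ?_
    have : 1 < N0 - 1 := by omega
    exact_mod_cast this
  have hn0 : (0 : ℝ) < n := by exact_mod_cast hn1
  have hlN2 : Real.log ((N0 - 1 : ℕ) : ℝ) ≤ 16 * Real.log s := by
    have h3 : ((N0 - 1 : ℕ) : ℝ) ≤ (n : ℝ) ^ 2 := by
      have : N0 - 1 ≤ n * n := by omega
      have h4 : ((N0 - 1 : ℕ) : ℝ) ≤ ((n * n : ℕ) : ℝ) := by exact_mod_cast this
      refine le_trans h4 (le_of_eq ?_)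
      push_cast
      ring
    have h5 : Real.log ((N0 - 1 : ℕ) : ℝ) ≤ Real.log ((n : ℝ) ^ 2) := by
      refine Real.log_le_log ?_ h3
      have : 0 < N0 - 1 := by omega
      exact_mod_cast this
    rw [Real.log_pow] at h5
    have h6 := log_le_s n x s hn1 hs hnx
    push_cast at h5
    linarith
  have h3 : s ^ 3 ≤ (3 * ((x / 10 : ℕ) : ℝ) - 1 - W) / Real.log ((N0 - 1 : ℕ) : ℝ) := by
    rw [le_div_iff₀ hlN]
    have h4 : s ^ 3 * Real.log ((N0 - 1 : ℕ) : ℝ) ≤ s ^ 3 * (16 * Real.log s) :=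
      mul_le_mul_of_nonneg_left hlN2 (by positivity)
    have h0 : 0 ≤ Real.log s := Real.log_nonneg hs1
    have h5 : 0 ≤ s ^ 3 * Real.log s := by positivity
    have h6 : (0 : ℝ) ≤ W := by positivity
    rw [hs] at hX1
    nlinarith
  linarith

theorem high_M (W m0 n x N0 : ℕ) (s : ℝ)
    (hden : ∀ a b : ℕ, m0 ≤ a → a ≤ b →
      ((b : ℝ) - a - W) / Real.log b ≤ ∑ m ∈ Ioc a b, pr W m ∧
      ∑ m ∈ Ioc a b, pr W m ≤ ((b : ℝ) - a + W) / Real.log a)
    (hn1 : 3 ≤ n) (hs : s ^ 4 = x) (hs1 : 1 ≤ s) (hnx : (n : ℝ) ≤ (x : ℝ) ^ 2)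
    (hX1 : 100 * (4 * s ^ 3 * Real.log s + W + 1) ≤ s ^ 4) (h5 : 5 * x < N0)
    (hNn : N0 + n ≤ n * n) (hx2 : x ≤ 2 * n) (hx : m0 ≤ x) (hF : (x : ℝ) ≤ F W N0) :
    (x : ℝ) + x / (10 * Real.log (2 * n)) + s ^ 3 ≤ F W (N0 + 5 * (x / 10)) := by
  have hy : x ≤ 10 * (x / 10) + 9 := by omega
  have hx100 : (100 : ℝ) ≤ x := by
    rw [← hs]
    have h0 : 0 ≤ Real.log s := Real.log_nonneg hs1
    have h1 : 0 ≤ s ^ 3 * Real.log s := by positivity
    have h2 : (0 : ℝ) ≤ W := by positivity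
    nlinarith
  have hx100' : 100 ≤ x := by exact_mod_cast hx100
  have h1 := (hden N0 (N0 + 5 * (x / 10)) (by omega) (by omega)).1
  have h2 := F_split W N0 (N0 + 5 * (x / 10)) (by omega)
  have hc : ((N0 + 5 * (x / 10) : ℕ) : ℝ) - (N0 : ℝ) = 5 * ((x / 10 : ℕ) : ℝ) := by
    push_cast
    ring
  rw [hc] at h1
  have hyR : (x : ℝ) ≤ 10 * ((x / 10 : ℕ) : ℝ) + 9 := by exact_mod_cast hy
  have hn0 : (3 : ℝ) ≤ n := by exact_mod_cast hn1
  have hln : 0 < Real.log n := Real.log_pos (by linarith)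
  have hlM : 0 < Real.log ((N0 + 5 * (x / 10) : ℕ) : ℝ) := by
    refine Real.log_pos ?_
    have : 1 < N0 + 5 * (x / 10) := by omega
    exact_mod_cast this
  have hlM2 : Real.log ((N0 + 5 * (x / 10) : ℕ) : ℝ) ≤ 2 * Real.log n := by
    have h3 : ((N0 + 5 * (x / 10) : ℕ) : ℝ) ≤ (n : ℝ) ^ 2 := by
      have : N0 + 5 * (x / 10) ≤ n * n := by omega
      have h4 : ((N0 + 5 * (x / 10) : ℕ) : ℝ) ≤ ((n * n : ℕ) : ℝ) := by exact_mod_cast this
      refine le_trans h4 (le_of_eq ?_)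
      push_cast
      ring
    have h5 : Real.log ((N0 + 5 * (x / 10) : ℕ) : ℝ) ≤ Real.log ((n : ℝ) ^ 2) := by
      refine Real.log_le_log ?_ h3
      have : 0 < N0 + 5 * (x / 10) := by omega
      exact_mod_cast this
    rwa [Real.log_pow] at h5
  have hl8 := log_le_s n x s (by omega) hs hnx
  have h0 : 0 ≤ Real.log s := Real.log_nonneg hs1
  have h5' : 0 ≤ s ^ 3 * Real.log s := by positivity
  have h6 : (0 : ℝ) ≤ W := by positivity
  have h7 : s ^ 3 * Real.log n ≤ s ^ 3 * (8 * Real.log s) :=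
    mul_le_mul_of_nonneg_left hl8 (by positivity)
  have h8 : (x : ℝ) / (10 * Real.log (2 * n)) ≤ x / (10 * Real.log n) := by
    refine div_le_div_of_nonneg_left (by positivity) (by linarith) ?_
    have : Real.log n ≤ Real.log (2 * n) := Real.log_le_log (by linarith) (by linarith)
    linarith
  have h9 : (x : ℝ) / (10 * Real.log n) + s ^ 3 ≤
      (5 * ((x / 10 : ℕ) : ℝ) - W) / (2 * Real.log n) := by
    rw [le_div_iff₀ (by linarith)]
    have h10 : ((x : ℝ) / (10 * Real.log n) + s ^ 3) * (2 * Real.log n) =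
        x / 5 + 2 * (s ^ 3 * Real.log n) := by
      field_simp
      ring
    rw [h10]
    rw [hs] at hX1
    nlinarith
  have h11 : (5 * ((x / 10 : ℕ) : ℝ) - W) / (2 * Real.log n) ≤
      (5 * ((x / 10 : ℕ) : ℝ) - W) / Real.log ((N0 + 5 * (x / 10) : ℕ) : ℝ) := by
    refine div_le_div_of_nonneg_left ?_ hlM hlM2
    rw [hs] at hX1
    nlinarith
  linarith

theorem tail_up (hCHE : T_CHE) (W c0 x : ℕ) (s : ℝ) (hs1 : 1 ≤ s) (hs : s ^ 4 = x)
    (hF : F W c0 + s ^ 3 ≤ x) :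
    Ex (pr W) (range (c0 + 1)) (fun T => ind (x ≤ T.card)) ≤ Real.exp (2 - s) := by
  have hs0 : 0 < s := by linarith
  have h1 := (hCHE (pr W) (range (c0 + 1)) (fun m _ => ⟨pr_nonneg W m, pr_le_one W m⟩)
    (1 / s ^ 2) (s ^ 3) (by positivity)
    (by rw [div_le_one (by positivity)]; exact one_le_pow₀ hs1)).1
  refine le_trans (Ex_mono (fun m _ => pr_nonneg W m) (fun m _ => pr_le_one W m)
    (fun T _ => ind_mono (Q := ∑ m ∈ range (c0 + 1), pr W m + s ^ 3 ≤ (T.card : ℝ)) ?_))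
    (le_trans h1 ?_)
  · intro h2
    have h3 : (x : ℝ) ≤ T.card := by exact_mod_cast h2
    exact le_trans hF h3
  · refine Real.exp_le_exp.2 ?_
    have hF' : ∑ m ∈ range (c0 + 1), pr W m ≤ s ^ 4 := by
      have : F W c0 + s ^ 3 ≤ s ^ 4 := by rw [hs]; exact hF
      have h4 : 0 ≤ s ^ 3 := by positivity
      have h5 : F W c0 = ∑ m ∈ range (c0 + 1), pr W m := rfl
      linarith
    have h6 : (1 / s ^ 2) ^ 2 * ∑ m ∈ range (c0 + 1), pr W m ≤ (1 / s ^ 2) ^ 2 * s ^ 4 :=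
      mul_le_mul_of_nonneg_left hF' (by positivity)
    have h7 : (1 / s ^ 2) ^ 2 * s ^ 4 = 1 := by field_simp
    have h8 : 1 / s ^ 2 * s ^ 3 = s := by field_simp
    rw [h8]
    linarith

theorem tail_low (hCHE : T_CHE) (W M x x1 : ℕ) (s : ℝ) (hs1 : 1 ≤ s) (hs : s ^ 4 = x)
    (hF : (x1 : ℝ) + s ^ 3 ≤ F W M) (hF2 : F W M ≤ 2 * x) :
    Ex (pr W) (range (M + 1)) (fun T => ind (T.card < x1)) ≤ Real.exp (2 - s) := by
  have hs0 : 0 < s := by linarith
  have h1 := (hCHE (pr W) (range (M + 1)) (fun m _ => ⟨pr_nonneg W m, pr_le_one W m⟩)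
    (1 / s ^ 2) (s ^ 3) (by positivity)
    (by rw [div_le_one (by positivity)]; exact one_le_pow₀ hs1)).2
  refine le_trans (Ex_mono (fun m _ => pr_nonneg W m) (fun m _ => pr_le_one W m)
    (fun T _ => ind_mono (Q := (T.card : ℝ) ≤ ∑ m ∈ range (M + 1), pr W m - s ^ 3) ?_))
    (le_trans h1 ?_)
  · intro h2
    have h3 : (T.card : ℝ) ≤ x1 := by exact_mod_cast h2.le
    have h5 : F W M = ∑ m ∈ range (M + 1), pr W m := rfl
    linarith
  · refine Real.exp_le_exp.2 ?_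
    have hF' : ∑ m ∈ range (M + 1), pr W m ≤ 2 * s ^ 4 := by
      rw [hs]
      exact hF2
    have h6 : (1 / s ^ 2) ^ 2 * ∑ m ∈ range (M + 1), pr W m ≤ (1 / s ^ 2) ^ 2 * (2 * s ^ 4) :=
      mul_le_mul_of_nonneg_left hF' (by positivity)
    have h7 : (1 / s ^ 2) ^ 2 * (2 * s ^ 4) = 2 := by field_simp
    have h8 : 1 / s ^ 2 * s ^ 3 = s := by field_simp
    rw [h8]
    linarith

theorem cop1 (v W : ℕ) (h : v ≡ 1 [MOD W]) : Nat.Coprime v W := by
  have h1 := h.gcd_eq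
  rw [Nat.gcd_one_left] at h1
  exact h1

theorem cop2 (v z W : ℕ) (hv : v ≡ 1 [MOD W]) (hz : z ≡ 1 [MOD W]) (hvz : v + 2 ≤ z) :
    Nat.Coprime (z - v - 1) W ∧ Nat.Coprime (z - v + 1) W := by
  have h1 : W ∣ z - v := (Nat.modEq_iff_dvd' (by omega)).1 (hv.trans hz.symm)
  constructor
  · have h2 : Nat.Coprime (z - v - 1) (z - v) := by
      have h3 : z - v = (z - v - 1) + 1 := by omega
      rw [h3]
      simp
    exact Nat.Coprime.coprime_dvd_right h1 h2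
  · have h2 : Nat.Coprime (z - v + 1) (z - v) := by simp
    exact Nat.Coprime.coprime_dvd_right h1 h2

theorem two_pow_ge (n g : ℕ) (hn : 1 ≤ n) (hg : 10 * Real.log n ≤ g) :
    (n : ℝ) ^ 6 ≤ 2 ^ g := by
  have h0 : (0 : ℝ) < n := by exact_mod_cast hn
  have hl : 0 ≤ Real.log n := Real.log_nonneg (by exact_mod_cast hn)
  have h1 : (2 : ℝ) ^ g = Real.exp (g * Real.log 2) := by
    rw [Real.exp_nat_mul, Real.exp_log (by norm_num)]
  have h2 : (n : ℝ) ^ 6 = Real.exp (6 * Real.log n) := by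
    have := Real.exp_nat_mul (Real.log n) 6
    push_cast at this
    rw [this, Real.exp_log h0]
  rw [h1, h2]
  refine Real.exp_le_exp.2 ?_
  have h3 := Real.log_two_gt_d9
  have h4 : (10 * Real.log n) * Real.log 2 ≤ g * Real.log 2 :=
    mul_le_mul_of_nonneg_right hg (by linarith)
  nlinarith

theorem spc_num (n x g : ℕ) (hn : 6 ≤ n) (hx : x ≤ 2 * n) (hg : 10 * Real.log n ≤ g) :
    (8 * ((x / 10 : ℕ) : ℝ)) * 16 / 2 ^ g ≤ 1 / (4 * (n : ℝ) ^ 2) := by
  have h1 := two_pow_ge n g (by omega) hg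
  have hn6 : (6 : ℝ) ≤ n := by exact_mod_cast hn
  have hy : 8 * (x / 10) ≤ 2 * n := by omega
  have hyR : 8 * ((x / 10 : ℕ) : ℝ) ≤ 2 * n := by exact_mod_cast hy
  calc (8 * ((x / 10 : ℕ) : ℝ)) * 16 / 2 ^ g ≤ (2 * (n : ℝ)) * 16 / (n : ℝ) ^ 6 := by
        refine div_le_div₀ (by positivity) ?_ (by positivity) h1
        linarith
    _ ≤ 1 / (4 * (n : ℝ) ^ 2) := by
        rw [div_le_div_iff₀ (by positivity) (by positivity)]
        have h2 : (216 : ℝ) ≤ n ^ 3 := by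
          calc (216 : ℝ) = 6 ^ 3 := by norm_num
            _ ≤ (n : ℝ) ^ 3 := pow_le_pow_left₀ (by norm_num) hn6 3
        have h3 : 0 < (n : ℝ) ^ 3 := by positivity
        nlinarith

theorem last_num (n W k N : ℕ) (r : ℝ) (hn : 6 ≤ n) (hW : 1 ≤ W) (hr : r ≤ k)
    (hL : 1 ≤ Real.log n)
    (hN4 : 32 * W * Real.log n ^ 3 * (4 + 3 * Real.log n) ≤ r) (hN : N ≤ 8 * n) :
    (N : ℝ) * (1 - (1 / (2 * Real.log n) ^ 3) / (4 * W)) ^ k ≤ 1 / (4 * (n : ℝ) ^ 2) := by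
  set L := Real.log n with hLdef
  have hWR : (1 : ℝ) ≤ W := by exact_mod_cast hW
  have hn6 : (6 : ℝ) ≤ n := by exact_mod_cast hn
  have hu : (1 / (2 * L) ^ 3) / (4 * (W : ℝ)) = 1 / (32 * W * L ^ 3) := by
    field_simp
    ring
  rw [hu]
  have hD : 1 ≤ 32 * (W : ℝ) * L ^ 3 := by
    have : 1 ≤ L ^ 3 := one_le_pow₀ hL
    nlinarith
  have hu1 : 1 / (32 * (W : ℝ) * L ^ 3) ≤ 1 := by
    rw [div_le_one (by linarith)]
    exact hD
  have h1 : 0 ≤ 1 - 1 / (32 * (W : ℝ) * L ^ 3) := by linarith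
  have h2 : 1 - 1 / (32 * (W : ℝ) * L ^ 3) ≤ Real.exp (-(1 / (32 * (W : ℝ) * L ^ 3))) := by
    have := Real.add_one_le_exp (-(1 / (32 * (W : ℝ) * L ^ 3)))
    linarith
  have h3 : (1 - 1 / (32 * (W : ℝ) * L ^ 3)) ^ k ≤
      Real.exp (-(4 + 3 * L)) := by
    refine le_trans (pow_le_pow_left₀ h1 h2 k) ?_
    rw [← Real.exp_nat_mul]
    refine Real.exp_le_exp.2 ?_
    have h4 : 4 + 3 * L ≤ k * (1 / (32 * (W : ℝ) * L ^ 3)) := by
      rw [mul_one_div, le_div_iff₀ (by linarith)]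
      have : (4 + 3 * L) * (32 * (W : ℝ) * L ^ 3) = 32 * W * L ^ 3 * (4 + 3 * L) := by ring
      rw [this]
      linarith
    linarith
  have h5 : Real.exp (-(4 + 3 * L)) = Real.exp (-4) * (1 / (n : ℝ) ^ 3) := by
    have h6 : Real.exp (3 * L) = (n : ℝ) ^ 3 := by
      have := Real.exp_nat_mul L 3
      push_cast at this
      rw [this, hLdef, Real.exp_log (by linarith)]
    rw [neg_add, Real.exp_add, Real.exp_neg (3 * L), h6, one_div]
  have h7 : Real.exp (-4) ≤ 1 / 32 := by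
    rw [Real.exp_neg, ← one_div]
    refine one_div_le_one_div_of_le (by norm_num) ?_
    have h8 : Real.exp 4 = Real.exp 1 ^ 4 := by
      rw [← Real.exp_nat_mul]
      norm_num
    rw [h8]
    have h9 := Real.exp_one_gt_d9
    calc (32 : ℝ) ≤ 2.7 ^ 4 := by norm_num
      _ ≤ Real.exp 1 ^ 4 := pow_le_pow_left₀ (by norm_num) (by linarith) 4
  have hNR : (N : ℝ) ≤ 8 * n := by exact_mod_cast hN
  calc (N : ℝ) * (1 - 1 / (32 * (W : ℝ) * L ^ 3)) ^ k ≤
        (8 * (n : ℝ)) * Real.exp (-(4 + 3 * L)) :=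
        mul_le_mul hNR h3 (pow_nonneg h1 k) (by positivity)
    _ ≤ (8 * (n : ℝ)) * ((1 / 32) * (1 / (n : ℝ) ^ 3)) := by
        rw [h5]
        refine mul_le_mul_of_nonneg_left ?_ (by positivity)
        exact mul_le_mul_of_nonneg_right h7 (by positivity)
    _ = 1 / (4 * (n : ℝ) ^ 2) := by
        field_simp
        norm_num

theorem ev_n (W : ℕ) : ∀ᶠ n : ℕ in Filter.atTop,
    4 * (n : ℝ) * Real.log n ≤ (n : ℝ) ^ 2 - 2 * n - W := by
  have h1 : ∀ᶠ s : ℝ in Filter.atTop, ‖Real.log s‖ ≤ 1 / 8 * ‖s‖ :=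
    Real.isLittleO_log_id_atTop.def (by norm_num)
  have h2 := tendsto_natCast_atTop_atTop (R := ℝ) |>.eventually h1
  filter_upwards [h2, Filter.eventually_ge_atTop (2 * (W + 4))] with n a1 a2
  have a3 : Real.log n ≤ 1 / 8 * n := by
    rw [Real.norm_of_nonneg (by positivity : (0 : ℝ) ≤ n)] at a1
    exact le_trans (le_abs_self _) a1
  have a4 : (2 : ℝ) * (W + 4) ≤ n := by exact_mod_cast a2
  have a5 : (0 : ℝ) ≤ W := by positivity
  have a6 : 4 * (n : ℝ) * Real.log n ≤ 4 * (n : ℝ) * (1 / 8 * n) :=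
    mul_le_mul_of_nonneg_left a3 (by positivity)
  nlinarith

/-- the conditions of COND, for the numerical data -/
theorem assemble (hCHE : T_CHE) (hSPC : T_SPC) (hCOND : T_COND) (W n x N0 : ℕ) (s r : ℝ)
    (V : Finset ℕ) (hW : 1 ≤ W) (hn : 6 ≤ n) (hs : s ^ 4 = x) (hs1 : 1 ≤ s)
    (hnx : (n : ℝ) ≤ (x : ℝ) ^ 2) (hx100 : 100 ≤ x) (hx2 : x ≤ 2 * n)
    (hX2 : Real.exp (2 - s) ≤ 1 / (4 * s ^ 16)) (hX3 : Real.exp (4 * (W : ℝ) ^ 2) ≤ x)
    (hL : 4 ≤ Real.log n)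
    (hN4 : 32 * W * Real.log n ^ 3 * (4 + 3 * Real.log n) ≤ r) (hrV : r ≤ V.card)
    (h5 : 5 * x < N0) (hNn : N0 + n ≤ n * n) (hF1 : F W (N0 - 1) < x)
    (hc0 : F W (N0 - 3 * (x / 10)) + s ^ 3 ≤ x)
    (hM : (x : ℝ) + x / (10 * Real.log (2 * n)) + s ^ 3 ≤ F W (N0 + 5 * (x / 10)))
    (hV : ∀ v ∈ V, v ≡ 1 [MOD W] ∧ x ≤ v ∧ (v : ℝ) ≤ x + x / (10 * Real.log (2 * n)))
    (hVg : ∀ v ∈ V, ∀ v' ∈ V, v < v' → v + ⌈10 * Real.log n⌉₊ ≤ v') :
    Ex (pr W) (range (N0 + 5 * (x / 10) + 1)) (fun T => ind (∀ v ∈ V, ¬ Succ T v)) ≤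
      1 / (n : ℝ) ^ 2 := by
  have hnR : (6 : ℝ) ≤ n := by exact_mod_cast hn
  have hWR : (1 : ℝ) ≤ W := by exact_mod_cast hW
  have hln : Real.log n ≤ Real.log (2 * n) := Real.log_le_log (by linarith) (by linarith)
  have hxR : (100 : ℝ) ≤ x := by exact_mod_cast hx100
  -- the bound for `x1`
  have hx1u : (x : ℝ) / (10 * Real.log (2 * n)) ≤ x / 20 := by
    refine div_le_div_of_nonneg_left (by positivity) (by norm_num) ?_
    linarith
  have hx1nn : 0 ≤ (x : ℝ) / (10 * Real.log (2 * n)) :=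
    div_nonneg (by positivity) (by linarith)
  have hvu : ∀ v ∈ V, 20 * v ≤ 21 * x := by
    intro v hv
    have h1 := (hV v hv).2.2
    have h2 : (20 : ℝ) * v ≤ 21 * x := by linarith
    exact_mod_cast h2
  -- the logarithm of `c0`
  have hc0ge : 100 ≤ N0 - 3 * (x / 10) ∧ x ≤ N0 - 3 * (x / 10) := by omega
  have hlc0 : 4 * (W : ℝ) ^ 2 ≤ Real.log ((N0 - 3 * (x / 10) : ℕ) : ℝ) := by
    rw [Real.le_log_iff_exp_le (by
      have : 0 < N0 - 3 * (x / 10) := by omega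
      exact_mod_cast this)]
    refine le_trans hX3 ?_
    exact_mod_cast hc0ge.2
  have hk1 := one_le_kap W hW
  have hk2 := kap_le W hW
  have hW2 : (W : ℝ) ≤ (W : ℝ) ^ 2 := by nlinarith
  have hlc0pos : 0 < Real.log ((N0 - 3 * (x / 10) : ℕ) : ℝ) := by nlinarith
  -- CHE
  have t1 := tail_up hCHE W (N0 - 3 * (x / 10)) x s hs1 hs hc0
  have hM2 : F W (N0 + 5 * (x / 10)) ≤ 2 * x := by
    have h1 := F_diff_le W (N0 - 1) (N0 + 5 * (x / 10)) (by omega)
    have h2 : ((N0 + 5 * (x / 10) : ℕ) : ℝ) - ((N0 - 1 : ℕ) : ℝ) ≤ x := by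
      have h3 : N0 + 5 * (x / 10) ≤ x + (N0 - 1) := by omega
      have h4 : ((N0 + 5 * (x / 10) : ℕ) : ℝ) ≤ ((x + (N0 - 1) : ℕ) : ℝ) := by exact_mod_cast h3
      rw [Nat.cast_add x] at h4
      linarith
    linarith
  have hfl : ((⌊(x : ℝ) + x / (10 * Real.log (2 * n))⌋₊ : ℕ) : ℝ) ≤
      x + x / (10 * Real.log (2 * n)) := Nat.floor_le (by linarith)
  have t2 := tail_low hCHE W (N0 + 5 * (x / 10)) x ⌊(x : ℝ) + x / (10 * Real.log (2 * n))⌋₊ s
    hs1 hs (by linarith) hM2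
  -- SPC
  have hg : 10 * Real.log n ≤ ((⌈10 * Real.log n⌉₊ : ℕ) : ℝ) := Nat.le_ceil _
  have t3 : Ex (pr W) (Ioc (N0 - 3 * (x / 10)) (N0 + 5 * (x / 10)))
      (fun T => ind (¬ SP ⌈10 * Real.log n⌉₊ T)) ≤ 1 / (4 * (n : ℝ) ^ 2) := by
    have hp14 : ∀ m ∈ Ioc (N0 - 3 * (x / 10)) (N0 + 5 * (x / 10)),
        0 ≤ pr W m ∧ pr W m ≤ 1 / 4 := by
      intro m hm
      refine ⟨pr_nonneg W m, ?_⟩
      refine le_trans (pr_le W m (N0 - 3 * (x / 10)) hW (by omega) (mem_Ioc.1 hm).1.le) ?_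
      rw [div_le_iff₀ hlc0pos]
      nlinarith
    rcases hSPC (pr W) (N0 - 3 * (x / 10)) (N0 + 5 * (x / 10)) ⌈10 * Real.log n⌉₊ hp14 with h | h
    · refine le_trans h ?_
      have h1 : ((N0 + 5 * (x / 10) : ℕ) : ℝ) - ((N0 - 3 * (x / 10) : ℕ) : ℝ) =
          8 * ((x / 10 : ℕ) : ℝ) := by
        rw [Nat.cast_sub (by omega)]
        push_cast
        ring
      rw [h1]
      exact spc_num n x _ hn hx2 hg
    · omega
  -- the last term
  set AB : Finset ℕ := Ioc (N0 - 15 * (x / 10)) (N0 - 3 * (x / 10)) ∪ Icc x (2 * x) with hAB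
  have hABc : AB.card + 1 ≤ 8 * n := by
    have h1 := card_union_le (Ioc (N0 - 15 * (x / 10)) (N0 - 3 * (x / 10))) (Icc x (2 * x))
    rw [Nat.card_Ioc, Nat.card_Icc] at h1
    rw [hAB]
    omega
  have t4 := last_num n W V.card (AB.card + 1) r hn hW hrV (by linarith) hN4 hABc
  have hΛ : ∀ m : ℕ, 2 ≤ m → m ≤ n * n → Nat.Coprime m W → 1 / (2 * Real.log n) ≤ pr W m := by
    intro m hm hmn hco
    refine le_pr W m hW hm hco (2 * Real.log n) (by linarith) ?_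
    have h1 : Real.log (m : ℝ) ≤ Real.log ((n : ℝ) ^ 2) := by
      refine Real.log_le_log (by
        have : 0 < m := by omega
        exact_mod_cast this) ?_
      have h2 : (m : ℝ) ≤ ((n * n : ℕ) : ℝ) := by exact_mod_cast hmn
      refine le_trans h2 (le_of_eq ?_)
      push_cast
      ring
    rwa [Real.log_pow] at h1
  have hmain := hCOND (pr W) W (N0 - 3 * (x / 10)) (N0 + 5 * (x / 10)) x
    ⌊(x : ℝ) + x / (10 * Real.log (2 * n))⌋₊ ⌈10 * Real.log n⌉₊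
    (kap W / Real.log ((N0 - 3 * (x / 10) : ℕ) : ℝ)) (1 / (2 * Real.log n) ^ 3) V AB
    (fun m _ => ⟨pr_nonneg W m, pr_le_one W m⟩) hW (by omega) (by positivity)
    (by
      rw [div_le_one (by positivity)]
      exact one_le_pow₀ (by linarith))
    (fun m hm => pr_le W m _ hW (by omega) (mem_Ioc.1 hm).1.le)
    (fun m hm hm1 => by
      have hm' := mem_Ioc.1 hm
      refine half_le_pr W m _ hW (by omega) hm'.1.le ?_ (by linarith) (cop1 m W hm1)
      have h1 : m ≤ (N0 - 3 * (x / 10)) * 2 := by omega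
      have h2 : (N0 - 3 * (x / 10)) * 2 ≤ (N0 - 3 * (x / 10)) ^ 2 := by
        rw [sq]
        exact Nat.mul_le_mul_left _ (by omega)
      omega)
    (by
      have h1 : 2 * (kap W / Real.log ((N0 - 3 * (x / 10) : ℕ) : ℝ)) * W =
        2 * kap W * W / Real.log ((N0 - 3 * (x / 10) : ℕ) : ℝ) := by ring
      rw [h1, div_le_one hlc0pos]
      nlinarith)
    (by
      intro m hm
      rw [hAB, mem_union, mem_Ioc, mem_Icc] at hm
      rw [mem_range]
      omega)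
    (by
      intro v hv
      have h1 := (hV v hv).2.1
      have h2 := (hV v hv).2.2
      have h3 := hvu v hv
      refine ⟨by omega, h1, Nat.le_floor h2, ?_⟩
      rw [hAB, mem_union, mem_Icc]
      right
      omega)
    hVg
    (by
      intro v hv z hz
      have h1 := (hV v hv).2.1
      have h3 := hvu v hv
      have hz' := mem_Ioc.1 hz
      have hvz : v + 2 ≤ z := by omega
      refine ⟨hvz, ?_, ?_, ?_⟩
      · rw [hAB, mem_union, mem_Ioc]
        left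
        omega
      · rw [hAB, mem_union, mem_Ioc]
        left
        omega
      · intro hz1
        obtain ⟨h4, h6⟩ := cop2 v z W (hV v hv).1 hz1 hvz
        have hv1 := hΛ v (by omega) (by omega) (cop1 v W (hV v hv).1)
        have hv2 := hΛ (z - v - 1) (by omega) (by omega) h4
        have hv3 := hΛ (z - v + 1) (by omega) (by omega) h6
        have hp : 0 < 1 / (2 * Real.log n) := by positivity
        calc 1 / (2 * Real.log n) ^ 3 =
            1 / (2 * Real.log n) * (1 / (2 * Real.log n) * (1 / (2 * Real.log n))) := by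
              field_simp
          _ ≤ _ := mul_le_mul hv1 (mul_le_mul hv2 hv3 hp.le (pr_nonneg W _))
              (by positivity) (pr_nonneg W _))
    (by
      intro v hv v' hv' z hz
      have h1 := (hV v hv).2.1
      have h2 := hvu v hv
      have h3 := (hV v' hv').2.1
      have h4 := hvu v' hv'
      have hz' := mem_Ioc.1 hz
      omega)
  have hs16 : 1 / (4 * s ^ 16) ≤ 1 / (4 * (n : ℝ) ^ 2) := by
    refine one_div_le_one_div_of_le (by positivity) ?_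
    have h1 : s ^ 16 = ((x : ℝ) ^ 2) ^ 2 := by
      rw [← hs]
      ring
    rw [h1]
    have h2 : (n : ℝ) ^ 2 ≤ ((x : ℝ) ^ 2) ^ 2 := pow_le_pow_left₀ (by linarith) hnx 2
    linarith
  have hsum : 1 / (4 * (n : ℝ) ^ 2) + 1 / (4 * (n : ℝ) ^ 2) + 1 / (4 * (n : ℝ) ^ 2) +
      1 / (4 * (n : ℝ) ^ 2) = 1 / (n : ℝ) ^ 2 := by
    field_simp
    norm_num
  rw [← hsum]
  refine le_trans hmain ?_
  push_cast at t4
  linarith

end MAINP_

open MAINP_ in
theorem p_MAINP (hCHE : T_CHE) (hSPC : T_SPC) (hDEN : T_DEN) (hCOND : T_COND) : T_MAINP := by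
  intro W hW
  obtain ⟨m0, hm03, hden⟩ := hDEN W hW
  obtain ⟨A, hA, hAl⟩ : ∃ A : ℕ, m0 ≤ A ∧ 20 ≤ Real.log A := by
    have h1 : ∀ᶠ A : ℕ in Filter.atTop, 20 ≤ Real.log (A : ℝ) :=
      (Real.tendsto_log_atTop.comp (tendsto_natCast_atTop_atTop (R := ℝ))).eventually_ge_atTop 20
    obtain ⟨A, hA⟩ := ((Filter.eventually_ge_atTop m0).and h1).exists
    exact ⟨A, hA.1, hA.2⟩
  obtain ⟨s0, hs0⟩ := ev_s W (2 * (A + 1 + W) + Real.exp (4 * (W : ℝ) ^ 2) + 100 + m0)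
  obtain ⟨r0, hr0⟩ := ev_r W
  obtain ⟨n1, hn1⟩ := Filter.eventually_atTop.1 (ev_n W)
  obtain ⟨n2, hn2⟩ := exists_nat_ge (max s0 1 ^ 8)
  obtain ⟨n3, hn3⟩ := exists_nat_ge (max r0 1 ^ 7)
  refine ⟨n1 + n2 + n3 + m0 + 6, fun n hn x V hx1 hx2 hVc hV hVg => ?_⟩
  have hnR : (6 : ℝ) ≤ n := by
    have : 6 ≤ n := by omega
    exact_mod_cast this
  have hEn := hn1 n (by omega)
  -- `n ≤ x^2`
  have hnx : (n : ℝ) ≤ (x : ℝ) ^ 2 := by
    have h1 : ((n : ℝ) ^ (1 / 2 : ℝ)) ^ 2 = n := by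
      rw [← Real.rpow_natCast, ← Real.rpow_mul (by positivity)]
      norm_num
    rw [← h1]
    exact pow_le_pow_left₀ (by positivity) hx1 2
  -- `s`
  obtain ⟨s, hs, hss0⟩ : ∃ s : ℝ, s ^ 4 = x ∧ max s0 1 ≤ s := by
    refine ⟨(x : ℝ) ^ (1 / 4 : ℝ), ?_, ?_⟩
    · rw [← Real.rpow_natCast, ← Real.rpow_mul (by positivity)]
      norm_num
    · have h1 : max s0 1 ^ 8 ≤ (x : ℝ) ^ 2 := by
        refine le_trans (le_trans hn2 ?_) hnx
        have : n2 ≤ n := by omega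
        exact_mod_cast this
      have h0 : (0 : ℝ) ≤ max s0 1 := le_trans zero_le_one (le_max_right _ _)
      have h2 : ((x : ℝ) ^ (1 / 4 : ℝ)) ^ 8 = (x : ℝ) ^ 2 := by
        rw [← Real.rpow_natCast, ← Real.rpow_mul (by positivity), ← Real.rpow_natCast]
        norm_num
      rw [← h2] at h1
      exact le_of_pow_le_pow_left₀ (by norm_num) (by positivity) h1
  obtain ⟨hs1, hsK, hX1, hX2⟩ := hs0 s (le_trans (le_max_left _ _) hss0)
  have hxs : s ≤ x := by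
    rw [← hs]
    calc s = s ^ 1 := (pow_one s).symm
      _ ≤ s ^ 4 := pow_le_pow_right₀ hs1 (by norm_num)
  have hexp : 0 < Real.exp (4 * (W : ℝ) ^ 2) := Real.exp_pos _
  have hAR : (0 : ℝ) ≤ A := by positivity
  have hWR : (0 : ℝ) ≤ W := by positivity
  have hm0R : (0 : ℝ) ≤ m0 := by positivity
  have hx100 : 100 ≤ x := by
    have : (100 : ℝ) ≤ x := by linarith
    exact_mod_cast this
  have hm0x : m0 ≤ x := by
    have : (m0 : ℝ) ≤ x := by linarith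
    exact_mod_cast this
  have hAx : 2 * (A + 1 + W) ≤ x := by
    have : (2 : ℝ) * (A + 1 + W) ≤ x := by linarith
    exact_mod_cast this
  -- `r`
  obtain ⟨r, hr, hrr0, hrV⟩ : ∃ r : ℝ, r ^ 7 = n ∧ max r0 1 ≤ r ∧ r ≤ V.card := by
    refine ⟨(n : ℝ) ^ (1 / 7 : ℝ), ?_, ?_, hVc⟩
    · rw [← Real.rpow_natCast, ← Real.rpow_mul (by positivity)]
      norm_num
    · have h1 : max r0 1 ^ 7 ≤ (n : ℝ) := by
        refine le_trans hn3 ?_
        have : n3 ≤ n := by omega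
        exact_mod_cast this
      have h2 : ((n : ℝ) ^ (1 / 7 : ℝ)) ^ 7 = n := by
        rw [← Real.rpow_natCast, ← Real.rpow_mul (by positivity)]
        norm_num
      rw [← h2] at h1
      exact le_of_pow_le_pow_left₀ (by norm_num) (by positivity) h1
  obtain ⟨hr1, hr2, hr3⟩ := hr0 r (le_trans (le_max_left _ _) hrr0)
  have hlr : Real.log n = 7 * Real.log r := by
    rw [← hr, Real.log_pow]
    norm_num
  rw [← hlr] at hr2 hr3
  obtain ⟨N0, h5, hNn, hxF, hF1⟩ := exN0 W m0 A n x hm03 hden hA hAl hx2 hAx (by omega) hEn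
  have hc0 := low_c0 W m0 n x N0 s hden (by omega) hs hs1 hnx hX1 h5 hNn hm0x hF1
  have hM := high_M W m0 n x N0 s hden (by omega) hs hs1 hnx hX1 h5 hNn hx2 hm0x hxF
  exact ⟨N0 + 5 * (x / 10), assemble hCHE hSPC hCOND W n x N0 s r V hW (by omega) hs hs1 hnx
    hx100 hx2 hX2 (by linarith) hr2 hr3 hrV h5 hNn hF1 hc0 hM hV hVg⟩

end CRM
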