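import Pool.Agent.CRM.Targets

/-!
# CRM target MRK: residues of the elements of the random set
-/

set_option autoImplicit false

open scoped BigOperators Classical
open Finset MeasureTheory ProbabilityTheory

namespace CRM

namespace MRK_

/-- the functional, started with `c` elements -/
noncomputable def Fc (J : Finset ℕ) (W : ℕ) (ρ : ℝ) (c : ℕ) (T : Finset ℕ) : ℝ :=
  if (∀ j ∈ J, j < c + T.card) then
    ∏ y ∈ T, (if c + bel T y ∈ J ∧ y ≡ 1 [MOD W] then 1 - ρ else 1) else 0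

/-- the harmonic type function -/
noncomputable def hh (W : ℕ) (P : ℝ) (z : ℕ) : ℝ :=
  1 / (4 * (W : ℝ)) * (1 + 2 * P * (((z + W - 1) % W : ℕ) : ℝ))

/-- number of elements of `J` from `c` on -/
noncomputable def mm (J : Finset ℕ) (c : ℕ) : ℕ := (J.filter (fun j => c ≤ j)).card

theorem Fc_insert (J : Finset ℕ) (W : ℕ) (ρ : ℝ) (c z b : ℕ) (T : Finset ℕ)
    (hT : T ⊆ Ioc (z + 1) b) : Fc J W ρ c (insert (z + 1) T) =
      (if c ∈ J ∧ z + 1 ≡ 1 [MOD W] then 1 - ρ else 1) * Fc J W ρ (c + 1) T := by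
  have hgt : ∀ y ∈ T, z + 1 < y := fun y hy => (Finset.mem_Ioc.1 (hT hy)).1
  have hz : z + 1 ∉ T := fun h => absurd (hgt _ h) (lt_irrefl _)
  have hb0 : bel (insert (z + 1) T) (z + 1) = 0 := by
    unfold bel
    rw [Finset.card_eq_zero, Finset.filter_eq_empty_iff]
    intro y hy
    rcases Finset.mem_insert.1 hy with rfl | hy
    · exact lt_irrefl _
    · have := hgt y hy
      omega
  have hb1 : ∀ y ∈ T, bel (insert (z + 1) T) y = bel T y + 1 := by
    intro y hy
    unfold bel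
    rw [Finset.filter_insert, if_pos (hgt y hy), Finset.card_insert_of_notMem]
    intro h
    exact hz (Finset.mem_filter.1 h).1
  unfold Fc
  rw [Finset.card_insert_of_notMem hz, Finset.prod_insert hz, hb0]
  have h1 : (∀ j ∈ J, j < c + (T.card + 1)) ↔ (∀ j ∈ J, j < c + 1 + T.card) := by
    constructor <;> intro h j hj <;> have := h j hj <;> omega
  have h2 : ∏ y ∈ T, (if c + bel (insert (z + 1) T) y ∈ J ∧ y ≡ 1 [MOD W] then 1 - ρ else 1) =
      ∏ y ∈ T, (if c + 1 + bel T y ∈ J ∧ y ≡ 1 [MOD W] then 1 - ρ else 1) := by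
    refine Finset.prod_congr rfl fun y hy => ?_
    rw [hb1 y hy]
    have : c + (bel T y + 1) = c + 1 + bel T y := by ring
    rw [this]
  rw [h2]
  by_cases hc : ∀ j ∈ J, j < c + 1 + T.card
  · rw [if_pos hc, if_pos (h1.2 hc)]
    rfl
  · rw [if_neg hc, if_neg (fun h => hc (h1.1 h)), mul_zero]

theorem mod_step (z W : ℕ) (hW : 1 ≤ W) :
    (z % W ≠ 0 → (z + 1 + W - 1) % W = (z + W - 1) % W + 1) ∧
    (z % W = 0 → (z + 1 + W - 1) % W = 0 ∧ (z + W - 1) % W = W - 1) := by
  have e1 : (z + 1 + W - 1) % W = z % W := by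
    have : z + 1 + W - 1 = z + W := by omega
    rw [this, Nat.add_mod_right]
  have hdm := Nat.div_add_mod z W
  set q := z / W with hq
  set r := z % W with hr
  have hrW : r < W := Nat.mod_lt _ (by omega)
  rw [e1]
  constructor
  · intro h
    have : z + W - 1 = (r - 1) + W * (q + 1) := by
      rw [Nat.mul_add, Nat.mul_one]; omega
    rw [this, Nat.add_mul_mod_self_left, Nat.mod_eq_of_lt (by omega)]
    omega
  · intro h
    refine ⟨h, ?_⟩
    have : z + W - 1 = (W - 1) + W * q := by omega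
    rw [this, Nat.add_mul_mod_self_left, Nat.mod_eq_of_lt (by omega)]

theorem modEq_iff (z W : ℕ) (_ : 1 ≤ W) : z + 1 ≡ 1 [MOD W] ↔ z % W = 0 := by
  constructor
  · intro h
    have h2 : z + 1 ≡ 0 + 1 [MOD W] := by simpa using h
    have h3 : z ≡ 0 [MOD W] := Nat.ModEq.add_right_cancel' 1 h2
    have h4 : z % W = 0 % W := h3
    rw [h4, Nat.zero_mod]
  · intro h
    have h3 : z ≡ 0 [MOD W] := by
      show z % W = 0 % W
      rw [h, Nat.zero_mod]
    simpa using h3.add_right 1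

theorem hh_lower (W : ℕ) (P : ℝ) (z : ℕ) (hW : 1 ≤ W) (hP : 0 ≤ P) :
    1 / (4 * (W : ℝ)) ≤ hh W P z := by
  unfold hh
  have hW' : (0 : ℝ) < W := by exact_mod_cast hW
  have h1 : (0 : ℝ) ≤ 1 / (4 * (W : ℝ)) := by positivity
  have h2 : (0 : ℝ) ≤ 2 * P * (((z + W - 1) % W : ℕ) : ℝ) := by positivity
  nlinarith [mul_nonneg h1 h2]

theorem hh_upper (W : ℕ) (P : ℝ) (z : ℕ) (hW : 1 ≤ W) (hP : 0 ≤ P) (hPW : 2 * P * W ≤ 1) :
    hh W P z ≤ 1 := by
  unfold hh
  have hW' : (1 : ℝ) ≤ W := by exact_mod_cast hW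
  have h1 : (1 : ℝ) / (4 * (W : ℝ)) ≤ 1 / 4 := by
    apply one_div_le_one_div_of_le <;> linarith
  have h0 : (0 : ℝ) ≤ 1 / (4 * (W : ℝ)) := by positivity
  have h3 : (((z + W - 1) % W : ℕ) : ℝ) ≤ W := by
    exact_mod_cast (Nat.mod_lt _ (by omega)).le
  have h2 : 2 * P * (((z + W - 1) % W : ℕ) : ℝ) ≤ 1 :=
    (mul_le_mul_of_nonneg_left h3 (by positivity)).trans hPW
  have h4 : (0 : ℝ) ≤ 2 * P * (((z + W - 1) % W : ℕ) : ℝ) := by positivity
  nlinarith

/-- the key inequality -/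
theorem hh_step (W : ℕ) (P π : ℝ) (z : ℕ) (hW : 1 ≤ W) (hP : 0 ≤ P) (hPW : 2 * P * W ≤ 1)
    (h0 : 0 ≤ π) (h1 : π ≤ P) (h2 : z % W = 0 → P ≤ 2 * π) :
    hh W P z ≤ π * (if z + 1 ≡ 1 [MOD W] then 1 else 0) + (1 - π) * hh W P (z + 1) := by
  have hW' : (1 : ℝ) ≤ W := by exact_mod_cast hW
  have hc : (1 : ℝ) / (4 * (W : ℝ)) * (4 * W) = 1 := by
    field_simp
  obtain ⟨m1, m2⟩ := mod_step z W hW
  set c0 : ℝ := 1 / (4 * (W : ℝ)) with hc0
  have hc0' : 0 ≤ c0 := by positivity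
  by_cases hz : z % W = 0
  · rw [if_pos ((modEq_iff z W hW).2 hz)]
    obtain ⟨e1, e2⟩ := m2 hz
    unfold hh
    rw [e1, e2, ← hc0]
    have hcast : (((W - 1 : ℕ)) : ℝ) = (W : ℝ) - 1 := by
      rw [Nat.cast_sub hW, Nat.cast_one]
    rw [hcast, Nat.cast_zero]
    have hb := h2 hz
    have k1 : c0 * (2 * P * ((W : ℝ) - 1)) ≤ c0 * (2 * (2 * π) * ((W : ℝ) - 1)) := by
      apply mul_le_mul_of_nonneg_left _ hc0'
      apply mul_le_mul_of_nonneg_right _ (by linarith)
      linarith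
    have k2 : c0 * (2 * (2 * π) * ((W : ℝ) - 1)) = π * (c0 * (4 * W)) - 4 * c0 * π := by ring
    rw [hc] at k2
    have k3 : 0 ≤ c0 * π := mul_nonneg hc0' h0
    nlinarith
  · rw [if_neg (fun h => hz ((modEq_iff z W hW).1 h))]
    have e1 := m1 hz
    have hlt : (z + W - 1) % W + 1 ≤ W := Nat.mod_lt _ (by omega)
    have hlt' : (((z + W - 1) % W : ℕ) : ℝ) + 1 ≤ W := by exact_mod_cast hlt
    unfold hh
    rw [e1, ← hc0]
    push_cast
    set r : ℝ := (((z + W - 1) % W : ℕ) : ℝ) with hr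
    have k1 : 2 * P * (r + 1) ≤ 1 :=
      (mul_le_mul_of_nonneg_left hlt' (by positivity)).trans hPW
    have k2 : π * (1 + 2 * P * (r + 1)) ≤ P * 2 := by
      apply mul_le_mul h1 (by linarith) _ hP
      have : 0 ≤ r := by positivity
      positivity
    have k3 : c0 * (π * (1 + 2 * P * (r + 1))) ≤ c0 * (P * 2) :=
      mul_le_mul_of_nonneg_left k2 hc0'
    nlinarith

theorem mm_not (J : Finset ℕ) (c : ℕ) (h : c ∉ J) : mm J (c + 1) = mm J c := by
  unfold mm
  congr 1
  ext j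
  simp only [Finset.mem_filter]
  constructor
  · rintro ⟨h1, h2⟩
    exact ⟨h1, by omega⟩
  · rintro ⟨h1, h2⟩
    refine ⟨h1, ?_⟩
    rcases Nat.lt_or_ge c j with h3 | h3
    · exact h3
    · have : j = c := le_antisymm h3 h2
      exact absurd (this ▸ h1) h

theorem mm_mem (J : Finset ℕ) (c : ℕ) (h : c ∈ J) : mm J c = mm J (c + 1) + 1 := by
  unfold mm
  have : J.filter (fun j => c ≤ j) = insert c (J.filter (fun j => c + 1 ≤ j)) := by
    ext j
    simp only [Finset.mem_filter, Finset.mem_insert]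
    constructor
    · rintro ⟨h1, h2⟩
      rcases Nat.lt_or_ge c j with h3 | h3
      · exact Or.inr ⟨h1, h3⟩
      · exact Or.inl (le_antisymm h3 h2)
    · rintro (rfl | ⟨h1, h2⟩)
      · exact ⟨h, le_refl _⟩
      · exact ⟨h1, by omega⟩
  rw [this, Finset.card_insert_of_notMem]
  intro h1
  have := (Finset.mem_filter.1 h1).2
  omega

theorem claim (p : ℕ → ℝ) (a b W : ℕ) (J : Finset ℕ) (P ρ : ℝ) (hW : 1 ≤ W) (hρ0 : 0 ≤ ρ)
    (hρ1 : ρ ≤ 1) (hp : ∀ m ∈ Ioc a b, 0 ≤ p m ∧ p m ≤ P)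
    (hp2 : ∀ m ∈ Ioc a b, m ≡ 1 [MOD W] → P ≤ 2 * p m) (hPW : 2 * P * W ≤ 1) (hP : 0 ≤ P) :
    ∀ k z : ℕ, z + k = b → a ≤ z → ∀ c : ℕ,
      (c ∉ J → Ex p (Ioc z b) (Fc J W ρ c) ≤ (1 - ρ / (4 * W)) ^ mm J c) ∧
      (c ∈ J → Ex p (Ioc z b) (Fc J W ρ c) ≤
        (1 - ρ * hh W P z) * (1 - ρ / (4 * W)) ^ mm J (c + 1)) := by
  have hW' : (1 : ℝ) ≤ W := by exact_mod_cast hW
  have hq : ρ / (4 * (W : ℝ)) ≤ 1 := by
    rw [div_le_one (by positivity)]; linarith
  have hθ0 : 0 ≤ 1 - ρ / (4 * (W : ℝ)) := by linarith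
  have hfac : ∀ z, 0 ≤ 1 - ρ * hh W P z := by
    intro z
    have h1 := hh_upper W P z hW hP hPW
    have h2 := hh_lower W P z hW hP
    have h3 : (0 : ℝ) ≤ 1 / (4 * (W : ℝ)) := by positivity
    nlinarith [mul_nonneg hρ0 (sub_nonneg.2 h1)]
  intro k
  induction k with
  | zero =>
    intro z hz _ c
    have hzb : z = b := by omega
    subst hzb
    rw [Finset.Ioc_self, Ex_empty]
    constructor
    · intro hc
      unfold Fc
      by_cases hj : ∀ j ∈ J, j < c + (∅ : Finset ℕ).card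
      · rw [if_pos hj]
        have : mm J c = 0 := by
          unfold mm
          rw [Finset.card_eq_zero, Finset.filter_eq_empty_iff]
          intro j hjJ h
          have := hj j hjJ
          simp at this
          omega
        rw [this]
        simp
      · rw [if_neg hj]
        positivity
    · intro hc
      unfold Fc
      rw [if_neg]
      · exact mul_nonneg (hfac _) (by positivity)
      · intro h
        have := h c hc
        simp at this
  | succ k ih =>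
    intro z hz haz c
    have hzb : z < b := by omega
    have hins : Ioc z b = insert (z + 1) (Ioc (z + 1) b) := by
      ext y
      simp only [Finset.mem_Ioc, Finset.mem_insert]
      omega
    have hmem : z + 1 ∈ Ioc a b := Finset.mem_Ioc.2 ⟨by omega, by omega⟩
    obtain ⟨hπ0, hπP⟩ := hp _ hmem
    have hPle : P ≤ 1 := by nlinarith
    have hπ1 : p (z + 1) ≤ 1 := hπP.trans hPle
    have hnot : z + 1 ∉ Ioc (z + 1) b := by simp
    have hstep : Ex p (Ioc z b) (Fc J W ρ c) = (1 - p (z + 1)) * Ex p (Ioc (z + 1) b)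
        (Fc J W ρ c) + p (z + 1) * ((if c ∈ J ∧ z + 1 ≡ 1 [MOD W] then 1 - ρ else 1) *
          Ex p (Ioc (z + 1) b) (Fc J W ρ (c + 1))) := by
      rw [hins, Ex_insert p _ _ hnot]
      congr 2
      rw [← Ex_mul]
      exact Ex_congr fun T hT => Fc_insert J W ρ c z b T hT
    have hih := ih (z + 1) (by omega) (by omega)
    -- always
    have hall : ∀ c', Ex p (Ioc (z + 1) b) (Fc J W ρ c') ≤ (1 - ρ / (4 * W)) ^ mm J c' := by
      intro c'
      by_cases hc' : c' ∈ J
      · refine ((hih c').2 hc').trans ?_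
        rw [mm_mem J c' hc', pow_succ, mul_comm]
        apply mul_le_mul_of_nonneg_left _ (by positivity)
        have := hh_lower W P (z + 1) hW hP
        have h5 : ρ / (4 * (W : ℝ)) = ρ * (1 / (4 * (W : ℝ))) := by ring
        rw [h5]
        nlinarith [mul_le_mul_of_nonneg_left this hρ0]
      · exact (hih c').1 hc'
    constructor
    · intro hc
      rw [hstep, if_neg (fun h => hc h.1), one_mul]
      have h1 := hall c
      have h2 := hall (c + 1)
      rw [mm_not J c hc] at h2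
      have h3 := mul_le_mul_of_nonneg_left h1 (sub_nonneg.2 hπ1)
      have h4 := mul_le_mul_of_nonneg_left h2 hπ0
      nlinarith
    · intro hc
      rw [hstep]
      have h1 := (hih c).2 hc
      have h2 := hall (c + 1)
      set Θ : ℝ := (1 - ρ / (4 * W)) ^ mm J (c + 1) with hΘ
      have hΘ0 : 0 ≤ Θ := by positivity
      have hkey := hh_step W P (p (z + 1)) z hW hP hPW hπ0 hπP
        (fun h => hp2 _ hmem ((modEq_iff z W hW).2 h))
      have hf : (if c ∈ J ∧ z + 1 ≡ 1 [MOD W] then 1 - ρ else 1) =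
          1 - ρ * (if z + 1 ≡ 1 [MOD W] then (1 : ℝ) else 0) := by
        by_cases h : z + 1 ≡ 1 [MOD W]
        · rw [if_pos ⟨hc, h⟩, if_pos h, mul_one]
        · rw [if_neg (fun h' => h h'.2), if_neg h, mul_zero, sub_zero]
      have hf0 : 0 ≤ 1 - ρ * (if z + 1 ≡ 1 [MOD W] then (1 : ℝ) else 0) := by
        split_ifs <;> nlinarith
      rw [hf]
      set I : ℝ := (if z + 1 ≡ 1 [MOD W] then (1 : ℝ) else 0) with hI
      have h3 := mul_le_mul_of_nonneg_left h1 (sub_nonneg.2 hπ1)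
      have h4 := mul_le_mul_of_nonneg_left (mul_le_mul_of_nonneg_left h2 hf0) hπ0
      have h5 : (1 - p (z + 1)) * ((1 - ρ * hh W P (z + 1)) * Θ) +
          p (z + 1) * ((1 - ρ * I) * Θ) =
          (1 - ρ * (p (z + 1) * I + (1 - p (z + 1)) * hh W P (z + 1))) * Θ := by ring
      have h6 : (1 - ρ * (p (z + 1) * I + (1 - p (z + 1)) * hh W P (z + 1))) * Θ ≤
          (1 - ρ * hh W P z) * Θ := by
        apply mul_le_mul_of_nonneg_right _ hΘ0
        nlinarith [mul_le_mul_of_nonneg_left hkey hρ0]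
      linarith

end MRK_

open MRK_

theorem p_MRK : T_MRK := by
  intro p a b W J P ρ hW hρ0 hρ1 hp hp2 hPW
  have hW' : (1 : ℝ) ≤ W := by exact_mod_cast hW
  have hq : ρ / (4 * (W : ℝ)) ≤ 1 := by
    rw [div_le_one (by positivity)]; linarith
  have hθ0 : 0 ≤ 1 - ρ / (4 * (W : ℝ)) := by linarith
  have hθ1 : 1 - ρ / (4 * (W : ℝ)) ≤ 1 := by
    have : 0 ≤ ρ / (4 * (W : ℝ)) := by positivity
    linarith
  rcases Nat.lt_or_ge a b with hab | hab
  · have hb : b ∈ Ioc a b := Finset.mem_Ioc.2 ⟨hab, le_refl _⟩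
    have hP : 0 ≤ P := (hp b hb).1.trans (hp b hb).2
    have h := claim p a b W J P ρ hW hρ0 hρ1 hp hp2 hPW hP (b - a) a (by omega) (le_refl _) 0
    have hm : mm J 0 = J.card := by
      unfold mm
      congr 1
      apply Finset.filter_true_of_mem
      intro j _
      exact Nat.zero_le _
    have hE : Ex p (Ioc a b) (fun T => if (∀ j ∈ J, j < T.card) then
        ∏ y ∈ T, (if bel T y ∈ J ∧ y ≡ 1 [MOD W] then 1 - ρ else 1) else 0) =
        Ex p (Ioc a b) (Fc J W ρ 0) := by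
      refine Ex_congr fun T _ => ?_
      unfold Fc
      simp only [Nat.zero_add]
    rw [hE]
    by_cases h0 : 0 ∈ J
    · refine (h.2 h0).trans ?_
      rw [← hm, mm_mem J 0 h0, pow_succ, mul_comm]
      apply mul_le_mul_of_nonneg_left _ (by positivity)
      have := hh_lower W P a hW hP
      have h5 : ρ / (4 * (W : ℝ)) = ρ * (1 / (4 * (W : ℝ))) := by ring
      rw [h5]
      nlinarith [mul_le_mul_of_nonneg_left this hρ0]
    · rw [← hm]
      exact h.1 h0
  · rw [Finset.Ioc_eq_empty (by omega), Ex_empty]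
    by_cases hJ : J = ∅
    · subst hJ
      simp
    · obtain ⟨j, hj⟩ := Finset.nonempty_iff_ne_empty.2 hJ
      rw [if_neg]
      · positivity
      · intro h
        have := h j hj
        simp at this

end CRM
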