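import Pool.Agent.CRM.Targets

set_option autoImplicit false

open scoped BigOperators Classical
open Finset MeasureTheory ProbabilityTheory

namespace CRM

/-- the key statement about two disjoint sets of primes -/
lemma RAT_key (A B : Finset ℕ) (hA : ∀ p ∈ A, p.Prime) (hB : ∀ p ∈ B, p.Prime)
    (hdis : Disjoint A B) (h2 : 2 ∉ A) :
    2 * (∏ p ∈ A, (p - 1)) * (∏ p ∈ B, p) ≠ (∏ p ∈ B, (p - 1)) * (∏ p ∈ A, p) := by
  intro h
  rcases (A ∪ B).eq_empty_or_nonempty with he | hne
  · rw [Finset.union_eq_empty] at he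
    rw [he.1, he.2] at h
    simp at h
  · have hmem := Finset.max'_mem (A ∪ B) hne
    set l := (A ∪ B).max' hne with hl
    have hmax : ∀ p ∈ A ∪ B, p ≤ l := fun p hp => Finset.le_max' _ _ hp
    have hprime : l.Prime := by
      rcases Finset.mem_union.1 hmem with h1 | h1
      · exact hA l h1
      · exact hB l h1
    have hsub : ∀ p : ℕ, p.Prime → p ≤ l → ¬ l ∣ p - 1 := by
      intro p hp hpl hd
      have h1 := hp.two_le
      have h3 := Nat.le_of_dvd (by omega) hd
      omega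
    rcases Finset.mem_union.1 hmem with h1 | h1
    · have hd : l ∣ 2 * (∏ p ∈ A, (p - 1)) * (∏ p ∈ B, p) := by
        rw [h]
        exact Dvd.dvd.mul_left (Finset.dvd_prod_of_mem (fun p => p) h1) _
      rcases hprime.dvd_mul.1 hd with hd1 | hd1
      · rcases hprime.dvd_mul.1 hd1 with hd2 | hd2
        · have h3 := (Nat.prime_dvd_prime_iff_eq hprime Nat.prime_two).1 hd2
          rw [h3] at h1
          exact h2 h1
        · obtain ⟨p, hp, hpd⟩ := (Prime.dvd_finsetProd_iff hprime.prime _).1 hd2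
          exact hsub p (hA p hp) (hmax p (Finset.mem_union_left _ hp)) hpd
      · obtain ⟨p, hp, hpd⟩ := (Prime.dvd_finsetProd_iff hprime.prime _).1 hd1
        have h3 := (Nat.prime_dvd_prime_iff_eq hprime (hB p hp)).1 hpd
        rw [← h3] at hp
        exact (Finset.disjoint_left.1 hdis h1) hp
    · have hd : l ∣ (∏ p ∈ B, (p - 1)) * (∏ p ∈ A, p) := by
        rw [← h]
        exact Dvd.dvd.mul_left (Finset.dvd_prod_of_mem (fun p => p) h1) _
      rcases hprime.dvd_mul.1 hd with hd1 | hd1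
      · obtain ⟨p, hp, hpd⟩ := (Prime.dvd_finsetProd_iff hprime.prime _).1 hd1
        exact hsub p (hB p hp) (hmax p (Finset.mem_union_right _ hp)) hpd
      · obtain ⟨p, hp, hpd⟩ := (Prime.dvd_finsetProd_iff hprime.prime _).1 hd1
        have h3 := (Nat.prime_dvd_prime_iff_eq hprime (hA p hp)).1 hpd
        rw [← h3] at hp
        exact (Finset.disjoint_left.1 hdis hp) h1

theorem p_RAT : T_RAT := by
  intro a b ha hb h
  have ha0 : 0 < a := ha.pos
  have e1 := Nat.totient_mul_prod_primeFactors a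
  have e2 := Nat.totient_mul_prod_primeFactors b
  have k1 : 2 * (∏ p ∈ a.primeFactors, (p - 1)) * (∏ p ∈ b.primeFactors, p)
      = (∏ p ∈ b.primeFactors, (p - 1)) * (∏ p ∈ a.primeFactors, p) := by
    have hab : 0 < a * b := Nat.mul_pos ha0 hb
    apply Nat.eq_of_mul_eq_mul_left hab
    calc a * b * (2 * (∏ p ∈ a.primeFactors, (p - 1)) * (∏ p ∈ b.primeFactors, p))
        = 2 * b * (a * ∏ p ∈ a.primeFactors, (p - 1)) * (∏ p ∈ b.primeFactors, p) := by ring
      _ = 2 * b * a.totient * (∏ p ∈ a.primeFactors, p) * (∏ p ∈ b.primeFactors, p) := by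
          rw [← e1]; ring
      _ = a * (b.totient * ∏ p ∈ b.primeFactors, p) * (∏ p ∈ a.primeFactors, p) := by
          rw [h]; ring
      _ = a * b * ((∏ p ∈ b.primeFactors, (p - 1)) * (∏ p ∈ a.primeFactors, p)) := by
          rw [e2]; ring
  have hdec : ∀ (X Y : Finset ℕ) (f : ℕ → ℕ),
      (∏ p ∈ X, f p) = (∏ p ∈ X \ Y, f p) * ∏ p ∈ X ∩ Y, f p := by
    intro X Y f
    rw [← Finset.prod_union (Finset.disjoint_sdiff_inter X Y), Finset.sdiff_union_inter]
  set A := a.primeFactors with hA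
  set B := b.primeFactors with hB
  rw [hdec A B (fun p => p - 1), hdec A B (fun p => p), hdec B A (fun p => p - 1),
    hdec B A (fun p => p), Finset.inter_comm B A] at k1
  have hpA : ∀ p ∈ A, p.Prime := fun p hp => Nat.prime_of_mem_primeFactors hp
  have hpB : ∀ p ∈ B, p.Prime := fun p hp => Nat.prime_of_mem_primeFactors hp
  have c1 : 0 < ∏ p ∈ A ∩ B, (p - 1) := by
    apply Finset.prod_pos
    intro p hp
    have := (hpA p (Finset.mem_inter.1 hp).1).two_le
    omega
  have c2 : 0 < ∏ p ∈ A ∩ B, p := by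
    apply Finset.prod_pos
    intro p hp
    exact (hpA p (Finset.mem_inter.1 hp).1).pos
  refine RAT_key (A \ B) (B \ A) (fun p hp => hpA p (Finset.mem_sdiff.1 hp).1)
    (fun p hp => hpB p (Finset.mem_sdiff.1 hp).1) ?_ ?_ ?_
  · rw [Finset.disjoint_left]
    intro p hp hq
    exact (Finset.mem_sdiff.1 hp).2 (Finset.mem_sdiff.1 hq).1
  · intro h2
    have h3 := Nat.dvd_of_mem_primeFactors (Finset.mem_sdiff.1 h2).1
    exact (Nat.not_even_iff_odd.2 ha) (even_iff_two_dvd.2 h3)
  · apply Nat.eq_of_mul_eq_mul_left (Nat.mul_pos c1 c2)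
    calc _ = 2 * ((∏ p ∈ A \ B, (p - 1)) * ∏ p ∈ A ∩ B, (p - 1))
          * ((∏ p ∈ B \ A, p) * ∏ p ∈ A ∩ B, p) := by ring
      _ = _ := by rw [k1]; ring

end CRM
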