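import Pool.Agent.CRM.Targets

/-!
# Project CRM: no window with at most two gaps (target SPC)
-/

set_option autoImplicit false

open scoped BigOperators Classical
open Finset MeasureTheory ProbabilityTheory

namespace CRM

namespace SPC_

/-- the function of the window -/
noncomputable def F (z g : ℕ) (T : Finset ℕ) : ℝ :=
  (∏ _m ∈ T, (1 : ℝ)) * ∏ _m ∈ Ico z (z + g) \ T, (1 / 4 : ℝ)

theorem F_nonneg (z g : ℕ) (T : Finset ℕ) : 0 ≤ F z g T := by
  unfold F
  apply mul_nonneg
  · exact Finset.prod_nonneg fun _ _ => by norm_num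
  · exact Finset.prod_nonneg fun _ _ => by norm_num

theorem F_inter (z g : ℕ) (T : Finset ℕ) :
    F z g (T ∩ Ico z (z + g)) = (1 / 4 : ℝ) ^ (Ico z (z + g) \ T).card := by
  unfold F
  rw [Finset.prod_const_one, one_mul, Finset.prod_const]
  congr 2
  ext m
  simp only [Finset.mem_sdiff, Finset.mem_inter]
  tauto

/-- elements in `[z,z')` -/
theorem bel_sub (T : Finset ℕ) {z z' : ℕ} (h : z ≤ z') :
    bel T z' = bel T z + (T ∩ Ico z z').card := by
  unfold bel
  rw [← Finset.card_union_of_disjoint]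
  · congr 1
    ext y
    simp only [Finset.mem_filter, Finset.mem_union, Finset.mem_inter, Finset.mem_Ico]
    constructor
    · rintro ⟨h1, h2⟩
      by_cases h3 : y < z
      · exact Or.inl ⟨h1, h3⟩
      · exact Or.inr ⟨h1, by omega, h2⟩
    · rintro (⟨h1, h2⟩ | ⟨h1, h2, h3⟩)
      · exact ⟨h1, by omega⟩
      · exact ⟨h1, h3⟩
  · rw [Finset.disjoint_left]
    intro y hy hy'
    simp only [Finset.mem_filter, Finset.mem_inter, Finset.mem_Ico] at hy hy'
    omega

theorem key {a b g : ℕ} {T : Finset ℕ} (hT : T ⊆ Ioc a b) (h : ¬ SP g T) :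
    ∃ z ∈ (Ioc a b).filter (fun z => z + g ≤ b), (Ico z (z + g) \ T).card ≤ 2 := by
  unfold SP at h
  push Not at h
  obtain ⟨z, hz, z', hz', hlt, h1, h2⟩ := h
  have h3 := bel_sub T hlt.le
  have h4 : (Ico z z' \ T).card + (T ∩ Ico z z').card = z' - z := by
    rw [Finset.inter_comm, Finset.card_sdiff_add_card_inter, Nat.card_Ico]
  have h5 : z + g ≤ z' := by omega
  have hz1 := Finset.mem_Ioc.1 (hT hz)
  have hz2 := Finset.mem_Ioc.1 (hT hz')
  refine ⟨z, ?_, ?_⟩
  · rw [Finset.mem_filter, Finset.mem_Ioc]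
    exact ⟨hz1, by omega⟩
  · refine (Finset.card_le_card (Finset.sdiff_subset_sdiff
      (Finset.Ico_subset_Ico_right h5) (Finset.Subset.refl T))).trans ?_
    omega

end SPC_

open SPC_ in
theorem p_SPC : T_SPC := by
  intro p a b g hp
  by_cases hab : b < a
  · exact Or.inr hab
  · left
    push Not at hab
    set S := (Ioc a b).filter (fun z => z + g ≤ b) with hS
    have h0 : ∀ m ∈ Ioc a b, 0 ≤ p m := fun m hm => (hp m hm).1
    have h1 : ∀ m ∈ Ioc a b, p m ≤ 1 := fun m hm => (hp m hm).2.trans (by norm_num)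
    have h2 : Ex p (Ioc a b) (fun T => ind (¬ SP g T)) ≤
        Ex p (Ioc a b) (fun T => ∑ z ∈ S, 16 * F z g (T ∩ Ico z (z + g))) := by
      apply Ex_mono h0 h1
      intro T hT
      by_cases hs : SP g T
      · have : ind (¬ SP g T) = 0 := by unfold ind; rw [if_neg (not_not.2 hs)]
        rw [this]
        exact Finset.sum_nonneg fun z _ => mul_nonneg (by norm_num) (F_nonneg _ _ _)
      · obtain ⟨z, hz, hc⟩ := key hT hs
        have h3 : (1 : ℝ) ≤ 16 * F z g (T ∩ Ico z (z + g)) := by
          rw [F_inter]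
          have h4 : (1 / 4 : ℝ) ^ 2 ≤ (1 / 4 : ℝ) ^ (Ico z (z + g) \ T).card :=
            pow_le_pow_of_le_one (by norm_num) (by norm_num) hc
          norm_num at h4 ⊢
          linarith
        refine (ind_le_one _).trans (h3.trans ?_)
        exact Finset.single_le_sum
          (f := fun z => 16 * F z g (T ∩ Ico z (z + g)))
          (fun z _ => mul_nonneg (by norm_num) (F_nonneg _ _ _)) hz
    refine h2.trans ?_
    rw [Ex_sum]
    have h3 : ∀ z ∈ S, Ex p (Ioc a b) (fun T => 16 * F z g (T ∩ Ico z (z + g)))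
        ≤ 16 / 2 ^ g := by
      intro z hz
      rw [hS, Finset.mem_filter, Finset.mem_Ioc] at hz
      have hsub : Ico z (z + g) ⊆ Ioc a b := by
        intro m hm
        rw [Finset.mem_Ico] at hm
        rw [Finset.mem_Ioc]
        omega
      rw [Ex_mul, Ex_inter p _ _ hsub (F z g)]
      have h4 : Ex p (Ico z (z + g)) (F z g)
          = ∏ m ∈ Ico z (z + g), (p m * 1 + (1 - p m) * (1 / 4)) := by
        rw [← Ex_prod]
        rfl
      rw [h4]
      have h5 : ∏ m ∈ Ico z (z + g), (p m * 1 + (1 - p m) * (1 / 4))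
          ≤ ∏ _m ∈ Ico z (z + g), (1 / 2 : ℝ) := by
        apply Finset.prod_le_prod
        · intro m hm
          have := hp m (hsub hm)
          nlinarith [this.1, this.2]
        · intro m hm
          have := hp m (hsub hm)
          nlinarith [this.1, this.2]
      rw [Finset.prod_const, Nat.card_Ico, Nat.add_sub_cancel_left] at h5
      calc 16 * ∏ m ∈ Ico z (z + g), (p m * 1 + (1 - p m) * (1 / 4))
          ≤ 16 * (1 / 2 : ℝ) ^ g := by linarith
        _ = 16 / 2 ^ g := by rw [one_div, inv_pow]; ring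
    refine (Finset.sum_le_sum h3).trans ?_
    rw [Finset.sum_const, nsmul_eq_mul]
    have h4 : (S.card : ℝ) ≤ (b : ℝ) - a := by
      have h5 : S.card ≤ b - a := by
        rw [hS]
        exact (Finset.card_filter_le _ _).trans (by rw [Nat.card_Ioc])
      have h6 : ((b - a : ℕ) : ℝ) = (b : ℝ) - a := by
        rw [Nat.cast_sub hab]
      rw [← h6]
      exact_mod_cast h5
    have h5 : (0 : ℝ) ≤ 16 / 2 ^ g := by positivity
    calc (S.card : ℝ) * (16 / 2 ^ g) ≤ ((b : ℝ) - a) * (16 / 2 ^ g) :=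
          mul_le_mul_of_nonneg_right h4 h5
      _ = ((b : ℝ) - a) * 16 / 2 ^ g := by ring

end CRM
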