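import Pool.Agent.CRM.Targets

/-!
# CRM: target THIN, pigeonhole and thinning
-/

set_option autoImplicit false

open scoped BigOperators Classical
open Finset MeasureTheory ProbabilityTheory

namespace CRM

theorem THIN_asym : ∃ n0 : ℕ, ∀ n : ℕ, n0 ≤ n → (3 : ℝ) ≤ n ∧
    924 * (Real.log n) ^ 3 * (n : ℝ) ^ (1 / 7 : ℝ) ≤ (n : ℝ) ^ (1 / 6 : ℝ) := by
  have h := isLittleO_log_rpow_rpow_atTop (s := 1 / 42) (3 : ℝ) (by norm_num)
  have h2 := h.bound (show (0 : ℝ) < 1 / 924 by norm_num)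
  have h3 := (tendsto_natCast_atTop_atTop (R := ℝ)).eventually h2
  obtain ⟨n1, hn1⟩ := Filter.eventually_atTop.1 h3
  refine ⟨max n1 3, fun n hn => ?_⟩
  have hn3 : (3 : ℝ) ≤ n := by
    have : 3 ≤ n := le_trans (le_max_right _ _) hn
    exact_mod_cast this
  refine ⟨hn3, ?_⟩
  have hlog : 0 ≤ Real.log n := Real.log_nonneg (by linarith)
  have h4 := hn1 n (le_trans (le_max_left _ _) hn)
  rw [Real.norm_of_nonneg (Real.rpow_nonneg hlog _),
    Real.norm_of_nonneg (Real.rpow_nonneg (by linarith) _)] at h4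
  have e3 : Real.log n ^ (3 : ℝ) = Real.log n ^ 3 := by
    rw [← Real.rpow_natCast]; norm_num
  rw [e3] at h4
  have e : (n : ℝ) ^ (1 / 6 : ℝ) = (n : ℝ) ^ (1 / 42 : ℝ) * (n : ℝ) ^ (1 / 7 : ℝ) := by
    rw [← Real.rpow_add (by linarith)]; norm_num
  rw [e]
  have hp : 0 ≤ (n : ℝ) ^ (1 / 7 : ℝ) := Real.rpow_nonneg (by linarith) _
  refine mul_le_mul_of_nonneg_right ?_ hp
  linarith

/-- the number of classes -/
theorem THIN_count (n : ℕ) (hn : (3 : ℝ) ≤ n) :
    (((Nat.log 2 (2 * n) + 1) * (⌈10 * Real.log (2 * n)⌉₊ * ⌈10 * Real.log n⌉₊) : ℕ) : ℝ) ≤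
      924 * (Real.log n) ^ 3 := by
  have hn0 : (0 : ℝ) < n := by linarith
  have hl1 : 1 ≤ Real.log n := by
    have h1 : Real.log (Real.exp 1) ≤ Real.log n :=
      Real.log_le_log (Real.exp_pos 1) (by
        have := Real.exp_one_lt_d9; linarith)
    rwa [Real.log_exp] at h1
  have hl2 : Real.log (2 * n) = Real.log 2 + Real.log n := Real.log_mul (by norm_num) hn0.ne'
  have hlog2 : Real.log 2 ≤ 1 := by
    have := Real.log_two_lt_d9; linarith
  have hlog2' : 0.69 ≤ Real.log 2 := by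
    have := Real.log_two_gt_d9; linarith
  have hb1 : ((Nat.log 2 (2 * n) + 1 : ℕ) : ℝ) ≤ 4 * Real.log n := by
    have hpow : 2 ^ (Nat.log 2 (2 * n)) ≤ 2 * n := Nat.pow_log_le_self 2 (by
      have : 0 < n := by exact_mod_cast hn0
      omega)
    have hpow2 : ((2 : ℝ)) ^ (Nat.log 2 (2 * n)) ≤ 2 * n := by exact_mod_cast hpow
    have h3 := Real.log_le_log (by positivity) hpow2
    rw [Real.log_pow, hl2] at h3
    have h4 : (Nat.log 2 (2 * n) : ℝ) * 0.69 ≤ Real.log 2 + Real.log n := by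
      have : (Nat.log 2 (2 * n) : ℝ) * 0.69 ≤ (Nat.log 2 (2 * n) : ℝ) * Real.log 2 :=
        mul_le_mul_of_nonneg_left hlog2' (Nat.cast_nonneg _)
      linarith
    push_cast
    nlinarith [Real.log_two_lt_d9]
  have hb2 : ((⌈10 * Real.log (2 * n)⌉₊ : ℕ) : ℝ) ≤ 21 * Real.log n := by
    have h0 : 0 ≤ 10 * Real.log (2 * n) := by rw [hl2]; nlinarith
    have h5 := (Nat.ceil_lt_add_one h0).le
    have h6 : 10 * Real.log (2 * n) + 1 ≤ 21 * Real.log n := by rw [hl2]; linarith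
    exact le_trans h5 h6
  have hb3 : ((⌈10 * Real.log n⌉₊ : ℕ) : ℝ) ≤ 11 * Real.log n := by
    have h0 : 0 ≤ 10 * Real.log n := by linarith
    have := (Nat.ceil_lt_add_one h0).le
    linarith
  have hl0 : 0 ≤ Real.log n := by linarith
  calc (((Nat.log 2 (2 * n) + 1) * (⌈10 * Real.log (2 * n)⌉₊ * ⌈10 * Real.log n⌉₊) : ℕ) : ℝ)
      = ((Nat.log 2 (2 * n) + 1 : ℕ) : ℝ) * (((⌈10 * Real.log (2 * n)⌉₊ : ℕ) : ℝ) *
        ((⌈10 * Real.log n⌉₊ : ℕ) : ℝ)) := by push_cast; ring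
    _ ≤ (4 * Real.log n) * ((21 * Real.log n) * (11 * Real.log n)) := by
        refine mul_le_mul hb1 ?_ (by positivity) (by positivity)
        exact mul_le_mul hb2 hb3 (by positivity) (by positivity)
    _ = 924 * (Real.log n) ^ 3 := by ring

theorem p_THIN : T_THIN := by
  obtain ⟨n0, hn0⟩ := THIN_asym
  refine ⟨n0, fun n hn V hV hVb => ?_⟩
  obtain ⟨hn3, hasym⟩ := hn0 n hn
  have hcount := THIN_count n hn3
  have hnpos : (0 : ℝ) < n := by linarith
  have hl1 : 0 < Real.log n := Real.log_pos (by linarith)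
  have hl2 : Real.log n ≤ Real.log (2 * n) := Real.log_le_log hnpos (by linarith)
  set g : ℕ := ⌈10 * Real.log n⌉₊ with hg
  set J : ℕ := ⌈10 * Real.log (2 * n)⌉₊ with hJ
  have hJpos : 0 < J := Nat.ceil_pos.2 (by linarith)
  have hgpos : 0 < g := Nat.ceil_pos.2 (by linarith)
  set I : ℕ := Nat.log 2 (2 * n) + 1 with hI
  let f : ℕ → ℕ × ℕ × ℕ := fun v =>
    (Nat.log 2 v, ((v - 2 ^ Nat.log 2 v) * J / 2 ^ Nat.log 2 v, v % g))
  let t : Finset (ℕ × ℕ × ℕ) := range I ×ˢ (range J ×ˢ range g)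
  have hsqrt : (0 : ℝ) < (n : ℝ) ^ (1 / 2 : ℝ) := Real.rpow_pos_of_pos hnpos _
  have hvpos : ∀ v ∈ V, 0 < v := by
    intro v hv
    have := (hVb v hv).1
    have h2 : (0 : ℝ) < v := lt_of_lt_of_le hsqrt this
    exact_mod_cast h2
  have hmaps : ∀ v ∈ V, f v ∈ t := by
    intro v hv
    have hv0 := hvpos v hv
    simp only [f, t, mem_product, mem_range]
    refine ⟨?_, ?_, Nat.mod_lt _ hgpos⟩
    · have : Nat.log 2 v ≤ Nat.log 2 (2 * n) := Nat.log_mono_right (hVb v hv).2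
      omega
    · have h1 : v < 2 ^ (Nat.log 2 v + 1) := Nat.lt_pow_succ_log_self (by norm_num) v
      rw [pow_succ] at h1
      have h2 : v - 2 ^ Nat.log 2 v < 2 ^ Nat.log 2 v := by omega
      rw [Nat.div_lt_iff_lt_mul (by positivity)]
      have := Nat.mul_lt_mul_of_pos_right h2 hJpos
      linarith [mul_comm J (2 ^ Nat.log 2 v)]
  have htne : t.Nonempty := by
    refine ⟨(0, 0, 0), ?_⟩
    simp only [t, mem_product, mem_range]
    exact ⟨by omega, hJpos, hgpos⟩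
  have htc : t.card = I * (J * g) := by
    simp only [t, card_product, card_range]
  have hb : t.card • ((n : ℝ) ^ (1 / 7 : ℝ)) ≤ (V.card : ℝ) := by
    rw [nsmul_eq_mul, htc]
    have hp : 0 ≤ (n : ℝ) ^ (1 / 7 : ℝ) := Real.rpow_nonneg hnpos.le _
    calc ((I * (J * g) : ℕ) : ℝ) * (n : ℝ) ^ (1 / 7 : ℝ)
        ≤ (924 * Real.log n ^ 3) * (n : ℝ) ^ (1 / 7 : ℝ) :=
          mul_le_mul_of_nonneg_right hcount hp
      _ ≤ (n : ℝ) ^ (1 / 6 : ℝ) := hasym
      _ ≤ V.card := hV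
  obtain ⟨y, -, hy⟩ := Finset.exists_le_card_fiber_of_nsmul_le_card_of_maps_to hmaps htne hb
  set V' : Finset ℕ := V.filter (fun v => f v = y) with hV'
  have hne : V'.Nonempty := by
    rw [← Finset.card_pos]
    have h1 : (0 : ℝ) < (n : ℝ) ^ (1 / 7 : ℝ) := Real.rpow_pos_of_pos hnpos _
    have h2 : (0 : ℝ) < (V'.card : ℝ) := lt_of_lt_of_le h1 hy
    exact_mod_cast h2
  have hmem : ∀ v, v ∈ V' ↔ v ∈ V ∧ f v = y := by
    intro v; rw [hV', mem_filter]
  have hx := V'.min'_mem hne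
  set x : ℕ := V'.min' hne with hxdef
  have hxV := ((hmem x).1 hx).1
  have hxf := ((hmem x).1 hx).2
  refine ⟨x, V', Finset.filter_subset _ _, hy, (hVb x hxV).1, (hVb x hxV).2, ?_, ?_⟩
  · intro v hv
    have hxv : x ≤ v := V'.min'_le v hv
    refine ⟨hxv, ?_⟩
    have hvV := ((hmem v).1 hv).1
    have hvf := ((hmem v).1 hv).2
    have hfe : f v = f x := by rw [hvf, hxf]
    simp only [f, Prod.mk.injEq] at hfe
    obtain ⟨e1, e2, -⟩ := hfe
    rw [e1] at e2
    have hpx : 2 ^ Nat.log 2 x ≤ x := Nat.pow_log_le_self 2 (hvpos x hxV).ne'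
    set P : ℕ := 2 ^ Nat.log 2 x with hP
    have hPpos : 0 < P := by positivity
    have h1 : (v - P) * J < ((v - P) * J / P + 1) * P := by
      have := Nat.lt_div_mul_add (a := (v - P) * J) hPpos
      linarith
    have h2 : ((x - P) * J / P) * P ≤ (x - P) * J := Nat.div_mul_le_self _ _
    rw [e2] at h1
    have h3 : (v - P) * J < (x - P) * J + P := by linarith
    obtain ⟨a, ha⟩ : ∃ a, x = P + a := ⟨x - P, by omega⟩
    obtain ⟨b, hb⟩ : ∃ b, v = x + b := ⟨v - x, by omega⟩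
    have h4 : v - P = a + b := by omega
    have h5 : x - P = a := by omega
    rw [h4, h5] at h3
    have h6 : b * J < P := by linarith [add_mul a b J]
    have h7 : b * J ≤ x := by omega
    have h8 : (b : ℝ) * J ≤ x := by exact_mod_cast h7
    have hJ2 : 10 * Real.log (2 * n) ≤ J := Nat.le_ceil _
    have h10 : (b : ℝ) * (10 * Real.log (2 * n)) ≤ x :=
      le_trans (mul_le_mul_of_nonneg_left hJ2 (Nat.cast_nonneg b)) h8
    have h11 : (b : ℝ) ≤ x / (10 * Real.log (2 * n)) := by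
      rw [le_div_iff₀ (by linarith)]
      exact h10
    rw [hb]
    push_cast
    linarith
  · intro v hv v' hv' hlt
    have hvf := ((hmem v).1 hv).2
    have hvf' := ((hmem v').1 hv').2
    have hfe : f v = f v' := by rw [hvf, hvf']
    simp only [f, Prod.mk.injEq] at hfe
    have hmod : v ≡ v' [MOD g] := hfe.2.2
    have hdvd : g ∣ v' - v := (Nat.modEq_iff_dvd' hlt.le).1 hmod
    have := Nat.le_of_dvd (by omega) hdvd
    omega

end CRM
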