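import Pool.Agent.CRM.Targets

/-!
# CRM, target TRI: disjoint triples
-/

set_option autoImplicit false

open scoped BigOperators Classical
open Finset MeasureTheory ProbabilityTheory

namespace CRM

namespace TRI_

/-- The probability that the random subset of `S` is all of `S`. -/
lemma ex_full (p : ℕ → ℝ) (S : Finset ℕ) :
    Ex p S (fun T => ind (S ⊆ T)) = ∏ m ∈ S, p m := by
  have h := Ex_prod p S (fun _ => 1) (fun _ => 0)
  have h2 : ∏ m ∈ S, (p m * 1 + (1 - p m) * 0) = ∏ m ∈ S, p m :=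
    Finset.prod_congr rfl fun m _ => by ring
  rw [h2] at h
  rw [← h]
  refine Ex_congr fun T _ => ?_
  unfold ind
  by_cases hS : S ⊆ T
  · rw [if_pos hS, Finset.sdiff_eq_empty_iff_subset.2 hS]
    simp
  · rw [if_neg hS]
    obtain ⟨a, ha, ha'⟩ := Finset.not_subset.1 hS
    rw [Finset.prod_eq_zero (i := a) (Finset.mem_sdiff.2 ⟨ha, ha'⟩) rfl, mul_zero]

/-- The probability that the random subset of `S` is not all of `S`. -/
lemma ex_notfull (p : ℕ → ℝ) (S : Finset ℕ) :
    Ex p S (fun T => ind (¬ S ⊆ T)) = 1 - ∏ m ∈ S, p m := by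
  have h1 := Ex_add p S (fun T => ind (S ⊆ T)) (fun T => ind (¬ S ⊆ T))
  have h2 : Ex p S (fun T => ind (S ⊆ T) + ind (¬ S ⊆ T)) = 1 := by
    rw [← Ex_one p S]
    refine Ex_congr fun T _ => ?_
    unfold ind
    by_cases hS : S ⊆ T <;> simp [hS]
  rw [h2, ex_full] at h1
  linarith

end TRI_

/-- The target `T_TRI`. -/
theorem p_TRI : T_TRI := by
  intro p R ρ Y t hp hρ hρ1 hsub hprod hdis
  induction Y using Finset.induction_on generalizing R with
  | empty =>
    simp only [Finset.card_empty, pow_zero]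
    have h := Ex_mono (f := fun T => ind (∀ y ∈ (∅ : Finset ℕ), ¬ t y ⊆ T)) (g := fun _ => 1)
      (fun m hm => (hp m hm).1) (fun m hm => (hp m hm).2) (fun T _ => ind_le_one _)
    rwa [Ex_one] at h
  | insert y Y hy ih =>
    have hty : t y ⊆ R := hsub y (Finset.mem_insert_self y Y)
    have hR : R = t y ∪ (R \ t y) := (Finset.union_sdiff_of_subset hty).symm
    have hp1 : ∀ m ∈ t y, 0 ≤ p m ∧ p m ≤ 1 := fun m hm => hp m (hty hm)
    have hp2 : ∀ m ∈ R \ t y, 0 ≤ p m ∧ p m ≤ 1 := fun m hm => hp m (Finset.mem_sdiff.1 hm).1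
    have hIH := ih (R \ t y) hp2
      (fun y' hy' => by
        intro m hm
        refine Finset.mem_sdiff.2 ⟨hsub y' (Finset.mem_insert_of_mem hy') hm, fun h => ?_⟩
        have hne : y' ≠ y := fun he => hy (he ▸ hy')
        exact Finset.disjoint_left.1 (hdis y' (Finset.mem_insert_of_mem hy') y
          (Finset.mem_insert_self y Y) hne) hm h)
      (fun y' hy' => hprod y' (Finset.mem_insert_of_mem hy'))
      (fun a ha b hb hab => hdis a (Finset.mem_insert_of_mem ha) b
        (Finset.mem_insert_of_mem hb) hab)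
    set E2 := Ex p (R \ t y) (fun T => ind (∀ y' ∈ Y, ¬ t y' ⊆ T)) with hE2
    have hE2nn : 0 ≤ E2 := Ex_nonneg (fun m hm => (hp2 m hm).1) (fun m hm => (hp2 m hm).2)
      (fun T _ => ind_nonneg _)
    have hstep : Ex p R (fun T => ind (∀ y' ∈ insert y Y, ¬ t y' ⊆ T)) ≤
        Ex p (t y) (fun T => E2 * ind (¬ t y ⊆ T)) := by
      conv_lhs => rw [hR]
      rw [Ex_union p _ _ Finset.disjoint_sdiff]
      refine Ex_mono (fun m hm => (hp1 m hm).1) (fun m hm => (hp1 m hm).2) (fun T1 hT1 => ?_)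
      have h3 : E2 * ind (¬ t y ⊆ T1) = Ex p (R \ t y)
          (fun T => ind (¬ t y ⊆ T1) * ind (∀ y' ∈ Y, ¬ t y' ⊆ T)) := by
        rw [Ex_mul, mul_comm]
      rw [h3]
      refine Ex_mono (fun m hm => (hp2 m hm).1) (fun m hm => (hp2 m hm).2) (fun T2 hT2 => ?_)
      by_cases hev : ∀ y' ∈ insert y Y, ¬ t y' ⊆ T1 ∪ T2
      · have ha : ¬ t y ⊆ T1 := fun h => hev y (Finset.mem_insert_self y Y)
          (h.trans Finset.subset_union_left)
        have hb : ∀ y' ∈ Y, ¬ t y' ⊆ T2 := fun y' hy' h =>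
          hev y' (Finset.mem_insert_of_mem hy') (h.trans Finset.subset_union_right)
        have e1 : ind (¬ t y ⊆ T1) = 1 := by unfold ind; rw [if_pos ha]
        have e2 : ind (∀ y' ∈ Y, ¬ t y' ⊆ T2) = 1 := by unfold ind; rw [if_pos hb]
        rw [e1, e2, mul_one]
        exact ind_le_one _
      · have e0 : ind (∀ y' ∈ insert y Y, ¬ t y' ⊆ T1 ∪ T2) = 0 := by
          unfold ind; rw [if_neg hev]
        rw [e0]
        exact mul_nonneg (ind_nonneg _) (ind_nonneg _)
    refine hstep.trans ?_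
    rw [Ex_mul, TRI_.ex_notfull, Finset.card_insert_of_notMem hy, pow_succ]
    have h4 := hprod y (Finset.mem_insert_self y Y)
    have h5 : ∏ m ∈ t y, p m ≤ 1 :=
      Finset.prod_le_one (fun m hm => (hp1 m hm).1) (fun m hm => (hp1 m hm).2)
    exact mul_le_mul hIH (by linarith) (by linarith) (pow_nonneg (by linarith) _)

end CRM
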