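import Mathlib
import Pool.Agent.CRM.Indep

/-!
# Lower tails for the number of independent events which occur, and colourings
-/

set_option autoImplicit false

open MeasureTheory ProbabilityTheory Filter Set
open scoped ENNReal

namespace Pool.Agent.CRM

variable {Ω : Type} [MeasurableSpace Ω]

lemma exp_neg_le (a : ℝ) (ha : 0 ≤ a) : Real.exp (-a) ≤ 1 - a + a ^ 2 / 2 := by
  have h1 : 1 + a + a ^ 2 / 2 ≤ Real.exp a := Real.quadratic_le_exp_of_nonneg ha
  have h2 : 0 < 1 + a + a ^ 2 / 2 := by positivity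
  have h3 : 0 ≤ 1 - a + a ^ 2 / 2 := by nlinarith [sq_nonneg (a - 1)]
  rw [Real.exp_neg, inv_le_comm₀ (Real.exp_pos a) (by nlinarith [sq_nonneg (a - 1)])]
  refine le_trans ?_ h1
  rw [inv_le_iff_one_le_mul₀ (by nlinarith [sq_nonneg (a - 1)])]
  nlinarith [sq_nonneg (a ^ 2)]

/-- the indicator function of an event -/
noncomputable def ind (E : Set Ω) : Ω → ℝ := E.indicator fun _ => 1

omit [MeasurableSpace Ω] in
lemma ind_nonneg (E : Set Ω) (ω : Ω) : 0 ≤ ind E ω := indicator_nonneg (fun _ _ => zero_le_one) ω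

lemma ind_meas {E : Set Ω} (h : MeasurableSet E) : Measurable (ind E) :=
  measurable_const.indicator h

lemma mgf_ind {μ : Measure Ω} [IsProbabilityMeasure μ] {E : Set Ω} (h : MeasurableSet E) (a : ℝ)
    (ha : 0 ≤ a) : mgf (ind E) μ (-a) ≤ Real.exp (-((a - a ^ 2 / 2) * μ.real E)) := by
  have e : ∀ ω, Real.exp (-a * ind E ω) = 1 + (Real.exp (-a) - 1) * ind E ω := by
    intro ω
    unfold ind
    by_cases hω : ω ∈ E
    · rw [indicator_of_mem hω]
      simp
    · rw [indicator_of_notMem hω]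
      simp
  have hi : Integrable (ind E) μ := (integrable_const (1 : ℝ)).indicator h
  have h1 : mgf (ind E) μ (-a) = 1 + (Real.exp (-a) - 1) * μ.real E := by
    unfold mgf
    simp only [e]
    rw [integral_add (integrable_const _) (hi.const_mul _), integral_const, integral_const_mul]
    unfold ind
    rw [integral_indicator_const _ h]
    simp
  rw [h1]
  have h2 := exp_neg_le a ha
  have h3 : 0 ≤ μ.real E := measureReal_nonneg
  have h4 : (Real.exp (-a) - 1) * μ.real E ≤ -((a - a ^ 2 / 2) * μ.real E) := by nlinarith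
  have h5 := Real.add_one_le_exp (-((a - a ^ 2 / 2) * μ.real E))
  linarith

/-- lower tail for the number of independent events which occur -/
lemma tail {ι : Type} [Fintype ι] {μ : Measure Ω} [IsProbabilityMeasure μ] (E : ι → Set Ω)
    (hm : ∀ i, MeasurableSet (E i)) (hi : iIndepSet E μ) (t N : ℝ) (ht : 0 ≤ t) (hN : 0 < N)
    (hc : (Fintype.card ι : ℝ) ≤ N) :
    μ.real {ω | ∑ i, ind (E i) ω ≤ ∑ i, μ.real (E i) - t} ≤ Real.exp (-(t ^ 2 / (2 * N))) := by
  set a : ℝ := t / N with ha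
  have ha0 : 0 ≤ a := by positivity
  set m : ℝ := ∑ i, μ.real (E i) with hmd
  have hm1 : m ≤ N := by
    refine le_trans ?_ hc
    calc m ≤ ∑ _i : ι, (1 : ℝ) := Finset.sum_le_sum fun i _ => measureReal_le_one
      _ = Fintype.card ι := by simp
  have hY : ∀ ω, (∑ i, ind (E i)) ω = ∑ i, ind (E i) ω := fun ω => Finset.sum_apply ω _ _
  have hmeas : Measurable (∑ i, ind (E i)) := by
    have e : (∑ i, ind (E i)) = fun ω => ∑ i, ind (E i) ω := funext hY
    rw [e]
    exact Finset.measurable_sum _ fun i _ => ind_meas (hm i)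
  have hint : Integrable (fun ω => Real.exp (-a * (∑ i, ind (E i)) ω)) μ := by
    refine Integrable.of_bound ?_ 1 (Eventually.of_forall fun ω => ?_)
    · exact ((hmeas.const_mul (-a)).exp).aestronglyMeasurable
    · rw [Real.norm_of_nonneg (Real.exp_pos _).le]
      apply Real.exp_le_one_iff.2
      rw [hY]
      have : 0 ≤ ∑ i, ind (E i) ω := Finset.sum_nonneg fun i _ => ind_nonneg _ ω
      nlinarith
  have h1 := measure_le_le_exp_mul_mgf (μ := μ) (X := ∑ i, ind (E i)) (t := -a) (m - t)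
    (by linarith) hint
  have hind : iIndepFun (fun i => ind (E i)) μ := hi.iIndepFun_indicator
  have h2 : mgf (∑ i, ind (E i)) μ (-a) ≤ Real.exp (-((a - a ^ 2 / 2) * m)) := by
    rw [hind.mgf_sum (fun i => ind_meas (hm i)) Finset.univ]
    calc ∏ i, mgf (ind (E i)) μ (-a) ≤ ∏ i, Real.exp (-((a - a ^ 2 / 2) * μ.real (E i))) :=
          Finset.prod_le_prod (fun i _ => mgf_nonneg) fun i _ => mgf_ind (hm i) a ha0
      _ = Real.exp (-((a - a ^ 2 / 2) * m)) := by
          rw [← Real.exp_sum, Finset.sum_neg_distrib, ← Finset.mul_sum]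
  have h3 : {ω | ∑ i, ind (E i) ω ≤ m - t} = {ω | (∑ i, ind (E i)) ω ≤ m - t} := by
    ext ω
    simp only [Set.mem_ofPred_eq, hY]
  rw [h3]
  refine h1.trans ?_
  calc Real.exp (- -a * (m - t)) * mgf (∑ i, ind (E i)) μ (-a)
      ≤ Real.exp (- -a * (m - t)) * Real.exp (-((a - a ^ 2 / 2) * m)) :=
        mul_le_mul_of_nonneg_left h2 (Real.exp_pos _).le
    _ = Real.exp (-a * t + a ^ 2 / 2 * m) := by
        rw [← Real.exp_add]
        congr 1
        ring
    _ ≤ Real.exp (-a * t + a ^ 2 / 2 * N) := by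
        apply Real.exp_le_exp.2
        have : 0 ≤ a ^ 2 / 2 := by positivity
        nlinarith
    _ = Real.exp (-(t ^ 2 / (2 * N))) := by
        congr 1
        rw [ha]
        field_simp
        ring

/-- a colouring such that integers of the same colour have disjoint index sets -/
lemma colour (S : Finset ℕ) (s : ℕ) (hs : S.card ≤ s) (G : Finset ℕ) :
    ∃ f : ℕ → ℕ, (∀ n, f n < s ^ 2 + 1) ∧
      ∀ n ∈ G, ∀ n' ∈ G, n ≠ n' → f n = f n' → Disjoint (Ix S n) (Ix S n') := by
  classical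
  induction G using Finset.induction_on with
  | empty => exact ⟨fun _ => 0, fun _ => by positivity, by simp⟩
  | insert x G hx ih =>
    obtain ⟨f, hf1, hf2⟩ := ih
    set Nb := G.filter (fun n' => ¬ Disjoint (Ix S x) (Ix S n')) with hNb
    have hcard : Nb.card ≤ s ^ 2 := by
      have hsub : Nb ⊆ (S ×ˢ S).image (fun p => x - p.1 + p.2) := by
        intro n' hn'
        rw [hNb, Finset.mem_filter, Finset.not_disjoint_iff] at hn'
        obtain ⟨_, m, hm, hm'⟩ := hn'
        simp only [Ix, Finset.mem_image, Finset.mem_filter] at hm hm'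
        obtain ⟨a, ⟨ha, han⟩, rfl⟩ := hm
        obtain ⟨b, ⟨hb, hbn⟩, hab⟩ := hm'
        refine Finset.mem_image.2 ⟨(a, b), Finset.mem_product.2 ⟨ha, hb⟩, ?_⟩
        simp only
        omega
      refine (Finset.card_le_card hsub).trans (Finset.card_image_le.trans ?_)
      rw [Finset.card_product, sq]
      exact Nat.mul_le_mul hs hs
    obtain ⟨c, hc1, hc2⟩ : ∃ c ∈ Finset.range (s ^ 2 + 1), c ∉ Nb.image f := by
      apply Finset.exists_mem_notMem_of_card_lt_card
      rw [Finset.card_range]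
      exact Nat.lt_succ_of_le (Finset.card_image_le.trans hcard)
    rw [Finset.mem_range] at hc1
    have hfree : ∀ n' ∈ G, c = f n' → Disjoint (Ix S x) (Ix S n') := by
      intro n' hn' hcn
      by_contra hcon
      exact hc2 (Finset.mem_image.2 ⟨n', Finset.mem_filter.2 ⟨hn', hcon⟩, hcn.symm⟩)
    refine ⟨Function.update f x c, fun n => ?_, ?_⟩
    · by_cases h : n = x
      · rw [h, Function.update_self]
        exact hc1
      · rw [Function.update_of_ne h]
        exact hf1 n
    · intro n hn n' hn' hne hcol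
      rw [Finset.mem_insert] at hn hn'
      rcases hn with rfl | hn <;> rcases hn' with rfl | hn'
      · exact absurd rfl hne
      · rw [Function.update_self, Function.update_of_ne hne.symm] at hcol
        exact hfree n' hn' hcol
      · rw [Function.update_self, Function.update_of_ne hne] at hcol
        exact (hfree n hn hcol.symm).symm
      · have h1 : n ≠ x := fun h => hx (h ▸ hn)
        have h2 : n' ≠ x := fun h => hx (h ▸ hn')
        rw [Function.update_of_ne h1, Function.update_of_ne h2] at hcol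
        exact hf2 n hn n' hn' hne hcol

/-- lower tail when disjoint index sets give independence -/
lemma chrom {μ : Measure Ω} [IsProbabilityMeasure μ] (Ev : ℕ → Set Ω)
    (hm : ∀ n, MeasurableSet (Ev n)) (S G : Finset ℕ) (s : ℕ) (hs : S.card ≤ s)
    (hH : ∀ T ⊆ G, (∀ n ∈ T, ∀ n' ∈ T, n ≠ n' → Disjoint (Ix S n) (Ix S n')) →
      iIndepSet (fun n : T => Ev (n : ℕ)) μ) (t N : ℝ) (ht : 0 ≤ t) (hN : 0 < N)
    (hc : (G.card : ℝ) ≤ N) :
    μ.real {ω | ∑ n ∈ G, ind (Ev n) ω ≤ ∑ n ∈ G, μ.real (Ev n) - (s ^ 2 + 1) * t} ≤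
      (s ^ 2 + 1) * Real.exp (-(t ^ 2 / (2 * N))) := by
  classical
  obtain ⟨f, hf1, hf2⟩ := colour S s hs G
  set Gc : ℕ → Finset ℕ := fun c => G.filter fun n => f n = c with hGc
  have hsum : ∀ g : ℕ → ℝ, ∑ n ∈ G, g n = ∑ c ∈ Finset.range (s ^ 2 + 1), ∑ n ∈ Gc c, g n := by
    intro g
    rw [Finset.sum_fiberwise_of_maps_to]
    intro n _
    exact Finset.mem_range.2 (hf1 n)
  have hsub : {ω | ∑ n ∈ G, ind (Ev n) ω ≤ ∑ n ∈ G, μ.real (Ev n) - (s ^ 2 + 1) * t} ⊆
      ⋃ c ∈ Finset.range (s ^ 2 + 1),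
        {ω | ∑ n ∈ Gc c, ind (Ev n) ω ≤ ∑ n ∈ Gc c, μ.real (Ev n) - t} := by
    intro ω hω
    rw [Set.mem_ofPred_eq, hsum, hsum] at hω
    by_contra hcon
    simp only [mem_iUnion, not_exists, Set.mem_ofPred_eq, not_le] at hcon
    have h1 : ∑ c ∈ Finset.range (s ^ 2 + 1), (∑ n ∈ Gc c, μ.real (Ev n) - t) <
        ∑ c ∈ Finset.range (s ^ 2 + 1), ∑ n ∈ Gc c, ind (Ev n) ω :=
      Finset.sum_lt_sum_of_nonempty ⟨0, Finset.mem_range.2 (by positivity)⟩ fun c hc => hcon c hc
    rw [Finset.sum_sub_distrib, Finset.sum_const, Finset.card_range, nsmul_eq_mul] at h1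
    push_cast at h1
    linarith
  calc μ.real {ω | ∑ n ∈ G, ind (Ev n) ω ≤ ∑ n ∈ G, μ.real (Ev n) - (s ^ 2 + 1) * t}
      ≤ μ.real (⋃ c ∈ Finset.range (s ^ 2 + 1),
        {ω | ∑ n ∈ Gc c, ind (Ev n) ω ≤ ∑ n ∈ Gc c, μ.real (Ev n) - t}) :=
        measureReal_mono hsub (measure_ne_top _ _)
    _ ≤ ∑ c ∈ Finset.range (s ^ 2 + 1),
        μ.real {ω | ∑ n ∈ Gc c, ind (Ev n) ω ≤ ∑ n ∈ Gc c, μ.real (Ev n) - t} :=
        measureReal_biUnion_finset_le _ _
    _ ≤ ∑ _c ∈ Finset.range (s ^ 2 + 1), Real.exp (-(t ^ 2 / (2 * N))) := by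
        refine Finset.sum_le_sum fun c _ => ?_
        have h1 := tail (μ := μ) (fun n : Gc c => Ev (n : ℕ)) (fun n => hm n)
          (hH (Gc c) (Finset.filter_subset _ _) (by
            intro n hn n' hn' hne
            rw [hGc, Finset.mem_filter] at hn hn'
            exact hf2 n hn.1 n' hn'.1 hne (hn.2.trans hn'.2.symm))) t N ht hN (by
              rw [Fintype.card_coe]
              refine le_trans ?_ hc
              exact_mod_cast Finset.card_filter_le _ _)
        have e1 : ∀ ω, ∑ n : Gc c, ind (Ev (n : ℕ)) ω = ∑ n ∈ Gc c, ind (Ev n) ω := fun ω =>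
          Finset.sum_coe_sort (Gc c) (fun n => ind (Ev n) ω)
        have e2 : ∑ n : Gc c, μ.real (Ev (n : ℕ)) = ∑ n ∈ Gc c, μ.real (Ev n) :=
          Finset.sum_coe_sort (Gc c) (fun n => μ.real (Ev n))
        simp only [e1, e2] at h1
        exact h1
    _ = _ := by
        rw [Finset.sum_const, Finset.card_range, nsmul_eq_mul]
        push_cast
        ring

end Pool.Agent.CRM
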