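import Pool.Agent.CRM.Ex

/-!
# Project CRM: targets

Two hand-ins for MP_61a569_nt: (1) `T_CAND` (many candidates), (2) `T_FIN` (the Cramer model).
`Pool/Agent/CRM/Ex.lean` has the basic facts on `Ex` (all proved): `Ex_insert`, `Ex_union`,
`Ex_inter`, `Ex_mono`, `Ex_add`, `Ex_mul`, `Ex_sum`, `Ex_prod`, `Ex_const`, `Ex_one`, `Ex_nonneg`,
`Ex_congr`, `Ex_empty`, `ind_mono`, `ind_or_le`, `ind_nonneg`, `ind_le_one`.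
-/

set_option autoImplicit false

open scoped BigOperators Classical
open Finset MeasureTheory ProbabilityTheory

namespace CRM

/-- WIN. Proof: both halves of the first theorem of Mertens are in the repository:
`Pool.Agent.Helper2.PackAP.mertens_lower` (file Pool/Agent/Helper2/PackAPC.lean, sum over the odd
primes `≤ N`) and `Pool.Agent.QTw.MERT_.mertens` (file Pool/Agent/QTw/MERT.lean). So with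
`A(y) = ∑_{p ≤ y} log p / p` one has `log y - C ≤ A(y) ≤ log y + C` for real `y ≥ 1` (floors cost
`log 2`). For `j = 60, .., 99` put `u = (j-1)/100`, `w = j/100`: the primes with
`n^u < p ≤ n^w` give `∑ 1/p ≥ (A(n^w) - A(n^u)) / (w log n) ≥ ((w-u) log n - 2C)/(w log n)
= 1/j - 200 C/(j log n)`. The 40 windows are disjoint and `∑_{j=60}^{99} 1/j > 0.514`
(`norm_num` or `decide` on rationals). -/
def T_WIN : Prop := ∃ n0 : ℕ, ∀ n : ℕ, n0 ≤ n →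
  (0.51 : ℝ) ≤ ∑ p ∈ win ((n : ℝ) ^ (0.59 : ℝ)) ((n : ℝ) ^ (0.99 : ℝ)), 1 / (p : ℝ)

/-- CNT (from WIN). Proof: let `P` be the window. Two different `p, p' ∈ P` never divide the same
positive integer `≤ n`, since `p p' > n^1.18 ≥ n`. So the number of `k` is
`∑_{p ∈ P} #{k < n-2 odd : p ∣ k}` (resp. `p ∣ n - k`), and each term is `≥ n/(2p) - 2`: `p` is odd,
`k = p j` with `j` odd and `p j ≤ n-3`; resp. `n - k = p j` with `3 ≤ p j ≤ n-1` and the parity of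
`j` prescribed. Sum: `≥ 0.51 n/2 - 2 #P ≥ 0.255 n - 2 (n^0.99 + 1) ≥ 0.254 n`. -/
def T_CNT : Prop := ∃ n0 : ℕ, ∀ n : ℕ, n0 ≤ n →
  0.254 * (n : ℝ) ≤ ((range (n - 2)).filter (fun k => Odd k ∧
    ∃ p ∈ win ((n : ℝ) ^ (0.59 : ℝ)) ((n : ℝ) ^ (0.99 : ℝ)), p ∣ k)).card ∧
  0.254 * (n : ℝ) ≤ ((range (n - 2)).filter (fun k => Odd k ∧
    ∃ p ∈ win ((n : ℝ) ^ (0.59 : ℝ)) ((n : ℝ) ^ (0.99 : ℝ)), p ∣ n - k)).card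

/-- EXC. Proof: the sum of `1/p` over the primes `p ≡ 1 (mod M)` diverges. (Adapt
Pool/Agent/FLN/DIV.lean, which proves it for the class `2` modulo a prime, with the lower bound for
the von Mangoldt sum over a residue class from Mathlib, file
`Mathlib/NumberTheory/LSeries/PrimesInAP.lean`.) So there is a finite set `S` of primes `≡ 1 (mod M)`
with `∏_{p ∈ S} (1 - 1/p) ≤ exp (-∑ 1/p) ≤ ε/2`. With `Q = ∏_{p ∈ S} p`: if `M ∤ φ(k)`, then no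
`p ∈ S` divides `k` (else `M ∣ p - 1 ∣ φ(k)`), so `k` is prime to `Q`, and by
`Nat.Ico_filter_coprime_le` the number of these `k ≤ N` is at most `φ(Q) (N/Q + 1)
≤ (ε/2) N + φ(Q) ≤ ε N` for large `N`. -/
def T_EXC : Prop := ∀ M : ℕ, 1 ≤ M → ∀ ε : ℝ, 0 < ε → ∃ N0 : ℕ, ∀ N : ℕ, N0 ≤ N →
  (((Icc 1 N).filter (fun k => ¬ M ∣ Nat.totient k)).card : ℝ) ≤ ε * N

/-- RAT. Proof: let `f(m) = ∏_{p ∣ m} (1 - 1/p) = φ(m)/m`; suppose `2 f(a) = f(b)`. Cancel the common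
prime factors: with `A = primeFactors a \ primeFactors b`, `B = primeFactors b \ primeFactors a`,
`2 ∏_{p ∈ A} (p-1) ∏_{p ∈ B} p = ∏_{p ∈ A} p ∏_{p ∈ B} (p-1)`. If `A ∪ B = ∅` this says `2 = 1`.
Else let `ℓ = max (A ∪ B)`. If `ℓ ∈ A` then `ℓ ≥ 3` (`a` is odd) divides the right side, so it divides
`2`, some `p - 1 < ℓ` or some `p ∈ B`, `p < ℓ`: impossible. If `ℓ ∈ B` then `ℓ` divides the left side,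
so it divides some `p ∈ A`, `p < ℓ`, or some `0 < p - 1 < ℓ`: impossible. -/
def T_RAT : Prop := ∀ a b : ℕ, Odd a → 1 ≤ b → 2 * b * Nat.totient a ≠ a * Nat.totient b

/-- CAND (hand-in 1; from CNT, EXC, RAT). Proof: let `P = win (n^0.59) (n^0.99)` and let `K` be the
set of the odd `k < n-2` with a prime `p ∈ P` dividing `k`, a prime `p' ∈ P` dividing `n-k`,
`W ∣ φ(k)` and `2W ∣ φ(n-k)`. There are at most `n/2` odd `k < n-2`, so by CNT and EXC (with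
`M = 2 W`, `ε = 0.001`, used for `k` and for `n-k`) `#K ≥ (0.254 + 0.254 - 0.5 - 0.002) n
= 0.006 n`. Every `q(n,k)`, `k ∈ K`, is `≡ 1 (mod W)`, `≤ 2n` and `≥ φ(k) ≥ p - 1 ≥ n^0.59 - 1 ≥
n^(1/2)`. Choose `p, p'` for every `k` and put `a = k/p`, `b = (n-k)/p'`: `a, b ≤ n^0.41 < p, p'`, so
`p ∤ a`, `p' ∤ b`, `φ(k) = φ(a)(p-1)`, `φ(n-k) = φ(b)(p'-1)`. CLAIM: `k` is determined by
`(a, b, q(n,k))`: if `k = a p`, `k_1 = a p_1`, `n-k = b p'`, `n - k_1 = b p_1'`, then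
`a (p - p_1) = b (p_1' - p')` and `2 φ(a)(p - p_1) = φ(b)(p_1' - p')` (integers), so
`(2 b φ(a) - a φ(b)) (p - p_1) = 0` and `p = p_1` by RAT (`a ∣ k` is odd). Hence
`#K ≤ #V * (n^0.41 + 1)^2` for `V = q(n,K)` and `#V ≥ 0.006 n/(4 n^0.82) ≥ n^(1/6)`. -/
def T_CAND : Prop := ∀ W : ℕ, 1 ≤ W → ∃ n0 : ℕ, ∀ n : ℕ, n0 ≤ n → ∃ V : Finset ℕ,
  (n : ℝ) ^ (1 / 6 : ℝ) ≤ V.card ∧ ∀ v ∈ V, v ≡ 1 [MOD W] ∧ (n : ℝ) ^ (1 / 2 : ℝ) ≤ v ∧ v ≤ 2 * n ∧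
    ∃ k, 0 < k ∧ k < n - 2 ∧ v = qq n k

/-- BRG: transfer from a probability space to the finite model. Proof: the event is the disjoint
union, over `T ⊆ R` with `E T`, of the atoms `{ω : ∀ m ∈ R, (ω ∈ S m ↔ m ∈ T)}`; the measure of an
atom is `∏_{m ∈ T} p m ∏_{m ∈ R \ T} (1 - p m)` by independence (`iIndepSet.iIndepFun_indicator` and
`iIndepFun.measure_inter_preimage_eq_mul`, or induction with `iIndepSet_iff`, complements). -/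
def T_BRG : Prop := ∀ (Ω : Type) (_ : MeasurableSpace Ω) (μ : Measure Ω) (_ : IsProbabilityMeasure μ)
  (S : ℕ → Set Ω) (p : ℕ → ℝ), (∀ m, MeasurableSet (S m)) → iIndepSet S μ →
  (∀ m, μ (S m) = ENNReal.ofReal (p m)) → (∀ m, 0 ≤ p m ∧ p m ≤ 1) →
  ∀ (R : Finset ℕ) (E : Finset ℕ → Prop),
    μ {ω | E (R.filter (fun m => ω ∈ S m))} = ENNReal.ofReal (Ex p R (fun T => ind (E T)))

/-- CHE (Chernoff). Proof: `ind (F + λ ≤ #T) ≤ exp (t(#T - F - λ))`, where `F = ∑ p m`, and by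
`Ex_prod` (with `u = exp t`, `w = 1`) its expectation is
`exp (-tF - tλ) ∏ (1 + p m (e^t - 1)) ≤ exp (-tF - tλ + F (e^t - 1)) ≤ exp (t² F - tλ)` as
`e^t - 1 ≤ t + t²` for `0 ≤ t ≤ 1`. Lower tail: the same with `exp (t (F - λ - #T))` and
`1 - e^(-t) ≥ t - t²`. -/
def T_CHE : Prop := ∀ (p : ℕ → ℝ) (R : Finset ℕ), (∀ m ∈ R, 0 ≤ p m ∧ p m ≤ 1) →
  ∀ t l : ℝ, 0 ≤ t → t ≤ 1 →
    Ex p R (fun T => ind (∑ m ∈ R, p m + l ≤ (T.card : ℝ))) ≤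
      Real.exp (t ^ 2 * ∑ m ∈ R, p m - t * l) ∧
    Ex p R (fun T => ind ((T.card : ℝ) ≤ ∑ m ∈ R, p m - l)) ≤
      Real.exp (t ^ 2 * ∑ m ∈ R, p m - t * l)

/-- TRI. Proof: induction on `Y`. Split `R = t y ∪ (R \ t y)` (`Ex_union`): the event is contained in
`{¬ t y ⊆ T₁} ∩ {∀ y' ∈ Y \ y, ¬ t y' ⊆ T₂}` with `T₁ = T ∩ t y`, `T₂ = T \ t y` (`t y'` is disjoint
from `t y`), the expectation is a product, and `Ex (t y) (ind (t y ⊆ T)) = ∏_{m ∈ t y} p m ≥ ρ`. -/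
def T_TRI : Prop := ∀ (p : ℕ → ℝ) (R : Finset ℕ) (ρ : ℝ) (Y : Finset ℕ) (t : ℕ → Finset ℕ),
  (∀ m ∈ R, 0 ≤ p m ∧ p m ≤ 1) → 0 ≤ ρ → ρ ≤ 1 → (∀ y ∈ Y, t y ⊆ R) →
  (∀ y ∈ Y, ρ ≤ ∏ m ∈ t y, p m) → (∀ y ∈ Y, ∀ y' ∈ Y, y ≠ y' → Disjoint (t y) (t y')) →
  Ex p R (fun T => ind (∀ y ∈ Y, ¬ t y ⊆ T)) ≤ (1 - ρ) ^ Y.card

/-- MRK (the Markov chain of the residues). Proof: put `c₀ = 1/(4W)`, `θ = 1 - c₀ ρ`,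
`h(z) = c₀ (1 + 2 P ((z + W - 1) % W))` (so `h(z) = c₀` for `z ≡ 1 (mod W)`), `c₀ ≤ h ≤ 2 c₀ ≤ 1`, and
for `z + 1 ∈ Ioc a b`, with `π = p (z+1)`,
(*) `h(z) ≤ π [z+1 ≡ 1 (mod W)] + (1 - π) h(z+1)`:
if `z+1 ≢ 1` then `h(z+1) = h(z) + 2 c₀ P` and `(1-π) h(z+1) ≥ h(z) + 2 c₀ P - P c₀ (1 + 2PW) ≥ h(z)`;
if `z+1 ≡ 1` then `h(z) = c₀ (1 + 2P(W-1)) ≤ c₀ (1 + 4π(W-1))`, `h(z+1) = c₀` and
`π + (1-π) c₀ - h(z) ≥ π - π c₀ - 4 c₀ π (W-1) = π (1 - c₀ (4W - 3)) ≥ 0`.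
Generalise: for `z ≤ b` and `c : ℕ` let `U(z,c)` be `Ex p (Ioc z b)` of
`if ∀ j ∈ J, j < c + #T then ∏_{y ∈ T} (if c + bel T y ∈ J ∧ y ≡ 1 then 1-ρ else 1) else 0`, and
`m = #{j ∈ J : c ≤ j}`. CLAIM: `U(z,c) ≤ θ^m` if `c ∉ J` and `U(z,c) ≤ (1 - ρ h(z)) θ^(m-1)` if
`c ∈ J` (so always `U(z,c) ≤ θ^m`). Downward induction on `z` (`Nat.decreasingInduction` or induction
on `b - z`); `z = b`: `U` is `1` if all `j ∈ J` are `< c` (then `m = 0`), else `0`. Step: by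
`Ex_insert` with the least element `z+1`,
`U(z,c) = (1-π) U(z+1,c) + π f U(z+1,c+1)`, `f = 1-ρ` if `c ∈ J ∧ z+1 ≡ 1`, else `1`
(inserting `z+1` raises `bel T y` by one for all `y ∈ T`, and `bel (insert (z+1) T) (z+1) = 0`).
`c ∉ J`: both values are `≤ θ^m`. `c ∈ J`: `U(z,c) ≤ (1-π)(1 - ρ h(z+1)) θ^(m-1) + π f θ^(m-1)
= θ^(m-1) (1 - ρ ((1-π) h(z+1) + π [z+1 ≡ 1])) ≤ θ^(m-1) (1 - ρ h(z))` by (*).
The target is `z = a`, `c = 0`. -/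
def T_MRK : Prop := ∀ (p : ℕ → ℝ) (a b W : ℕ) (J : Finset ℕ) (P ρ : ℝ), 1 ≤ W → 0 ≤ ρ → ρ ≤ 1 →
  (∀ m ∈ Ioc a b, 0 ≤ p m ∧ p m ≤ P) → (∀ m ∈ Ioc a b, m ≡ 1 [MOD W] → P ≤ 2 * p m) →
  2 * P * W ≤ 1 →
  Ex p (Ioc a b) (fun T => if (∀ j ∈ J, j < T.card) then
    ∏ y ∈ T, (if bel T y ∈ J ∧ y ≡ 1 [MOD W] then 1 - ρ else 1) else 0) ≤
    (1 - ρ / (4 * W)) ^ J.card

/-- SPC. Proof: if `SP g T` fails for `z < z'` in `T`, let `c = bel T z' - bel T z ≥ g`, the number of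
elements of `T` in `[z,z')`; then `z' - z ≤ c + 2`, so `[z,z')` has at most two integers outside `T`
and contains `[z,z+g)` (`g ≤ c ≤ z' - z`). So
`ind (¬ SP g T) ≤ ∑_{z ∈ Ioc a b, z + g ≤ b} ind (#([z,z+g) \ T) ≤ 2)
≤ ∑_z 16 ∏_{m ∈ [z,z+g) \ T} (1/4)`, and by `Ex_inter` and `Ex_prod` the expectation of the product
is `∏ (p m + (1 - p m)/4) ≤ 2^(-g)`. -/
def T_SPC : Prop := ∀ (p : ℕ → ℝ) (a b g : ℕ), (∀ m ∈ Ioc a b, 0 ≤ p m ∧ p m ≤ 1 / 4) →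
  Ex p (Ioc a b) (fun T => ind (¬ SP g T)) ≤ ((b : ℝ) - a) * 16 / 2 ^ g ∨ b < a

/-- DEN (density of the model). Proof: for `m0` large, `(W/φ(W))/log m ≤ 1` for all `m ≥ m0`. The
number of `m ∈ (a,b]` prime to `W` is at least `φ(W) ⌊(b-a)/W⌋` and at most
`φ(W) (⌊(b-a)/W⌋ + 1)` (`Nat.filter_coprime_Ico_eq_totient`, `Nat.Ico_filter_coprime_le`), and
`(W/φ(W))/log b ≤ pr W m ≤ (W/φ(W))/log a` for them. -/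
def T_DEN : Prop := ∀ W : ℕ, 1 ≤ W → ∃ m0 : ℕ, 3 ≤ m0 ∧ ∀ a b : ℕ, m0 ≤ a → a ≤ b →
  ((b : ℝ) - a - W) / Real.log b ≤ ∑ m ∈ Ioc a b, pr W m ∧
  ∑ m ∈ Ioc a b, pr W m ≤ ((b : ℝ) - a + W) / Real.log a

/-- THIN. Proof: pigeonhole. With `J = ⌈20 log (2n)⌉`, `g = ⌈10 log n⌉` map `v` to
`(i, (v - 2^i) J / 2^i, v % g)`, `i = Nat.log 2 v`; there are at most
`(log₂ (2n) + 1) J g ≤ C (log n)^3` values, so some fibre `V'` has at least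
`n^(1/6)/(C (log n)^3) ≥ n^(1/7)` elements. Put `x = min V'`: every `v ∈ V'` is
`≤ x + 2^i/J + 1 ≤ x + x/(20 log (2n)) + 1 ≤ x + x/(10 log (2n))` (`x ≥ 2^i`, `x ≥ √n`), and two
different elements are congruent modulo `g`. -/
def T_THIN : Prop := ∃ n0 : ℕ, ∀ n : ℕ, n0 ≤ n → ∀ V : Finset ℕ, (n : ℝ) ^ (1 / 6 : ℝ) ≤ V.card →
  (∀ v ∈ V, (n : ℝ) ^ (1 / 2 : ℝ) ≤ v ∧ v ≤ 2 * n) →
  ∃ x : ℕ, ∃ V' : Finset ℕ, V' ⊆ V ∧ (n : ℝ) ^ (1 / 7 : ℝ) ≤ V'.card ∧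
    (n : ℝ) ^ (1 / 2 : ℝ) ≤ x ∧ x ≤ 2 * n ∧
    (∀ v ∈ V', x ≤ v ∧ (v : ℝ) ≤ x + x / (10 * Real.log (2 * n))) ∧
    (∀ v ∈ V', ∀ v' ∈ V', v < v' → v + ⌈10 * Real.log n⌉₊ ≤ v')

/-- COND (the conditioning argument; from TRI, MRK). Regions: `D = range (c0+1) \ AB`, `AB`,
`C = Ioc c0 M`. Proof: for `T ⊆ range (M+1)` without success, with `#(T ∩ range (c0+1)) < x`,
`#T ≥ x1` and `SP g (T ∩ C)`, let `s = #(T ∩ AB)`, `d = #(T ∩ D) + s < x`, `T_C = T ∩ C`,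
`J = {v - 1 - d : v ∈ V}` (`#J = #V`), `Y = {y ∈ T_C : bel T_C y ∈ J ∧ y ≡ 1 (mod W)}` and, for
`y ∈ Y`, `v(y) = d + bel T_C y + 1 ∈ V`, `t(y) = {v(y), y - v(y) - 1, y - v(y) + 1} ⊆ AB`. As
`bel T y + 1 = v(y)`, no `t(y)` is contained in `T ∩ AB`. For fixed `s`, `T ∩ D`, `T_C` the triples
are pairwise disjoint (by `SP` and the gaps of `V`), so by TRI the expectation over `T ∩ AB` of
`ind (∀ y ∈ Y, ¬ t(y) ⊆ T ∩ AB)` is `≤ (1-ρ)^#Y = ∏_{y ∈ T_C} (if y ∈ Y then 1-ρ else 1)`, and all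
`j ∈ J` are `< #T_C`; by MRK the expectation over `T_C` is `≤ (1 - ρ/(4W))^#V`. Sum over
`s ≤ #AB`. -/
def T_COND : Prop := ∀ (p : ℕ → ℝ) (W c0 M x x1 g : ℕ) (P ρ : ℝ) (V AB : Finset ℕ),
  (∀ m ∈ range (M + 1), 0 ≤ p m ∧ p m ≤ 1) → 1 ≤ W → c0 ≤ M → 0 ≤ ρ → ρ ≤ 1 →
  (∀ m ∈ Ioc c0 M, p m ≤ P) → (∀ m ∈ Ioc c0 M, m ≡ 1 [MOD W] → P ≤ 2 * p m) → 2 * P * W ≤ 1 →
  AB ⊆ range (c0 + 1) →
  (∀ v ∈ V, 1 ≤ v ∧ x ≤ v ∧ v ≤ x1 ∧ v ∈ AB) →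
  (∀ v ∈ V, ∀ v' ∈ V, v < v' → v + g ≤ v') →
  (∀ v ∈ V, ∀ z ∈ Ioc c0 M, v + 2 ≤ z ∧ z - v - 1 ∈ AB ∧ z - v + 1 ∈ AB ∧
    (z ≡ 1 [MOD W] → ρ ≤ p v * (p (z - v - 1) * p (z - v + 1)))) →
  (∀ v ∈ V, ∀ v' ∈ V, ∀ z ∈ Ioc c0 M, v ≠ z - v' - 1 ∧ v ≠ z - v' + 1) →
  Ex p (range (M + 1)) (fun T => ind (∀ v ∈ V, ¬ Succ T v)) ≤
    Ex p (range (c0 + 1)) (fun T => ind (x ≤ T.card)) +
    Ex p (range (M + 1)) (fun T => ind (T.card < x1)) +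
    Ex p (Ioc c0 M) (fun T => ind (¬ SP g T)) +
    (AB.card + 1) * (1 - ρ / (4 * W)) ^ V.card

/-- MAINP (from CHE, SPC, DEN, COND). Proof: `F(N) = ∑_{m ≤ N} pr W m`, `N0` = least `N` with
`x ≤ F(N)`, `y = x/10` (integer part), `c0 = N0 - 3y`, `M = N0 + 5y`,
`AB = Ioc (N0 - 15y) (N0 - 3y) ∪ Icc x (2x)`, `x1 = ⌊x + x/(10 log (2n))⌋`, `g = ⌈10 log n⌉`,
`P = (W/φ(W))/log (N0 - 3y)`, `ρ = 1/(2 log n)^3`. For large `n`: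
* `5x < N0 ≤ n²/2`: `F(5x) ≤ √x + 1 + (5x+W)/log √x < x` and `F(n²/2) ≥ (n²/2 - n - W)/(2 log n)
  ≥ 2n ≥ x` by DEN. So `N0 + 5y ≤ n²`, `N0 ≥ 50 y`, and every `log` of a number in `[√n, n²]` is
  between `(log n)/2` and `2 log n`.
* `F(c0) ≤ x - x^(3/4)`: `F(N0 - 1) < x` and `∑_{(N0-3y, N0-1]} pr ≥ (3y - 1 - W)/(2 log n)
  ≥ x^(3/4)`. So CHE (`t = x^(-1/2)`, `l = x^(3/4)`) gives `Ex (ind (x ≤ #T)) ≤ exp (1 - x^(1/4))`.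
* `F(M) ≥ x + (5y - W)/(2 log n) ≥ x1 + x^(3/4)` and `F(M) ≤ 2x`, so
  `Ex (ind (#T < x1)) ≤ exp (2 - x^(1/4))`.
* SPC: `P ≤ 1/4`, and `(M - c0) 16/2^g ≤ 16 n² n^(-6.9)`.
* the arithmetic hypotheses of COND: for `v ∈ V`, `z ∈ Ioc c0 M`:
  `N0 - 15y < z - v - 1`, `z - v + 1 ≤ N0 - 3y` (`10y ≤ x ≤ v ≤ x + y/2 ≤ 10.5y + 9`), `2x < N0 - 15y`;
  if `z ≡ 1 (mod W)` (and `v ≡ 1`), then `v` and `z - v ± 1 ≡ ±1` are prime to `W` and `pr W m ≥ 1/log m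
  ≥ 1/(2 log n)` for these three numbers; `P ≤ 2 pr W m` for `m ∈ Ioc c0 M`, `m ≡ 1 (mod W)`, as
  `log M ≤ 2 log c0`; `2 P W ≤ 1`.
* `(#AB + 1)(1 - ρ/(4W))^(n^(1/7)) ≤ 40 n exp (- n^(1/7)/(32 W (log n)^3)) ≤ 1/(4n²)`.
The sum of the four terms is `≤ 1/n²`. -/
def T_MAINP : Prop := ∀ W : ℕ, 1 ≤ W → ∃ n0 : ℕ, ∀ n : ℕ, n0 ≤ n → ∀ (x : ℕ) (V : Finset ℕ),
  (n : ℝ) ^ (1 / 2 : ℝ) ≤ x → x ≤ 2 * n → (n : ℝ) ^ (1 / 7 : ℝ) ≤ V.card →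
  (∀ v ∈ V, v ≡ 1 [MOD W] ∧ x ≤ v ∧ (v : ℝ) ≤ x + x / (10 * Real.log (2 * n))) →
  (∀ v ∈ V, ∀ v' ∈ V, v < v' → v + ⌈10 * Real.log n⌉₊ ≤ v') →
  ∃ M : ℕ, Ex (pr W) (range (M + 1)) (fun T => ind (∀ v ∈ V, ¬ Succ T v)) ≤ 1 / (n : ℝ) ^ 2

/-- FIN (hand-in 2; from CAND, THIN, MAINP, BRG): Borel-Cantelli. -/
def T_FIN : Prop := ∀ (W : ℕ), 1 ≤ W → ∀ (Ω : Type) (_ : MeasurableSpace Ω) (μ : Measure Ω)
  (_ : IsProbabilityMeasure μ) (S : ℕ → Set Ω), (∀ m, MeasurableSet (S m)) → iIndepSet S μ →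
  (∀ m, μ (S m) = ENNReal.ofReal (pr W m)) →
  ∀ᵐ ω ∂μ, ∃ n0 : ℕ, ∀ n : ℕ, n0 ≤ n → ∃ k : ℕ, 0 < k ∧ k < n - 2 ∧
    ω ∈ S (qq n k) ∧ ω ∈ S (Nat.nth (fun m => ω ∈ S m) (qq n k - 1) - qq n k - 1) ∧
    ω ∈ S (Nat.nth (fun m => ω ∈ S m) (qq n k - 1) - qq n k + 1)

end CRM
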