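import Pool.Agent.CRM.Targets
import Pool.Agent.Helper2.PackAPC
import Pool.Agent.QTw.MERT

/-!
# Project CRM: a window of primes (WIN)
-/

set_option autoImplicit false

open scoped BigOperators Classical
open Finset MeasureTheory ProbabilityTheory

namespace CRM

/-- the primes `≤ y` -/
noncomputable def WIN_P (y : ℝ) : Finset ℕ := (Finset.Iic ⌊y⌋₊).filter Nat.Prime

theorem WIN_sum (g : ℕ → ℝ) (x y : ℝ) (hx : 0 ≤ x) (hxy : x ≤ y) :
    ∑ p ∈ win x y, g p = ∑ p ∈ WIN_P y, g p - ∑ p ∈ WIN_P x, g p := by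
  have hsub : WIN_P x ⊆ WIN_P y := by
    intro p hp
    unfold WIN_P at *
    rw [Finset.mem_filter, Finset.mem_Iic] at *
    exact ⟨le_trans hp.1 (Nat.floor_le_floor hxy), hp.2⟩
  have he : win x y = WIN_P y \ WIN_P x := by
    ext p
    unfold win WIN_P
    simp only [Finset.mem_filter, Finset.mem_range, Finset.mem_sdiff, Finset.mem_Iic, not_and]
    constructor
    · rintro ⟨h1, h2, h3⟩
      refine ⟨⟨by omega, h2⟩, ?_⟩
      intro h4
      have h5 : ⌊x⌋₊ < p := (Nat.floor_lt hx).mpr h3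
      omega
    · rintro ⟨⟨h1, h2⟩, h3⟩
      refine ⟨by omega, h2, ?_⟩
      by_contra h4
      push Not at h4
      exact h3 (Nat.le_floor h4) h2
  rw [he, ← Finset.sum_sdiff hsub]
  ring

theorem WIN_bounds : ∃ C : ℝ, 0 ≤ C ∧ ∀ y : ℝ, 1 ≤ y →
    Real.log y - C ≤ ∑ p ∈ WIN_P y, Real.log p / p ∧
      ∑ p ∈ WIN_P y, Real.log p / p ≤ Real.log y + C := by
  obtain ⟨C, hC, h⟩ := Pool.Agent.Helper2.PackAP.mertens_lower
  have h2 : 0 ≤ Real.log 2 := Real.log_nonneg (by norm_num)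
  have h4 : 0 ≤ Real.log 4 := Real.log_nonneg (by norm_num)
  refine ⟨C + Real.log 2 + Real.log 4, by linarith, ?_⟩
  intro y hy
  constructor
  · have h1 : 1 ≤ ⌊y⌋₊ := (Nat.one_le_floor_iff y).mpr hy
    have h3 := h ⌊y⌋₊ h1
    have h5 : ∑ p ∈ Pool.Agent.Helper2.PackAP.oddPrimes ⌊y⌋₊, Real.log p / p ≤
        ∑ p ∈ WIN_P y, Real.log p / p := by
      apply Finset.sum_le_sum_of_subset_of_nonneg
      · intro p hp
        unfold Pool.Agent.Helper2.PackAP.oddPrimes at hp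
        unfold WIN_P
        rw [Finset.mem_filter, Finset.mem_Icc] at hp
        rw [Finset.mem_filter, Finset.mem_Iic]
        exact ⟨hp.1.2, hp.2⟩
      · intro p _ _
        have := Real.log_natCast_nonneg p
        positivity
    have h6 : Real.log y - Real.log 2 ≤ Real.log (⌊y⌋₊ : ℝ) := by
      rw [← Real.log_div (by linarith) (by norm_num)]
      apply Real.log_le_log (by linarith)
      have h7 := Nat.lt_floor_add_one y
      have h8 : (1 : ℝ) ≤ (⌊y⌋₊ : ℝ) := by exact_mod_cast h1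
      linarith
    linarith
  · have h3 := Pool.Agent.QTw.MERT_.mertens y hy
    unfold WIN_P
    linarith

theorem WIN_step (C : ℝ) (hC : 0 ≤ C) (hb : ∀ y : ℝ, 1 ≤ y →
    Real.log y - C ≤ ∑ p ∈ WIN_P y, Real.log p / p ∧
      ∑ p ∈ WIN_P y, Real.log p / p ≤ Real.log y + C) (L : ℝ) (hL : 0 < L) (j : ℕ) (hj : 1 ≤ j) :
    1 / (j + 1 : ℝ) - 200 * C / L ≤
      ∑ p ∈ WIN_P (Real.exp (L * ((j + 1 : ℕ) : ℝ) / 100)), 1 / (p : ℝ) -
        ∑ p ∈ WIN_P (Real.exp (L * (j : ℝ) / 100)), 1 / (p : ℝ) := by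
  set x := Real.exp (L * (j : ℝ) / 100) with hx
  set y := Real.exp (L * ((j + 1 : ℕ) : ℝ) / 100) with hy
  have hj0 : (0 : ℝ) ≤ (j : ℝ) := by positivity
  have hx1 : 1 ≤ x := by
    rw [hx]
    apply Real.one_le_exp
    positivity
  have hxy : x ≤ y := by
    rw [hx, hy]
    apply Real.exp_le_exp.mpr
    push_cast
    nlinarith
  have hy1 : 1 ≤ y := le_trans hx1 hxy
  have hlx : Real.log x = L * (j : ℝ) / 100 := by rw [hx, Real.log_exp]
  have hly : Real.log y = L * ((j : ℝ) + 1) / 100 := by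
    rw [hy, Real.log_exp]
    push_cast
    ring
  have hly0 : 0 < Real.log y := by
    rw [hly]
    positivity
  rw [← WIN_sum _ x y (by linarith) hxy]
  have h1 := WIN_sum (fun p => Real.log p / p) x y (by linarith) hxy
  have h2 : ∑ p ∈ win x y, Real.log p / p ≤ Real.log y * ∑ p ∈ win x y, 1 / (p : ℝ) := by
    rw [Finset.mul_sum]
    apply Finset.sum_le_sum
    intro p hp
    unfold win at hp
    rw [Finset.mem_filter, Finset.mem_range] at hp
    have hp1 : (0 : ℝ) < p := by exact_mod_cast hp.2.1.pos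
    have hp2 : (p : ℝ) ≤ y := by
      have h3 : p ≤ ⌊y⌋₊ := by omega
      exact (Nat.le_floor_iff (by linarith)).mp h3
    have h4 : Real.log p ≤ Real.log y := Real.log_le_log hp1 hp2
    rw [mul_one_div]
    exact div_le_div_of_nonneg_right h4 hp1.le
  have h3 := (hb y hy1).1
  have h4 := (hb x hx1).2
  have h5 : L / 100 - 2 * C ≤ Real.log y * ∑ p ∈ win x y, 1 / (p : ℝ) := by
    have h6 : L / 100 - 2 * C = (Real.log y - C) - (Real.log x + C) := by
      rw [hly, hlx]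
      ring
    rw [h6]
    calc _ ≤ ∑ p ∈ WIN_P y, Real.log p / p - ∑ p ∈ WIN_P x, Real.log p / p := by linarith
      _ = ∑ p ∈ win x y, Real.log p / p := h1.symm
      _ ≤ _ := h2
  have h6 : (L / 100 - 2 * C) / Real.log y ≤ ∑ p ∈ win x y, 1 / (p : ℝ) := by
    rw [div_le_iff₀ hly0]
    linarith
  refine le_trans ?_ h6
  rw [hly]
  have hj1 : (0 : ℝ) < (j : ℝ) + 1 := by positivity
  have h7 : (L / 100 - 2 * C) / (L * ((j : ℝ) + 1) / 100) =
      1 / ((j : ℝ) + 1) - 200 * C / (L * ((j : ℝ) + 1)) := by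
    field_simp
    ring
  rw [h7]
  have h8 : 200 * C / (L * ((j : ℝ) + 1)) ≤ 200 * C / L := by
    apply div_le_div_of_nonneg_left (by positivity) hL
    nlinarith
  linarith

theorem p_WIN : T_WIN := by
  obtain ⟨C, hC, hb⟩ := WIN_bounds
  obtain ⟨n0, hn0⟩ := exists_nat_gt (Real.exp (200 * 40 * C * 1000 + 1))
  refine ⟨n0, ?_⟩
  intro n hn
  have hn1 : Real.exp (200 * 40 * C * 1000 + 1) < (n : ℝ) := by
    have : (n0 : ℝ) ≤ (n : ℝ) := by exact_mod_cast hn
    linarith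
  have hnpos : (0 : ℝ) < (n : ℝ) := lt_trans (Real.exp_pos _) hn1
  set L := Real.log (n : ℝ) with hLdef
  have hL : 200 * 40 * C * 1000 + 1 < L := by
    rw [hLdef]
    exact (Real.lt_log_iff_exp_lt hnpos).mpr hn1
  have hL0 : 0 < L := by
    have : 0 ≤ 200 * 40 * C * 1000 := by positivity
    linarith
  have hpow : ∀ u : ℝ, (n : ℝ) ^ u = Real.exp (L * u) := by
    intro u
    rw [Real.rpow_def_of_pos hnpos]
  have e1 : (n : ℝ) ^ (0.59 : ℝ) = Real.exp (L * ((59 : ℕ) : ℝ) / 100) := by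
    rw [hpow]
    congr 1
    norm_num
    ring
  have e2 : (n : ℝ) ^ (0.99 : ℝ) = Real.exp (L * ((99 : ℕ) : ℝ) / 100) := by
    rw [hpow]
    congr 1
    norm_num
    ring
  rw [e1, e2, WIN_sum _ _ _ (Real.exp_pos _).le (by
    apply Real.exp_le_exp.mpr
    push_cast
    nlinarith)]
  have h1 := Finset.sum_range_sub (fun i : ℕ =>
    ∑ p ∈ WIN_P (Real.exp (L * ((59 + i : ℕ) : ℝ) / 100)), 1 / (p : ℝ)) 40
  simp only [add_zero] at h1
  have h2 : ∑ i ∈ Finset.range 40, (1 / ((59 + i : ℕ) + 1 : ℝ) - 200 * C / L) ≤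
      ∑ i ∈ Finset.range 40,
        (∑ p ∈ WIN_P (Real.exp (L * ((59 + (i + 1) : ℕ) : ℝ) / 100)), 1 / (p : ℝ) -
          ∑ p ∈ WIN_P (Real.exp (L * ((59 + i : ℕ) : ℝ) / 100)), 1 / (p : ℝ)) := by
    apply Finset.sum_le_sum
    intro i _
    exact WIN_step C hC hb L hL0 (59 + i) (by omega)
  rw [h1] at h2
  refine le_trans ?_ h2
  rw [Finset.sum_sub_distrib]
  have h3 : (0.511 : ℝ) ≤ ∑ i ∈ Finset.range 40, (1 / ((59 + i : ℕ) + 1 : ℝ)) := by
    simp only [Finset.sum_range_succ, Finset.sum_range_zero]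
    norm_num
  have h4 : ∑ _i ∈ Finset.range 40, (200 * C / L) = 40 * (200 * C / L) := by
    simp
  rw [h4]
  have h5 : 40 * (200 * C / L) ≤ 0.001 := by
    have : 40 * (200 * C / L) = (200 * 40 * C) / L := by ring
    rw [this, div_le_iff₀ hL0]
    linarith
  linarith

end CRM
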